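import Pool.Agent.T1B.Transfer

/-!
# The group of the unramified invariant elements of the Tate module of the Brauer group
-/

set_option autoImplicit false

namespace Pool.Agent.TUQ

universe u

open Pool.Agent.T1B

section

variable (k F Ω : Type u) [Field k] [Field F] [Field Ω] [Algebra k Ω] [Algebra F Ω]

theorem LC2.mul' {c c' : (Ω ≃ₐ[F] Ω) → (Ω ≃ₐ[F] Ω) → Ωˣ} (hc : LC2 c) (hc' : LC2 c') :
    LC2 (c * c') := by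
  obtain ⟨E, hE, h⟩ := hc
  obtain ⟨E', hE', h'⟩ := hc'
  refine ⟨E ⊔ E', IntermediateField.finiteDimensional_sup E E', fun σ σ' τ τ' h1 h2 => ?_⟩
  show c σ τ * c' σ τ = c σ' τ' * c' σ' τ'
  rw [h σ σ' τ τ' (fun x hx => h1 x ((le_sup_left : E ≤ E ⊔ E') hx))
      (fun x hx => h2 x ((le_sup_left : E ≤ E ⊔ E') hx)),
    h' σ σ' τ τ' (fun x hx => h1 x ((le_sup_right : E' ≤ E ⊔ E') hx))
      (fun x hx => h2 x ((le_sup_right : E' ≤ E ⊔ E') hx))]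

theorem LC2.inv' {c : (Ω ≃ₐ[F] Ω) → (Ω ≃ₐ[F] Ω) → Ωˣ} (hc : LC2 c) : LC2 c⁻¹ := by
  obtain ⟨E, hE, h⟩ := hc
  exact ⟨E, hE, fun σ σ' τ τ' h1 h2 => by
    show (c σ τ)⁻¹ = (c σ' τ')⁻¹
    rw [h σ σ' τ τ' h1 h2]⟩

theorem LC2.one' : LC2 (1 : (Ω ≃ₐ[F] Ω) → (Ω ≃ₐ[F] Ω) → Ωˣ) :=
  ⟨⊥, inferInstance, fun _ _ _ _ _ _ => rfl⟩

variable {F Ω}

theorem Coc.mul' {N : Subgroup (Ω ≃ₐ[F] Ω)} {c c' : (Ω ≃ₐ[F] Ω) → (Ω ≃ₐ[F] Ω) → Ωˣ}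
    (hc : T1B.Coc N c) (hc' : T1B.Coc N c') : T1B.Coc N (c * c') := by
  intro σ hσ τ hτ ρ hρ
  show c σ τ * c' σ τ * (c (σ * τ) ρ * c' (σ * τ) ρ) =
    σ • (c τ ρ * c' τ ρ) * (c σ (τ * ρ) * c' σ (τ * ρ))
  rw [smul_mul', mul_mul_mul_comm, hc σ hσ τ hτ ρ hρ, hc' σ hσ τ hτ ρ hρ, mul_mul_mul_comm]

theorem Coc.inv' {N : Subgroup (Ω ≃ₐ[F] Ω)} {c : (Ω ≃ₐ[F] Ω) → (Ω ≃ₐ[F] Ω) → Ωˣ}
    (hc : T1B.Coc N c) : T1B.Coc N c⁻¹ := by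
  intro σ hσ τ hτ ρ hρ
  show (c σ τ)⁻¹ * (c (σ * τ) ρ)⁻¹ = σ • (c τ ρ)⁻¹ * (c σ (τ * ρ))⁻¹
  rw [smul_inv', ← mul_inv, ← mul_inv, hc σ hσ τ hτ ρ hρ]

theorem Triv.one' (D : Subgroup (Ω ≃ₐ[F] Ω)) :
    Triv D (1 : (Ω ≃ₐ[F] Ω) → (Ω ≃ₐ[F] Ω) → Ωˣ) :=
  ⟨fun _ => 1, LC1.one, fun σ _ τ _ => by
    show (1 : Ωˣ) * 1 = 1 * σ • (1 : Ωˣ)
    rw [smul_one]⟩

theorem Triv.inv' {D : Subgroup (Ω ≃ₐ[F] Ω)} {c : (Ω ≃ₐ[F] Ω) → (Ω ≃ₐ[F] Ω) → Ωˣ}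
    (hc : Triv D c) : Triv D c⁻¹ := by
  refine (hc.pow (-1)).congr fun σ _ τ _ => ?_
  show c σ τ ^ (-1 : ℤ) = (c σ τ)⁻¹
  rw [zpow_neg_one]

variable (F Ω)

/-- the systems `c 0, c 1, ...` which represent unramified invariant elements of
`T_ℓ Br(F k^s)` -/
def sysG (ℓ : ℕ) : Subgroup (ℕ → (Ω ≃ₐ[F] Ω) → (Ω ≃ₐ[F] Ω) → Ωˣ) where
  carrier := {c | Sys k ℓ c}
  mul_mem' {c c'} (hc : Sys k ℓ c) (hc' : Sys k ℓ c') := show Sys k ℓ (c * c') from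
    { lc := fun n => LC2.mul' F Ω (hc.lc n) (hc'.lc n)
      coc := fun n => Coc.mul' (hc.coc n) (hc'.coc n)
      zero := hc.zero.mul hc'.zero
      step := fun n => ((hc.step n).mul (hc'.step n)).congr fun σ _ τ _ => by
        show c (n + 1) σ τ ^ ℓ * (c n σ τ)⁻¹ * (c' (n + 1) σ τ ^ ℓ * (c' n σ τ)⁻¹) =
          (c (n + 1) σ τ * c' (n + 1) σ τ) ^ ℓ * (c n σ τ * c' n σ τ)⁻¹
        rw [mul_pow, mul_inv, mul_mul_mul_comm]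
      inv := fun n g => ((hc.inv n g).mul (hc'.inv n g)).congr fun σ _ τ _ => by
        show g • c n (g⁻¹ * σ * g) (g⁻¹ * τ * g) * (c n σ τ)⁻¹ *
            (g • c' n (g⁻¹ * σ * g) (g⁻¹ * τ * g) * (c' n σ τ)⁻¹) =
          g • (c n (g⁻¹ * σ * g) (g⁻¹ * τ * g) * c' n (g⁻¹ * σ * g) (g⁻¹ * τ * g)) *
            (c n σ τ * c' n σ τ)⁻¹
        rw [smul_mul', mul_inv, mul_mul_mul_comm]
      unr := fun n V hV hV' => (hc.unr n V hV hV').mul (hc'.unr n V hV hV') }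
  one_mem' := show Sys k ℓ 1 from
    { lc := fun n => LC2.one' F Ω
      coc := fun n σ _ τ _ ρ _ => by
        show (1 : Ωˣ) * 1 = σ • (1 : Ωˣ) * 1
        rw [smul_one]
      zero := Triv.one' _
      step := fun n => (Triv.one' _).congr fun σ _ τ _ => by
        show (1 : Ωˣ) = 1 ^ ℓ * 1⁻¹
        rw [one_pow, inv_one, mul_one]
      inv := fun n g => (Triv.one' _).congr fun σ _ τ _ => by
        show (1 : Ωˣ) = g • (1 : Ωˣ) * 1⁻¹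
        rw [smul_one, inv_one, mul_one]
      unr := fun n V hV hV' => Triv.one' _ }
  inv_mem' {c} (hc : Sys k ℓ c) := show Sys k ℓ c⁻¹ from
    { lc := fun n => LC2.inv' F Ω (hc.lc n)
      coc := fun n => Coc.inv' (hc.coc n)
      zero := Triv.inv' hc.zero
      step := fun n => (Triv.inv' (hc.step n)).congr fun σ _ τ _ => by
        show (c (n + 1) σ τ ^ ℓ * (c n σ τ)⁻¹)⁻¹ = (c (n + 1) σ τ)⁻¹ ^ ℓ * ((c n σ τ)⁻¹)⁻¹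
        rw [mul_inv, inv_pow]
      inv := fun n g => (Triv.inv' (hc.inv n g)).congr fun σ _ τ _ => by
        show (g • c n (g⁻¹ * σ * g) (g⁻¹ * τ * g) * (c n σ τ)⁻¹)⁻¹ =
          g • (c n (g⁻¹ * σ * g) (g⁻¹ * τ * g))⁻¹ * ((c n σ τ)⁻¹)⁻¹
        rw [mul_inv, smul_inv']
      unr := fun n V hV hV' => Triv.inv' (hc.unr n V hV hV') }

/-- the trivial systems -/
def triG : Subgroup (ℕ → (Ω ≃ₐ[F] Ω) → (Ω ≃ₐ[F] Ω) → Ωˣ) where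
  carrier := {c | ∀ n, Triv (geo k F Ω) (c n)}
  mul_mem' {c c'} hc hc' n := (hc n).mul (hc' n)
  one_mem' _ := Triv.one' _
  inv_mem' {c} hc n := Triv.inv' (hc n)

/-- The group of the unramified elements of `T_ℓ Br(F k^s)` which are invariant under the absolute
Galois group of `F`; `Ω` is an algebraic closure of `F`. -/
abbrev Vl (ℓ : ℕ) : Type u := sysG k F Ω ℓ ⧸ (triG k F Ω).subgroupOf (sysG k F Ω ℓ)

end

end Pool.Agent.TUQ
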