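import Pool.Agent.TUQ.Defs
import Pool.Agent.NOC.Fam

/-!
# Families of embeddings
-/

set_option autoImplicit false

namespace Pool.Agent.TUQ

open Pool.Agent.TBR

universe u

/-- the statement `InvSt` of `TUQ/F4.lean` -/
theorem invSt_aux (k M : Type u) [Field k] [Field M] [Algebra k M] :
  ∀ (_ : IsAlgClosed M) (K L : IntermediateField k M) (_ : K.FG) (_ : L.FG)
    (_ : ∀ x : M, IsAlgebraic K x) (_ : ∀ x : M, IsAlgebraic L x) (ι : Type) (_ : Fintype ι)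
    (ψ : ι → (M ≃ₐ[k] M)) (e : ι → ℤ)
    (_ : ∀ g ∈ Fx k (L : Set M), ∃ π : Equiv.Perm ι, ∀ i, e (π i) = e i ∧
      ∀ x ∈ K, g (ψ i x) = ψ (π i) x),
    ∃ (m : ℕ) (S : Finset M), 0 < m ∧ ∀ ℓ : ℕ, ∃ f : Vl k K M ℓ →* Vl k L M ℓ,
      ∀ (c : sysG k K M ℓ) (C : ℕ → (M ≃ₐ[k] M) → (M ≃ₐ[k] M) → Mˣ), SysU (K : Set M) ℓ C →
        (∀ n σ τ, C n (rsh K σ) (rsh K τ) =
          (c : ℕ → (M ≃ₐ[K] M) → (M ≃ₐ[K] M) → Mˣ) n σ τ) →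
        f (QuotientGroup.mk c) = 1 →
          ∀ n, Tri (Ge k (S : Set M)) (fun σ τ => (∏ i, tw (ψ i) (C n) σ τ ^ e i) ^ m) :=
  fun _ K L hKfg hLfg hK hL _ _ ψ e h => NOC.inv_fam K L hKfg hLfg hK hL ψ e h

end Pool.Agent.TUQ
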