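import Pool.Agent.TUQ.G17

/-!
# The places which do not contain `H`
-/

set_option autoImplicit false

namespace Pool.Agent.TUQ

open Polynomial Pool.Agent.TBR Cardinal

universe u

section

variable {k Ω : Type u} [Field k] [Field Ω] [Algebra k Ω]
variable {A H : IntermediateField k Ω} {K₀ : IntermediateField k A} {z : A}
  {w U t a : Ω} {N : ℕ} {B₁ B₂ : k[X]} {V : ValuationSubring Ω} {r : V →+* Ω}
variable [IsAlgClosed Ω] [IsAlgClosed A] [IsAlgClosed H]
variable {A₁ A₂ : H[X]} {c : Ω} {Φ : k[X][X]} {m : ℕ} {T : Fin m → Ω}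
  {s : Fin m → (Ω ≃ₐ[k] Ω)} {ξ : Fin m → (A →ₐ[k] Ω)} {f : Polynomial Ω}

/-- (6.5) the roots of `f` in a disc have the same distance to `t` -/
theorem disc_dist (hP : Plc A V r) (hd : GD A H K₀ z N B₁ B₂ a w U t A₁ A₂ c Φ T s ξ f) {u : Ω}
    {P Q : H[X]} {y c' : Ω} {ϖ : H} {hY : y / ϖ ∈ V}
    (hD : DgD hP H N B₁ B₂ a U t u A₁ A₂ P Q y c' ϖ hY)
    {α π : H} (hπ : π ≠ 0) (i j : Fin m) (hGi : Gen hP.res hP.mem H α π (T i))
    (hGj : Gen hP.res hP.mem H α π (T j)) :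
    V.valuation (T i - t) = V.valuation (T j - t) := by
  have hπ' : (π : Ω) ≠ 0 := by simpa using hπ
  by_cases ht : (t - α) / π ∈ V
  · have key : ∀ i, Gen hP.res hP.mem H α π (T i) →
        V.valuation (T i - t) = V.valuation (π : Ω) := by
      intro i hG
      obtain ⟨hx, hx1⟩ := hG
      refine dist_eq hP.res hP.mem α π (T i) t hπ' hx ht fun heq => ?_
      have hGt : Gen hP.res hP.mem H α π t := ⟨ht, by rw [← heq]; exact hx1⟩
      have hA₂ : aeval (T i) A₂ ≠ 0 := aeval_ne_zero H _ (hd.TH i) A₂ hd.A₂0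
      refine hD.sep α π hπ (T i) (s i a) ⟨hx, hx1⟩ hGt ?_ hA₂ ?_ (hd.sa i) (hd.seq i)
      · rw [rT_of α π hx, rT_of α π ht, heq]
      · rw [hd.sa_eq (hd.sH i) (hd.st i), div_mul_cancel₀ _ hA₂]
    rw [key i hGi, key j hGj]
  · obtain ⟨hx, -⟩ := hGi
    obtain ⟨hy, -⟩ := hGj
    rw [dist_eq' V α π (T i) t hπ' hx ht, dist_eq' V α π (T j) t hπ' hy ht]

/-- algebraicity in the subfield `A` -/
theorem alg_down (E : IntermediateField k A) (x : A) (h : IsAlgebraic (E.map A.val) (x : Ω)) :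
    IsAlgebraic E x := by
  obtain ⟨p, hp0, hp⟩ := h
  let e : E.map A.val ≃ₐ[k] E := (E.equivMap A.val).symm
  have he : ∀ y : E.map A.val, ((e y : A) : Ω) = y := by
    intro y
    have h1 := (E.equivMap A.val).apply_symm_apply y
    have h2 := congrArg (fun y : E.map A.val => (y : Ω)) h1
    exact h2
  refine ⟨p.map (e : E.map A.val →+* E), (Polynomial.map_ne_zero_iff e.injective).2 hp0, ?_⟩
  apply (algebraMap A Ω).injective
  rw [map_zero, aeval_def, hom_eval₂, eval₂_map]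
  rw [aeval_def] at hp
  have h3 : ((algebraMap A Ω).comp (algebraMap E A)).comp (e : E.map A.val →+* E) =
      algebraMap (E.map A.val) Ω := by
    ext y
    exact he y
  rw [h3]
  exact hp

theorem locSt_of_notMem (hc : Cfg A H K₀ z N B₁ B₂ a w U t) (hNU : NU (KK K₀ z)) (hP : Plc A V r)
    (hd : GD A H K₀ z N B₁ B₂ a w U t A₁ A₂ c Φ T s ξ f) (hH : ∃ β ∈ H, β ∉ V) :
    LocSt A K₀ z N B₁ B₂ ξ (fun i => T i - t) V r := by
  classical
  by_cases hex : ∃ i, ∀ x, ξ i x ∈ V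
  swap
  · left
    intro i hi
    exact absurd ⟨i, hi⟩ hex
  right
  obtain ⟨i₀, hi₀⟩ := hex
  obtain ⟨ϖ', hϖH, -, hϖv⟩ := exists_pi A hc.trA V hP.mem H hH U hc.U0
  set ϖU : H := ⟨ϖ', hϖH⟩ with hϖUd
  have hϖU : V.valuation (ϖU : Ω) = V.valuation U := hϖv.symm
  obtain ⟨S, p, q, hg⟩ := exists_gens hc.fg hc.tH hc.K₀t hc.wt hc.w0
  have hdisc : ∀ i, (∀ x, ξ i x ∈ V) → ∃ α π : H, π ≠ 0 ∧ Gen hP.res hP.mem H α π (T i) :=
    fun i hi => exists_disc hc hNU hP hH (hd.pnt i) hi (hd.TH i)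
  -- choose the discs
  have hdisc' : ∀ i, ∃ α π : H, π ≠ 0 ∧ ((∀ x, ξ i x ∈ V) → Gen hP.res hP.mem H α π (T i)) := by
    intro i
    by_cases hi : ∀ x, ξ i x ∈ V
    · obtain ⟨α, π, h1, h2⟩ := hdisc i hi
      exact ⟨α, π, h1, fun _ => h2⟩
    · exact ⟨0, 1, one_ne_zero, fun h => absurd h hi⟩
  choose α π hπ hGen using hdisc'
  have hu := u0_notMem hc hNU hP hH hg hϖU (hπ i₀) (hd.pnt i₀) (hGen i₀ hi₀) hi₀
  obtain ⟨P, Q, y, c', ϖ, hY, hD⟩ := exists_dg hc hNU hP hH hϖU hu hd.A₂0 hd.A₂t hd.aeq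
  set u₀ : A := ⟨r ⟨_, uS_mem hϖU hc.U0 S none⟩, hP.res.mem _⟩ with hu₀
  set η : A := ⟨r ⟨_, hY⟩, hP.res.mem _⟩ with hη
  obtain ⟨d, hdk, hd0, hdalg⟩ := hD.rel
  have hdA : d ∈ A := kap_le _ _ _ hdk
  -- the constants
  have hex2 : ∀ i, ∃ D : Finset A, (∀ x ∈ D, x ∈ kA hP.res hP.mem H) ∧
      ((∀ x, ξ i x ∈ V) → ∀ σ : A ≃ₐ[k] A,
      (∀ x ∈ D, σ x = x) → (∀ x, σ x ∈ kA hP.res hP.mem H ↔ x ∈ kA hP.res hP.mem H) →
      σ u₀ = u₀ → σ η = η →
      (((f.roots.filter (Gen hP.res hP.mem H (α i) (π i))).map (eT H K₀ z w U t r)).map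
          fun ξ => (σ : A →ₐ[k] A).comp ξ) =
      (f.roots.filter (Gen hP.res hP.mem H (α i) (π i))).map (eT H K₀ z w U t r)) := by
    intro i
    by_cases hi : ∀ x, ξ i x ∈ V
    · obtain ⟨D, h1, h2⟩ := disc_f hc hP hd hg hϖU hu hD (hπ i) (hd.pnt i) (hGen i hi) hi
      exact ⟨D, h1, fun _ => h2⟩
    · exact ⟨∅, by simp, fun h => absurd h hi⟩
  choose D hDk hDσ using hex2
  have hκ := kA_closed hP.res hP.mem H
  have hκ1 := kA_trdeg hP.res hP.mem H hH hc.tdH
  obtain ⟨Cκ, hCκ, hCσ⟩ := exists_fix (kA hP.res hP.mem H) hκ1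
  have hϖN : V.valuation ((ϖU ^ N : H) : Ω) = V.valuation (U ^ N) := by
    have h1 : ((ϖU ^ N : H) : Ω) = (ϖU : Ω) ^ N := map_pow (algebraMap H Ω) _ _
    rw [h1, map_pow, map_pow, hϖU]
  obtain ⟨Ca, hCa, hCalg⟩ := eq_alg hc hP hg hϖU (hπ i₀) (hd.pnt i₀) (hGen i₀ hi₀) hi₀
    (PH B₁ B₂ B₁ A₁ A₂) (PH B₁ B₂ B₂ A₁ A₂) (PH_ne hc hd (le_max_left _ _) hc.bc.ne.1)
    (PH_ne hc hd (le_max_right _ _) hc.bc.ne.2) (U ^ N) (ϖU ^ N) hϖN (full_mem hϖU hc.U0 N)
    (full_notMem hP hϖU hc.U0 hc.Npos hu) (hd.root i₀)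
  set C₁ : Finset A := Finset.univ.biUnion D ∪ Cκ ∪ Ca ∪ {⟨d, hdA⟩} with hC₁
  set C₂ : Finset A := {η, u₀ / ⟨d, hdA⟩} with hC₂
  have hC₁k : (C₁ : Set A) ⊆ kA hP.res hP.mem H := by
    intro x hx
    simp only [hC₁, Finset.coe_union, Set.mem_union, Finset.mem_coe, Finset.mem_biUnion,
      Finset.mem_univ, true_and, Finset.mem_singleton] at hx
    rcases hx with ((⟨i, hx⟩ | hx) | hx) | hx
    · exact hDk i x hx
    · exact hCκ hx
    · exact hCa x hx
    · rw [hx]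
      exact (mem_kA hP.res hP.mem H _).mpr hdk
  obtain ⟨hF₁, ht₁⟩ := trdeg_adjoin_of_subset (kA hP.res hP.mem H) hκ1 C₁ hC₁k
  have hC₂a : ∀ x ∈ C₂, IsAlgebraic (IntermediateField.adjoin k {η}) x := by
    intro x hx
    rw [hC₂, Finset.mem_insert, Finset.mem_singleton] at hx
    rcases hx with rfl | rfl
    · exact isAlgebraic_algebraMap
        (⟨η, IntermediateField.mem_adjoin_simple_self k η⟩ : IntermediateField.adjoin k {η})
    · apply alg_down
      have h1 : (IntermediateField.adjoin k {η}).map A.val =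
          IntermediateField.adjoin k {(η : Ω)} := by
        rw [IntermediateField.adjoin_map, Set.image_singleton]
        rfl
      rw [h1]
      exact hdalg
  obtain ⟨hF₂, ht₂⟩ := trdeg_adjoin_of_alg η C₂ hC₂a
  set K₁ := IntermediateField.adjoin k (C₁ : Set A) with hK₁
  set K₂ := IntermediateField.adjoin k (C₂ : Set A) with hK₂
  have hm₁ : ∀ x ∈ C₁, x ∈ K₁ ⊔ K₂ := fun x hx =>
    (le_sup_left (a := K₁)) (IntermediateField.subset_adjoin k _ hx)
  have hm₂ : ∀ x ∈ C₂, x ∈ K₁ ⊔ K₂ := fun x hx =>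
    (le_sup_right (a := K₁)) (IntermediateField.subset_adjoin k _ hx)
  have hdm : (⟨d, hdA⟩ : A) ∈ K₁ ⊔ K₂ := hm₁ _ (by
    rw [hC₁]
    exact Finset.mem_union_right _ (Finset.mem_singleton_self _))
  have hηm : η ∈ K₁ ⊔ K₂ := hm₂ _ (by
    rw [hC₂]
    exact Finset.mem_insert_self _ _)
  have hd0' : (⟨d, hdA⟩ : A) ≠ 0 := fun h => hd0 (congrArg Subtype.val h)
  have hum : u₀ ∈ K₁ ⊔ K₂ := by
    have h1 : u₀ / ⟨d, hdA⟩ ∈ K₁ ⊔ K₂ := hm₂ _ (by
      rw [hC₂]
      exact Finset.mem_insert_of_mem (Finset.mem_singleton_self _))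
    have h2 : u₀ = u₀ / ⟨d, hdA⟩ * ⟨d, hdA⟩ := by
      rw [div_mul_cancel₀ _ hd0']
    rw [h2]
    exact mul_mem h1 hdm
  refine ⟨K₁ ⊔ K₂, Or.inl ⟨K₁, K₂, hF₁, hF₂, ht₁, ht₂, rfl⟩, ?_, ?_⟩
  · refine hCalg _ (fun x hx => hm₁ x (by
      rw [hC₁]
      exact Finset.mem_union_left _ (Finset.mem_union_right _ hx))) hum ?_
    have h3 : (⟨r ⟨_, full_mem hϖU hc.U0 N⟩, hP.res.mem _⟩ : A) = u₀ ^ N :=
      Subtype.ext (full_res hP hϖU hc.U0 N)
    rw [h3]
    exact pow_mem hum N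
  · intro σ hσ
    have hσκ := hCσ σ (fun x hx => hσ x (hm₁ x (by
      rw [hC₁]
      exact Finset.mem_union_left _ (Finset.mem_union_left _ (Finset.mem_union_right _ hx)))))
    have hinv := fun i hi => hDσ i hi σ (fun x hx => hσ x (hm₁ x (by
      rw [hC₁]
      exact Finset.mem_union_left _ (Finset.mem_union_left _ (Finset.mem_union_left _
        (Finset.mem_biUnion.mpr ⟨i, Finset.mem_univ _, hx⟩)))))) hσκ (hσ _ hum) (hσ _ hηm)
    -- the classes
    let I := {i : Fin m // (∀ x, ξ i x ∈ V) ∧ V.valuation (T i - t) ≠ 1}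
    let cls : I → Finset (Fin m) := fun i =>
      Finset.univ.filter fun j => Gen hP.res hP.mem H (α i) (π i) (T j)
    have hself : ∀ i : I, (i : Fin m) ∈ cls i := fun i =>
      Finset.mem_filter.mpr ⟨Finset.mem_univ _, hGen i i.2.1⟩
    have hcls : ∀ i j : I, (j : Fin m) ∈ cls i → cls j = cls i := by
      intro i j hj
      have h1 := (Finset.mem_filter.mp hj).2
      have h2 := hGen j j.2.1
      refine Finset.filter_congr fun l _ => ⟨fun h => ?_, fun h => ?_⟩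
      · exact disc_eq _ _ _ _ (hπ j) (hπ i) (T j) (T l) h2 h1 h
      · exact disc_eq _ _ _ _ (hπ i) (hπ j) (T j) (T l) h1 h2 h
    have hdist : ∀ (i : I) (j : Fin m), j ∈ cls i →
        V.valuation (T j - t) = V.valuation (T i - t) := fun i j hj =>
      disc_dist hP hd hD (hπ i) j i (Finset.mem_filter.mp hj).2 (hGen i i.2.1)
    have hgood : ∀ (i : I) (j : Fin m), j ∈ cls i → ∀ x, ξ j x ∈ V := fun i j hj =>
      good_of_disc hP.res hP.mem hc.al hc.tH hc.K₀t (hπ i) (hd.pnt i) (hd.pnt j) (hGen i i.2.1)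
        (Finset.mem_filter.mp hj).2 i.2.1
    obtain ⟨ρ, hρ⟩ := perm_of_classes cls
      (fun i : I => (σ : A →ₐ[k] A).comp (eT H K₀ z w U t r (T i)))
      (fun i : I => eT H K₀ z w U t r (T i)) (by
        intro cl
        by_cases hcl : ∃ i, cls i = cl
        swap
        · have h0 : (Finset.univ.filter fun j => cls j = cl) = ∅ := by
            rw [Finset.filter_eq_empty_iff]
            exact fun i _ h => hcl ⟨i, h⟩
          rw [h0]
          rfl
        obtain ⟨i, rfl⟩ := hcl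
        have hmap : ((Finset.univ.filter fun j => cls j = cls i).map
            (Function.Embedding.subtype _) : Finset (Fin m)) = cls i := by
          ext j
          simp only [Finset.mem_map, Finset.mem_filter, Finset.mem_univ, true_and,
            Function.Embedding.subtype_apply]
          constructor
          · rintro ⟨j', h1, rfl⟩
            rw [← h1]
            exact hself j'
          · intro hj
            refine ⟨⟨j, hgood i j hj, ?_⟩, ?_, rfl⟩
            · rw [hdist i j hj]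
              exact i.2.2
            · exact hcls i _ hj
        have hval : ∀ g : Fin m → (KK K₀ z →ₐ[k] A),
            (Finset.univ.filter fun j => cls j = cls i).val.map (fun j : I => g j) =
              (cls i).val.map g := by
          intro g
          have h1 := congrArg Finset.val hmap
          rw [Finset.map_val] at h1
          rw [← h1, Multiset.map_map]
          rfl
        have hroots : (cls i).val.map (fun j => eT H K₀ z w U t r (T j)) =
            (f.roots.filter (Gen hP.res hP.mem H (α i) (π i))).map (eT H K₀ z w U t r) := by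
          rw [hd.roots, Multiset.filter_map, Multiset.map_map]
          rfl
        have h1 := hinv i i.2.1
        rw [← hroots, Multiset.map_map] at h1
        rw [hval (fun j => (σ : A →ₐ[k] A).comp (eT H K₀ z w U t r (T j))),
          hval (fun j => eT H K₀ z w U t r (T j))]
        exact h1)
    refine ⟨ρ, fun i => ⟨?_, ?_⟩⟩
    · have h1 : ((ρ i : I) : Fin m) ∈ cls i := by
        rw [← (hρ i).1]
        exact hself _
      exact hdist i _ h1
    · intro ψ ψ' hψ hψ' x hx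
      have e1 := eT_spec hP.res hc.K₀t hc.wt (hd.pnt i) i.2.1 ⟨x, hx⟩
      have e2 := eT_spec hP.res hc.K₀t hc.wt (hd.pnt (ρ i)) (ρ i).2.1 ⟨x, hx⟩
      obtain ⟨h1, h2⟩ := e1
      obtain ⟨h3, h4⟩ := e2
      have h5 : ψ x = eT H K₀ z w U t r (T i) ⟨x, hx⟩ :=
        Subtype.ext ((hψ.eq x h1).symm.trans h2)
      have h6 : ψ' x = eT H K₀ z w U t r (T (ρ i)) ⟨x, hx⟩ :=
        Subtype.ext ((hψ'.eq x h3).symm.trans h4)
      rw [h5, h6, (hρ i).2]
      rfl

end

end Pool.Agent.TUQ
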