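import Pool.Agent.TUQ.S5e
import Pool.Agent.TUQ.S6

/-!
# The assembly of block G
-/

set_option autoImplicit false

namespace Pool.Agent.TUQ

open Polynomial Pool.Agent.TBR

universe u

theorem blockG (k Ω : Type u) [Field k] [Field Ω] [Algebra k Ω] : BlockG k Ω := by
  intro hΩ A H hA hH K₀ z N B₁ B₂ a w U t hc hNU
  obtain ⟨t', hc', hCP⟩ := hc.exists_coord
  obtain ⟨A₁, A₂, c, Φ, m, T, s, ξ, f, hG⟩ := hc'.exists_GD hNU
  refine ⟨m, ξ, fun i => T i - t', fun i => sub_ne_zero.2 (hG.Tt i), fun V r hP => ?_,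
    hG.exists_pos hc' hNU hCP⟩
  by_cases hV : ∀ x ∈ H, x ∈ V
  · exact hG.locSt_of_le hc' hNU hCP hP hV
  · push Not at hV
    exact locSt_of_notMem hc' hNU hP hG hV

end Pool.Agent.TUQ
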