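import Pool.Agent.TUQ.F9
import Pool.Agent.TUQ.Inv
import Pool.Agent.TUQ.S7

/-!
# The theorem with the blocks G and INV inserted
-/

set_option autoImplicit false

namespace Pool.Agent.TUQ

open Polynomial Pool.Agent.TBR Pool.Agent.UQ

universe u

theorem invSt (k M : Type u) [Field k] [Field M] [Algebra k M] : InvSt k M := invSt_aux k M

theorem final2 {k M : Type u} [Field k] [Field M] [Algebra k M] [IsAlgClosed M]
    (hR : ∀ (Ω : Type u) [Field Ω] [Algebra k Ω], BlockR k Ω)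
    (K₀ : IntermediateField k M) (hfg : K₀.FG) (htd : Algebra.trdeg k M = 2)
    (hal : ∀ x : M, IsAlgebraic K₀ x) (N : ℕ) (B₁ B₂ : k[X]) (hb : Bc k M N B₁ B₂)
    (z : M) (z0 : z ≠ 0) (zN : z ^ N ∈ K₀)
    (irr : Irreducible (X ^ N - C (⟨z ^ N, zN⟩ : K₀)))
    (L : Type u) [Field L] [Algebra k L] [Algebra K₀ L] [IsScalarTower k K₀ L] (a w : L)
    (ha : Transcendental K₀ a)
    (hw : w ^ N * aeval a B₁ = algebraMap K₀ L ⟨z ^ N, zN⟩ * aeval a B₂)
    (hgen : IntermediateField.adjoin K₀ {a, w} = ⊤) (hL : Uniruled k L) :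
    ∃ (n : ℕ) (L' : Fin n → IntermediateField k M),
      (∀ j, Good K₀ z N B₁ B₂ (L' j) ∧ ∀ x : M, IsAlgebraic (L' j) x) ∧
      ∀ ℓ : ℕ, ℓ.Prime → (ℓ : k) ≠ 0 →
        ∃ f : Vl k (K₀ ⊔ IntermediateField.adjoin k {z} : IntermediateField k M) M ℓ →*
          (∀ j, Vl k (L' j) M ℓ), Function.Injective f :=
  final hR (fun Ω _ _ => blockG k Ω) (fun A _ _ => invSt k A) K₀ hfg htd hal N B₁ B₂ hb z z0 zN
    irr L a w ha hw hgen hL

end Pool.Agent.TUQ
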