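import Pool.Agent.URR.Defs

/-!
# Uniruled quotients and the Tate conjecture: extension of automorphisms
-/

set_option autoImplicit false

namespace Pool.Agent.TUQ

open Pool.Agent.TBR

universe u

section

variable {D L M : Type u} [Field D] [Field L] [Field M] [IsAlgClosed L] [IsAlgClosed M]

theorem r8_exists_ringEquiv (f : D →+* L) (g : D →+* M)
    (hf : ∀ x : L, ∃ p : Polynomial D, p ≠ 0 ∧ p.eval₂ f x = 0)
    (hg : ∀ x : M, ∃ p : Polynomial D, p ≠ 0 ∧ p.eval₂ g x = 0) :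
    ∃ τ : L ≃+* M, ∀ d, τ (f d) = g d := by
  let _ := f.toAlgebra
  let _ := g.toAlgebra
  have i1 : IsAlgClosure D L := ⟨inferInstance, ⟨fun x => by
    obtain ⟨p, h1, h2⟩ := hf x
    exact ⟨p, h1, h2⟩⟩⟩
  have i2 : IsAlgClosure D M := ⟨inferInstance, ⟨fun x => by
    obtain ⟨p, h1, h2⟩ := hg x
    exact ⟨p, h1, h2⟩⟩⟩
  exact ⟨(IsAlgClosure.equiv D L M).toRingEquiv, fun d => (IsAlgClosure.equiv D L M).commutes d⟩

end

section

variable {Ω : Type u} [Field Ω]

theorem r8_exists_frac {P : Type u} [CommRing P] (q1 q2 : P →+* Ω) (h : ∀ f, q1 f = 0 ↔ q2 f = 0) :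
    ∃ (D : Type u) (_ : Field D) (f1 f2 : D →+* Ω) (j : P →+* D),
      (∀ f, f1 (j f) = q1 f) ∧ ∀ f, f2 (j f) = q2 f := by
  have hI : (RingHom.ker q1).IsPrime := RingHom.ker_isPrime q1
  let r1 : P ⧸ RingHom.ker q1 →+* Ω := Ideal.Quotient.lift (RingHom.ker q1) q1 fun f hf => hf
  let r2 : P ⧸ RingHom.ker q1 →+* Ω := Ideal.Quotient.lift (RingHom.ker q1) q2
    fun f hf => (h f).1 hf
  have h1 : Function.Injective r1 := by
    rw [injective_iff_map_eq_zero]
    intro x hx
    obtain ⟨f, rfl⟩ := Ideal.Quotient.mk_surjective x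
    exact Ideal.Quotient.eq_zero_iff_mem.2 hx
  have h2 : Function.Injective r2 := by
    rw [injective_iff_map_eq_zero]
    intro x hx
    obtain ⟨f, rfl⟩ := Ideal.Quotient.mk_surjective x
    exact Ideal.Quotient.eq_zero_iff_mem.2 ((h f).2 hx)
  refine ⟨FractionRing (P ⧸ RingHom.ker q1), inferInstance, IsFractionRing.lift h1,
    IsFractionRing.lift h2, (algebraMap (P ⧸ RingHom.ker q1)
      (FractionRing (P ⧸ RingHom.ker q1))).comp (Ideal.Quotient.mk _), fun f => ?_, fun f => ?_⟩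
  · exact IsFractionRing.lift_algebraMap h1 _
  · exact IsFractionRing.lift_algebraMap h2 _

end

section

variable {k Ω : Type u} [Field k] [Field Ω] [Algebra k Ω]

theorem r8_alg_of_range {D : Type u} [Field D] (E : IntermediateField k Ω) (f : D →+* Ω)
    (hE : ∀ x ∈ E, ∃ d, f d = x) (x : Ω) (hx : IsAlgebraic E x) :
    ∃ p : Polynomial D, p ≠ 0 ∧ p.eval₂ f x = 0 := by
  classical
  choose! s hs using hE
  let S : E →+* D :=
    { toFun := fun y => s y
      map_one' := f.injective (by rw [hs _ (1 : E).2, map_one]; rfl)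
      map_zero' := f.injective (by rw [hs _ (0 : E).2, map_zero]; rfl)
      map_add' := fun y z => f.injective (by
        rw [hs _ (y + z).2, map_add, hs _ y.2, hs _ z.2]; rfl)
      map_mul' := fun y z => f.injective (by
        rw [hs _ (y * z).2, map_mul, hs _ y.2, hs _ z.2]; rfl) }
  obtain ⟨p, hp, hpx⟩ := hx
  refine ⟨p.map S, (Polynomial.map_ne_zero_iff S.injective).2 hp, ?_⟩
  rw [Polynomial.eval₂_map]
  have h1 : f.comp S = algebraMap E Ω := RingHom.ext fun y => hs _ y.2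
  rw [h1, ← Polynomial.aeval_def]
  exact hpx

/-- Extension of the automorphisms of `A` which fix finitely many elements. -/
theorem r8_exists_lift [IsAlgClosed Ω] (A : IntermediateField k Ω) (B : Finset Ω)
    (hB : ∀ x : Ω, IsAlgebraic (AA A (B : Set Ω)) x) :
    ∃ S : Finset A, ∀ g : A ≃ₐ[k] A, (∀ x ∈ S, g x = x) →
      ∃ σ : Ω ≃ₐ[k] Ω, (∀ x : A, σ (x : Ω) = g x) ∧ ∀ b ∈ B, σ b = b := by
  classical
  let P := MvPolynomial B A
  let φ : P →+* Ω := MvPolynomial.eval₂Hom (algebraMap A Ω) (fun b : B => (b : Ω))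
  let I : Ideal P := RingHom.ker φ
  obtain ⟨G, hG⟩ : I.FG := IsNoetherian.noetherian I
  let S : Finset A := G.biUnion fun f => f.support.image fun m => MvPolynomial.coeff m f
  have hmap : ∀ g : A ≃ₐ[k] A, (∀ x ∈ S, g x = x) → ∀ f ∈ I,
      MvPolynomial.map (g : A →+* A) f ∈ I := by
    intro g hg
    have h1 : I ≤ I.comap (MvPolynomial.map (g : A →+* A)) := by
      rw [← hG, Ideal.span_le]
      intro f hf
      have h2 : MvPolynomial.map (g : A →+* A) f = f := by
        ext m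
        rw [MvPolynomial.coeff_map]
        by_cases hm : m ∈ f.support
        · exact congrArg _ (hg _ (Finset.mem_biUnion.2 ⟨f, hf, Finset.mem_image_of_mem _ hm⟩))
        · rw [MvPolynomial.notMem_support_iff.1 hm, map_zero]
      have h3 : MvPolynomial.map (g : A →+* A) f ∈ Ideal.span (G : Set P) := by
        rw [h2]; exact Ideal.subset_span hf
      exact h3
    exact fun f hf => h1 hf
  refine ⟨S, fun g hg => ?_⟩
  have hg' : ∀ x ∈ S, g.symm x = x := fun x hx => by
    rw [AlgEquiv.symm_apply_eq, hg x hx]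
  have hI : ∀ f, MvPolynomial.map (g : A →+* A) f ∈ I ↔ f ∈ I := by
    intro f
    refine ⟨fun h => ?_, hmap g hg f⟩
    have h1 := hmap g.symm hg' _ h
    have h2 : MvPolynomial.map (g.symm : A →+* A) (MvPolynomial.map (g : A →+* A) f) = f := by
      ext m
      rw [MvPolynomial.coeff_map, MvPolynomial.coeff_map]
      exact congrArg _ (g.symm_apply_apply _)
    rwa [h2] at h1
  obtain ⟨D, _, f1, f2, j, e1, e2⟩ := r8_exists_frac φ (φ.comp (MvPolynomial.map (g : A →+* A)))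
    fun f => (hI f).symm
  have hφC : ∀ a : A, φ (MvPolynomial.C a) = a := fun a => MvPolynomial.eval₂Hom_C _ _ _
  have hφX : ∀ b : B, φ (MvPolynomial.X b) = b := fun b => MvPolynomial.eval₂Hom_X' _ _ _
  have e2C : ∀ a : A, f2 (j (MvPolynomial.C a)) = g a := by
    intro a
    rw [e2, RingHom.comp_apply, MvPolynomial.map_C]
    exact hφC _
  have e2X : ∀ b : B, f2 (j (MvPolynomial.X b)) = b := by
    intro b
    rw [e2, RingHom.comp_apply, MvPolynomial.map_X]
    exact hφX _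
  have hAA : AA A (B : Set Ω) = IntermediateField.adjoin k ((A : Set Ω) ∪ B) := by
    rw [IntermediateField.adjoin_union, IntermediateField.adjoin_self]
    rfl
  have hrange : ∀ f : D →+* Ω, (∀ x ∈ A, ∃ d, f d = x) → (∀ x ∈ B, ∃ d, f d = x) →
      ∀ x ∈ AA A (B : Set Ω), ∃ d, f d = x := by
    intro f hA hB x hx
    rw [hAA] at hx
    induction hx using IntermediateField.adjoin_induction with
    | mem y hy =>
      rcases hy with hy | hy
      · exact hA y hy
      · exact hB y hy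
    | algebraMap y => exact hA _ (A.algebraMap_mem y)
    | add y z _ _ h1 h2 =>
      obtain ⟨a, rfl⟩ := h1
      obtain ⟨b, rfl⟩ := h2
      exact ⟨a + b, map_add _ _ _⟩
    | mul y z _ _ h1 h2 =>
      obtain ⟨a, rfl⟩ := h1
      obtain ⟨b, rfl⟩ := h2
      exact ⟨a * b, map_mul _ _ _⟩
    | inv y _ h1 =>
      obtain ⟨a, rfl⟩ := h1
      exact ⟨a⁻¹, map_inv₀ _ _⟩
  have hr1 := hrange f1 (fun x hx => ⟨_, (e1 _).trans (hφC ⟨x, hx⟩)⟩)
    (fun x hx => ⟨_, (e1 _).trans (hφX ⟨x, hx⟩)⟩)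
  have hr2 := hrange f2 (fun x hx => ⟨_, (e2C (g.symm ⟨x, hx⟩)).trans
      (congrArg Subtype.val (g.apply_symm_apply ⟨x, hx⟩))⟩)
    (fun x hx => ⟨_, e2X ⟨x, hx⟩⟩)
  obtain ⟨τ, hτ⟩ := r8_exists_ringEquiv f1 f2
    (fun x => r8_alg_of_range _ f1 hr1 x (hB x)) (fun x => r8_alg_of_range _ f2 hr2 x (hB x))
  have hτA : ∀ x : A, τ (x : Ω) = g x := by
    intro x
    rw [← hφC x, ← e1, hτ, e2C]
  refine ⟨AlgEquiv.ofRingEquiv (f := τ) (fun r => ?_), hτA, fun b hb => ?_⟩
  · have h1 := hτA (algebraMap k A r)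
    rw [AlgEquiv.commutes] at h1
    exact h1
  · have h1 := hτ (j (MvPolynomial.X ⟨b, hb⟩))
    rw [e1, hφX, e2X] at h1
    exact h1

end

end Pool.Agent.TUQ
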