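import Pool.Agent.TBM.Val

/-!
# Valuation rings of an algebraically closed field: residues and Gauss discs

`Ω` is algebraically closed, `A` an algebraically closed subfield such that `Ω` is of transcendence
degree one over `A`, `V ⊇ A` a nontrivial valuation ring (so `A` is its residue field), `H` another
algebraically closed subfield.
-/

set_option autoImplicit false

namespace Pool.Agent.TUQ

open Polynomial Pool.Agent.TBR

universe u

section

variable {k Ω : Type u} [Field k] [Field Ω] [Algebra k Ω]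

/-- `r` is the residue map of `V` with values in the field of representatives `A` -/
structure IsRes (A : IntermediateField k Ω) (V : ValuationSubring Ω) (r : V →+* Ω) : Prop where
  mem : ∀ x, r x ∈ A
  fix : ∀ (a : Ω) (h : a ∈ V), a ∈ A → r ⟨a, h⟩ = a
  sub : ∀ x : V, (x : Ω) - r x ∈ V.nonunits

theorem nonunits_iff (V : ValuationSubring Ω) (x : Ω) : x ∈ V.nonunits ↔ V.valuation x < 1 :=
  V.mem_nonunits_iff

theorem val_le (V : ValuationSubring Ω) (x : Ω) : x ∈ V ↔ V.valuation x ≤ 1 :=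
  (V.valuation_le_one_iff x).symm

theorem IsRes.zero_iff {A : IntermediateField k Ω} {V : ValuationSubring Ω} {r : V →+* Ω}
    (hr : IsRes A V r) (hV : ∀ x ∈ A, x ∈ V) (x : V) : r x = 0 ↔ V.valuation (x : Ω) < 1 := by
  constructor
  · intro h
    have := hr.sub x
    rw [h, sub_zero, nonunits_iff] at this
    exact this
  · intro h
    by_contra h0
    have h1 : V.valuation (r x) = 1 :=
      Pool.Agent.TBR.V.val_A A V hV ⟨r x, hr.mem x⟩ (fun h => h0 (congrArg Subtype.val h))
    have h2 := (nonunits_iff V _).mp (hr.sub x)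
    have h3 : V.valuation ((x : Ω) - r x) = 1 := by
      rw [Valuation.map_sub_swap, Valuation.map_sub_eq_of_lt_left _ (by rw [h1]; exact h), h1]
    rw [h3] at h2
    exact lt_irrefl _ h2

/-- existence of the residue map -/
theorem exists_isRes (A : IntermediateField k Ω) [IsAlgClosed A]
    (hA1 : ∀ t : Ω, t ∉ A → ∀ x : Ω, IsAlgebraic (AA A {t}) x)
    (V : ValuationSubring Ω) (hV : ∀ x ∈ A, x ∈ V) (hVt : V ≠ ⊤) : ∃ r : V →+* Ω, IsRes A V r := by
  let g : A →+* V :=
    { toFun := fun y => ⟨y, hV y y.2⟩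
      map_one' := rfl
      map_mul' := fun x y => rfl
      map_zero' := rfl
      map_add' := fun x y => rfl }
  let f : A →+* IsLocalRing.ResidueField V := (IsLocalRing.residue V).comp g
  have hf : Function.Bijective f := by
    refine ⟨f.injective, fun y => ?_⟩
    obtain ⟨x, rfl⟩ := IsLocalRing.residue_surjective y
    obtain ⟨α, hα, h⟩ := Pool.Agent.TBR.V.residue A hA1 V hV hVt x x.2
    refine ⟨⟨α, hα⟩, ?_⟩
    have h1 : IsLocalRing.residue V (x - g ⟨α, hα⟩) = 0 := by
      rw [IsLocalRing.residue_eq_zero_iff]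
      exact (V.coe_mem_nonunits_iff).mp h
    rw [map_sub, sub_eq_zero] at h1
    exact h1.symm
  let e : A ≃+* IsLocalRing.ResidueField V := RingEquiv.ofBijective f hf
  refine ⟨(A.val : A →+* Ω).comp ((e.symm : IsLocalRing.ResidueField V →+* A).comp
    (IsLocalRing.residue V)), ⟨fun x => Subtype.property _, fun a h ha => ?_, fun x => ?_⟩⟩
  · have : e.symm (IsLocalRing.residue V ⟨a, h⟩) = ⟨a, ha⟩ := by
      rw [RingEquiv.symm_apply_eq]
      rfl
    exact congrArg Subtype.val this
  · have h1 : IsLocalRing.residue V (x - g (e.symm (IsLocalRing.residue V x))) = 0 := by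
      rw [map_sub, sub_eq_zero]
      exact (e.apply_symm_apply _).symm
    rw [IsLocalRing.residue_eq_zero_iff] at h1
    exact (V.coe_mem_nonunits_iff).mpr h1

/-- two terms of a vanishing sum have the same largest value -/
theorem exists_pair {Γ : Type*} [LinearOrderedCommGroupWithZero Γ] (v : Valuation Ω Γ)
    {ι : Type*} (s : Finset ι) (f : ι → Ω) (hsum : ∑ i ∈ s, f i = 0) (h0 : ∃ i ∈ s, f i ≠ 0) :
    ∃ i ∈ s, ∃ j ∈ s, i ≠ j ∧ v (f i) = v (f j) ∧ f i ≠ 0 ∧ f j ≠ 0 := by
  classical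
  obtain ⟨i₀, hi₀, h₀⟩ := h0
  obtain ⟨i, hi, hmax⟩ := Finset.exists_max_image s (fun i => v (f i)) ⟨i₀, hi₀⟩
  have hfi : f i ≠ 0 := by
    intro h
    have := hmax i₀ hi₀
    simp only [h, map_zero] at this
    exact h₀ ((map_eq_zero v).mp (le_antisymm this zero_le))
  by_contra hcon
  push Not at hcon
  have hlt : ∀ j ∈ s.erase i, v (f j) < v (f i) := by
    intro j hj
    obtain ⟨hji, hjs⟩ := Finset.mem_erase.mp hj
    refine lt_of_le_of_ne (hmax j hjs) fun heq => ?_
    have hfj : f j ≠ 0 := by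
      intro h
      rw [h, map_zero] at heq
      exact hfi ((map_eq_zero v).mp heq.symm)
    exact hfj (hcon i hi j hjs hji.symm heq.symm hfi)
  have h1 : v (∑ j ∈ s.erase i, f j) < v (f i) := by
    refine v.map_sum_lt ?_ hlt
    exact (Valuation.ne_zero_iff v).mpr hfi
  have h2 : f i = - ∑ j ∈ s.erase i, f j := by
    rw [← Finset.add_sum_erase s f hi] at hsum
    exact eq_neg_of_add_eq_zero_left hsum
  rw [h2, Valuation.map_neg] at h1
  exact lt_irrefl _ h1

/-- (G3) the value group of `V` is that of an algebraically closed subfield which is not contained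
in `V` -/
theorem exists_pi (A : IntermediateField k Ω)
    (hA1 : ∀ t : Ω, t ∉ A → ∀ x : Ω, IsAlgebraic (AA A {t}) x)
    (V : ValuationSubring Ω) (hV : ∀ x ∈ A, x ∈ V)
    (H : IntermediateField k Ω) [IsAlgClosed H] (hH : ∃ β ∈ H, β ∉ V) (a : Ω) (ha : a ≠ 0) :
    ∃ π ∈ H, π ≠ 0 ∧ V.valuation a = V.valuation π := by
  obtain ⟨β, hβ, hβV⟩ := hH
  have hβ0 : β ≠ 0 := by rintro rfl; exact hβV V.zero_mem
  have hb0 : β⁻¹ ≠ 0 := inv_ne_zero hβ0
  have hbH : β⁻¹ ∈ H := inv_mem hβ
  have hb1 : V.valuation β⁻¹ < 1 := by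
    rw [map_inv₀]
    refine inv_lt_one_of_one_lt₀ (not_le.mp ?_)
    rwa [← val_le]
  have hbA : β⁻¹ ∉ A := fun h => by
    have := Pool.Agent.TBR.V.val_A A V hV ⟨_, h⟩ (fun h' => hb0 (congrArg Subtype.val h'))
    exact absurd hb1 (by rw [this]; exact lt_irrefl _)
  obtain ⟨p, hp0, hp⟩ := hA1 _ hbA a
  rw [aeval_eq_sum_range] at hp
  obtain ⟨i, hi, j, hj, hij, hv, hi0, hj0⟩ := exists_pair V.valuation _ _ hp
    ⟨p.natDegree, Finset.mem_range.mpr (Nat.lt_succ_self _), by
      rw [Algebra.smul_def]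
      exact mul_ne_zero ((_root_.map_ne_zero _).mpr (by rwa [coeff_natDegree, Ne, leadingCoeff_eq_zero]))
        (pow_ne_zero _ ha)⟩
  -- the two coefficients are powers of `β⁻¹`, up to units
  have key : ∀ i j : ℕ, i < j → p.coeff i • a ^ i ≠ 0 → p.coeff j • a ^ j ≠ 0 →
      V.valuation (p.coeff i • a ^ i) = V.valuation (p.coeff j • a ^ j) →
      ∃ π ∈ H, π ≠ 0 ∧ V.valuation a = V.valuation π := by
    intro i j hij hi0 hj0 hv
    rw [Algebra.smul_def] at hi0 hj0
    rw [Algebra.smul_def, Algebra.smul_def] at hv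
    have hci := (mul_ne_zero_iff.mp hi0).1
    have hcj := (mul_ne_zero_iff.mp hj0).1
    obtain ⟨m, hm⟩ := Pool.Agent.TBR.V.ord_AA A β⁻¹ hb0 _ (p.coeff i).2 hci
    obtain ⟨n, hn⟩ := Pool.Agent.TBR.V.ord_AA A β⁻¹ hb0 _ (p.coeff j).2 hcj
    have hm' := hm V hV hb1
    have hn' := hn V hV hb1
    have hvb : V.valuation β⁻¹ ≠ 0 := (_root_.map_ne_zero _).mpr hb0
    have hva : V.valuation a ≠ 0 := (_root_.map_ne_zero _).mpr ha
    obtain ⟨π, hπ⟩ := IsAlgClosed.exists_pow_nat_eq ((⟨β⁻¹, hbH⟩ : H) ^ (m - n))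
      (n := j - i) (by omega)
    have hπ' : (π : Ω) ^ (j - i) = β⁻¹ ^ (m - n) := by
      have := congrArg (Subtype.val) hπ
      rw [SubmonoidClass.coe_pow] at this
      rw [this]
      exact map_zpow₀ (algebraMap H Ω) _ _
    refine ⟨π, π.2, ?_, ?_⟩
    · intro h
      rw [h, zero_pow (by omega)] at hπ'
      exact zpow_ne_zero _ hb0 hπ'.symm
    · have h1 : V.valuation a ^ (j - i) = V.valuation (π : Ω) ^ (j - i) := by
        rw [← map_pow, ← map_pow, hπ', map_zpow₀, zpow_sub₀ hvb, map_pow]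
        rw [map_mul, map_mul, map_pow, map_pow] at hv
        have e1 : V.valuation (algebraMap (↥(AA A {β⁻¹})) Ω (p.coeff i)) =
            V.valuation β⁻¹ ^ m := hm'
        have e2 : V.valuation (algebraMap (↥(AA A {β⁻¹})) Ω (p.coeff j)) =
            V.valuation β⁻¹ ^ n := hn'
        rw [e1, e2] at hv
        rw [eq_div_iff (zpow_ne_zero _ hvb)]
        have h2 : V.valuation a ^ j = V.valuation a ^ (j - i) * V.valuation a ^ i := by
          rw [← pow_add]; congr 1; omega
        rw [h2] at hv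
        have h3 : V.valuation a ^ i ≠ 0 := pow_ne_zero _ hva
        have h4 : V.valuation β⁻¹ ^ m * V.valuation a ^ i =
            (V.valuation a ^ (j - i) * V.valuation β⁻¹ ^ n) * V.valuation a ^ i := by
          rw [hv, mul_comm (V.valuation β⁻¹ ^ n), mul_assoc, mul_assoc,
            mul_comm (V.valuation a ^ i)]
        exact (mul_right_cancel₀ h3 h4).symm
      exact (pow_left_inj₀ zero_le zero_le (by omega)).mp h1
  rcases lt_or_gt_of_ne hij with h | h
  · exact key i j h hi0 hj0 hv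
  · exact key j i h hj0 hi0 hv.symm

end

end Pool.Agent.TUQ
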