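import Pool.Agent.TUQ.Defs
import Pool.Agent.TUQ.R8
import Pool.Agent.URR.ONE
import Pool.Agent.URR.SIT1
import Pool.Agent.URR.PLC1
import Pool.Agent.URR.STAB
import Pool.Agent.URR.TOA
import Pool.Agent.URR.NOR1
import Pool.Agent.URR.NOR2
import Pool.Agent.URR.UNI

/-!
# Uniruled quotients and the Tate conjecture: block R
-/

set_option autoImplicit false

namespace Pool.Agent.TUQ

open Pool.Agent.TBR Pool.Agent.URR

universe u

section

variable {k Ω : Type u} [Field k] [Field Ω] [Algebra k Ω]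

theorem r_lt_one_iff (V : ValuationSubring Ω) (z : Ω) : V.valuation z < 1 ↔ z = 0 ∨ z⁻¹ ∉ V := by
  rcases eq_or_ne z 0 with rfl | hz
  · simp
  · rw [or_iff_right hz, val_le, map_inv₀, not_le, one_lt_inv₀ ((Valuation.pos_iff _).2 hz)]

theorem r_same_res {A E : IntermediateField k Ω} (hAE : A ≤ E) {V W : ValuationSubring Ω}
    {r : V →+* Ω} {r' : W →+* Ω} (hV : Plc A V r) (hW : Plc A W r') (hS : Same E V W) (x : Ω)
    (hx : x ∈ E) (h : x ∈ V) (h' : x ∈ W) : r ⟨x, h⟩ = r' ⟨x, h'⟩ := by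
  have ha : r ⟨x, h⟩ ∈ A := hV.res.mem _
  set a := r ⟨x, h⟩ with haa
  have h1 : V.valuation (x - a) < 1 := (nonunits_iff V _).1 (hV.res.sub ⟨x, h⟩)
  have h2 : W.valuation (x - a) < 1 := by
    rw [r_lt_one_iff] at h1 ⊢
    rcases h1 with h1 | h1
    · exact Or.inl h1
    · exact Or.inr fun h3 => h1 ((hS _ (E.inv_mem (E.sub_mem hx (hAE ha)))).2 h3)
  have haW : a ∈ W := hW.mem a ha
  have h3 : r' (⟨x, h'⟩ - ⟨a, haW⟩) = 0 := by
    rw [hW.res.zero_iff hW.mem]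
    exact h2
  rw [map_sub, sub_eq_zero, hW.res.fix a haW ha] at h3
  exact h3.symm

theorem r_tri_one (D : Subgroup (Ω ≃ₐ[k] Ω)) :
    Tri D (fun _ _ : Ω ≃ₐ[k] Ω => (1 : Ωˣ)) :=
  ⟨fun _ => 1, Lc1.const _ _, fun σ _ τ _ => by simp⟩

theorem r_tri_prod {ι : Type*} (s : Finset ι) (D : Subgroup (Ω ≃ₐ[k] Ω))
    (F : ι → (Ω ≃ₐ[k] Ω) → (Ω ≃ₐ[k] Ω) → Ωˣ) (h : ∀ i ∈ s, Tri D (F i)) :
    Tri D (fun σ τ => ∏ i ∈ s, F i σ τ) := by
  classical
  induction s using Finset.induction_on with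
  | empty => simpa using r_tri_one D
  | insert a s ha ih =>
    have h1 := (h a (Finset.mem_insert_self a s)).mul
      (ih fun i hi => h i (Finset.mem_insert_of_mem hi))
    exact h1.congr fun σ _ τ _ => by rw [Finset.prod_insert ha]

theorem r_fix_adjoin {M L : Type u} [Field M] [Algebra k M] [Field L] [Algebra k L]
    (f g : M →ₐ[k] L) (G : Set M) (h : ∀ x ∈ G, f x = g x) (x : M)
    (hx : x ∈ IntermediateField.adjoin k G) : f x = g x := by
  induction hx using IntermediateField.adjoin_induction with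
  | mem x hx => exact h x hx
  | algebraMap c => rw [AlgHom.commutes, AlgHom.commutes]
  | add x y _ _ hx hy => rw [map_add, map_add, hx, hy]
  | inv x _ hx => rw [map_inv₀, map_inv₀, hx]
  | mul x y _ _ hx hy => rw [map_mul, map_mul, hx, hy]

theorem r_mem_of_algk (A : IntermediateField k Ω) [IsAlgClosed A] (x : Ω) (hx : IsAlgebraic k x) :
    x ∈ A := by
  have hx' : IsAlgebraic A x := hx.tower_top A
  have h1 : (minpoly A x).degree = 1 :=
    IsAlgClosed.degree_eq_one_of_irreducible _ (minpoly.irreducible hx'.isIntegral)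
  obtain ⟨y, hy⟩ := minpoly.mem_range_of_degree_eq_one A x h1
  rw [← hy]
  exact y.2

theorem r_alg_adjoin (A : IntermediateField k Ω) (G : Finset A)
    (hG : ∀ x : A, IsAlgebraic (IntermediateField.adjoin k (G : Set A)) x) (S : Set Ω)
    (hS : ∀ x ∈ G, (x : Ω) ∈ S) (x : Ω) (hx : x ∈ A) :
    IsAlgebraic (IntermediateField.adjoin k S) x := by
  obtain ⟨p, hp, hpx⟩ := hG ⟨x, hx⟩
  have h1 : ∀ y : A, y ∈ IntermediateField.adjoin k (G : Set A) →
      (y : Ω) ∈ IntermediateField.adjoin k S := by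
    intro y hy
    induction hy using IntermediateField.adjoin_induction with
    | mem y hy => exact IntermediateField.subset_adjoin _ _ (hS y hy)
    | algebraMap c => exact (IntermediateField.adjoin k S).algebraMap_mem c
    | add x y _ _ hx hy => exact add_mem hx hy
    | inv x _ hx => exact inv_mem hx
    | mul x y _ _ hx hy => exact mul_mem hx hy
  let ρ : IntermediateField.adjoin k (G : Set A) →+* IntermediateField.adjoin k S :=
    { toFun := fun y => ⟨((y : A) : Ω), h1 y y.2⟩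
      map_one' := rfl
      map_zero' := rfl
      map_add' := fun _ _ => rfl
      map_mul' := fun _ _ => rfl }
  refine ⟨p.map ρ, (Polynomial.map_ne_zero_iff ρ.injective).2 hp, ?_⟩
  have h2 : (algebraMap (IntermediateField.adjoin k S) Ω).comp ρ =
      (algebraMap A Ω).comp (algebraMap (IntermediateField.adjoin k (G : Set A)) A) := rfl
  rw [Polynomial.aeval_def, Polynomial.eval₂_map, h2]
  have h3 := congrArg (algebraMap A Ω) hpx
  rw [Polynomial.aeval_def, Polynomial.hom_eval₂, map_zero] at h3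
  exact h3

end

open Classical in
set_option maxHeartbeats 400000 in
theorem blockR (k Ω : Type u) [Field k] [Field Ω] [Algebra k Ω] : BlockR k Ω := by
  intro hΩ A hAc hA1 K hK hKalg htd m ξ h h0 T hy p hp
  obtain ⟨y, hy⟩ := hy
  obtain ⟨G, hG⟩ := hK
  have hpΩ : ExpChar Ω p := expChar_of_injective_algebraMap (algebraMap k Ω).injective p
  obtain ⟨B, hBT, hBh, hBξ, hBy⟩ : ∃ B : Finset Ω, (∀ x ∈ T, x ∈ B) ∧ (∀ i, h i ∈ B) ∧
      (∀ i, ∀ g ∈ G, ξ i g ∈ B) ∧ y ∈ B := by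
    refine ⟨T ∪ Finset.univ.image h ∪ (Finset.univ.biUnion fun i => G.image (ξ i)) ∪ {y},
      fun x hx => ?_, fun i => ?_, fun i g hg => ?_, ?_⟩
    · exact Finset.mem_union_left _ (Finset.mem_union_left _ (Finset.mem_union_left _ hx))
    · exact Finset.mem_union_left _ (Finset.mem_union_left _ (Finset.mem_union_right _
        (Finset.mem_image_of_mem h (Finset.mem_univ i))))
    · exact Finset.mem_union_left _ (Finset.mem_union_right _ (Finset.mem_biUnion.2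
        ⟨i, Finset.mem_univ i, Finset.mem_image_of_mem (ξ i) hg⟩))
    · exact Finset.mem_union_right _ (Finset.mem_singleton_self y)
  have hAE : A ≤ AA A (B : Set Ω) := le_AA A _
  have hBE : ∀ x ∈ B, x ∈ AA A (B : Set Ω) := fun x hx => sub_AA A _ hx
  obtain ⟨n, W, π, e, hW, hπ, hW4, hW2, hW3, he⟩ := exists_places A hA1 (B : Set Ω)
    B.finite_toSet (fun V hV => exists_unif A hA1 (B : Set Ω) B.finite_toSet ⟨y, hBy, hy⟩ V hV)
    m h h0 (fun i => hBE _ (hBh i))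
  have hr : ∀ j, ∃ r : W j →+* Ω, IsRes A (W j) r := fun j =>
    exists_isRes A hA1 (W j) (hW j).1 (hW j).2
  choose r hr using hr
  have hP : ∀ j, Plc A (W j) (r j) := fun j => ⟨(hW j).1, (hW j).2, hr j⟩
  obtain ⟨S₁, hS₁A, hS₁⟩ := exists_stabS A (B : Set Ω) m h (fun i => hBE _ (hBh i)) n W hW hW2
    hW4 hW3
  obtain ⟨S₂, hS₂A, hS₂1, hS₂G⟩ : ∃ S₂ : Finset Ω, (∀ x ∈ S₂, x ∈ A) ∧ (∀ x ∈ S₁, x ∈ S₂) ∧
      ∀ g ∈ G, ((g : A) : Ω) ∈ S₂ := by
    refine ⟨S₁ ∪ G.image (fun g : A => (g : Ω)), fun x hx => ?_, fun x hx => ?_, fun g hg => ?_⟩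
    · rcases Finset.mem_union.1 hx with hx | hx
      · exact hS₁A hx
      · obtain ⟨g, _, rfl⟩ := Finset.mem_image.1 hx
        exact g.2
    · exact Finset.mem_union_left _ hx
    · exact Finset.mem_union_right _ (Finset.mem_image_of_mem (fun g : A => (g : Ω)) hg)
  have hSit : Sit A (Ge k ((S₂ : Set Ω) ∪ B)) (B : Set Ω) := sit_of A hA1 (S₂ : Set Ω)
    (fun x hx => hS₂A x hx) (fun x hx => r_alg_adjoin A G (fun x => by rw [hG]; exact hKalg x) _
      (fun g hg => hS₂G g hg) x hx) (B : Set Ω)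
    B.finite_toSet ⟨y, hBy, hy⟩
  obtain ⟨S₃, hS₃⟩ := r8_exists_lift A B (fun x => alg_mono _ _ (by
    refine sup_le le_sup_left ?_
    rw [IntermediateField.adjoin_le_iff]
    rintro _ rfl
    exact hBE _ hBy) x (hA1 y hy x))
  obtain ⟨S, hS3, hS2, hSR⟩ : ∃ S : Finset A, (∀ x ∈ S₃, x ∈ S) ∧
      (∀ x : A, (x : Ω) ∈ S₂ → x ∈ S) ∧
      ∀ j i, ∀ g ∈ G, ∀ (hx : ξ i g ∈ W j) (a : A), r j ⟨ξ i g, hx⟩ = a → a ∈ S := by
    refine ⟨S₃ ∪ S₂.subtype (· ∈ A) ∪ (Finset.univ.biUnion fun j =>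
      Finset.univ.biUnion fun i => G.image fun g =>
        if hx : ξ i g ∈ W j then ⟨r j ⟨ξ i g, hx⟩, (hr j).mem _⟩ else 0),
        fun x hx => ?_, fun x hx => ?_, fun j i g hg hx a ha => ?_⟩
    · exact Finset.mem_union_left _ (Finset.mem_union_left _ hx)
    · exact Finset.mem_union_left _ (Finset.mem_union_right _ (Finset.mem_subtype.2 hx))
    · refine Finset.mem_union_right _ (Finset.mem_biUnion.2 ⟨j, Finset.mem_univ j,
        Finset.mem_biUnion.2 ⟨i, Finset.mem_univ i, Finset.mem_image.2 ⟨g, hg, ?_⟩⟩⟩)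
      rw [dif_pos hx]
      exact Subtype.ext ha
  have hπ0 : ∀ j, 0 < (W j).valuation (π j) := fun j => (Valuation.pos_iff _).2 (hπ j).ne
  refine ⟨n, W, r, e, S, hP, ?_, ?_, ?_, ?_, ?_⟩
  · intro j i
    rw [he j i, zpow_lt_one_iff_right_of_lt_one₀ (hπ0 j) (hπ j).lt]
  · intro j i
    rw [he j i, one_lt_zpow_iff_right_of_lt_one₀ (hπ0 j) (hπ j).lt]
  · intro j i i' h1
    rw [he j i, he j i'] at h1
    exact zpow_right_injective₀ (hπ0 j) (hπ j).lt.ne h1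
  · intro V rV hV hi
    obtain ⟨j, hj⟩ := hW3 V ⟨hV.mem, hV.ne⟩ hi
    exact ⟨j, fun x hx => ⟨hj x (hBE x (hBT x hx)), fun h1 h2 =>
      r_same_res hAE hV (hP j) hj x (hBE x (hBT x hx)) h1 h2⟩⟩
  intro c hc ψ hψ
  obtain ⟨c', hc'l, hc'c, hc'1, hc't⟩ := exists_normalized (Ge k (K : Set A)) c hc.lc hc.coc
  have hunr : ∀ V : ValuationSubring A, (∀ x : k, algebraMap k A x ∈ V) → V ≠ ⊤ →
      Tri (Ge k (K : Set A) ⊓ St k V) c' := by
    intro V h1 h2
    have h3 := (hc't.mono inf_le_left).mul (hc.unr V h1 h2)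
    exact h3.congr fun σ _ τ _ => by rw [inv_mul_cancel_right]
  have hN : ∀ i, ∀ σ ∈ Ge k ((S₂ : Set Ω) ∪ B), (∀ x ∈ K, σ (ξ i x) = ξ i x) ∧
      ∀ x : Ω, IsAlgebraic k x → σ x = x := by
    intro i σ hσ
    refine ⟨fun x hx => ?_, fun x hx => hσ.2 x hx⟩
    rw [← hG] at hx
    exact r_fix_adjoin ((σ : Ω →ₐ[k] Ω).comp (ξ i)) (ξ i) (G : Set A)
      (fun g hg => hσ.1 _ (Or.inr (hBξ i g hg))) x hx
  have hst : ∀ σ ∈ Ge k ((S₂ : Set Ω) ∪ B), ∀ j, ∀ x ∈ AA A (B : Set Ω), σ x ∈ W j ↔ x ∈ W j := by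
    intro σ hσ
    refine (hS₁ σ (hSit.stab σ hσ) fun x hx => hσ.1 x ?_).2
    rcases hx with hx | hx
    · exact Or.inl (hS₂1 x hx)
    · exact Or.inr hx
  have hψ' : ∀ i j, (∀ x, ξ i x ∈ W j) → ∀ x : A, (W j).valuation (ξ i x - ψ j i x) < 1 := by
    intro i j h1 x
    have h2 := (hψ j i h1).eq x (h1 x)
    rw [← h2]
    exact (nonunits_iff _ _).1 ((hr j).sub ⟨ξ i x, h1 x⟩)
  have hone := fun i => one hSit p K hKalg (ξ i) (hN i) (h i) (hBE _ (hBh i)) (h0 i)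
    (fun σ hσ => hσ.1 _ (Or.inr (hBh i))) n W π (fun j => e j i) hW hπ hW2
    (fun V hV hVi => hW3 V hV ⟨i, hVi⟩) (fun j => he j i) hst c' hc'l hc'c hc'1 hunr
    (fun j => ψ j i) (hψ' i)
  choose s b hbl hbA hb using hone
  have hlift : ∀ g : A ≃ₐ[k] A, g ∈ Ge k (S : Set A) →
      ∃ σ ∈ Ge k ((S₂ : Set Ω) ∪ B), ∀ x : A, σ x = g x := by
    intro g hg
    obtain ⟨σ, hσ1, hσ2⟩ := hS₃ g fun x hx => hg.1 x (hS3 x hx)
    refine ⟨σ, ⟨?_, ?_⟩, hσ1⟩
    · rintro x (hx | hx)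
      · have h1 := hσ1 ⟨x, hS₂A x hx⟩
        rw [hg.1 _ (hS2 ⟨x, hS₂A x hx⟩ hx)] at h1
        exact h1
      · exact hσ2 x hx
    · intro x hx
      have hxA := r_mem_of_algk A x hx
      have h1 := hσ1 ⟨x, hxA⟩
      rw [hg.2 ⟨x, hxA⟩ (by
        have : IsAlgebraic k (algebraMap A Ω ⟨x, hxA⟩) := hx
        exact (isAlgebraic_algebraMap_iff (algebraMap A Ω).injective).1 this)] at h1
      exact h1
  have hT : ∀ i, Tri (Ge k (S : Set A)) (fun g g' => ∏ j,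
      if (∀ x, ξ i x ∈ W j) ∧ (W j).valuation (h i) ≠ 1 then
        tw (ψ j i) c' g g' ^ (e j i * (p : ℤ) ^ s i) else 1) := fun i =>
    toA A (Ge k ((S₂ : Set Ω) ∪ B)) S hlift _ (b i) (hbl i) (hbA i)
      fun σ hσ τ hτ g g' h1 h2 => congrArg Units.val (hb i σ hσ τ hτ g g' h1 h2)
  have hsle : ∀ i, s i ≤ ∑ i, s i := fun i =>
    Finset.single_le_sum (fun _ _ => Nat.zero_le _) (Finset.mem_univ i)
  have hT' : Tri (Ge k (S : Set A)) (fun g g' => ∏ i, ∏ j,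
      if (∀ x, ξ i x ∈ W j) ∧ (W j).valuation (h i) ≠ 1 then
        tw (ψ j i) c' g g' ^ (e j i * (p : ℤ) ^ (∑ i, s i)) else 1) := by
    refine r_tri_prod Finset.univ _ _ fun i _ => ?_
    refine ((hT i).pow (p ^ (∑ i, s i - s i))).congr fun g _ g' _ => ?_
    rw [← Finset.prod_pow]
    refine Finset.prod_congr rfl fun j _ => ?_
    split_ifs
    · rw [← zpow_natCast, ← zpow_mul, Nat.cast_pow, mul_assoc, ← pow_add,
        Nat.add_sub_cancel' (hsle i)]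
    · rw [one_pow]
  have hG' : ∀ j i, (∀ x, ξ i x ∈ W j) → ∀ g ∈ Ge k (S : Set A),
      (ψ j i)⁻¹ * g * ψ j i ∈ Ge k (K : Set A) := by
    intro j i h1 g hg
    have h2 : ∀ x : A, g (ψ j i x) = ψ j i x → ((ψ j i)⁻¹ * g * ψ j i) x = x := by
      intro x hx
      rw [AlgEquiv.mul_apply, AlgEquiv.mul_apply, hx]
      exact (ψ j i).symm_apply_apply x
    refine ⟨fun x hx => h2 x ?_, fun x hx => h2 x (hg.2 _ (hx.algHom (ψ j i : A →ₐ[k] A)))⟩
    have hx' : x ∈ IntermediateField.adjoin k (G : Set A) := by rw [hG]; exact hx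
    exact r_fix_adjoin ((g : A →ₐ[k] A).comp (ψ j i : A →ₐ[k] A)) (ψ j i : A →ₐ[k] A) (G : Set A)
      (fun y hy => hg.1 _ (hSR j i y hy (h1 y) _ ((hψ j i h1).eq y (h1 y)))) x hx'
  have hTR : Tri (Ge k (S : Set A)) (fun g g' => ∏ i, ∏ j,
      if (∀ x, ξ i x ∈ W j) ∧ (W j).valuation (h i) ≠ 1 then
        tw (ψ j i) (fun σ τ => c' σ τ * (c σ τ)⁻¹) g g' ^ (e j i * (p : ℤ) ^ (∑ i, s i))
          else 1) := by
    refine r_tri_prod Finset.univ _ _ fun i _ => r_tri_prod Finset.univ _ _ fun j _ => ?_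
    by_cases h1 : (∀ x, ξ i x ∈ W j) ∧ (W j).valuation (h i) ≠ 1
    · simp only [if_pos h1]
      exact (tri_tw (Ge k (K : Set A)) (Ge k (S : Set A)) (ψ j i) (hG' j i h1.1) _ hc't).zpow _
    · simp only [if_neg h1]
      exact r_tri_one _
  refine ⟨∑ i, s i, (hT'.mul hTR.inv).congr fun g _ g' _ => ?_⟩
  rw [Finset.prod_comm (f := fun j i => if (∀ x, ξ i x ∈ W j) ∧ (W j).valuation (h i) ≠ 1 then
        tw (ψ j i) c g g' ^ (e j i * (p : ℤ) ^ (∑ i, s i)) else 1), ← Finset.prod_inv_distrib,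
    ← Finset.prod_mul_distrib]
  refine Finset.prod_congr rfl fun i _ => ?_
  rw [← Finset.prod_inv_distrib, ← Finset.prod_mul_distrib]
  refine Finset.prod_congr rfl fun j _ => ?_
  split_ifs
  · have h3 : tw (ψ j i) (fun σ τ => c' σ τ * (c σ τ)⁻¹) g g' =
        tw (ψ j i) c' g g' * (tw (ψ j i) c g g')⁻¹ := by
      simp only [tw, smul_mul', smul_inv']
    rw [h3, mul_zpow, inv_zpow, mul_inv, inv_inv, mul_inv_cancel_left]
  · rw [inv_one, mul_one]

end Pool.Agent.TUQ
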