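import Pool.Agent.TUQ.F4

/-!
# The combination of the reciprocity relation and the local statements
-/

set_option autoImplicit false

namespace Pool.Agent.TUQ

open Polynomial Pool.Agent.TBR

universe u

section

variable {k M : Type u} [Field k] [Field M] [Algebra k M]

theorem unC_of_sysU {K : Set M} {ℓ : ℕ} {C : ℕ → (M ≃ₐ[k] M) → (M ≃ₐ[k] M) → Mˣ}
    (h : SysU K ℓ C) (n : ℕ) : UnC K (C n) :=
  { lc := h.lc n
    coc := h.coc n
    inv := fun g hg => h.inv n g hg
    unr := fun V hV hV' => h.unr n V hV hV' }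

theorem Tri.one (D : Subgroup (M ≃ₐ[k] M)) : Tri D (fun _ _ => (1 : Mˣ)) :=
  ⟨fun _ => 1, Lc1.const _ _, fun σ _ τ _ => by
    show (1 : Mˣ) * 1 = 1 * σ • (1 : Mˣ)
    rw [smul_one]⟩

theorem sys_of_sysG {K : IntermediateField k M} {ℓ : ℕ} (c : sysG k K M ℓ) :
    T1B.Sys k ℓ (c : ℕ → (M ≃ₐ[K] M) → (M ≃ₐ[K] M) → Mˣ) := c.2

/-- the last step: a power of the classes is trivial over a finite extension -/
theorem fin_step [IsAlgClosed M] (K : IntermediateField k M) (hK : ∀ x : M, IsAlgebraic K x)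
    (ℓ : ℕ) (hℓ : ℓ.Prime) (hℓk : (ℓ : k) ≠ 0) (p : ℕ) [ExpChar k p]
    (c : ℕ → (M ≃ₐ[K] M) → (M ≃ₐ[K] M) → Mˣ) (hc : T1B.Sys k ℓ c)
    (C : ℕ → (M ≃ₐ[k] M) → (M ≃ₐ[k] M) → Mˣ)
    (hCc : ∀ n σ τ, C n (rsh K σ) (rsh K τ) = c n σ τ) (S : Finset M) (hKS : K ≤ IntermediateField.adjoin k (S : Set M))
    (m : ℤ) (hm : m ≠ 0)
    (h : ∀ n, ∃ s : ℕ, Tri (Ge k (S : Set M)) (fun σ τ => C n σ τ ^ (m * (p : ℤ) ^ s))) :
    ∀ n, T1B.Triv (T1B.geo k K M) (c n) := by
  classical
  have hKalg : Algebra.IsAlgebraic K M := ⟨hK⟩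
  have hpℓ : p.Coprime ℓ := by
    have hpe : ExpChar k p := inferInstance
    cases hpe with
    | zero => exact Nat.coprime_one_left ℓ
    | prime hpp =>
      rw [Nat.coprime_primes hpp hℓ]
      rintro rfl
      exact hℓk (CharP.cast_eq_zero k p)
  have hNor : Normal K M := by
    have hcl : IsAlgClosure K M := ⟨inferInstance, hKalg⟩
    exact IsAlgClosure.normal K M
  let E' : IntermediateField K M := IntermediateField.adjoin K (S : Set M)
  have hEfin : FiniteDimensional K E' :=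
    IntermediateField.finiteDimensional_adjoin (fun x _ => (hK x).isIntegral)
  choose s hs using h
  refine TBR.fin9 K hℓ c hc E' m hm p hpℓ s fun n => ?_
  have hDK : Ge k (S : Set M) ≤ Fx k (K : Set M) := by
    intro σ hσ
    have h1 : σ ∈ Fx k (IntermediateField.adjoin k (S : Set M) : Set M) := by
      rw [Fx_adjoin]
      exact inf_le_left (a := Fx k (S : Set M)) hσ
    exact Fx_mono (fun x hx => hKS hx) h1
  have h6 := hs n
  rw [tri_iff K hK _ hDK] at h6
  have h7 : (Ge k (S : Set M)).comap (rsh K) = T1B.geo k K M ⊓ E'.fixingSubgroup := by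
    ext σ
    rw [Subgroup.mem_comap, Subgroup.mem_inf, IntermediateField.mem_fixingSubgroup_iff, mem_Ge]
    constructor
    · rintro ⟨h1, h2⟩
      refine ⟨h2, fun x hx => ?_⟩
      induction hx using IntermediateField.adjoin_induction with
      | mem x hx => exact h1 x hx
      | algebraMap x => exact σ.commutes x
      | add x y _ _ hx hy => exact (map_add σ x y).trans (by rw [hx, hy])
      | inv x _ hx => exact (map_inv₀ σ x).trans (by rw [hx])
      | mul x y _ _ hx hy => exact (map_mul σ x y).trans (by rw [hx, hy])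
    · rintro ⟨h1, h2⟩
      exact ⟨fun x hx => h2 x (IntermediateField.subset_adjoin K _ hx), h1⟩
  rw [h7] at h6
  refine h6.congr (fun σ _ τ _ => ?_)
  rw [hCc]


theorem Good.fg [IsAlgClosed M] {K₀ : IntermediateField k M} (hK₀ : K₀.FG) {z : M} {N : ℕ} {B₁ B₂ : k[X]}
    {L : IntermediateField k M} (h : Good K₀ z N B₁ B₂ L) : L.FG := by
  rcases h with ⟨K₁, K₂, h1, h2, -, -, rfl⟩ | ⟨e, -, rfl⟩
  · exact IntermediateField.fg_sup h1 h2
  · exact IntermediateField.fg_sup hK₀ ⟨{_}, by rw [Finset.coe_singleton]⟩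

theorem zpow_sum' {G ι : Type*} [CommGroup G] (s : Finset ι) (f : ι → ℤ) (x : G) :
    ∏ i ∈ s, x ^ f i = x ^ ∑ i ∈ s, f i := by
  classical
  induction s using Finset.induction_on with
  | empty => rw [Finset.prod_empty, Finset.sum_empty, zpow_zero]
  | insert a s ha ih => rw [Finset.prod_insert ha, Finset.sum_insert ha, ih, zpow_add]

/-- products over the valid indices -/
theorem prod_valid {G ι : Type*} [CommGroup G] [Fintype ι] (P : ι → Prop) [DecidablePred P]
    (u : ι → G) : (∏ i, if P i then u i else 1) = ∏ i : {i // P i}, u i := by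
  rw [← Finset.prod_filter]
  exact (Finset.prod_subtype (Finset.univ.filter P) (fun i => by simp) u)

theorem tri_prod {ι : Type*} {D : Subgroup (M ≃ₐ[k] M)} (s : Finset ι)
    {c : ι → (M ≃ₐ[k] M) → (M ≃ₐ[k] M) → Mˣ} (h : ∀ i ∈ s, Tri D (c i)) :
    Tri D (fun σ τ => ∏ i ∈ s, c i σ τ) := Pool.Agent.RDP.Tri.prod s h

/-- The linear algebra of the combination: if the relation holds, the stable families are trivial
and the other ones consist of the identity, a power of the class is trivial. -/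
theorem comb_alg {n m : ℕ} (K : Set M) (S : Finset M) (c : (M ≃ₐ[k] M) → (M ≃ₐ[k] M) → Mˣ)
    (hcl : Lc2 Set.univ c)
    (hinv : ∀ g ∈ Fx k K, Tri (Ge k K) (fun σ τ => tw g c σ τ * (c σ τ)⁻¹))
    (hKS : Ge k (S : Set M) ≤ Ge k K)
    (P : Fin n → Fin m → Prop) [∀ j i, Decidable (P j i)] (ψ : Fin n → Fin m → (M ≃ₐ[k] M))
    (e : Fin n → Fin m → ℤ) (q : ℤ)
    (hrel : Tri (Ge k (S : Set M)) (fun σ τ => ∏ j, ∏ i,
      if P j i then tw (ψ j i) c σ τ ^ (e j i * q) else 1))
    (t : Fin n → Prop) [DecidablePred t] (ht : ∀ j, t j → ∀ i, P j i → ψ j i ∈ Fx k K)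
    (μ : Fin n → ℕ)
    (hμ : ∀ j, ¬ t j → Tri (Ge k (S : Set M)) (fun σ τ =>
      (∏ i : {i // P j i}, tw (ψ j i) c σ τ ^ e j i) ^ μ j)) :
    Tri (Ge k (S : Set M)) (fun σ τ => c σ τ ^
      (((∑ j, if t j then ∑ i, (if P j i then e j i else 0) else 0) *
        ∏ j, if t j then 1 else (μ j : ℤ)) * q)) := by
  classical
  obtain ⟨Pr, hPr⟩ : ∃ Pr : ℤ, Pr = ∏ j, if t j then 1 else (μ j : ℤ) := ⟨_, rfl⟩
  rw [← hPr]
  -- the factors
  have h1 : ∀ j, t j → Tri (Ge k (S : Set M)) (fun σ τ =>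
      (∏ i, if P j i then tw (ψ j i) c σ τ ^ (e j i * q) else 1) *
        (c σ τ ^ ((∑ i, if P j i then e j i else 0) * q))⁻¹) := by
    intro j hj
    have h2 : Tri (Ge k (S : Set M)) (fun σ τ => ∏ i : Fin m,
        (if P j i then (tw (ψ j i) c σ τ * (c σ τ)⁻¹) ^ (e j i * q) else 1)) := by
      refine tri_prod Finset.univ (c := fun i σ τ =>
        if P j i then (tw (ψ j i) c σ τ * (c σ τ)⁻¹) ^ (e j i * q) else 1) fun i _ => ?_
      by_cases hP : P j i
      · simp only [if_pos hP]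
        exact ((hinv _ (ht j hj i hP)).mono hKS).zpow _
      · simp only [if_neg hP]
        exact Tri.one _
    refine h2.congr fun σ _ τ _ => ?_
    have h3 : c σ τ ^ ((∑ i, if P j i then e j i else 0) * q) =
        ∏ i : Fin m, (if P j i then c σ τ ^ (e j i * q) else 1) := by
      rw [Finset.sum_mul]
      have h4 : ∀ i : Fin m, (if P j i then c σ τ ^ (e j i * q) else 1) =
          c σ τ ^ ((if P j i then e j i else 0) * q) := by
        intro i
        split_ifs
        · rfl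
        · rw [zero_mul, zpow_zero]
      rw [Finset.prod_congr rfl fun i _ => h4 i]
      exact (zpow_sum' _ _ _).symm
    rw [h3, ← Finset.prod_inv_distrib, ← Finset.prod_mul_distrib]
    refine Finset.prod_congr rfl fun i _ => ?_
    split_ifs
    · rw [mul_zpow, inv_zpow]
    · rw [inv_one, mul_one]
  have h2 : ∀ j, ¬ t j → Tri (Ge k (S : Set M)) (fun σ τ =>
      (∏ i, if P j i then tw (ψ j i) c σ τ ^ (e j i * q) else 1) ^ Pr) := by
    intro j hj
    obtain ⟨Pj, hPj⟩ : (μ j : ℤ) ∣ Pr := by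
      rw [hPr]
      have h3 := Finset.dvd_prod_of_mem (fun j => if t j then (1 : ℤ) else (μ j : ℤ))
        (Finset.mem_univ j)
      simpa only [if_neg hj] using h3
    refine ((hμ j hj).zpow (Pj * q)).congr fun σ _ τ _ => ?_
    rw [prod_valid (P j) (fun i => tw (ψ j i) c σ τ ^ (e j i * q)), ← zpow_natCast, ← zpow_mul,
      hPj]
    have h3 : ∀ x : ℤ, (∏ i : {i // P j i}, tw (ψ j i) c σ τ ^ e j i) ^ x =
        ∏ i : {i // P j i}, tw (ψ j i) c σ τ ^ (e j i * x) := by
      intro x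
      rw [← Finset.prod_zpow]
      exact Finset.prod_congr rfl fun i _ => by rw [zpow_mul]
    rw [h3, ← Finset.prod_zpow]
    refine Finset.prod_congr rfl fun i _ => ?_
    rw [← zpow_mul]
    congr 1
    ring
  have h3 : Tri (Ge k (S : Set M)) (fun σ τ => ∏ j : Fin n,
      (if t j then c σ τ ^ ((∑ i, if P j i then e j i else 0) * q * Pr) else 1)) := by
    have h4 : Tri (Ge k (S : Set M)) (fun σ τ => ∏ j : Fin n,
        (if t j then ((∏ i, if P j i then tw (ψ j i) c σ τ ^ (e j i * q) else 1) *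
        (c σ τ ^ ((∑ i, if P j i then e j i else 0) * q))⁻¹) ^ Pr else
        (∏ i, if P j i then tw (ψ j i) c σ τ ^ (e j i * q) else 1) ^ Pr)) := by
      refine tri_prod Finset.univ (c := fun j σ τ =>
        (if t j then ((∏ i, if P j i then tw (ψ j i) c σ τ ^ (e j i * q) else 1) *
        (c σ τ ^ ((∑ i, if P j i then e j i else 0) * q))⁻¹) ^ Pr else
        (∏ i, if P j i then tw (ψ j i) c σ τ ^ (e j i * q) else 1) ^ Pr)) fun j _ => ?_
      by_cases hj : t j
      · simp only [if_pos hj]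
        exact (h1 j hj).zpow Pr
      · simp only [if_neg hj]
        exact h2 j hj
    refine ((hrel.zpow Pr).mul h4.inv).congr fun σ _ τ _ => ?_
    rw [← Finset.prod_zpow, ← Finset.prod_inv_distrib, ← Finset.prod_mul_distrib]
    refine Finset.prod_congr rfl fun j _ => ?_
    split_ifs
    · rw [mul_zpow, mul_inv, inv_zpow, inv_inv, ← mul_assoc, mul_inv_cancel, one_mul, ← zpow_mul]
    · rw [mul_inv_cancel]
  refine h3.congr fun σ _ τ _ => ?_
  have h5 : ∀ j : Fin n, (if t j then c σ τ ^ ((∑ i, if P j i then e j i else 0) * q * Pr) else 1) =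
      c σ τ ^ ((if t j then ∑ i, (if P j i then e j i else 0) else 0) * q * Pr) := by
    intro j
    split_ifs
    · rfl
    · rw [zero_mul, zero_mul, zpow_zero]
  rw [Finset.prod_congr rfl fun j _ => h5 j, zpow_sum']
  congr 1
  rw [← Finset.sum_mul, ← Finset.sum_mul]
  ring

end

end Pool.Agent.TUQ
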