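import Pool.Agent.TUQ.Vl

/-!
# Transport of the groups along an isomorphism of the algebraic closures
-/

set_option autoImplicit false

namespace Pool.Agent.TUQ

open Pool.Agent.T1B

universe u

section

variable {k M M' : Type u} [Field k] [Field M] [Field M'] [Algebra k M] [Algebra k M']
variable (e : M ≃ₐ[k] M') (K : IntermediateField k M) (K' : IntermediateField k M')
  (h : ∀ x : M, x ∈ K ↔ e x ∈ K')

/-- conjugation by `e` -/
def cjK (h : ∀ x : M, x ∈ K ↔ e x ∈ K') : (M' ≃ₐ[K'] M') →* (M ≃ₐ[K] M) where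
  toFun σ := AlgEquiv.ofRingEquiv
    (f := ((e : M ≃+* M').trans (σ : M' ≃+* M')).trans (e.symm : M' ≃+* M)) (fun x => by
      show e.symm (σ (e x)) = x
      have h1 : σ (e x) = e x := σ.commutes ⟨e x, (h x).1 x.2⟩
      rw [h1, e.symm_apply_apply])
  map_one' := by
    ext x
    show e.symm (e x) = x
    exact e.symm_apply_apply x
  map_mul' σ τ := by
    ext x
    show e.symm (σ (τ (e x))) = e.symm (σ (e (e.symm (τ (e x)))))
    rw [e.apply_symm_apply]

theorem cjK_apply (σ : M' ≃ₐ[K'] M') (x : M) : cjK e K K' h σ x = e.symm (σ (e x)) := rfl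

theorem h_symm (h : ∀ x : M, x ∈ K ↔ e x ∈ K') (x : M') : x ∈ K' ↔ e.symm x ∈ K := by
  rw [h, e.apply_symm_apply]

theorem cjK_symm (σ : M ≃ₐ[K] M) :
    cjK e K K' h (cjK e.symm K' K (h_symm e K K' h) σ) = σ := by
  ext x
  show e.symm (e (σ (e.symm (e x)))) = σ x
  rw [e.symm_apply_apply, e.symm_apply_apply]

/-- the units -/
def um (u : Mˣ) : M'ˣ := Units.map (e : M →* M') u

theorem um_mul (u v : Mˣ) : um e (u * v) = um e u * um e v := map_mul _ _ _

theorem um_inv (u : Mˣ) : um e u⁻¹ = (um e u)⁻¹ := map_inv _ _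

theorem um_pow (u : Mˣ) (n : ℕ) : um e (u ^ n) = um e u ^ n := map_pow _ _ _

theorem um_smul (σ : M' ≃ₐ[K'] M') (u : Mˣ) : σ • um e u = um e (cjK e K K' h σ • u) := by
  apply Units.ext
  show σ (e u) = e (e.symm (σ (e u)))
  rw [e.apply_symm_apply]

/-- the transported cochain -/
def trK (c : (M ≃ₐ[K] M) → (M ≃ₐ[K] M) → Mˣ) (σ τ : M' ≃ₐ[K'] M') : M'ˣ :=
  um e (c (cjK e K K' h σ) (cjK e K K' h τ))

include h in
theorem algK (halg : ∀ x : M, IsAlgebraic K x) (x : M') : IsAlgebraic K' x := by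
  obtain ⟨q, hq, hq0⟩ := halg (e.symm x)
  let i : K →+* K' := ((e : M →+* M').comp (algebraMap K M)).codRestrict K'.toSubfield
    fun x => (h x).1 x.2
  refine ⟨q.map i, (Polynomial.map_ne_zero_iff (RingHom.injective _)).2 hq, ?_⟩
  rw [Polynomial.aeval_def, Polynomial.eval₂_map]
  have h1 : (algebraMap K' M').comp i = (e : M →+* M').comp (algebraMap K M) := by
    ext x
    rfl
  have h2 : x = (e : M →+* M') (e.symm x) := (e.apply_symm_apply x).symm
  rw [h1, h2, ← Polynomial.hom_eval₂, ← Polynomial.aeval_def]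
  have h3 : (e.symm : M' ≃ₐ[k] M) ((e : M →+* M') (e.symm x)) = e.symm x := by
    show e.symm (e (e.symm x)) = e.symm x
    rw [e.symm_apply_apply]
  rw [hq0, map_zero]

theorem exists_E (halg : ∀ x : M, IsAlgebraic K x) (E : IntermediateField K M)
    (hE : FiniteDimensional K E) : ∃ E' : IntermediateField K' M', FiniteDimensional K' E' ∧
      ∀ σ σ' : M' ≃ₐ[K'] M', (∀ x ∈ E', σ x = σ' x) →
        ∀ x ∈ E, cjK e K K' h σ x = cjK e K K' h σ' x := by
  classical
  obtain ⟨S, hS⟩ : E.FG := IntermediateField.fg_of_fg_toSubalgebra E (Subalgebra.fg_of_fg_toSubmodule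
    (by rw [← Module.Finite.iff_fg]; exact hE))
  refine ⟨IntermediateField.adjoin K' (e '' (S : Set M)), ?_, ?_⟩
  · have hfin : (e '' (S : Set M)).Finite := S.finite_toSet.image e
    have := hfin.to_subtype
    exact IntermediateField.finiteDimensional_adjoin
      (fun x _ => (algK e K K' h halg x).isIntegral)
  · intro σ σ' hσ x hx
    rw [← hS] at hx
    induction hx using IntermediateField.adjoin_induction with
    | mem x hx =>
      rw [cjK_apply, cjK_apply, hσ _ (IntermediateField.subset_adjoin K' _ ⟨x, hx, rfl⟩)]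
    | algebraMap x => rw [AlgEquiv.commutes, AlgEquiv.commutes]
    | add x y _ _ hx hy => rw [map_add, map_add, hx, hy]
    | inv x _ hx => rw [map_inv₀, map_inv₀, hx]
    | mul x y _ _ hx hy => rw [map_mul, map_mul, hx, hy]

theorem cjK_geo {σ : M' ≃ₐ[K'] M'} : cjK e K K' h σ ∈ geo k K M ↔ σ ∈ geo k K' M' := by
  constructor
  · intro hσ x hx
    have h1 : IsAlgebraic k (e.symm x) := hx.algHom (e.symm : M' →ₐ[k] M)
    have h2 := hσ (e.symm x) h1
    rw [cjK_apply, e.apply_symm_apply] at h2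
    exact e.symm.injective h2
  · intro hσ x hx
    have h1 : IsAlgebraic k (e x) := hx.algHom (e : M →ₐ[k] M')
    rw [cjK_apply, hσ (e x) h1, e.symm_apply_apply]

theorem Triv.trK' (halg : ∀ x : M, IsAlgebraic K x) {D : Subgroup (M ≃ₐ[K] M)}
    {D' : Subgroup (M' ≃ₐ[K'] M')} (hD : ∀ σ ∈ D', cjK e K K' h σ ∈ D)
    {c : (M ≃ₐ[K] M) → (M ≃ₐ[K] M) → Mˣ} (hc : Triv D c) : Triv D' (trK e K K' h c) := by
  obtain ⟨b, ⟨E, hE, hb⟩, hcob⟩ := hc
  obtain ⟨E', hE', hE2⟩ := exists_E e K K' h halg E hE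
  refine ⟨fun σ => um e (b (cjK e K K' h σ)), ⟨E', hE', fun σ σ' hσ => ?_⟩, fun σ hσ τ hτ => ?_⟩
  · show um e (b (cjK e K K' h σ)) = um e (b (cjK e K K' h σ'))
    rw [hb _ _ (hE2 σ σ' hσ)]
  · show um e (c (cjK e K K' h σ) (cjK e K K' h τ)) * um e (b (cjK e K K' h (σ * τ))) =
      um e (b (cjK e K K' h σ)) * σ • um e (b (cjK e K K' h τ))
    rw [um_smul e K K' h, ← um_mul, ← um_mul, map_mul, hcob _ (hD σ hσ) _ (hD τ hτ)]

theorem Sys.trK (halg : ∀ x : M, IsAlgebraic K x) {ℓ : ℕ}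
    {c : ℕ → (M ≃ₐ[K] M) → (M ≃ₐ[K] M) → Mˣ} (hc : Sys k ℓ c) :
    Sys k ℓ (fun n => TUQ.trK e K K' h (c n)) where
  lc n := by
    obtain ⟨E, hE, hE1⟩ := hc.lc n
    obtain ⟨E', hE', hE2⟩ := exists_E e K K' h halg E hE
    refine ⟨E', hE', fun σ σ' τ τ' h1 h2 => ?_⟩
    show um e (c n _ _) = um e (c n _ _)
    rw [hE1 _ _ _ _ (hE2 σ σ' h1) (hE2 τ τ' h2)]
  coc n := by
    intro σ hσ τ hτ ρ hρ
    show um e (c n _ _) * um e (c n _ _) = σ • um e (c n _ _) * um e (c n _ _)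
    rw [um_smul e K K' h, ← um_mul, ← um_mul, map_mul, map_mul]
    congr 1
    exact hc.coc n _ ((cjK_geo e K K' h).2 hσ) _ ((cjK_geo e K K' h).2 hτ) _
      ((cjK_geo e K K' h).2 hρ)
  zero := Triv.trK' e K K' h halg (fun σ hσ => (cjK_geo e K K' h).2 hσ) hc.zero
  step n := by
    refine (Triv.trK' e K K' h halg (fun σ hσ => (cjK_geo e K K' h).2 hσ) (hc.step n)).congr
      fun σ _ τ _ => ?_
    show um e (c (n + 1) _ _ ^ ℓ * (c n _ _)⁻¹) = um e (c (n + 1) _ _) ^ ℓ * (um e (c n _ _))⁻¹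
    rw [um_mul, um_inv, um_pow]
  inv n g := by
    refine (Triv.trK' e K K' h halg (fun σ hσ => (cjK_geo e K K' h).2 hσ)
      (hc.inv n (cjK e K K' h g))).congr fun σ _ τ _ => ?_
    show um e (cjK e K K' h g • c n _ _ * (c n _ _)⁻¹) = g • um e (c n _ _) * (um e (c n _ _))⁻¹
    rw [um_mul, um_inv, um_smul e K K' h, map_mul, map_mul, map_mul, map_mul, map_inv]
  unr n V hV hV' := by
    refine Triv.trK' e K K' h halg (D := geo k K M ⊓ stab (V.comap (e : M →+* M')))
      (D' := geo k K' M' ⊓ stab V)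
      (fun σ hσ => ⟨(cjK_geo e K K' h).2 hσ.1, fun x => ?_⟩)
      (hc.unr n (V.comap (e : M →+* M')) (fun x => ?_) ?_)
    · show e (e.symm (σ (e x))) ∈ V ↔ e x ∈ V
      rw [e.apply_symm_apply]
      exact hσ.2 (e x)
    · show e (algebraMap k M x) ∈ V
      rw [e.commutes]
      exact hV x
    · intro htop
      apply hV'
      rw [eq_top_iff]
      intro x _
      have h1 : e.symm x ∈ V.comap (e : M →+* M') := by rw [htop]; trivial
      have h2 : e (e.symm x) ∈ V := h1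
      rwa [e.apply_symm_apply] at h2

/-- the transport of the systems -/
def sysH (halg : ∀ x : M, IsAlgebraic K x) (ℓ : ℕ) : sysG k K M ℓ →* sysG k K' M' ℓ where
  toFun c := ⟨fun n => trK e K K' h ((c : ℕ → (M ≃ₐ[K] M) → (M ≃ₐ[K] M) → Mˣ) n),
    Sys.trK e K K' h halg c.2⟩
  map_one' := by
    apply Subtype.ext
    funext n σ τ
    exact map_one (Units.map (e : M →* M'))
  map_mul' c d := by
    apply Subtype.ext
    funext n σ τ
    exact map_mul (Units.map (e : M →* M')) _ _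

/-- the transport of the groups -/
def vlH (halg : ∀ x : M, IsAlgebraic K x) (ℓ : ℕ) : Vl k K M ℓ →* Vl k K' M' ℓ :=
  QuotientGroup.map _ _ (sysH e K K' h halg ℓ) (fun c hc => by
    rw [Subgroup.mem_comap, Subgroup.mem_subgroupOf]
    intro n
    exact Triv.trK' e K K' h halg (fun σ hσ => (cjK_geo e K K' h).2 hσ)
      ((Subgroup.mem_subgroupOf.1 hc) n))

theorem vlH_injective (halg : ∀ x : M, IsAlgebraic K x) (ℓ : ℕ) :
    Function.Injective (vlH e K K' h halg ℓ) := by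
  rw [injective_iff_map_eq_one]
  intro x hx
  obtain ⟨c, rfl⟩ := QuotientGroup.mk_surjective x
  have h1 : vlH e K K' h halg ℓ (QuotientGroup.mk c) =
      QuotientGroup.mk (sysH e K K' h halg ℓ c) := rfl
  rw [h1, QuotientGroup.eq_one_iff, Subgroup.mem_subgroupOf] at hx
  rw [QuotientGroup.eq_one_iff, Subgroup.mem_subgroupOf]
  intro n
  have h2 := Triv.trK' e.symm K' K (h_symm e K K' h) (algK e K K' h halg)
    (D := geo k K' M') (D' := geo k K M) (fun σ hσ => (cjK_geo e.symm K' K _).2 hσ) (hx n)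
  refine h2.congr fun σ _ τ _ => ?_
  show um e.symm (um e (((c : sysG k K M ℓ) : ℕ → (M ≃ₐ[K] M) → (M ≃ₐ[K] M) → Mˣ) n
    (cjK e K K' h (cjK e.symm K' K (h_symm e K K' h) σ))
    (cjK e K K' h (cjK e.symm K' K (h_symm e K K' h) τ)))) = _
  rw [cjK_symm, cjK_symm]
  apply Units.ext
  exact e.symm_apply_apply _

end

end Pool.Agent.TUQ
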