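import Pool.Agent.TUQ.F6
import Pool.Agent.TUQ.F7
import Pool.Agent.T1B.Dominated

/-!
# Restriction to a finite extension is injective
-/

set_option autoImplicit false

namespace Pool.Agent.TUQ

open Pool.Agent.T1B

universe u

section

variable {k F F' Ω : Type u} [Field k] [Field F] [Field F'] [Field Ω] [Algebra F F']
  [Algebra F Ω] [Algebra F' Ω] [IsScalarTower F F' Ω] [Algebra k Ω]

/-- restriction of the systems -/
def resS [Algebra.IsIntegral F' Ω] (ℓ : ℕ) : sysG k F Ω ℓ →* sysG k F' Ω ℓ where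
  toFun c := ⟨fun n (σ τ : Ω ≃ₐ[F'] Ω) =>
    (c : ℕ → (Ω ≃ₐ[F] Ω) → (Ω ≃ₐ[F] Ω) → Ωˣ) n (T1B.res F σ) (T1B.res F τ), sys_res c.2⟩
  map_one' := rfl
  map_mul' _ _ := rfl

/-- restriction -/
def resV [Algebra.IsIntegral F' Ω] (ℓ : ℕ) : Vl k F Ω ℓ →* Vl k F' Ω ℓ :=
  QuotientGroup.map _ _ (resS ℓ) (fun c hc => by
    rw [Subgroup.mem_comap, Subgroup.mem_subgroupOf]
    intro n
    exact Triv.res (F := F) (F' := F') (D := geo k F Ω) (fun _ hσ => hσ)
      ((Subgroup.mem_subgroupOf.1 hc) n))

theorem resV_injective [Algebra.IsIntegral F' Ω] [Normal F Ω] [FiniteDimensional F F'] {ℓ : ℕ}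
    (hℓ : ℓ.Prime) : Function.Injective (resV (k := k) (F := F) (F' := F') (Ω := Ω) ℓ) := by
  rw [injective_iff_map_eq_one]
  intro x hx
  obtain ⟨c, rfl⟩ := QuotientGroup.mk_surjective x
  have h0 : resV (k := k) (F := F) (F' := F') (Ω := Ω) ℓ (QuotientGroup.mk c) =
      QuotientGroup.mk (resS ℓ c) := rfl
  rw [h0, QuotientGroup.eq_one_iff, Subgroup.mem_subgroupOf] at hx
  rw [QuotientGroup.eq_one_iff, Subgroup.mem_subgroupOf]
  intro n
  have hfd : FiniteDimensional F (IsScalarTower.toAlgHom F F' Ω).fieldRange :=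
    (IsScalarTower.toAlgHom F F' Ω).toLinearMap.finiteDimensional_range
  have hfin : Finite (Emb (geo k F Ω) (IsScalarTower.toAlgHom F F' Ω).fieldRange) := inferInstance
  have hft : Fintype (Emb (geo k F Ω) (IsScalarTower.toAlgHom F F' Ω).fieldRange) :=
    Fintype.ofFinite _
  have hne : Nonempty (Emb (geo k F Ω) (IsScalarTower.toAlgHom F F' Ω).fieldRange) :=
    ⟨⟨IntermediateField.val _, 1, Subgroup.one_mem _, fun _ => rfl⟩⟩
  have hc : Sys k ℓ (c : ℕ → (Ω ≃ₐ[F] Ω) → (Ω ≃ₐ[F] Ω) → Ωˣ) := c.2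
  refine hc.triv_of_pow hℓ (m := Fintype.card (Emb (geo k F Ω)
    (IsScalarTower.toAlgHom F F' Ω).fieldRange)) Fintype.card_pos (fun n => ?_) n
  exact transfer (hc.lc n) (hc.coc n) (Triv.of_res (hx n))

end

theorem vl_res {k M : Type u} [Field k] [Field M] [Algebra k M] [IsAlgClosed M]
    (K L : IntermediateField k M) (hKL : K ≤ L) (hL : L.FG) (hK : ∀ x : M, IsAlgebraic K x)
    {ℓ : ℕ} (hℓ : ℓ.Prime) : ∃ f : Vl k K M ℓ →* Vl k L M ℓ, Function.Injective f := by
  let _ : Algebra K L := (IntermediateField.inclusion hKL).toRingHom.toAlgebra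
  have h1 : IsScalarTower K L M := IsScalarTower.of_algebraMap_eq fun _ => rfl
  have hKalg : Algebra.IsAlgebraic K M := ⟨hK⟩
  have hNor : Normal K M := by
    have hcl : IsAlgClosure K M := ⟨inferInstance, hKalg⟩
    exact IsAlgClosure.normal K M
  have h2 : Algebra.IsIntegral L M := ⟨fun x => ((hK x).isIntegral).tower_top⟩
  have h3 : FiniteDimensional K L := by
    obtain ⟨S, hS⟩ := hL
    have h4 : FiniteDimensional K (IntermediateField.adjoin K (S : Set M)) :=
      IntermediateField.finiteDimensional_adjoin (fun x _ => (hK x).isIntegral)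
    have h5 : L ≤ (IntermediateField.adjoin K (S : Set M)).restrictScalars k := by
      rw [← hS, IntermediateField.adjoin_le_iff]
      exact IntermediateField.subset_adjoin K _
    let f : L →ₗ[K] IntermediateField.adjoin K (S : Set M) :=
      { toFun := fun x => ⟨x, h5 x.2⟩
        map_add' := fun _ _ => rfl
        map_smul' := fun _ _ => rfl }
    exact FiniteDimensional.of_injective f (fun x y h => by
      have := congrArg Subtype.val h
      exact Subtype.ext this)
  exact ⟨resV ℓ, resV_injective hℓ⟩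

/-- a finitely generated field in `κ(θ)` -/
theorem exists_K1 {k M : Type u} [Field k] [Field M] [Algebra k M] (κ K : IntermediateField k M)
    (θ : M) (hK : K.FG) (h : K ≤ κ ⊔ IntermediateField.adjoin k {θ}) :
    ∃ K₁ : IntermediateField k M, K₁.FG ∧ K₁ ≤ κ ∧ K ≤ K₁ ⊔ IntermediateField.adjoin k {θ} := by
  classical
  obtain ⟨S, hS⟩ := hK
  have h1 : ∀ x ∈ κ ⊔ IntermediateField.adjoin k {θ}, ∃ T : Finset M, (T : Set M) ⊆ κ ∧
      x ∈ IntermediateField.adjoin k (T : Set M) ⊔ IntermediateField.adjoin k {θ} := by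
    intro x hx
    have h2 : κ ⊔ IntermediateField.adjoin k {θ} =
        IntermediateField.adjoin k ((κ : Set M) ∪ {θ}) := by
      rw [IntermediateField.adjoin_union, IntermediateField.adjoin_self]
    rw [h2] at hx
    induction hx using IntermediateField.adjoin_induction with
    | mem x hx =>
      rcases hx with hx | hx
      · refine ⟨{x}, by simpa using hx, ?_⟩
        exact (le_sup_left : IntermediateField.adjoin k (({x} : Finset M) : Set M) ≤ _)
          (IntermediateField.subset_adjoin k _ (by simp))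
      · refine ⟨∅, by simp, ?_⟩
        exact (le_sup_right : IntermediateField.adjoin k {θ} ≤ _)
          (IntermediateField.subset_adjoin k _ hx)
    | algebraMap x => exact ⟨∅, by simp, IntermediateField.algebraMap_mem _ x⟩
    | add x y _ _ hx hy =>
      obtain ⟨T, hT, hx⟩ := hx
      obtain ⟨T', hT', hy⟩ := hy
      refine ⟨T ∪ T', by rw [Finset.coe_union]; exact Set.union_subset hT hT', add_mem ?_ ?_⟩
      · exact sup_le_sup_right (IntermediateField.adjoin.mono k _ _
          (by rw [Finset.coe_union]; exact Set.subset_union_left)) _ hx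
      · exact sup_le_sup_right (IntermediateField.adjoin.mono k _ _
          (by rw [Finset.coe_union]; exact Set.subset_union_right)) _ hy
    | inv x _ hx =>
      obtain ⟨T, hT, hx⟩ := hx
      exact ⟨T, hT, inv_mem hx⟩
    | mul x y _ _ hx hy =>
      obtain ⟨T, hT, hx⟩ := hx
      obtain ⟨T', hT', hy⟩ := hy
      refine ⟨T ∪ T', by rw [Finset.coe_union]; exact Set.union_subset hT hT', mul_mem ?_ ?_⟩
      · exact sup_le_sup_right (IntermediateField.adjoin.mono k _ _
          (by rw [Finset.coe_union]; exact Set.subset_union_left)) _ hx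
      · exact sup_le_sup_right (IntermediateField.adjoin.mono k _ _
          (by rw [Finset.coe_union]; exact Set.subset_union_right)) _ hy
  have h2 : ∀ x : M, ∃ T : Finset M, x ∈ K → (T : Set M) ⊆ κ ∧
      x ∈ IntermediateField.adjoin k (T : Set M) ⊔ IntermediateField.adjoin k {θ} := by
    intro x
    by_cases hx : x ∈ K
    · obtain ⟨T, hT⟩ := h1 x (h hx)
      exact ⟨T, fun _ => hT⟩
    · exact ⟨∅, fun h' => absurd h' hx⟩
  choose T hT using h2
  have hSK : ∀ x ∈ S, x ∈ K := fun x hx => by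
    rw [← hS]
    exact IntermediateField.subset_adjoin k _ hx
  refine ⟨IntermediateField.adjoin k (S.biUnion T : Set M), ⟨S.biUnion T, rfl⟩, ?_, ?_⟩
  · rw [IntermediateField.adjoin_le_iff, Finset.coe_biUnion]
    exact Set.iUnion₂_subset fun x hx => (hT x (hSK x hx)).1
  · rw [← hS, IntermediateField.adjoin_le_iff]
    intro x hx
    refine sup_le_sup_right (IntermediateField.adjoin.mono k _ _ ?_) _ (hT x (hSK x hx)).2
    rw [Finset.coe_biUnion]
    exact Set.subset_biUnion_of_mem (u := fun x => (T x : Set M)) hx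

/-- the case that `K` is contained in `κ(θ)` -/
theorem nu_case {k M : Type u} [Field k] [Field M] [Algebra k M] [IsAlgClosed M]
    (K : IntermediateField k M) (hfg : K.FG) (hK : ∀ x : M, IsAlgebraic K x) (hNU : ¬ NU K) :
    ∃ K₁ K₂ : IntermediateField k M, K₁.FG ∧ K₂.FG ∧ Algebra.trdeg k K₁ ≤ 1 ∧
      Algebra.trdeg k K₂ ≤ 1 ∧ (∀ x : M, IsAlgebraic (K₁ ⊔ K₂ : IntermediateField k M) x) ∧
      ∀ ℓ : ℕ, ℓ.Prime → ∃ f : Vl k K M ℓ →* Vl k (K₁ ⊔ K₂ : IntermediateField k M) M ℓ,
        Function.Injective f := by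
  unfold NU at hNU
  push Not at hNU
  obtain ⟨κ, θ, hκ, hκ1, hle⟩ := hNU
  obtain ⟨K₁, h1, h2, h3⟩ := exists_K1 κ K θ hfg hle
  have hfg2 : (K₁ ⊔ IntermediateField.adjoin k {θ}).FG :=
    IntermediateField.fg_sup h1 ⟨{θ}, by rw [Finset.coe_singleton]⟩
  refine ⟨K₁, IntermediateField.adjoin k {θ}, h1, ⟨{θ}, by rw [Finset.coe_singleton]⟩, ?_, ?_,
    fun x => ?_, fun ℓ hℓ => vl_res K _ h3 hfg2 hK hℓ⟩
  · exact (trdeg_le_of_injective (IntermediateField.inclusion h2)
      (IntermediateField.inclusion_injective h2)).trans hκ1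
  · have := trdeg_adjoin_le_mk (k := k) ({θ} : Set M)
    rwa [Cardinal.mk_singleton] at this
  · obtain ⟨q, hq, hq0⟩ := hK x
    refine ⟨q.map (IntermediateField.inclusion h3 : K →+* _), ?_, ?_⟩
    · exact (Polynomial.map_ne_zero_iff (RingHom.injective _)).2 hq
    · rw [Polynomial.aeval_def, Polynomial.eval₂_map]
      exact hq0

end Pool.Agent.TUQ
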