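import Pool.Agent.TUQ.F3
import Pool.Agent.TUQ.F8

set_option maxSynthPendingDepth 3

/-!
# The assembly of the theorem
-/

set_option autoImplicit false

namespace Pool.Agent.TUQ

open Polynomial Pool.Agent.TBR Pool.Agent.UQ

universe u

section

variable {k M M' : Type u} [Field k] [Field M] [Field M'] [Algebra k M] [Algebra k M']

theorem mem_map_iff (e : M ≃ₐ[k] M') (K : IntermediateField k M) (x : M) :
    x ∈ K ↔ e x ∈ K.map (e : M →ₐ[k] M') := by
  constructor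
  · intro hx
    exact ⟨x, hx, rfl⟩
  · rintro ⟨y, hy, hyx⟩
    have h1 : y = x := e.injective hyx
    rwa [← h1]

theorem map_map_symm (e : M ≃ₐ[k] M') (K : IntermediateField k M) :
    (K.map (e : M →ₐ[k] M')).map (e.symm : M' →ₐ[k] M) = K := by
  rw [IntermediateField.map_map]
  have h1 : (e.symm : M' →ₐ[k] M).comp (e : M →ₐ[k] M') = AlgHom.id k M := by
    ext x
    exact e.symm_apply_apply x
  rw [h1, IntermediateField.map_id]

theorem map_sup_adjoin (e : M →ₐ[k] M') (K : IntermediateField k M) (z : M) :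
    (K ⊔ IntermediateField.adjoin k {z}).map e =
      K.map e ⊔ IntermediateField.adjoin k {e z} := by
  rw [IntermediateField.map_sup, IntermediateField.adjoin_map, Set.image_singleton]

theorem map_closed (e : M →ₐ[k] M') (κ : IntermediateField k M) (h : IsAlgClosed κ) :
    IsAlgClosed (κ.map e) :=
  IsAlgClosed.of_ringEquiv κ (κ.map e) (κ.equivMap e).toRingEquiv

theorem map_trdeg (e : M →ₐ[k] M') (κ : IntermediateField k M) :
    Algebra.trdeg k (κ.map e) = Algebra.trdeg k κ :=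
  (κ.equivMap e).trdeg_eq.symm

theorem map_fg (e : M →ₐ[k] M') (κ : IntermediateField k M) (h : κ.FG) : (κ.map e).FG := by
  classical
  obtain ⟨S, hS⟩ := h
  refine ⟨S.image e, ?_⟩
  rw [Finset.coe_image, ← IntermediateField.adjoin_map, hS]

theorem NU.congr (e : M ≃ₐ[k] M') {K : IntermediateField k M} (h : NU K) :
    NU (K.map (e : M →ₐ[k] M')) := by
  intro κ θ hκ hκ1 hle
  refine h (κ.map (e.symm : M' →ₐ[k] M)) (e.symm θ) (map_closed _ κ hκ)
    ((map_trdeg _ κ).le.trans hκ1) ?_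
  have h1 := IntermediateField.map_mono (e.symm : M' →ₐ[k] M) hle
  rw [map_map_symm, map_sup_adjoin] at h1
  exact h1

theorem Good.congr [IsAlgClosed M] (e : M ≃ₐ[k] M') {K₀ : IntermediateField k M} {z : M} {N : ℕ}
    {B₁ B₂ : k[X]} {L : IntermediateField k M'}
    (h : Good (K₀.map (e : M →ₐ[k] M')) (e z) N B₁ B₂ L) :
    Good K₀ z N B₁ B₂ (L.map (e.symm : M' →ₐ[k] M)) := by
  rcases h with ⟨K₁, K₂, h1, h2, h3, h4, rfl⟩ | ⟨d, hd, rfl⟩
  · left
    exact ⟨K₁.map _, K₂.map _, map_fg _ _ h1, map_fg _ _ h2, (map_trdeg _ K₁).le.trans h3,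
      (map_trdeg _ K₂).le.trans h4, IntermediateField.map_sup _ _ _⟩
  · right
    rw [bds_congr e] at hd
    refine ⟨d, hd, ?_⟩
    rw [map_sup_adjoin, map_map_symm]
    congr 3
    show e.symm (e z ^ (N / N.gcd d)) = z ^ (N / N.gcd d)
    rw [map_pow, e.symm_apply_apply]

end

theorem pi_comp_aux {G H : Type*} [MulOneClass G] [MulOneClass H] {J : Type*} {V W : J → Type*}
    [∀ j, MulOneClass (V j)] [∀ j, MulOneClass (W j)] (a : G →* H) (ha : Function.Injective a)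
    (f : H →* ∀ j, V j) (hf : Function.Injective f) (b : ∀ j, V j →* W j)
    (hb : ∀ j, Function.Injective (b j)) : ∃ g : G →* ∀ j, W j, Function.Injective g := by
  refine ⟨(MonoidHom.pi fun j => (b j).comp ((Pi.evalMonoidHom _ j).comp f)).comp a, ?_⟩
  intro x y hxy
  apply ha
  apply hf
  funext j
  exact hb j (congrFun hxy j)

theorem pi_const_aux {G W : Type*} [MulOneClass G] [MulOneClass W] (f : G →* W)
    (hf : Function.Injective f) : ∃ g : G →* (Fin 1 → W), Function.Injective g :=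
  ⟨MonoidHom.pi fun _ => f, fun _ _ h => hf (congrFun h 0)⟩

theorem final {k M : Type u} [Field k] [Field M] [Algebra k M] [IsAlgClosed M]
    (hR : ∀ (Ω : Type u) [Field Ω] [Algebra k Ω], BlockR k Ω)
    (hG : ∀ (Ω : Type u) [Field Ω] [Algebra k Ω], BlockG k Ω)
    (hI : ∀ (A : Type u) [Field A] [Algebra k A], InvSt k A)
    (K₀ : IntermediateField k M) (hfg : K₀.FG) (htd : Algebra.trdeg k M = 2)
    (hal : ∀ x : M, IsAlgebraic K₀ x) (N : ℕ) (B₁ B₂ : k[X]) (hb : Bc k M N B₁ B₂)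
    (z : M) (z0 : z ≠ 0) (zN : z ^ N ∈ K₀)
    (irr : Irreducible (X ^ N - C (⟨z ^ N, zN⟩ : K₀)))
    (L : Type u) [Field L] [Algebra k L] [Algebra K₀ L] [IsScalarTower k K₀ L] (a w : L)
    (ha : Transcendental K₀ a)
    (hw : w ^ N * aeval a B₁ = algebraMap K₀ L ⟨z ^ N, zN⟩ * aeval a B₂)
    (hgen : IntermediateField.adjoin K₀ {a, w} = ⊤) (hL : Uniruled k L) :
    ∃ (n : ℕ) (L' : Fin n → IntermediateField k M),
      (∀ j, Good K₀ z N B₁ B₂ (L' j) ∧ ∀ x : M, IsAlgebraic (L' j) x) ∧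
      ∀ ℓ : ℕ, ℓ.Prime → (ℓ : k) ≠ 0 →
        ∃ f : Vl k (K₀ ⊔ IntermediateField.adjoin k {z} : IntermediateField k M) M ℓ →*
          (∀ j, Vl k (L' j) M ℓ), Function.Injective f := by
  obtain ⟨K, hKdef⟩ : ∃ K, K = K₀ ⊔ IntermediateField.adjoin k {z} := ⟨_, rfl⟩
  have hK₀K : K₀ ≤ K := by rw [hKdef]; exact le_sup_left
  have hKal : ∀ x : M, IsAlgebraic K x := by
    intro x
    obtain ⟨q, hq, hq0⟩ := hal x
    refine ⟨q.map (IntermediateField.inclusion hK₀K : K₀ →+* K), ?_, ?_⟩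
    · exact (Polynomial.map_ne_zero_iff (RingHom.injective _)).2 hq
    · rw [Polynomial.aeval_def, Polynomial.eval₂_map]
      exact hq0
  have hKfg : K.FG := by
    rw [hKdef]
    exact IntermediateField.fg_sup hfg ⟨{z}, by rw [Finset.coe_singleton]⟩
  have hN0 : 0 < N := by
    rcases Nat.eq_zero_or_pos N with h | h
    · exact absurd (by rw [h, Nat.cast_zero]) hb.N0
    · exact h
  by_cases hdv : ∀ e ∈ bds k M B₁ B₂, ¬ N ∣ e
  swap
  · push Not at hdv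
    obtain ⟨e, he, hNe⟩ := hdv
    rw [← hKdef]
    refine ⟨1, fun _ => K, fun _ => ⟨Or.inr ⟨e, he, ?_⟩, hKal⟩, fun ℓ _ _ =>
      ⟨MonoidHom.pi fun _ => MonoidHom.id _, fun x y h => congrFun h 0⟩⟩
    rw [Nat.gcd_eq_left hNe, Nat.div_self hN0, pow_one, hKdef]
  by_cases hNU : NU K
  swap
  · obtain ⟨K₁, K₂, h1, h2, h3, h4, h5, h6⟩ := nu_case K hKfg hKal hNU
    rw [← hKdef]
    refine ⟨1, fun _ => K₁ ⊔ K₂, fun _ => ⟨Or.inl ⟨K₁, K₂, h1, h2, h3, h4, rfl⟩, h5⟩,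
      fun ℓ hℓ _ => ?_⟩
    obtain ⟨f, hf⟩ := h6 ℓ hℓ
    exact @pi_const_aux _ _ _ _ f hf
  obtain ⟨Ω, _, _, A, H, e, a', w', U, t, hΩ, hA, hH, hc⟩ := setup K₀ hfg htd hal N B₁ B₂ hb hdv z
    z0 zN irr L a w ha hw hgen hL
  have hNU' : NU (K₀.map (e : M →ₐ[k] A) ⊔ IntermediateField.adjoin k {e z}) := by
    have h1 := hNU.congr e
    rw [hKdef, map_sup_adjoin] at h1
    exact h1
  obtain ⟨n, L₁, hL₁, hf⟩ := combine (hR Ω) (hG Ω) A H (hI A) (K₀.map (e : M →ₐ[k] A)) (e z) N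
    B₁ B₂ a' w' U t hc hNU'
  have hL₁e : ∀ j x, x ∈ L₁ j ↔ e.symm x ∈ (L₁ j).map (e.symm : A →ₐ[k] M) := fun j x =>
    mem_map_iff e.symm (L₁ j) x
  refine ⟨n, fun j => (L₁ j).map (e.symm : A →ₐ[k] M), fun j => ⟨(hL₁ j).1.congr e, fun x =>
    algK e.symm (L₁ j) _ (hL₁e j) (hL₁ j).2 x⟩, fun ℓ hℓ hℓk => ?_⟩
  obtain ⟨f, hf⟩ := hf ℓ hℓ hℓk
  have hKe : ∀ x : M, x ∈ (K₀ ⊔ IntermediateField.adjoin k {z} : IntermediateField k M) ↔
      e x ∈ (K₀.map (e : M →ₐ[k] A) ⊔ IntermediateField.adjoin k {e z} :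
        IntermediateField k A) := by
    intro x
    have h1 : K₀.map (e : M →ₐ[k] A) ⊔ IntermediateField.adjoin k {e z} =
      (K₀ ⊔ IntermediateField.adjoin k {z}).map (e : M →ₐ[k] A) :=
        (map_sup_adjoin (e : M →ₐ[k] A) K₀ z).symm
    rw [h1]
    exact mem_map_iff e _ x
  rw [hKdef] at hKal
  exact @pi_comp_aux _ _ _ _ _ _ _ _ _ (vlH e _ _ hKe hKal ℓ) (vlH_injective e _ _ hKe hKal ℓ)
    f hf (fun j => vlH e.symm (L₁ j) _ (hL₁e j) (hL₁ j).2 ℓ)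
    (fun j => vlH_injective e.symm (L₁ j) _ (hL₁e j) (hL₁ j).2 ℓ)

end Pool.Agent.TUQ
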