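import Pool.Agent.TUQ.G8

/-!
# The invariance of the multiset of residue embeddings on a disc
-/

set_option autoImplicit false

namespace Pool.Agent.TUQ

open Polynomial Pool.Agent.TBR

universe u

section

variable {k Ω : Type u} [Field k] [Field Ω] [Algebra k Ω]
variable {A : IntermediateField k Ω} {V : ValuationSubring Ω} {r : V →+* Ω}

/-- `e` is the residue embedding of the embedding `ξ` -/
def IsResE (A : IntermediateField k Ω) {V : ValuationSubring Ω} (r : V →+* Ω) {K : Type u} [Field K]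
    [Algebra k K] (ξ : K →ₐ[k] Ω) (e : K →ₐ[k] A) : Prop :=
  ∀ x, ∃ h : ξ x ∈ V, r ⟨ξ x, h⟩ = e x

theorem exists_resE (hr : IsRes A V r) {K : Type u} [Field K] [Algebra k K] (ξ : K →ₐ[k] Ω)
    (h : ∀ x, ξ x ∈ V) : ∃ e : K →ₐ[k] A, IsResE A r ξ e :=
  ⟨{ toFun := fun x => ⟨r ⟨ξ x, h x⟩, hr.mem _⟩
     map_one' := Subtype.ext (by
      have : (⟨ξ 1, h 1⟩ : V) = 1 := Subtype.ext (map_one ξ)
      change r ⟨ξ 1, h 1⟩ = 1
      rw [this, map_one])
     map_mul' := fun x y => Subtype.ext (by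
      have : (⟨ξ (x * y), h _⟩ : V) = ⟨ξ x, h x⟩ * ⟨ξ y, h y⟩ := Subtype.ext (map_mul ξ x y)
      change r ⟨ξ (x * y), h _⟩ = r ⟨ξ x, h x⟩ * r ⟨ξ y, h y⟩
      rw [this, map_mul])
     map_zero' := Subtype.ext (by
      have : (⟨ξ 0, h 0⟩ : V) = 0 := Subtype.ext (map_zero ξ)
      change r ⟨ξ 0, h 0⟩ = 0
      rw [this, map_zero])
     map_add' := fun x y => Subtype.ext (by
      have : (⟨ξ (x + y), h _⟩ : V) = ⟨ξ x, h x⟩ + ⟨ξ y, h y⟩ := Subtype.ext (map_add ξ x y)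
      change r ⟨ξ (x + y), h _⟩ = r ⟨ξ x, h x⟩ + r ⟨ξ y, h y⟩
      rw [this, map_add])
     commutes' := fun c => Subtype.ext (by
      have h1 : ξ (algebraMap k K c) = algebraMap k Ω c := ξ.commutes c
      have h2 : algebraMap k Ω c ∈ V := h1 ▸ h (algebraMap k K c)
      have : (⟨ξ (algebraMap k K c), h _⟩ : V) = ⟨algebraMap k Ω c, h2⟩ := Subtype.ext h1
      change r ⟨ξ (algebraMap k K c), h _⟩ = _
      rw [this]
      exact hr.alg c h2) }, fun x => ⟨h x, rfl⟩⟩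

/-- embeddings which agree on generators are equal -/
theorem hom_ext {K : Type u} [Field K] [Algebra k K] {E : Type*} [Field E] [Algebra k E]
    {ι : Type*} (g : ι → K)
    (hK : IntermediateField.adjoin k (Set.range g) = ⊤) (e e' : K →ₐ[k] E)
    (h : ∀ j, e (g j) = e' (g j)) : e = e' := by
  have h1 : (⊤ : IntermediateField k K) ≤ (AlgHom.equalizer e e').toIntermediateField (by
      intro x hx
      change e x⁻¹ = e' x⁻¹
      rw [map_inv₀, map_inv₀, show e x = e' x from hx]) := by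
    rw [← hK, IntermediateField.adjoin_le_iff]
    rintro _ ⟨j, rfl⟩
    exact h j
  ext x
  exact h1 (IntermediateField.mem_top (x := x))

variable {hr : IsRes A V r} {hV : ∀ x ∈ A, x ∈ V} {H : IntermediateField k Ω}

/-- the formula for the residue embedding -/
theorem resE_formula [IsAlgClosed H] {α π : H} {p q : H[X]} {ϖ β : H} {P₁ Q₁ : (VH V H)[X]}
    (h : RD hr hV H α π p q ϖ β P₁ Q₁) (hπ : π ≠ 0) (u : Ω) (hu : u * ϖ ∈ V)
    (T : Ω) (hT : Gen hr hV H α π T) (y : Ω) (hy : y ∈ V) (hyT : y * aeval T q = aeval T p * u) :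
    r ⟨y, hy⟩ * aeval (rT r α π T) (Q₁.map (rH hr hV H)) =
      aeval (rT r α π T) (P₁.map (rH hr hV H)) * r ⟨_, hu⟩ := by
  obtain ⟨hx, hx'⟩ := hT
  obtain ⟨h1, h2⟩ := h.res hπ T hx hx'
  rw [rT_of α π hx, ← h2]
  have hq := h.Q_ne hπ T hx hx'
  have hϖ : (ϖ : Ω) ≠ 0 := by simpa using h.ϖ0
  have h3 : (⟨y, hy⟩ : V) = ⟨_, h1⟩ * ⟨_, hu⟩ := by
    apply Subtype.ext
    change y = aeval T p / aeval T q / ϖ * (u * ϖ)
    rw [← mul_right_inj' hq, mul_comm _ y, hyT]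
    field_simp
  rw [h3, map_mul]
  ring

/-- the formula for the residue embedding, in `A` -/
theorem resE_formulaA [IsAlgClosed H] {α π : H} {p q : H[X]} {ϖ β : H} {P₁ Q₁ : (VH V H)[X]}
    (h : RD hr hV H α π p q ϖ β P₁ Q₁) (hπ : π ≠ 0) (u : Ω) (hu : u * ϖ ∈ V)
    (T : Ω) (hT : Gen hr hV H α π T) (y : Ω) (hy : y ∈ V) (hyT : y * aeval T q = aeval T p * u) :
    (⟨r ⟨y, hy⟩, hr.mem _⟩ : A) * (pA hr hV H Q₁).eval (rA hr α π T) =
      (pA hr hV H P₁).eval (rA hr α π T) * ⟨r ⟨_, hu⟩, hr.mem _⟩ := by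
  apply Subtype.ext
  change r ⟨y, hy⟩ * (((pA hr hV H Q₁).eval (rA hr α π T) : A) : Ω) =
    (((pA hr hV H P₁).eval (rA hr α π T) : A) : Ω) * r ⟨_, hu⟩
  rw [pA_eval, pA_eval, rA_coe]
  exact resE_formula h hπ u hu T hT y hy hyT

variable {α π : H} {P Q : H[X]} {ϖ β : H} {P₁ Q₁ : (VH V H)[X]}

open scoped Classical in
/-- the multiset of the residue embeddings of the generic roots of `P - y Q` is stable -/
theorem RD.E_inv [IsAlgClosed Ω] [IsAlgClosed H] [IsAlgClosed A]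
    (h : RD hr hV H α π P Q ϖ β P₁ Q₁) (hπ : π ≠ 0)
    (y : Ω) (hY : y / ϖ ∈ V) (h0 : redEq hr hV H P₁ Q₁ (r ⟨_, hY⟩) ≠ 0)
    {K : Type u} [Field K] [Algebra k K] {ι : Type*} (g : ι → K)
    (hK : IntermediateField.adjoin k (Set.range g) = ⊤)
    (p q : ι → H[X]) (ϖg βg : ι → H) (Pg Qg : ι → (VH V H)[X])
    (hg : ∀ j, RD hr hV H α π (p j) (q j) (ϖg j) (βg j) (Pg j) (Qg j))
    (u : ι → Ω) (hu : ∀ j, u j * ϖg j ∈ V)
    (e : Ω → (K →ₐ[k] A))
    (he : ∀ T, Gen hr hV H α π T → aeval T P = y * aeval T Q →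
      ∃ ξ : K →ₐ[k] Ω, (∀ j, ξ (g j) * aeval T (q j) = aeval T (p j) * u j) ∧
        IsResE A r ξ (e T))
    (σ : A ≃ₐ[k] A)
    (hσκ : ∀ x : A, ((σ x : A) : Ω) ∈ kap hr hV H ↔ (x : Ω) ∈ kap hr hV H)
    (hση : σ ⟨r ⟨_, hY⟩, hr.mem _⟩ = ⟨r ⟨_, hY⟩, hr.mem _⟩)
    (hσP : FixC σ (pA hr hV H P₁)) (hσQ : FixC σ (pA hr hV H Q₁))
    (hσPg : ∀ j, FixC σ (pA hr hV H (Pg j)))
    (hσQg : ∀ j, FixC σ (pA hr hV H (Qg j)))
    (hσu : ∀ j, σ ⟨r ⟨_, hu j⟩, hr.mem _⟩ = ⟨r ⟨_, hu j⟩, hr.mem _⟩) :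
    ((((P.map (algebraMap H Ω) - C y * Q.map (algebraMap H Ω)).roots.filter
      (Gen hr hV H α π)).map e).map fun ξ => (σ : A →ₐ[k] A).comp ξ) =
    ((P.map (algebraMap H Ω) - C y * Q.map (algebraMap H Ω)).roots.filter
      (Gen hr hV H α π)).map e := by
  classical
  have := kap_closed hr hV H
  refine inv_multiset _ (rA hr α π) e σ _ (h.roots_inv hπ y hY h0 σ hσκ hση hσP hσQ) ?_
  -- the formula for the residue embeddings
  have key : ∀ T, Gen hr hV H α π T → aeval T P = y * aeval T Q → ∀ j,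
      e T (g j) * (pA hr hV H (Qg j)).eval (rA hr α π T) =
        (pA hr hV H (Pg j)).eval (rA hr α π T) * ⟨r ⟨_, hu j⟩, hr.mem _⟩ := by
    intro T hT hroot j
    obtain ⟨ξ, h1, h2⟩ := he T hT hroot
    obtain ⟨h3, h4⟩ := h2 (g j)
    rw [← resE_formulaA (hg j) hπ (u j) (hu j) T hT _ h3 (h1 j)]
    congr 1
    exact Subtype.ext h4.symm
  have hmem : ∀ T ∈ (P.map (algebraMap H Ω) - C y * Q.map (algebraMap H Ω)).roots.filter
      (Gen hr hV H α π), Gen hr hV H α π T ∧ aeval T P = y * aeval T Q := by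
    intro T hT
    obtain ⟨h1, h2⟩ := Multiset.mem_filter.mp hT
    refine ⟨h2, ?_⟩
    have h3 := (mem_roots'.mp h1).2
    rw [IsRoot.def, eval_sub, eval_mul, eval_C, eval_map, eval_map, sub_eq_zero] at h3
    exact h3
  intro T hT T' hT' hTT
  obtain ⟨hG, hroot⟩ := hmem T hT
  obtain ⟨hG', hroot'⟩ := hmem T' hT'
  refine hom_ext g hK _ _ fun j => ?_
  have k1 := key T hG hroot j
  have k2 := key T' hG' hroot' j
  rw [hTT] at k2
  have k3 := congrArg σ k1
  rw [map_mul, map_mul, hσu, (hσQg j).eval, (hσPg j).eval] at k3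
  have hne : (pA hr hV H (Qg j)).eval (σ (rA hr α π T)) ≠ 0 := by
    intro h0
    have h1 : (((pA hr hV H (Qg j)).eval (σ (rA hr α π T)) : A) : Ω) = 0 := by rw [h0]; rfl
    rw [pA_eval] at h1
    refine aeval_ne_zero _ _ ?_ _ (hg j).Q0 h1
    rw [hσκ]
    exact hG.rT_notMem
  rw [← k2] at k3
  exact (mul_right_cancel₀ hne k3).symm

/-- a permutation from an equality of multisets -/
theorem perm_of_multiset {ι X : Type*} [Fintype ι] (F G : ι → X)
    (h : Finset.univ.val.map F = Finset.univ.val.map G) :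
    ∃ π : Equiv.Perm ι, ∀ i, G (π i) = F i := by
  classical
  have h1 : ∀ x, Fintype.card {i // F i = x} = Fintype.card {i // G i = x} := by
    intro x
    have h2 := congrArg (Multiset.count x) h
    rw [Multiset.count_map, Multiset.count_map] at h2
    rw [Fintype.card_subtype, Fintype.card_subtype]
    have e1 : (Finset.univ.filter fun i => F i = x) = (Finset.univ.filter fun i => x = F i) :=
      Finset.filter_congr fun i _ => eq_comm
    have e2 : (Finset.univ.filter fun i => G i = x) = (Finset.univ.filter fun i => x = G i) :=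
      Finset.filter_congr fun i _ => eq_comm
    rw [e1, e2]
    exact h2
  let e : ∀ x, {i // F i = x} ≃ {i // G i = x} := fun x => Fintype.equivOfCardEq (h1 x)
  refine ⟨(Equiv.sigmaFiberEquiv F).symm.trans ((Equiv.sigmaCongrRight e).trans
    (Equiv.sigmaFiberEquiv G)), fun i => ?_⟩
  exact (e (F i) ⟨i, rfl⟩).2

end

end Pool.Agent.TUQ
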