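import Pool.Agent.TUQ.Defs
import Pool.Agent.TUQ.G9

/-!
# Pure algebra for the places which contain `H`
-/

set_option autoImplicit false

namespace Pool.Agent.TUQ

open Polynomial

universe u

section

theorem natAbs_cast_x {k : Type*} [Field k] (a b : ℕ) (h : (a : k) = b) :
    ((((a : ℤ) - b).natAbs : ℕ) : k) = 0 := by
  rcases le_total a b with h1 | h1
  · have h2 : ((a : ℤ) - b).natAbs = b - a := by omega
    rw [h2, Nat.cast_sub h1, h, sub_self]
  · have h2 : ((a : ℤ) - b).natAbs = a - b := by omega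
    rw [h2, Nat.cast_sub h1, h, sub_self]

theorem X_mul_derivative {k : Type*} [Field k] (B : k[X]) :
    (X * derivative B).natDegree ≤ B.natDegree ∧
      (X * derivative B).coeff B.natDegree = B.natDegree * B.leadingCoeff := by
  rcases Nat.eq_zero_or_pos B.natDegree with h0 | h0
  · have h1 := eq_C_of_natDegree_eq_zero h0
    have h2 : derivative B = 0 := by rw [h1, derivative_C]
    rw [h2, mul_zero, h0]
    simp
  · constructor
    · refine natDegree_mul_le.trans ?_
      have h1 := natDegree_X_le (R := k)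
      have h2 := natDegree_derivative_le B
      omega
    · obtain ⟨n, hn⟩ := Nat.exists_eq_succ_of_ne_zero h0.ne'
      rw [leadingCoeff, hn, Nat.succ_eq_add_one, coeff_X_mul, coeff_derivative]
      push_cast
      ring

/-- the degree of the Wronskian -/
theorem wr_degree {k : Type*} [Field k] (B₁ B₂ : k[X]) (h₁ : B₁ ≠ 0) (h₂ : B₂ ≠ 0)
    (h : (B₁.natDegree : k) ≠ B₂.natDegree) :
    derivative B₁ * B₂ - derivative B₂ * B₁ ≠ 0 ∧
      B₁.natDegree + B₂.natDegree ≤
        (derivative B₁ * B₂ - derivative B₂ * B₁).natDegree + 1 := by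
  have e1 : X * (derivative B₁ * B₂ - derivative B₂ * B₁) =
      (X * derivative B₁) * B₂ - (X * derivative B₂) * B₁ := by ring
  have e2 : (X * (derivative B₁ * B₂ - derivative B₂ * B₁)).coeff (B₁.natDegree + B₂.natDegree) =
      ((B₁.natDegree : k) - B₂.natDegree) * (B₁.leadingCoeff * B₂.leadingCoeff) := by
    rw [e1, coeff_sub, coeff_mul_add_eq_of_natDegree_le (X_mul_derivative B₁).1 le_rfl,
      add_comm B₁.natDegree, coeff_mul_add_eq_of_natDegree_le (X_mul_derivative B₂).1 le_rfl,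
      (X_mul_derivative B₁).2, (X_mul_derivative B₂).2, coeff_natDegree, coeff_natDegree]
    ring
  have e3 : (X * (derivative B₁ * B₂ - derivative B₂ * B₁)).coeff
      (B₁.natDegree + B₂.natDegree) ≠ 0 := by
    rw [e2]
    exact mul_ne_zero (sub_ne_zero.2 h) (mul_ne_zero (leadingCoeff_ne_zero.2 h₁)
      (leadingCoeff_ne_zero.2 h₂))
  have e4 : derivative B₁ * B₂ - derivative B₂ * B₁ ≠ 0 := by
    intro h0
    rw [h0, mul_zero, coeff_zero] at e3
    exact e3 rfl
  refine ⟨e4, ?_⟩
  have e5 := le_natDegree_of_ne_zero e3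
  rw [natDegree_X_mul e4] at e5
  exact e5

/-- the multiplicity of the Wronskian at a zero of the first polynomial -/
theorem wr_mult {M : Type*} [Field M] (P Q : M[X]) (hP : P ≠ 0) (c : M) (hc : P.IsRoot c)
    (hQ : ¬ Q.IsRoot c) (he : ((P.rootMultiplicity c : ℕ) : M) ≠ 0)
    (hW : derivative P * Q - derivative Q * P ≠ 0) :
    (derivative P * Q - derivative Q * P).rootMultiplicity c + 1 ≤ P.rootMultiplicity c := by
  obtain ⟨R, hR, hR0⟩ := exists_eq_pow_rootMultiplicity_mul_and_not_dvd P hP c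
  obtain ⟨e, he'⟩ : ∃ e, P.rootMultiplicity c = e := ⟨_, rfl⟩
  have hpos : 0 < e := by
    rw [← he']
    exact (rootMultiplicity_pos hP).2 hc
  rw [he'] at hR he ⊢
  obtain ⟨m, rfl⟩ := Nat.exists_eq_succ_of_ne_zero hpos.ne'
  rw [Nat.succ_eq_add_one, Nat.add_le_add_iff_right]
  by_contra hcon
  push Not at hcon
  rw [← Nat.succ_le_iff, Nat.succ_eq_add_one, le_rootMultiplicity_iff hW] at hcon
  have h1 : derivative P * Q - derivative Q * P = (X - C c) ^ m *
      (C ((m : M) + 1) * R * Q + (X - C c) * (derivative R * Q - derivative Q * R)) := by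
    rw [hR, derivative_mul, derivative_pow, derivative_sub, derivative_X, derivative_C]
    simp only [Nat.succ_eq_add_one, Nat.add_sub_cancel, map_add, map_natCast, map_one,
      Nat.cast_add, Nat.cast_one]
    ring
  rw [h1, pow_succ, mul_dvd_mul_iff_left (pow_ne_zero _ (X_sub_C_ne_zero c)),
    dvd_iff_isRoot, IsRoot.def, eval_add, eval_mul, eval_mul, eval_C, eval_mul (p := X - C c),
    eval_sub, eval_X, eval_C, sub_self, zero_mul, add_zero] at hcon
  rcases mul_eq_zero.1 hcon with h2 | h2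
  · rcases mul_eq_zero.1 h2 with h3 | h3
    · apply he
      push_cast
      exact h3
    · exact hR0 (dvd_iff_isRoot.2 h3)
  · exact hQ h2

/-- (X1) the derivative of `b` has a zero outside the zeros and poles of `b` -/
theorem exists_crit {k M : Type u} [Field k] [Field M] [Algebra k M] [IsAlgClosed M] {N : ℕ}
    {B₁ B₂ : k[X]} (h : Bc k M N B₁ B₂) :
    ∃ β : M, IsAlgebraic k β ∧ aeval β (B₁ * B₂) ≠ 0 ∧
      aeval β (derivative B₁ * B₂ - derivative B₂ * B₁) = 0 := by
  classical
  have hdeg : (B₁.natDegree : k) ≠ B₂.natDegree := by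
    intro h0
    have h6 : ((B₁.natDegree : ℤ) - B₂.natDegree).natAbs ∈ bds k M B₁ B₂ := by
      unfold bds
      exact Finset.mem_insert_self _ _
    exact h.tame _ h6 (natAbs_cast_x _ _ h0)
  have hunit : ∀ B : k[X], IsUnit B → (B.natDegree : k) = 0 := by
    intro B hB
    rw [natDegree_eq_zero_of_isUnit hB, Nat.cast_zero]
  have hB₁ : B₁ ≠ 0 := by
    rintro rfl
    have h3 := h.cop
    rw [isCoprime_zero_left] at h3
    exact hdeg (by rw [natDegree_zero, Nat.cast_zero, hunit _ h3])
  have hB₂ : B₂ ≠ 0 := by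
    rintro rfl
    have h3 := h.cop
    rw [isCoprime_zero_right] at h3
    exact hdeg (by rw [natDegree_zero, Nat.cast_zero, hunit _ h3])
  obtain ⟨hW0, hWd⟩ := wr_degree B₁ B₂ hB₁ hB₂ hdeg
  set W := derivative B₁ * B₂ - derivative B₂ * B₁ with hWdef
  by_contra hcon
  push Not at hcon
  have hi := (algebraMap k M).injective
  have hWM : W.map (algebraMap k M) ≠ 0 := (Polynomial.map_ne_zero_iff hi).2 hW0
  have hBM : (B₁ * B₂).map (algebraMap k M) ≠ 0 :=
    (Polynomial.map_ne_zero_iff hi).2 (mul_ne_zero hB₁ hB₂)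
  have hB₁M : B₁.map (algebraMap k M) ≠ 0 := (Polynomial.map_ne_zero_iff hi).2 hB₁
  have hB₂M : B₂.map (algebraMap k M) ≠ 0 := (Polynomial.map_ne_zero_iff hi).2 hB₂
  -- the multiplicities
  have hmult : ∀ c : M, ((B₁ * B₂).map (algebraMap k M)).IsRoot c →
      (W.map (algebraMap k M)).rootMultiplicity c + 1 ≤
        ((B₁ * B₂).map (algebraMap k M)).rootMultiplicity c := by
    intro c hc
    have htame : ((((B₁ * B₂).map (algebraMap k M)).rootMultiplicity c : ℕ) : k) ≠ 0 := by
      apply h.tame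
      unfold bds
      simp only [Finset.mem_insert, Finset.mem_image, Multiset.mem_toFinset]
      right
      exact ⟨c, (mem_roots hBM).2 hc, rfl⟩
    have htame' : ((((B₁ * B₂).map (algebraMap k M)).rootMultiplicity c : ℕ) : M) ≠ 0 := by
      intro h0
      apply htame
      apply hi
      rw [map_natCast, h0, map_zero]
    have hcop : ¬ ((B₁.map (algebraMap k M)).IsRoot c ∧ (B₂.map (algebraMap k M)).IsRoot c) := by
      rintro ⟨h3, h4⟩
      obtain ⟨u, v, huv⟩ := h.cop
      rw [IsRoot.def, eval_map_algebraMap] at h3 h4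
      have h5 := congrArg (aeval c) huv
      rw [map_add, map_mul, map_mul, h3, h4, mul_zero, mul_zero, add_zero, map_one] at h5
      exact zero_ne_one h5
    have hmul : ((B₁ * B₂).map (algebraMap k M)).rootMultiplicity c =
        (B₁.map (algebraMap k M)).rootMultiplicity c +
          (B₂.map (algebraMap k M)).rootMultiplicity c := by
      rw [Polynomial.map_mul] at hBM ⊢
      exact rootMultiplicity_mul hBM
    have hWM' : W.map (algebraMap k M) = derivative (B₁.map (algebraMap k M)) *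
        B₂.map (algebraMap k M) - derivative (B₂.map (algebraMap k M)) *
          B₁.map (algebraMap k M) := by
      rw [hWdef, Polynomial.map_sub, Polynomial.map_mul, Polynomial.map_mul, derivative_map,
        derivative_map]
    rw [Polynomial.map_mul, IsRoot.def, eval_mul, mul_eq_zero] at hc
    rcases hc with hc | hc
    · have h2 : ¬ (B₂.map (algebraMap k M)).IsRoot c := fun h2 => hcop ⟨hc, h2⟩
      have h3 : (B₂.map (algebraMap k M)).rootMultiplicity c = 0 := rootMultiplicity_eq_zero h2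
      rw [hmul, h3, add_zero] at htame' ⊢
      have h4 := wr_mult _ (B₂.map (algebraMap k M)) hB₁M c hc h2 htame' (by rw [← hWM']; exact hWM)
      rw [← hWM'] at h4
      exact h4
    · have h2 : ¬ (B₁.map (algebraMap k M)).IsRoot c := fun h2 => hcop ⟨h2, hc⟩
      have h3 : (B₁.map (algebraMap k M)).rootMultiplicity c = 0 := rootMultiplicity_eq_zero h2
      rw [hmul, h3, zero_add] at htame' ⊢
      have h5 : derivative (B₂.map (algebraMap k M)) * B₁.map (algebraMap k M) -
          derivative (B₁.map (algebraMap k M)) * B₂.map (algebraMap k M) =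
          - W.map (algebraMap k M) := by rw [hWM']; ring
      have h4 := wr_mult _ (B₁.map (algebraMap k M)) hB₂M c hc h2 htame' (by
        rw [h5]
        exact neg_ne_zero.2 hWM)
      rw [h5] at h4
      have h6 : (-(W.map (algebraMap k M))).rootMultiplicity c =
          (W.map (algebraMap k M)).rootMultiplicity c := by
        rw [← count_roots, ← count_roots, roots_neg]
      rw [h6] at h4
      exact h4
  -- the sum of the multiplicities
  have hle : (W.map (algebraMap k M)).roots +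
      ((B₁ * B₂).map (algebraMap k M)).roots.dedup ≤ ((B₁ * B₂).map (algebraMap k M)).roots := by
    rw [Multiset.le_iff_count]
    intro c
    rw [Multiset.count_add, count_roots, count_roots, Multiset.count_dedup]
    by_cases hc : ((B₁ * B₂).map (algebraMap k M)).IsRoot c
    · rw [if_pos ((mem_roots hBM).2 hc)]
      exact hmult c hc
    · rw [if_neg (fun h' => hc ((mem_roots hBM).1 h')), add_zero]
      have h1 : ¬ (W.map (algebraMap k M)).IsRoot c := by
        intro h2
        rw [IsRoot.def, eval_map_algebraMap] at h2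
        refine hcon c ⟨W, hW0, h2⟩ ?_ h2
        intro h3
        apply hc
        rw [IsRoot.def, eval_map_algebraMap]
        exact h3
      rw [rootMultiplicity_eq_zero h1]
      exact Nat.zero_le _
  have hcard := Multiset.card_le_card hle
  rw [Multiset.card_add, ← (IsAlgClosed.splits _).natDegree_eq_card_roots,
    ← (IsAlgClosed.splits _).natDegree_eq_card_roots, natDegree_map, natDegree_map,
    natDegree_mul hB₁ hB₂] at hcard
  obtain ⟨c₁, c₂, hne, h1, h2⟩ := h.two
  have h3 : ({c₁, c₂} : Finset M) ⊆ ((B₁ * B₂).map (algebraMap k M)).roots.toFinset := by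
    intro c hc
    rw [Multiset.mem_toFinset, mem_roots hBM, IsRoot.def, eval_map_algebraMap]
    rw [Finset.mem_insert, Finset.mem_singleton] at hc
    rcases hc with rfl | rfl
    · exact h1
    · exact h2
  have h4 := Finset.card_le_card h3
  rw [Finset.card_pair hne] at h4
  have h5 : ((B₁ * B₂).map (algebraMap k M)).roots.toFinset.card =
      Multiset.card ((B₁ * B₂).map (algebraMap k M)).roots.dedup := rfl
  omega

/-- the quotient `(X ^ (E e) - 1) / (X ^ e - 1)` -/
noncomputable def cyc (M : Type*) [Field M] (E e : ℕ) : M[X] :=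
  ∑ j ∈ Finset.range E, X ^ (e * j)

/-- (X2) -/
theorem cyc_mul (M : Type*) [Field M] (E e : ℕ) : (X ^ e - 1) * cyc M E e = X ^ (E * e) - 1 := by
  unfold cyc
  simp only [pow_mul]
  rw [mul_geom_sum, ← pow_mul, ← pow_mul, mul_comm e E]

/-- (X3) -/
theorem cyc_root {M : Type*} [Field M] (E e : ℕ) (hE : (E : M) ≠ 0) (θ : M)
    (h : (cyc M E e).IsRoot θ) : θ ^ e ≠ 1 ∧ θ ^ (E * e) = 1 := by
  constructor
  · intro h1
    apply hE
    rw [IsRoot.def] at h
    unfold cyc at h
    rw [eval_finsetSum] at h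
    simp only [eval_pow, eval_X, pow_mul, h1, one_pow] at h
    rw [Finset.sum_const, Finset.card_range, nsmul_eq_mul, mul_one] at h
    exact h
  · have h1 := congrArg (eval θ) (cyc_mul M E e)
    rw [eval_mul, h.eq_zero, mul_zero, eval_sub, eval_pow, eval_X, eval_one] at h1
    exact (sub_eq_zero.1 h1.symm)

theorem cyc_ne {M : Type*} [Field M] (E e : ℕ) (hE : (E : M) ≠ 0) : cyc M E e ≠ 0 := by
  intro h0
  apply hE
  have h1 := congrArg (eval 1) h0
  unfold cyc at h1
  rw [eval_finsetSum] at h1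
  simp only [eval_pow, eval_X, one_pow, eval_zero] at h1
  rw [Finset.sum_const, Finset.card_range, nsmul_eq_mul, mul_one] at h1
  exact h1

theorem cyc_comp {M : Type*} [Field M] (E e : ℕ) (θ₁ : M) (h₁ : θ₁ ^ e = 1) :
    (cyc M E e).comp (C θ₁ * X) = cyc M E e := by
  unfold cyc
  rw [Polynomial.sum_comp]
  refine Finset.sum_congr rfl fun j _ => ?_
  rw [pow_comp, X_comp, mul_pow, ← C_pow, pow_mul, h₁, one_pow, C_1, one_mul]

theorem le_mult_comp {M : Type*} [Field M] (P : M[X]) (hP : P ≠ 0) (θ₁ : M) (h₀ : θ₁ ≠ 0)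
    (h : P.comp (C θ₁ * X) = P) (c : M) :
    P.rootMultiplicity (c * θ₁) ≤ P.rootMultiplicity c := by
  rw [le_rootMultiplicity_iff hP]
  obtain ⟨Q, hQ⟩ := pow_rootMultiplicity_dvd P (c * θ₁)
  refine ⟨C (θ₁ ^ (P.rootMultiplicity (c * θ₁))) * Q.comp (C θ₁ * X), ?_⟩
  conv_lhs => rw [← h, hQ]
  rw [mul_comp, pow_comp, sub_comp, X_comp, C_comp]
  have h1 : C θ₁ * X - C (c * θ₁) = C θ₁ * (X - C c) := by
    rw [C_mul]
    ring
  rw [h1, mul_pow, ← C_pow]
  ring

/-- (X4) the roots are permuted by an automorphism and by the multiplication by an `e`-th root of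
unity -/
theorem cyc_perm {M : Type*} [Field M] [IsAlgClosed M] (E e : ℕ) (hE : (E : M) ≠ 0) (he : 0 < e)
    {ι : Type*} [Fintype ι] (θ : ι → M) (hθ : Finset.univ.val.map θ = (cyc M E e).roots)
    (σ : M ≃+* M) (θ₁ : M) (h₁ : θ₁ ^ e = 1) :
    ∃ π : Equiv.Perm ι, ∀ i, θ (π i) = σ (θ i) * θ₁ := by
  classical
  have h0 : θ₁ ≠ 0 := by
    rintro rfl
    rw [zero_pow he.ne'] at h₁
    exact zero_ne_one h₁
  have hP := cyc_ne E e hE
  have hσ : (cyc M E e).map (σ : M →+* M) = cyc M E e := by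
    unfold cyc
    rw [Polynomial.map_sum]
    refine Finset.sum_congr rfl fun j _ => ?_
    rw [Polynomial.map_pow, Polynomial.map_X]
  have hm : ∀ c : M, (cyc M E e).rootMultiplicity (σ c * θ₁) = (cyc M E e).rootMultiplicity c := by
    intro c
    have h1 : (cyc M E e).rootMultiplicity c = (cyc M E e).rootMultiplicity (σ c) := by
      have h2 := eq_rootMultiplicity_map (p := cyc M E e) (f := (σ : M →+* M)) σ.injective c
      rw [hσ] at h2
      exact h2
    rw [h1]
    apply le_antisymm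
    · exact le_mult_comp _ hP θ₁ h0 (cyc_comp E e θ₁ h₁) (σ c)
    · have h3 := le_mult_comp _ hP θ₁⁻¹ (inv_ne_zero h0) (cyc_comp E e θ₁⁻¹ (by
        rw [inv_pow, h₁, inv_one])) (σ c * θ₁)
      rwa [mul_assoc, mul_inv_cancel₀ h0, mul_one] at h3
  let f : M → M := fun c => σ c * θ₁
  have hf : Function.Injective f := fun x y hxy =>
    σ.injective (mul_right_cancel₀ h0 hxy)
  have hf' : Function.Surjective f := fun y => ⟨σ.symm (y * θ₁⁻¹), by
    show σ (σ.symm (y * θ₁⁻¹)) * θ₁ = y
    rw [σ.apply_symm_apply, mul_assoc, inv_mul_cancel₀ h0, mul_one]⟩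
  have hroots : (cyc M E e).roots.map f = (cyc M E e).roots := by
    rw [Multiset.ext]
    intro y
    obtain ⟨c, rfl⟩ := hf' y
    rw [Multiset.count_map_eq_count' _ _ hf, count_roots, count_roots]
    exact (hm c).symm
  obtain ⟨π, hπ⟩ := perm_of_multiset (fun i => f (θ i)) θ (by
    have h1 : Multiset.map (fun i => f (θ i)) (Finset.univ : Finset ι).val =
        Multiset.map f (Multiset.map θ (Finset.univ : Finset ι).val) := by
      rw [Multiset.map_map]
      rfl
    rw [h1, hθ, hroots])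
  exact ⟨π, hπ⟩

/-- (X5) `N w + ε e a = 0`, `ζ ^ (N / gcd N e) = 1` -/
theorem exists_theta {M : Type*} [Field M] [IsAlgClosed M] (N e a : ℕ) (w : ℤ) (hN : 0 < N)
    (he : 0 < e) (ha : 0 < a) (h : (N : ℤ) * w = (e : ℤ) * a ∨ (N : ℤ) * w = -((e : ℤ) * a))
    (ζ : M) (hζ : ζ ^ (N / Nat.gcd N e) = 1) : ∃ θ₁ : M, θ₁ ^ a = 1 ∧ θ₁ ^ w = ζ := by
  obtain ⟨d, hd⟩ : ∃ d, Nat.gcd N e = d := ⟨_, rfl⟩
  have hd0 : 0 < d := by rw [← hd]; exact Nat.gcd_pos_of_pos_left e hN
  obtain ⟨N', hN'⟩ : d ∣ N := by rw [← hd]; exact Nat.gcd_dvd_left N e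
  obtain ⟨e', he'⟩ : d ∣ e := by rw [← hd]; exact Nat.gcd_dvd_right N e
  have hcop : Nat.Coprime N' e' := by
    have h1 : Nat.gcd N e = d * Nat.gcd N' e' := by rw [hN', he', Nat.gcd_mul_left]
    rw [hd] at h1
    exact Nat.eq_of_mul_eq_mul_left hd0 (by rw [← h1, mul_one])
  have hN'0 : 0 < N' := by
    rcases Nat.eq_zero_or_pos N' with h1 | h1
    · rw [h1, mul_zero] at hN'
      omega
    · exact h1
  have hquot : N / Nat.gcd N e = N' := by
    rw [hd, hN', Nat.mul_div_cancel_left _ hd0]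
  rw [hquot] at hζ
  have hζ0 : ζ ≠ 0 := by
    rintro rfl
    rw [zero_pow hN'0.ne'] at hζ
    exact zero_ne_one hζ
  -- the sign
  obtain ⟨s, hs, hs'⟩ : ∃ s : ℤ, (s = 1 ∨ s = -1) ∧ (N' : ℤ) * w = s * (e' * a) := by
    have hd1 : (d : ℤ) ≠ 0 := by exact_mod_cast hd0.ne'
    rcases h with h | h
    · refine ⟨1, Or.inl rfl, mul_left_cancel₀ hd1 ?_⟩
      rw [hN', he'] at h
      push_cast at h
      linarith
    · refine ⟨-1, Or.inr rfl, mul_left_cancel₀ hd1 ?_⟩
      rw [hN', he'] at h
      push_cast at h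
      linarith
  have hdvd : N' ∣ a := by
    have h1 : (N' : ℤ) ∣ e' * a := by
      rcases hs with rfl | rfl
      · exact ⟨w, by rw [hs', one_mul]⟩
      · exact ⟨-w, by rw [mul_neg, hs']; ring⟩
    have h2 : N' ∣ e' * a := by exact_mod_cast h1
    exact hcop.dvd_of_dvd_mul_left h2
  obtain ⟨m, rfl⟩ := hdvd
  have hm : m ≠ 0 := by
    rintro rfl
    rw [mul_zero] at ha
    exact absurd ha (lt_irrefl _)
  have hw : w = s * (e' * m) := by
    have hN1 : (N' : ℤ) ≠ 0 := by exact_mod_cast hN'0.ne'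
    apply mul_left_cancel₀ hN1
    rw [hs']
    push_cast
    ring
  -- Bezout
  obtain ⟨v, u, huv⟩ : ∃ v u : ℤ, s * e' * v + N' * u = 1 := by
    have h1 : IsCoprime (N' : ℤ) (e' : ℤ) := Nat.isCoprime_iff_coprime.2 hcop
    obtain ⟨x, y, hxy⟩ := h1
    rcases hs with rfl | rfl
    · exact ⟨y, x, by linarith⟩
    · exact ⟨-y, x, by linarith⟩
  obtain ⟨θ₁, hθ₁⟩ := IsAlgClosed.exists_pow_nat_eq (ζ ^ v) (Nat.pos_of_ne_zero hm)
  refine ⟨θ₁, ?_, ?_⟩
  · rw [mul_comm N' m, pow_mul, hθ₁, ← zpow_natCast, ← zpow_mul, mul_comm v, zpow_mul,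
      zpow_natCast, hζ, one_zpow]
  · rw [hw]
    have h1 : s * ((e' : ℤ) * m) = m * (s * e') := by ring
    rw [h1, zpow_mul, zpow_natCast, hθ₁, ← zpow_mul]
    have h2 : v * (s * e') = 1 - N' * u := by linarith
    rw [h2, zpow_sub₀ hζ0, zpow_one, zpow_mul, zpow_natCast, hζ, one_zpow, div_one]

end

end Pool.Agent.TUQ
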