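import Pool.Agent.TUQ.S4d
import Pool.Agent.TUQ.S5x

/-!
# The embeddings at the places which contain `H`
-/

set_option autoImplicit false

namespace Pool.Agent.TUQ

open Polynomial Pool.Agent.TBR

universe u

section

variable {k Ω : Type u} [Field k] [Field Ω] [Algebra k Ω]
variable {A H : IntermediateField k Ω} {V : ValuationSubring Ω} {r : V →+* Ω}
variable {K₀ : IntermediateField k A} {z : A} {N : ℕ} {B₁ B₂ : k[X]} {a w U t : Ω}
variable {A₁ A₂ : H[X]} {c : Ω} {Φ : k[X][X]} {m : ℕ} {T : Fin m → Ω}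
  {s : Fin m → (Ω ≃ₐ[k] Ω)} {ξ : Fin m → (A →ₐ[k] Ω)} {f : Polynomial Ω}

/-- two homomorphisms which agree on `K₀` and `z` -/
theorem ext_z {M L : Type*} [Field M] [Field L] [Algebra k M] [Algebra k L]
    {K : IntermediateField k M} {z : M} (f g : M →ₐ[k] L) (h : ∀ x ∈ K, f x = g x) (hz : f z = g z) :
    ∀ x ∈ K ⊔ IntermediateField.adjoin k {z}, f x = g x := by
  let E : IntermediateField k M :=
    { carrier := {x | f x = g x}
      mul_mem' := fun {x y} hx hy => by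
        show f (x * y) = g (x * y)
        rw [map_mul, map_mul, hx, hy]
      add_mem' := fun {x y} hx hy => by
        show f (x + y) = g (x + y)
        rw [map_add, map_add, hx, hy]
      algebraMap_mem' := fun c => by
        show f (algebraMap k M c) = g (algebraMap k M c)
        rw [AlgHom.commutes, AlgHom.commutes]
      inv_mem' := fun x hx => by
        show f x⁻¹ = g x⁻¹
        rw [map_inv₀, map_inv₀, hx] }
  have h1 : K ⊔ IntermediateField.adjoin k {z} ≤ E := by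
    refine sup_le (fun x hx => h x hx) ?_
    rw [IntermediateField.adjoin_le_iff]
    rintro x rfl
    exact hz
  exact fun x hx => h1 hx

theorem good_unit (ξ : A →ₐ[k] Ω) (hξ : ∀ x, ξ x ∈ V) (x : A) (hx : x ≠ 0) :
    V.valuation (ξ x) = 1 := by
  refine le_antisymm ((val_le V _).1 (hξ x)) ?_
  have h1 := (val_le V _).1 (hξ x⁻¹)
  rwa [map_inv₀, map_inv₀, inv_le_one₀ (zero_lt_iff.2 ((_root_.map_ne_zero _).2
    ((_root_.map_ne_zero _).2 hx)))] at h1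

theorem CP.t_mem (hCP : CP A H K₀ t) (hP : Plc A V r) (hH : ∀ x ∈ H, x ∈ V) : t ∈ V :=
  hCP V r hP hH 1 (one_mem _) fun x _ h0 => hP.val_A x.2 (fun h => h0 (Subtype.ext h))

theorem GD.T_mem (hG : GD A H K₀ z N B₁ B₂ a w U t A₁ A₂ c Φ T s ξ f) (hCP : CP A H K₀ t)
    (hP : Plc A V r) (hH : ∀ x ∈ H, x ∈ V) (i : Fin m) (hi : ∀ x, ξ i x ∈ V) : T i ∈ V := by
  rw [← hG.st i]
  refine hCP V r hP hH (s i) (hG.sH i) fun x hx h0 => ?_
  rw [← hG.ξK i x hx]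
  exact good_unit (ξ i) hi x h0

/-- the elements near `t` -/
theorem res_of_lt (hP : Plc A V r) {t T : Ω} (ht : t ∈ V) (h : V.valuation (T - t) < 1) :
    ∃ hT : T ∈ V, r ⟨T, hT⟩ = r ⟨t, ht⟩ := by
  have hT : T ∈ V := by
    have := add_mem ((val_le V _).2 h.le) ht
    rwa [sub_add_cancel] at this
  exact ⟨hT, (hP.res.eq_of_sub hP.mem hT ht).2 h⟩

/-- (5.1) the embeddings at the roots near `t` are residually the identity on `K₀` -/
theorem GD.K₀_res [IsAlgClosed H] (hc : Cfg A H K₀ z N B₁ B₂ a w U t)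
    (hG : GD A H K₀ z N B₁ B₂ a w U t A₁ A₂ c Φ T s ξ f)
    (hP : Plc A V r) (hH : ∀ x ∈ H, x ∈ V) (ht : t ∈ V) (i : Fin m)
    (hi : V.valuation (T i - t) < 1) (x : A) (hx : x ∈ K₀) :
    ∃ h : ξ i x ∈ V, r ⟨ξ i x, h⟩ = x := by
  obtain ⟨hT, hr⟩ := res_of_lt hP ht hi
  have hst : s i t ∈ V := by
    rw [hG.st]
    exact hT
  have hr' : r ⟨s i t, hst⟩ = r ⟨t, ht⟩ := by
    rw [← hr]
    congr 1
    exact Subtype.ext (hG.st i)
  obtain ⟨h1, h2⟩ := frac_res_eq hP hH hc.tH ht (hc.K₀t x hx) (hP.mem _ x.2) (hG.sH i) hst hr'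
  have h3 : ξ i x = s i x := hG.ξK i x hx
  refine ⟨by rw [h3]; exact h1, ?_⟩
  have h4 : (⟨ξ i x, by rw [h3]; exact h1⟩ : V) = ⟨s i x, h1⟩ := Subtype.ext h3
  rw [h4, h2, hP.res.fix _ _ x.2]

/-- the embeddings at the roots near `t` have values in `V` -/
theorem GD.good_of_lt [IsAlgClosed H] (hc : Cfg A H K₀ z N B₁ B₂ a w U t)
    (hG : GD A H K₀ z N B₁ B₂ a w U t A₁ A₂ c Φ T s ξ f)
    (hP : Plc A V r) (hH : ∀ x ∈ H, x ∈ V) (ht : t ∈ V) (i : Fin m)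
    (hi : V.valuation (T i - t) < 1) (x : A) : ξ i x ∈ V := by
  refine Pool.Agent.TBR.V.mem_of_isAlgebraic V (K₀.map (ξ i)) ?_ _ ?_
  · rintro _ ⟨y, hy, rfl⟩
    exact (hG.K₀_res hc hP hH ht i hi y hy).1
  · obtain ⟨p, hp, h1⟩ := hc.al x
    let g : K₀ →+* K₀.map (ξ i) :=
      { toFun := fun y => ⟨ξ i y, ⟨y, y.2, rfl⟩⟩
        map_one' := Subtype.ext (map_one (ξ i))
        map_mul' := fun x y => Subtype.ext (map_mul (ξ i) (x : A) y)
        map_zero' := Subtype.ext (map_zero (ξ i))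
        map_add' := fun x y => Subtype.ext (map_add (ξ i) (x : A) y) }
    refine ⟨p.map g, (Polynomial.map_ne_zero_iff g.injective).2 hp, ?_⟩
    have h2 := congrArg (ξ i) h1
    rw [map_zero, aeval_def] at h2
    have h3 := hom_eval₂ p (algebraMap K₀ A) (ξ i : A →+* Ω) x
    rw [aeval_def, eval₂_map]
    exact h3.symm.trans h2

/-- the indices which occur in the local statement -/
theorem GD.idx_iff [IsAlgClosed H] (hc : Cfg A H K₀ z N B₁ B₂ a w U t) (hCP : CP A H K₀ t)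
    (hG : GD A H K₀ z N B₁ B₂ a w U t A₁ A₂ c Φ T s ξ f)
    (hP : Plc A V r) (hH : ∀ x ∈ H, x ∈ V) (i : Fin m) :
    ((∀ x, ξ i x ∈ V) ∧ V.valuation (T i - t) ≠ 1) ↔ V.valuation (T i - t) < 1 := by
  have ht := hCP.t_mem hP hH
  constructor
  · rintro ⟨h1, h2⟩
    exact lt_of_le_of_ne ((val_le V _).1 (sub_mem (hG.T_mem hCP hP hH i h1) ht)) h2
  · intro h
    exact ⟨hG.good_of_lt hc hP hH ht i h, h.ne⟩

theorem GD.psi_K₀ [IsAlgClosed H] (hc : Cfg A H K₀ z N B₁ B₂ a w U t)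
    (hG : GD A H K₀ z N B₁ B₂ a w U t A₁ A₂ c Φ T s ξ f)
    (hP : Plc A V r) (hH : ∀ x ∈ H, x ∈ V) (ht : t ∈ V) (i : Fin m)
    (hi : V.valuation (T i - t) < 1) (ψ : A ≃ₐ[k] A) (hψ : ResE A V r (ξ i) ψ) (x : A)
    (hx : x ∈ K₀) : ψ x = x := by
  obtain ⟨h1, h2⟩ := hG.K₀_res hc hP hH ht i hi x hx
  have h3 := hψ.eq x h1
  rw [h2] at h3
  exact Subtype.ext h3.symm

/-- (5.2) if `a(V)` is not a zero or pole of `b`, the embeddings are residually the identity -/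
theorem GD.psi_z [IsAlgClosed H] (hc : Cfg A H K₀ z N B₁ B₂ a w U t)
    (hG : GD A H K₀ z N B₁ B₂ a w U t A₁ A₂ c Φ T s ξ f)
    (hP : Plc A V r) (hH : ∀ x ∈ H, x ∈ V) (ht : t ∈ V) (haV : a ∈ V)
    (ha : aeval (r ⟨a, haV⟩) (B₁ * B₂) ≠ 0) (i : Fin m)
    (hi : V.valuation (T i - t) < 1) (ψ : A ≃ₐ[k] A) (hψ : ResE A V r (ξ i) ψ) : ψ z = z := by
  rw [map_mul] at ha
  have hv₁ : V.valuation (aeval a B₁) = 1 := hP.unit (hP.aeval_mem B₁ haV) (by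
    rw [hP.res_aeval B₁ haV]
    exact left_ne_zero_of_mul ha)
  have hv₂ : V.valuation (aeval a B₂) = 1 := hP.unit (hP.aeval_mem B₂ haV) (by
    rw [hP.res_aeval B₂ haV]
    exact right_ne_zero_of_mul ha)
  have hvU : V.valuation U = 1 := by
    have h2 := congrArg V.valuation hc.eqU
    rw [map_mul, map_pow, hv₁, hv₂, mul_one] at h2
    exact (pow_eq_one_iff_of_nonneg zero_le hc.Npos.ne').1 h2
  have hUV : U ∈ V := (val_le V U).2 hvU.le
  have hwV : w ∈ V := by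
    rw [val_le]
    have h2 := congrArg V.valuation hc.eqz
    rw [map_mul, hvU, mul_one, hP.val_A z.2 hc.z0'] at h2
    exact h2.le
  obtain ⟨hT, hr⟩ := res_of_lt hP ht hi
  have hst : s i t ∈ V := by
    rw [hG.st]
    exact hT
  have hr' : r ⟨s i t, hst⟩ = r ⟨t, ht⟩ := by
    rw [← hr]
    congr 1
    exact Subtype.ext (hG.st i)
  obtain ⟨h1, h2⟩ := frac_res_eq hP hH hc.tH ht hc.wt hwV (hG.sH i) hst hr'
  have h3 := hψ.eq z (hψ.mem z)
  have h4 : (⟨ξ i z, hψ.mem z⟩ : V) = ⟨s i w, h1⟩ * ⟨U, hUV⟩ := Subtype.ext (hG.ξz i)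
  have h5 : (⟨w, hwV⟩ * ⟨U, hUV⟩ : V) = ⟨(z : Ω), hP.mem _ z.2⟩ := Subtype.ext hc.eqz
  rw [h4, map_mul, h2, ← map_mul, h5, hP.res.fix _ _ z.2] at h3
  exact Subtype.ext h3.symm

/-- (5.2) -/
theorem GD.alt1 [IsAlgClosed H] (hc : Cfg A H K₀ z N B₁ B₂ a w U t) (hCP : CP A H K₀ t)
    (hG : GD A H K₀ z N B₁ B₂ a w U t A₁ A₂ c Φ T s ξ f)
    (hP : Plc A V r) (hH : ∀ x ∈ H, x ∈ V) (haV : a ∈ V)
    (ha : aeval (r ⟨a, haV⟩) (B₁ * B₂) ≠ 0) (i : Fin m) (hi : ∀ x, ξ i x ∈ V)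
    (hi' : V.valuation (T i - t) ≠ 1) : V.valuation (T i - t) < 1 ∧
      ∀ ψ, ResE A V r (ξ i) ψ → ∀ x ∈ K₀ ⊔ IntermediateField.adjoin k {z}, ψ x = x := by
  have h1 := (hG.idx_iff hc hCP hP hH i).1 ⟨hi, hi'⟩
  have ht := hCP.t_mem hP hH
  refine ⟨h1, fun ψ hψ => ?_⟩
  exact ext_z (ψ : A →ₐ[k] A) (AlgHom.id k A) (fun x hx => hG.psi_K₀ hc hP hH ht i h1 ψ hψ x hx)
    (hG.psi_z hc hP hH ht haV ha i h1 ψ hψ)

end

end Pool.Agent.TUQ
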