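import Pool.Agent.TUQ.Defs
import Pool.Agent.RDM.Ruled

/-!
# The set-up: a uniruled field in a rational function field
-/

set_option autoImplicit false

namespace Pool.Agent.TUQ

open Polynomial Pool.Agent.TBR Pool.Agent.UQ Cardinal

universe u

theorem mem_of_algF {k Ω : Type u} [Field k] [Field Ω] [Algebra k Ω] (E : IntermediateField k Ω)
    [IsAlgClosed E] (x : Ω) (hx : IsAlgebraic E x) : x ∈ E := by
  obtain ⟨b, hb⟩ : x ∈ (algebraMap E Ω).range := by
    have h3 : IsIntegral E x := hx.isIntegral
    exact minpoly.mem_range_of_degree_eq_one E x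
      (IsAlgClosed.degree_eq_one_of_irreducible E (minpoly.irreducible h3))
  rw [← hb]
  exact b.2

/-- `Ω` is algebraic over `E(x)` for all `x ∉ E` -/
theorem alg_of_trdeg {k Ω : Type u} [Field k] [Field Ω] [Algebra k Ω] (E : IntermediateField k Ω)
    [IsAlgClosed E] (h : Algebra.trdeg E Ω ≤ 1) (x : Ω) (hx : x ∉ E) (y : Ω) :
    IsAlgebraic (AA E {x}) y := by
  have h1 : Transcendental E x := fun halg => hx (mem_of_algF E x halg)
  have h2 := Pool.Agent.RDP.rdmk_td1_of_trdeg h x h1 y
  have h3 : AA E {x} = (IntermediateField.adjoin E ({x} : Set Ω)).restrictScalars k := by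
    rw [AA, IntermediateField.restrictScalars_adjoin_eq_sup]
  rw [h3]
  exact h2

theorem trdeg_cancel {a b : Cardinal.{u}} (n : ℕ) (h : a + b = (n + 1 : ℕ)) (ha : (n : Cardinal) ≤ a) :
    b ≤ 1 := by
  have h1 : b ≤ (n + 1 : ℕ) := by rw [← h]; exact self_le_add_left b a
  obtain ⟨m, rfl⟩ := Cardinal.lt_aleph0.1 (h1.trans_lt (Cardinal.natCast_lt_aleph0))
  have h2 : a ≤ (n + 1 : ℕ) := by rw [← h]; exact self_le_add_right a _
  obtain ⟨l, rfl⟩ := Cardinal.lt_aleph0.1 (h2.trans_lt (Cardinal.natCast_lt_aleph0))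
  rw [← Nat.cast_add, Nat.cast_inj] at h
  rw [Nat.cast_le] at ha
  have : m ≤ 1 := by omega
  exact_mod_cast this

/-- the transcendence degree of an algebraic extension -/
theorem trdeg_alg (k E Ω : Type u) [Field k] [Field E] [Field Ω] [Algebra k E] [Algebra E Ω]
    [Algebra k Ω] [IsScalarTower k E Ω] [Algebra.IsAlgebraic E Ω] :
    Algebra.trdeg k Ω = Algebra.trdeg k E := by
  rw [← _root_.trdeg_add_eq k E (A := Ω), _root_.trdeg_eq_zero (R := E) (A := Ω), add_zero]

theorem setup_trL {k K₀ L : Type u} [Field k] [Field K₀] [Field L] [Algebra k K₀] [Algebra k L]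
    [Algebra K₀ L] [IsScalarTower k K₀ L] (h2 : Algebra.trdeg k K₀ = 2) (N : ℕ) (hN : 0 < N)
    (B₁ B₂ : k[X]) (hB₁ : B₁ ≠ 0) (a w : L) (c : K₀) (ha : Transcendental K₀ a)
    (hw : w ^ N * aeval a B₁ = algebraMap K₀ L c * aeval a B₂)
    (hgen : IntermediateField.adjoin K₀ {a, w} = ⊤) : Algebra.trdeg k L = 3 := by
  have h1 : Algebra.trdeg K₀ L = 1 := by
    set E := IntermediateField.adjoin K₀ ({a} : Set L) with hE
    have haE : a ∈ E := IntermediateField.mem_adjoin_simple_self K₀ a
    have hBE : ∀ B : k[X], aeval a B ∈ E := by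
      intro B
      have h3 : aeval a (B.map (algebraMap k K₀)) ∈ E := by
        have h4 : aeval a (B.map (algebraMap k K₀)) =
            ((aeval (⟨a, haE⟩ : E) (B.map (algebraMap k K₀)) : E) : L) := by
          rw [← IntermediateField.algebraMap_apply, ← Polynomial.aeval_algebraMap_apply]
          rfl
        rw [h4]
        exact Subtype.coe_prop _
      rwa [aeval_map_algebraMap] at h3
    have hB₁0 : aeval a B₁ ≠ 0 := by
      intro h0
      have h3 : aeval a (B₁.map (algebraMap k K₀)) = 0 := by rwa [aeval_map_algebraMap]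
      have h4 := (transcendental_iff.1 ha) _ h3
      exact hB₁ ((Polynomial.map_eq_zero _).1 h4)
    have hwalg : IsAlgebraic E w := by
      have h3 : w ^ N = algebraMap K₀ L c * aeval a B₂ / aeval a B₁ := by
        rw [eq_div_iff hB₁0, hw]
      have h4 : w ^ N ∈ E := by
        rw [h3]
        exact div_mem (mul_mem (E.algebraMap_mem c) (hBE B₂)) (hBE B₁)
      refine IsAlgebraic.of_pow hN ?_
      exact isAlgebraic_algebraMap (⟨_, h4⟩ : E)
    have halg : Algebra.IsAlgebraic E L := by
      have h3 : IntermediateField.adjoin E ({w} : Set L) = ⊤ := by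
        apply IntermediateField.restrictScalars_injective K₀
        rw [IntermediateField.restrictScalars_top, ← hgen, hE,
          IntermediateField.adjoin_adjoin_left]
        rfl
      have h4 := IntermediateField.isAlgebraic_adjoin (K := E) (S := {w}) (by
        intro x hx
        rw [Set.mem_singleton_iff.1 hx]
        exact hwalg.isIntegral)
      rw [h3] at h4
      exact IntermediateField.topEquiv.isAlgebraic_iff.1 h4
    rw [← _root_.trdeg_add_eq K₀ E (A := L), _root_.trdeg_eq_zero (R := E) (A := L), add_zero]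
    have h5 : Algebra.trdeg K₀ E = Algebra.trdeg K₀ (RatFunc K₀) :=
      (RatFunc.algEquivOfTranscendental a ha).symm.trdeg_eq
    rw [h5]
    have h0 : Algebra.IsAlgebraic (Polynomial K₀) (RatFunc K₀) :=
      IsLocalization.isAlgebraic (RatFunc K₀) (nonZeroDivisors (Polynomial K₀))
    rw [← _root_.trdeg_add_eq K₀ (Polynomial K₀) (A := RatFunc K₀),
      _root_.trdeg_eq_zero (R := Polynomial K₀) (A := RatFunc K₀), add_zero,
      Polynomial.trdeg_of_isDomain]
  rw [← _root_.trdeg_add_eq k K₀ (A := L), h1, h2]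
  norm_num

end Pool.Agent.TUQ
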