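import Pool.Agent.TUQ.S3e

/-!
# Consequences of the configuration: `K₀` and `a` are not in `H`
-/

set_option autoImplicit false

namespace Pool.Agent.TUQ

open Polynomial Pool.Agent.TBR

universe u

section

variable {k Ω : Type u} [Field k] [Field Ω] [Algebra k Ω]

/-- there are many algebraic elements -/
theorem exists_alg_point [IsAlgClosed Ω] (f : Polynomial Ω) (hf : f ≠ 0) :
    ∃ β : Ω, IsAlgebraic k β ∧ f.eval β ≠ 0 := by
  classical
  have h0 : IsAlgClosed (algebraicClosure k Ω) := (algebraicClosure.isAlgClosure k Ω).isAlgClosed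
  have h1 : Infinite (algebraicClosure k Ω) := inferInstance
  by_contra hcon
  push Not at hcon
  have h2 : (Set.range (fun x : algebraicClosure k Ω => (x : Ω))).Infinite :=
    Set.infinite_range_of_injective Subtype.val_injective
  apply h2
  refine Set.Finite.subset (f.roots.toFinset.finite_toSet) ?_
  rintro _ ⟨b, rfl⟩
  rw [Finset.mem_coe, Multiset.mem_toFinset, mem_roots hf]
  exact hcon b (mem_algebraicClosure_iff.1 b.2)

variable {A : IntermediateField k Ω} {V : ValuationSubring Ω} {r : V →+* Ω}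

theorem Plc.k_mem (hP : Plc A V r) (c : k) : algebraMap k Ω c ∈ V := hP.mem _ (A.algebraMap_mem c)

theorem Plc.aeval_mem (hP : Plc A V r) (B : k[X]) {x : Ω} (hx : x ∈ V) : aeval x B ∈ V := by
  rw [aeval_eq_sum_range]
  refine sum_mem fun i _ => ?_
  rw [Algebra.smul_def]
  exact mul_mem (hP.k_mem _) (pow_mem hx i)

/-- the value of a polynomial over `k` -/
theorem Plc.res_aeval (hP : Plc A V r) (B : k[X]) {x : Ω} (hx : x ∈ V) :
    r ⟨aeval x B, hP.aeval_mem B hx⟩ = aeval (r ⟨x, hx⟩) B := by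
  let g : k →+* V :=
    { toFun := fun c => ⟨algebraMap k Ω c, hP.k_mem c⟩
      map_one' := Subtype.ext (map_one _)
      map_mul' := fun x y => Subtype.ext (map_mul _ x y)
      map_zero' := Subtype.ext (map_zero _)
      map_add' := fun x y => Subtype.ext (map_add _ x y) }
  have h1 : (⟨aeval x B, hP.aeval_mem B hx⟩ : V) = B.eval₂ g ⟨x, hx⟩ := by
    apply Subtype.ext
    have h2 := hom_eval₂ B g (algebraMap V Ω) ⟨x, hx⟩
    show aeval x B = _
    rw [aeval_def]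
    exact h2.symm
  rw [h1, hom_eval₂, aeval_def]
  congr 1
  ext c
  exact hP.res.alg c _

theorem Plc.sub_lt (hP : Plc A V r) {x β : Ω} (hβ : β ∈ A) (h : V.valuation (x - β) < 1) :
    ∃ hx : x ∈ V, r ⟨x, hx⟩ = β := by
  have hβV := hP.mem β hβ
  have hx : x ∈ V := by
    have h1 : x - β ∈ V := (val_le V _).2 h.le
    have := add_mem h1 hβV
    rwa [sub_add_cancel] at this
  refine ⟨hx, ?_⟩
  rw [(hP.res.eq_of_sub hP.mem hx hβV).2 h, hP.res.fix β hβV hβ]

theorem Plc.res_eq_zero (hP : Plc A V r) {x : Ω} (hx : x ∈ V) :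
    r ⟨x, hx⟩ = 0 ↔ V.valuation x < 1 := hP.res.zero_iff hP.mem ⟨x, hx⟩

theorem Plc.unit (hP : Plc A V r) {x : Ω} (hx : x ∈ V) (h : r ⟨x, hx⟩ ≠ 0) :
    V.valuation x = 1 := by
  refine le_antisymm ((val_le V _).1 hx) (not_lt.1 fun h' => h ?_)
  rwa [hP.res_eq_zero]

theorem Plc.val_A (hP : Plc A V r) {x : Ω} (hx : x ∈ A) (h0 : x ≠ 0) : V.valuation x = 1 :=
  Pool.Agent.TBR.V.val_A A V hP.mem ⟨x, hx⟩ (fun h => h0 (congrArg Subtype.val h))

theorem mem_AA_le (H : IntermediateField k Ω) (t : Ω) {x : Ω} (hx : x ∈ H) : x ∈ AA H {t} :=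
  Pool.Agent.TBR.V.le_AA H {t} hx

theorem self_mem_AA (H : IntermediateField k Ω) (t : Ω) : t ∈ AA H {t} :=
  Pool.Agent.TBR.V.sub_AA H {t} rfl

variable {H : IntermediateField k Ω} {K₀ : IntermediateField k A} {z : A} {N : ℕ} {B₁ B₂ : k[X]}
  {a w U t : Ω}

theorem alg_aeval {β : Ω} (hβ : IsAlgebraic k β) (B : k[X]) : IsAlgebraic k (aeval β B) := by
  rw [← mem_algebraicClosure_iff, aeval_eq_sum_range]
  refine sum_mem fun i _ => ?_
  rw [Algebra.smul_def]
  exact mul_mem ((algebraicClosure k Ω).algebraMap_mem _)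
    (pow_mem (mem_algebraicClosure_iff.2 hβ) i)

theorem mem_bds_inf {M : Type u} [Field M] [Algebra k M] (B₁ B₂ : k[X]) :
    ((B₁.natDegree : ℤ) - B₂.natDegree).natAbs ∈ bds k M B₁ B₂ := by
  classical
  exact Finset.mem_insert_self _ _

theorem mem_bds_root {M : Type u} [Field M] [Algebra k M] (B₁ B₂ : k[X])
    (h0 : (B₁ * B₂).map (algebraMap k M) ≠ 0) (c : M)
    (hc : ((B₁ * B₂).map (algebraMap k M)).IsRoot c) :
    ((B₁ * B₂).map (algebraMap k M)).rootMultiplicity c ∈ bds k M B₁ B₂ := by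
  classical
  exact Finset.mem_insert_of_mem (Finset.mem_image.2
    ⟨c, Multiset.mem_toFinset.2 ((mem_roots h0).2 hc), rfl⟩)

theorem Bc.ne {M : Type u} [Field M] [Algebra k M] (h : Bc k M N B₁ B₂) : B₁ ≠ 0 ∧ B₂ ≠ 0 := by
  classical
  have h1 : (((B₁.natDegree : ℤ) - B₂.natDegree).natAbs : k) ≠ 0 :=
    h.tame _ (mem_bds_inf B₁ B₂)
  constructor
  · rintro rfl
    have h2 := natDegree_eq_zero_of_isUnit (isCoprime_zero_left.1 h.cop)
    rw [h2, natDegree_zero] at h1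
    simp at h1
  · rintro rfl
    have h2 := natDegree_eq_zero_of_isUnit (isCoprime_zero_right.1 h.cop)
    rw [h2, natDegree_zero] at h1
    simp at h1

theorem Cfg.Npos (hc : Cfg A H K₀ z N B₁ B₂ a w U t) : 0 < N := by
  rcases Nat.eq_zero_or_pos N with h | h
  · have := hc.bc.N0
    rw [h, Nat.cast_zero] at this
    exact absurd rfl this
  · exact h

theorem Cfg.z0' (hc : Cfg A H K₀ z N B₁ B₂ a w U t) : (z : Ω) ≠ 0 := fun h =>
  hc.z0 (Subtype.ext h)

theorem Cfg.U0 (hc : Cfg A H K₀ z N B₁ B₂ a w U t) : U ≠ 0 := by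
  rintro rfl
  have := hc.eqz
  rw [mul_zero] at this
  exact hc.z0' this.symm

theorem Cfg.w0 (hc : Cfg A H K₀ z N B₁ B₂ a w U t) : w ≠ 0 := by
  rintro rfl
  have := hc.eqz
  rw [zero_mul] at this
  exact hc.z0' this.symm

/-- the elements of `K₀` are not all in `H` -/
theorem Cfg.K₀H [IsAlgClosed Ω] [IsAlgClosed A] [IsAlgClosed H]
    (hc : Cfg A H K₀ z N B₁ B₂ a w U t) : ∃ x ∈ K₀, (x : Ω) ∉ H := by
  classical
  by_contra hcon
  push Not at hcon
  have h1 : A ≤ H := by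
    intro x hx
    apply s_mem_of_alg' H
    obtain ⟨p, hp, h1⟩ := hc.al ⟨x, hx⟩
    let g : K₀ →+* H :=
      { toFun := fun y => ⟨((y : A) : Ω), hcon y y.2⟩
        map_one' := rfl
        map_mul' := fun x y => rfl
        map_zero' := rfl
        map_add' := fun x y => rfl }
    refine ⟨p.map g, (Polynomial.map_ne_zero_iff g.injective).2 hp, ?_⟩
    have h2 := congrArg (algebraMap A Ω) h1
    rw [map_zero, aeval_def, hom_eval₂] at h2
    rw [aeval_def, eval₂_map]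
    exact h2
  have h2 : H ≤ A := by
    intro x hx
    by_contra hxA
    apply hc.tH
    apply s_mem_of_alg' H
    have h3 := hc.trA x hxA t
    have h4 : AA A {x} ≤ H := by
      refine sup_le h1 ?_
      rw [IntermediateField.adjoin_le_iff]
      rintro y rfl
      exact hx
    obtain ⟨p, hp, h5⟩ := h3
    let g : AA A {x} →+* H :=
      { toFun := fun y => ⟨(y : Ω), h4 y.2⟩
        map_one' := rfl
        map_mul' := fun x y => rfl
        map_zero' := rfl
        map_add' := fun x y => rfl }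
    refine ⟨p.map g, (Polynomial.map_ne_zero_iff g.injective).2 hp, ?_⟩
    rw [aeval_def] at h5
    rw [aeval_def, eval₂_map]
    exact h5
  obtain rfl : H = A := le_antisymm h2 h1
  obtain ⟨P, Q, hPQ, hQ, hQt, ha⟩ := exists_frac H t hc.tH a hc.at'
  have hUt : U ∈ AA H {t} := by
    have h3 : U = z / w := by
      rw [eq_div_iff hc.w0, mul_comm, hc.eqz]
    rw [h3]
    exact div_mem (mem_AA_le H t z.2) hc.wt
  obtain ⟨U₁, U₂, -, hU₂, hU₂t, hU⟩ := exists_frac H t hc.tH U hUt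
  set B₁' := B₁.map (algebraMap k H) with hB₁'
  set B₂' := B₂.map (algebraMap k H) with hB₂'
  set n := max B₁.natDegree B₂.natDegree with hn
  have hd₁ : B₁'.natDegree = B₁.natDegree := natDegree_map _
  have hd₂ : B₂'.natDegree = B₂.natDegree := natDegree_map _
  have hn₁ : B₁'.natDegree ≤ n := by
    rw [hd₁]
    exact le_max_left _ _
  have hn₂ : B₂'.natDegree ≤ n := by
    rw [hd₂]
    exact le_max_right _ _
  have ha' : aeval t P / aeval t Q = a := by rw [div_eq_iff hQt, ha]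
  have hinj : ∀ f g : H[X], aeval t f = aeval t g → f = g := by
    intro f g h
    by_contra hne
    have := aeval_ne_zero H t hc.tH (f - g) (sub_ne_zero.2 hne)
    rw [map_sub, h, sub_self] at this
    exact this rfl
  have hBm : ∀ B : k[X], aeval a (B.map (algebraMap k H)) = aeval a B := fun B =>
    aeval_map_algebraMap H a B
  refine rh_main N ?_ B₁' B₂' ?_ ?_ ?_ ?_ ?_ ?_ n hn₁ hn₂ P Q U₁ U₂ hPQ ?_ ?_ hU₂ ?_
  · have h3 : algebraMap k H (N : k) ≠ 0 := (_root_.map_ne_zero _).2 hc.bc.N0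
    rwa [map_natCast] at h3
  · exact (Polynomial.map_ne_zero_iff (algebraMap k H).injective).2 hc.bc.ne.1
  · exact (Polynomial.map_ne_zero_iff (algebraMap k H).injective).2 hc.bc.ne.2
  · exact hc.bc.cop.map (mapRingHom (algebraMap k H))
  · rw [hd₁, hd₂]
    exact hc.dv _ (mem_bds_inf B₁ B₂)
  · intro β hβ
    have h3 : B₁' * B₂' = (B₁ * B₂).map (algebraMap k H) := by
      rw [Polynomial.map_mul]
    rw [h3] at hβ ⊢
    exact hc.dv _ (mem_bds_root B₁ B₂ ((Polynomial.map_ne_zero_iff (algebraMap k H).injective).2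
      (mul_ne_zero hc.bc.ne.1 hc.bc.ne.2)) β hβ)
  · obtain ⟨c₁, c₂, hne, h3, h4⟩ := hc.bc.two
    have h5 : B₁' * B₂' = (B₁ * B₂).map (algebraMap k H) := by
      rw [Polynomial.map_mul]
    refine ⟨c₁, c₂, hne, ?_, ?_⟩
    · rw [h5, IsRoot.def, eval_map_algebraMap]
      exact h3
    · rw [h5, IsRoot.def, eval_map_algebraMap]
      exact h4
  · by_contra h0
    push Not at h0
    have h3 : max P.natDegree Q.natDegree = 0 := Nat.le_zero.1 h0
    have h4 : P.natDegree = 0 := Nat.le_zero.1 (h3 ▸ le_max_left _ _)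
    have h5 : Q.natDegree = 0 := Nat.le_zero.1 (h3 ▸ le_max_right _ _)
    apply hc.aA
    rw [← ha', eq_C_of_natDegree_eq_zero h4, eq_C_of_natDegree_eq_zero h5, aeval_C, aeval_C]
    exact div_mem (P.coeff 0).2 (Q.coeff 0).2
  · rintro rfl
    rw [map_zero] at hU
    exact hc.U0 ((mul_eq_zero.1 hU).resolve_right hU₂t)
  · apply hinj
    rw [map_mul, map_mul, map_pow, map_pow, hg_eval n B₂' hn₂ P Q t hQt,
      hg_eval n B₁' hn₁ P Q t hQt, ha', hBm, hBm, ← hU, mul_pow]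
    have := hc.eqU
    linear_combination (aeval t U₂ ^ N * aeval t Q ^ n) * this

/-- the places over the values of `a` outside the zeros and poles of `b` contain `H` -/
theorem Cfg.H_mem [IsAlgClosed H] [IsAlgClosed A] (hc : Cfg A H K₀ z N B₁ B₂ a w U t)
    (hNU : NU (K₀ ⊔ IntermediateField.adjoin k {z})) (hP : Plc A V r) (β₀ : Ω)
    (hβ₀ : IsAlgebraic k β₀) (hβ : aeval β₀ (B₁ * B₂) ≠ 0) (ha : V.valuation (a - β₀) < 1) :
    ∀ x ∈ H, x ∈ V := by
  by_contra hcon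
  push Not at hcon
  have hr := hP.res
  have hV := hP.mem
  have hβA : β₀ ∈ A := s_mem_of_alg A β₀ hβ₀
  obtain ⟨θ, hθ, h1⟩ := res_AA hr hV hc.trA H hcon t hc.tH
  obtain ⟨haV, hra⟩ := hP.sub_lt hβA ha
  have hkc := kap_closed hr hV H
  rw [map_mul] at hβ
  have hβ₁ : aeval β₀ B₁ ≠ 0 := left_ne_zero_of_mul hβ
  have hβ₂ : aeval β₀ B₂ ≠ 0 := right_ne_zero_of_mul hβ
  have hr₁ := hP.res_aeval B₁ haV
  have hr₂ := hP.res_aeval B₂ haV
  rw [hra] at hr₁ hr₂
  have hv₁ : V.valuation (aeval a B₁) = 1 := hP.unit (hP.aeval_mem B₁ haV) (by rw [hr₁]; exact hβ₁)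
  have hv₂ : V.valuation (aeval a B₂) = 1 := hP.unit (hP.aeval_mem B₂ haV) (by rw [hr₂]; exact hβ₂)
  have hvU : V.valuation U = 1 := by
    have h2 := congrArg V.valuation hc.eqU
    rw [map_mul, map_pow, hv₁, hv₂, mul_one] at h2
    exact (pow_eq_one_iff_of_nonneg zero_le hc.Npos.ne').1 h2
  have hUV : U ∈ V := (val_le V U).2 hvU.le
  -- the residue of `U` is algebraic over `k`
  have hu : (r ⟨U, hUV⟩) ^ N * aeval β₀ B₂ = aeval β₀ B₁ := by
    rw [← hr₁, ← hr₂, ← map_pow, ← map_mul]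
    congr 1
    exact Subtype.ext hc.eqU
  have hualg : IsAlgebraic k (r ⟨U, hUV⟩) := by
    refine IsAlgebraic.of_pow hc.Npos ?_
    have h2 : (r ⟨U, hUV⟩) ^ N = aeval β₀ B₁ / aeval β₀ B₂ := by rw [eq_div_iff hβ₂, hu]
    rw [h2, div_eq_mul_inv]
    exact (alg_aeval hβ₀ B₁).mul (alg_aeval hβ₀ B₂).inv
  have huk : r ⟨U, hUV⟩ ∈ AA (kap hr hV H) {θ} :=
    mem_AA_le _ _ (s_mem_of_alg (kap hr hV H) _ hualg)
  -- the element `z`
  have hwV : w ∈ V := by
    rw [val_le]
    have h2 := congrArg V.valuation hc.eqz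
    rw [map_mul, hvU, mul_one, hP.val_A z.2 hc.z0'] at h2
    exact h2.le
  have hz : (z : Ω) = r ⟨w, hwV⟩ * r ⟨U, hUV⟩ := by
    rw [← map_mul]
    have h2 : (⟨w, hwV⟩ * ⟨U, hUV⟩ : V) = ⟨(z : Ω), hV _ z.2⟩ := Subtype.ext hc.eqz
    rw [h2, hr.fix _ _ z.2]
  refine hNU.not (kap hr hV H) (kap_le hr hV H) ?_ θ hθ ?_
  · have h2 := trdeg_kap hr hV H hcon
    rw [hc.tdH] at h2
    have h3 : (2 : Cardinal) = 1 + 1 := by norm_num
    rw [h3] at h2
    exact (Cardinal.add_one_le_add_one_iff).1 h2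
  · have h2 : K₀ ⊔ IntermediateField.adjoin k {z} ≤ (AA (kap hr hV H) {θ}).comap A.val := by
      refine sup_le ?_ ?_
      · intro x hx
        show (x : Ω) ∈ AA (kap hr hV H) {θ}
        have h3 := h1 x (hc.K₀t x hx) (hV _ x.2)
        rwa [hr.fix _ _ x.2] at h3
      · rw [IntermediateField.adjoin_le_iff]
        rintro x rfl
        show (x : Ω) ∈ AA (kap hr hV H) {θ}
        rw [hz]
        exact mul_mem (h1 w hc.wt hwV) huk
    exact fun x hx => h2 hx

/-- `a` is not in `H` -/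
theorem Cfg.aH [IsAlgClosed Ω] [IsAlgClosed H] [IsAlgClosed A]
    (hc : Cfg A H K₀ z N B₁ B₂ a w U t) (hNU : NU (K₀ ⊔ IntermediateField.adjoin k {z})) :
    a ∉ H := by
  intro haH
  obtain ⟨β₀, hβ₀, hβ⟩ := exists_alg_point (k := k) ((B₁ * B₂).map (algebraMap k Ω))
    ((Polynomial.map_ne_zero_iff (algebraMap k Ω).injective).2
      (mul_ne_zero hc.bc.ne.1 hc.bc.ne.2))
  rw [eval_map_algebraMap] at hβ
  have hβA : β₀ ∈ A := s_mem_of_alg A β₀ hβ₀
  have haβ : a - β₀ ∉ A := fun h => hc.aA (by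
    have := add_mem h hβA
    rwa [sub_add_cancel] at this)
  obtain ⟨V, r, hP, hv⟩ := exists_plc A hc.trA (a - β₀) haβ
  have h1 := hc.H_mem hNU hP β₀ hβ₀ hβ hv
  have h2 : (a - β₀)⁻¹ ∈ V := h1 _ (inv_mem (sub_mem haH (s_mem_of_alg H β₀ hβ₀)))
  have h0 : a - β₀ ≠ 0 := fun h => haβ (by rw [h]; exact zero_mem A)
  rw [val_le, map_inv₀, inv_le_one₀ (zero_lt_iff.mpr ((_root_.map_ne_zero _).mpr h0))] at h2
  exact absurd hv (not_lt.mpr h2)

end

end Pool.Agent.TUQ
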