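import Pool.Agent.TUQ.G11
import Pool.Agent.TUQ.S3f

/-!
# Points `T`, the embeddings `ξ_T` and discs
-/

set_option autoImplicit false

namespace Pool.Agent.TUQ

open Polynomial Pool.Agent.TBR Cardinal

universe u

section

variable {k Ω : Type u} [Field k] [Field Ω] [Algebra k Ω]
variable {A H : IntermediateField k Ω} {K₀ : IntermediateField k A} {z : A}
  {w U t : Ω}

/-- `ξ` is the embedding of `K` at the point `T` -/
structure Pnt (H : IntermediateField k Ω) (K₀ : IntermediateField k A) (z : A) (w U t T : Ω)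
    (s : Ω ≃ₐ[k] Ω) (ξ : A →ₐ[k] Ω) : Prop where
  sH : s ∈ Fx k (H : Set Ω)
  st : s t = T
  xK : ∀ x ∈ K₀, ξ x = s x
  xz : ξ z = s w * U

theorem Fx.aeval {s : Ω ≃ₐ[k] Ω} (hs : s ∈ Fx k (H : Set Ω)) (p : H[X]) (x : Ω) :
    s (aeval x p) = aeval (s x) p :=
  by
    rw [aeval_eq_sum_range, aeval_eq_sum_range, map_sum]
    refine Finset.sum_congr rfl fun i _ => ?_
    rw [Algebra.smul_def, Algebra.smul_def, map_mul, map_pow]
    congr 1
    exact hs _ (p.coeff i).2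

theorem Pnt.formula {T : Ω} {s : Ω ≃ₐ[k] Ω} {ξ : A →ₐ[k] Ω} (h : Pnt H K₀ z w U t T s ξ)
    {x : A} (hx : x ∈ K₀) (p q : H[X]) (hpq : (x : Ω) * aeval t q = aeval t p) :
    ξ x * aeval T q = aeval T p := by
  rw [h.xK x hx, ← h.st, ← Fx.aeval h.sH, ← Fx.aeval h.sH, ← map_mul, hpq]

theorem Pnt.formula_z {T : Ω} {s : Ω ≃ₐ[k] Ω} {ξ : A →ₐ[k] Ω} (h : Pnt H K₀ z w U t T s ξ)
    (p q : H[X]) (hpq : w * aeval t q = aeval t p) :
    ξ z * aeval T q = aeval T p * U := by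
  have h1 := congrArg s hpq
  rw [map_mul, Fx.aeval h.sH, Fx.aeval h.sH, h.st] at h1
  rw [h.xz, ← h1]
  ring

variable {V : ValuationSubring Ω} {r : V →+* Ω} {N : ℕ} {B₁ B₂ : k[X]} {a : Ω}
variable [IsAlgClosed Ω] [IsAlgClosed A] [IsAlgClosed H]

omit [IsAlgClosed Ω] [IsAlgClosed A] in
/-- an embedding which is integral on `K₀` is integral -/
theorem good_of_K₀ (V : ValuationSubring Ω) (hal : ∀ x : A, IsAlgebraic K₀ x) (ξ : A →ₐ[k] Ω)
    (h : ∀ x ∈ K₀, ξ x ∈ V) (x : A) : ξ x ∈ V := by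
  refine Pool.Agent.TBR.V.mem_of_isAlgebraic V (K₀.map ξ) ?_ _ ?_
  · rintro _ ⟨y, hy, rfl⟩
    exact h y hy
  · obtain ⟨p, hp0, hp⟩ := hal x
    let g : K₀ →+* K₀.map ξ :=
      { toFun := fun y => ⟨ξ y, ⟨y, y.2, rfl⟩⟩
        map_one' := Subtype.ext (map_one ξ)
        map_mul' := fun x y => Subtype.ext (map_mul ξ (x : A) y)
        map_zero' := Subtype.ext (map_zero ξ)
        map_add' := fun x y => Subtype.ext (map_add ξ (x : A) y) }
    refine ⟨p.map g, (Polynomial.map_ne_zero_iff g.injective).2 hp0, ?_⟩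
    have h2 := congrArg (ξ : A →+* Ω) hp
    rw [map_zero, aeval_def, hom_eval₂] at h2
    rw [aeval_def, eval₂_map]
    exact h2

/-- goodness depends on the disc only -/
theorem good_of_disc (hr : IsRes A V r) (hV : ∀ x ∈ A, x ∈ V)
    (hal : ∀ x : A, IsAlgebraic K₀ x) (tH : t ∉ H)
    (K₀t : ∀ x ∈ K₀, (x : Ω) ∈ AA H {t}) {α π : H} (hπ : π ≠ 0) {T T' : Ω} {s s' : Ω ≃ₐ[k] Ω}
    {ξ ξ' : A →ₐ[k] Ω} (h : Pnt H K₀ z w U t T s ξ) (h' : Pnt H K₀ z w U t T' s' ξ')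
    (hG : Gen hr hV H α π T) (hG' : Gen hr hV H α π T') (hgood : ∀ x, ξ x ∈ V) :
    ∀ x, ξ' x ∈ V := by
  refine good_of_K₀ V hal ξ' fun x hx => ?_
  by_cases hx0 : x = 0
  · rw [hx0, map_zero]
    exact zero_mem V
  obtain ⟨p, q, -, hq, hqt, hpq⟩ := exists_frac H t tH x (K₀t x hx)
  have hp : p ≠ 0 := by
    rintro rfl
    rw [map_zero] at hpq
    exact hx0 (Subtype.ext ((mul_eq_zero.1 hpq).resolve_right hqt))
  obtain ⟨ϖ, β, P₁, Q₁, hRD⟩ := exists_RD hr hV H α π hπ p q hp hq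
  have h1 := h.formula hx p q hpq
  have h2 := h'.formula hx p q hpq
  obtain ⟨hT, hT1⟩ := hG
  obtain ⟨hT', hT1'⟩ := hG'
  have h3 : ξ x = aeval T p / aeval T q := by
    rw [eq_div_iff (hRD.Q_ne hπ T hT hT1), h1]
  have h4 : ξ' x = aeval T' p / aeval T' q := by
    rw [eq_div_iff (hRD.Q_ne hπ T' hT' hT1'), h2]
  rw [val_le, h4, hRD.val hπ T' hT' hT1', ← hRD.val hπ T hT hT1, ← h3, ← val_le]
  exact hgood x

/-- the field `K` -/
abbrev KK (K₀ : IntermediateField k A) (z : A) : IntermediateField k A :=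
  K₀ ⊔ IntermediateField.adjoin k {z}

omit [IsAlgClosed Ω] [IsAlgClosed A] in
theorem KK_alg (hal : ∀ x : A, IsAlgebraic K₀ x) (x : A) : IsAlgebraic (KK K₀ z) x := by
  obtain ⟨p, hp0, hp⟩ := hal x
  have hle : K₀ ≤ KK K₀ z := le_sup_left
  refine ⟨p.map (IntermediateField.inclusion hle : K₀ →+* KK K₀ z),
    (Polynomial.map_ne_zero_iff (IntermediateField.inclusion_injective hle)).2 hp0, ?_⟩
  rw [aeval_def, eval₂_map]
  exact hp

/-- a good point is generic in a disc -/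
theorem exists_disc (hc : Cfg A H K₀ z N B₁ B₂ a w U t) (hNU : NU (KK K₀ z)) (hP : Plc A V r)
    (hH : ∃ β ∈ H, β ∉ V) {T : Ω} {s : Ω ≃ₐ[k] Ω} {ξ : A →ₐ[k] Ω}
    (h : Pnt H K₀ z w U t T s ξ) (hgood : ∀ x, ξ x ∈ V) (hT : T ∉ H) :
    ∃ α π : H, π ≠ 0 ∧ Gen hP.res hP.mem H α π T := by
  have hr := hP.res
  have hV := hP.mem
  rcases gauss_or_imm hr hV hc.trA H hH T hT with ⟨α, π, θ, hG⟩ | hI
  · obtain ⟨α', π', -, -, h1, h2⟩ := hG.gen
    exact ⟨α', π', h1, h2⟩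
  exfalso
  obtain ⟨e, he⟩ := exists_resE hr (ξ.comp (KK K₀ z).val) fun x => hgood x
  have hκ := kA_closed hr hV H
  have htr : Algebra.trdeg k A < ℵ₀ := by
    rw [hc.tdA]
    exact Cardinal.ofNat_lt_aleph0
  refine g_nu_emb htr (KK K₀ z) (KK_alg hc.al) hNU e (kA hr hV H) 0 hκ
    (kA_trdeg hr hV H hH hc.tdH) ?_
  -- the values on `K₀`
  have h1 : ∀ x : A, ∀ hx : x ∈ K₀, e ⟨x, le_sup_left (a := K₀) hx⟩ ∈ kA hr hV H := by
    intro x hx
    obtain ⟨h2, h3⟩ := he ⟨x, le_sup_left (a := K₀) hx⟩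
    rw [mem_kA, ← h3]
    refine imm_res hr hV H T hI _ ?_ h2
    obtain ⟨p, q, -, hq, hqt, hpq⟩ := exists_frac H t hc.tH x (hc.K₀t x hx)
    have h4 := h.formula hx p q hpq
    rw [Pool.Agent.TBR.V.mem_AA]
    refine ⟨p, q, ?_⟩
    rw [eq_div_iff (aeval_ne_zero H T hT q hq)]
    exact h4
  -- the values on `K`
  have h2 : ∀ x, e x ∈ kA hr hV H := by
    intro x
    refine g_mem_of_alg (kA hr hV H) _ ?_
    obtain ⟨p, hp0, hp⟩ := hc.al (x : A)
    let g : K₀ →+* kA hr hV H :=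
      { toFun := fun y => ⟨e ⟨y, le_sup_left (a := K₀) y.2⟩, h1 y y.2⟩
        map_one' := Subtype.ext (map_one e)
        map_mul' := fun x y => Subtype.ext (map_mul e (⟨x, le_sup_left (a := K₀) x.2⟩ : KK K₀ z)
          ⟨y, le_sup_left (a := K₀) y.2⟩)
        map_zero' := Subtype.ext (map_zero e)
        map_add' := fun x y => Subtype.ext (map_add e (⟨x, le_sup_left (a := K₀) x.2⟩ : KK K₀ z)
          ⟨y, le_sup_left (a := K₀) y.2⟩) }
    refine ⟨p.map g, (Polynomial.map_ne_zero_iff g.injective).2 hp0, ?_⟩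
    have hle : K₀ ≤ KK K₀ z := le_sup_left
    have h3 : aeval x (p.map (IntermediateField.inclusion hle : K₀ →+* KK K₀ z)) = 0 := by
      apply (algebraMap (KK K₀ z) A).injective
      rw [map_zero, aeval_def, hom_eval₂, eval₂_map]
      exact hp
    have h4 := congrArg (e : KK K₀ z →+* A) h3
    rw [map_zero, aeval_def, hom_eval₂, eval₂_map] at h4
    rw [aeval_def, eval₂_map]
    exact h4
  intro x
  exact (le_sup_left (a := kA hr hV H)) (h2 x)

end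

end Pool.Agent.TUQ
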