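import Pool.Agent.TUQ.S4b

/-!
# The data for the geometry of the embeddings
-/

set_option autoImplicit false

namespace Pool.Agent.TUQ

open Polynomial Pool.Agent.TBR

universe u

section

variable {k Ω : Type u} [Field k] [Field Ω] [Algebra k Ω]

/-- the numerator (`B = B₁`) and the denominator (`B = B₂`) of `b(A₁ / A₂)` -/
noncomputable def PH {H : IntermediateField k Ω} (B₁ B₂ B : k[X]) (A₁ A₂ : H[X]) : H[X] :=
  hg (max B₁.natDegree B₂.natDegree) B A₁ A₂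

/-- the data: `a = A₁(t) / A₂(t)`, the roots `T i` of
`(b(a(X)) - b(a)) / (a(X) - a)`, automorphisms over `H` which map `t` to `T i` and the
embeddings of `A` -/
structure GD (A H : IntermediateField k Ω) (K₀ : IntermediateField k A) (z : A) (N : ℕ)
    (B₁ B₂ : k[X]) (a w U t : Ω) (A₁ A₂ : H[X]) (c : Ω) (Φ : k[X][X]) {m : ℕ} (T : Fin m → Ω)
    (s : Fin m → (Ω ≃ₐ[k] Ω)) (ξ : Fin m → (A →ₐ[k] Ω)) (f : Polynomial Ω) : Prop where
  cop : IsCoprime A₁ A₂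
  A₂0 : A₂ ≠ 0
  A₂t : aeval t A₂ ≠ 0
  aeq : a * aeval t A₂ = aeval t A₁
  c0 : c ≠ 0
  Phi : B₁.map C * C B₂ - B₂.map C * C B₁ = (X - C X) * Φ
  f0 : f ≠ 0
  fdef : f = hg (max B₁.natDegree B₂.natDegree - 1) (PhiAt Φ a) (A₁.map (algebraMap H Ω))
    (A₂.map (algebraMap H Ω))
  feq : (PH B₁ B₂ B₁ A₁ A₂).map (algebraMap H Ω) -
      C (U ^ N) * (PH B₁ B₂ B₂ A₁ A₂).map (algebraMap H Ω) =
    C c * (A₁.map (algebraMap H Ω) - C a * A₂.map (algebraMap H Ω)) * f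
  roots : f.roots = Finset.univ.val.map T
  TH : ∀ i, T i ∉ H
  Tt : ∀ i, T i ≠ t
  sH : ∀ i, s i ∈ Fx k (H : Set Ω)
  st : ∀ i, s i t = T i
  ξK : ∀ i, ∀ x ∈ K₀, ξ i x = s i x
  ξz : ∀ i, ξ i z = s i w * U
  seq : ∀ i, U ^ N * aeval (s i a) B₂ = aeval (s i a) B₁
  sB₂ : ∀ i, aeval (s i a) B₂ ≠ 0
  sa : ∀ i, s i a ≠ a
  Pa : ∀ i, (PhiAt Φ a).eval (s i a) = 0

variable {A H : IntermediateField k Ω} {K₀ : IntermediateField k A} {z : A} {N : ℕ} {B₁ B₂ : k[X]}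
  {a w U t : Ω}

/-- an automorphism over `H` and polynomials over `H` -/
theorem Fx_aeval (H : IntermediateField k Ω) {s : Ω ≃ₐ[k] Ω} (hs : s ∈ Fx k (H : Set Ω))
    (P : H[X]) (x : Ω) : s (aeval x P) = aeval (s x) P := by
  rw [aeval_eq_sum_range, aeval_eq_sum_range, map_sum]
  refine Finset.sum_congr rfl fun i _ => ?_
  rw [Algebra.smul_def, Algebra.smul_def, map_mul, map_pow]
  congr 1
  exact hs _ (P.coeff i).2

/-- elements transcendental over `k` -/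
theorem aeval_ne_k (E : IntermediateField k Ω) [IsAlgClosed E] {x : Ω} (hx : x ∉ E) {B : k[X]}
    (hB : B ≠ 0) : aeval x B ≠ 0 := by
  rw [← aeval_map_algebraMap E x B]
  exact aeval_ne_zero E x hx _ ((Polynomial.map_ne_zero_iff (algebraMap k E).injective).2 hB)

theorem Cfg.W_ne (hc : Cfg A H K₀ z N B₁ B₂ a w U t) :
    derivative B₁ * B₂ - derivative B₂ * B₁ ≠ 0 := by
  obtain ⟨c, -, -, h1, -⟩ := hc.bc.two
  have h0 : B₁ * B₂ ≠ 0 := mul_ne_zero hc.bc.ne.1 hc.bc.ne.2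
  have h0' : (B₁ * B₂).map (algebraMap k A) ≠ 0 :=
    (Polynomial.map_ne_zero_iff (algebraMap k A).injective).2 h0
  have hr : ((B₁ * B₂).map (algebraMap k A)).IsRoot c := by
    rw [IsRoot.def, eval_map_algebraMap]
    exact h1
  refine Pool.Agent.TUQ.W_ne B₁ B₂ hc.bc.cop c hr h0 ?_
  have h2 := hc.bc.tame _ (mem_bds_root B₁ B₂ h0' c hr)
  have h3 : algebraMap k A (((B₁ * B₂).map (algebraMap k A)).rootMultiplicity c : k) ≠ 0 :=
    (_root_.map_ne_zero _).2 h2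
  rwa [map_natCast] at h3

/-- `U ^ N = b(a)` is not in `H` -/
theorem Cfg.UH [IsAlgClosed Ω] [IsAlgClosed H] [IsAlgClosed A]
    (hc : Cfg A H K₀ z N B₁ B₂ a w U t) (hNU : NU (K₀ ⊔ IntermediateField.adjoin k {z})) :
    U ^ N ∉ H := by
  intro hU
  have haH := hc.aH hNU
  set u : H := ⟨U ^ N, hU⟩ with hu
  have h1 : aeval a (B₁.map (algebraMap k H) - C u * B₂.map (algebraMap k H)) = 0 := by
    rw [map_sub, map_mul, aeval_C, aeval_map_algebraMap, aeval_map_algebraMap, ← hc.eqU, sub_eq_zero]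
    rfl
  have h2 : B₁.map (algebraMap k H) - C u * B₂.map (algebraMap k H) = 0 := by
    by_contra h
    exact aeval_ne_zero H a haH _ h h1
  rw [sub_eq_zero] at h2
  have h3 : IsCoprime (B₁.map (algebraMap k H)) (B₂.map (algebraMap k H)) :=
    hc.bc.cop.map (mapRingHom (algebraMap k H))
  rw [h2] at h3
  have h4 : IsUnit (B₂.map (algebraMap k H)) := isCoprime_self.1 (h3.of_mul_left_right)
  have h5 : (B₂.map (algebraMap k H)).natDegree = 0 := natDegree_eq_zero_of_isUnit h4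
  have h6 : (B₁.map (algebraMap k H)).natDegree = 0 := by
    rw [h2]
    exact Nat.le_zero.1 ((natDegree_C_mul_le _ _).trans h5.le)
  rw [natDegree_map] at h5 h6
  have h7 : (((B₁.natDegree : ℤ) - B₂.natDegree).natAbs : k) ≠ 0 :=
    hc.bc.tame _ (mem_bds_inf B₁ B₂)
  rw [h5, h6] at h7
  simp at h7

/-- existence of the data -/
theorem Cfg.exists_GD [IsAlgClosed Ω] [IsAlgClosed H] [IsAlgClosed A]
    (hc : Cfg A H K₀ z N B₁ B₂ a w U t) (hNU : NU (K₀ ⊔ IntermediateField.adjoin k {z})) :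
    ∃ (A₁ A₂ : H[X]) (c : Ω) (Φ : k[X][X]) (m : ℕ) (T : Fin m → Ω) (s : Fin m → (Ω ≃ₐ[k] Ω))
      (ξ : Fin m → (A →ₐ[k] Ω)) (f : Polynomial Ω), GD A H K₀ z N B₁ B₂ a w U t A₁ A₂ c Φ T s ξ f := by
  classical
  obtain ⟨A₁, A₂, hcop, hA₂, hA₂t, haeq⟩ := exists_frac H t hc.tH a hc.at'
  obtain ⟨Φ, hΦ⟩ := exists_Phi B₁ B₂
  have haH := hc.aH hNU
  have hUH := hc.UH hNU
  set n := max B₁.natDegree B₂.natDegree with hn
  have hB₂a : aeval a B₂ ≠ 0 := aeval_ne_k H haH hc.bc.ne.2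
  have ha' : aeval t A₁ / aeval t A₂ = a := by rw [div_eq_iff hA₂t, haeq]
  have hn1 : 1 ≤ n := by
    by_contra hcon
    have h0 : n = 0 := by omega
    have h5 : B₁.natDegree = 0 := Nat.le_zero.1 (h0 ▸ le_max_left _ _)
    have h6 : B₂.natDegree = 0 := Nat.le_zero.1 (h0 ▸ le_max_right _ _)
    have h7 : (((B₁.natDegree : ℤ) - B₂.natDegree).natAbs : k) ≠ 0 :=
      hc.bc.tame _ (mem_bds_inf B₁ B₂)
    rw [h5, h6] at h7
    simp at h7
  set α₁ : Polynomial Ω := A₁.map (algebraMap H Ω) with hα₁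
  set α₂ : Polynomial Ω := A₂.map (algebraMap H Ω) with hα₂
  have hα₂0 : α₂ ≠ 0 := (Polynomial.map_ne_zero_iff (algebraMap H Ω).injective).2 hA₂
  set f : Polynomial Ω := hg (n - 1) (PhiAt Φ a) α₁ α₂ with hf
  have hdeg : (PhiAt Φ a).natDegree ≤ n - 1 :=
    PhiAt_deg hΦ n (le_max_left _ _) (le_max_right _ _) a
  -- the homogenizations
  have hPm : ∀ B : k[X], (PH B₁ B₂ B A₁ A₂).map (algebraMap H Ω) = hg n (B.map (algebraMap k Ω)) α₁ α₂ := by
    intro B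
    have h1 := hg_hom (algebraMap k Ω) (mapRingHom (algebraMap H Ω)) (fun x => by
      rw [coe_mapRingHom, IsScalarTower.algebraMap_apply k H H[X], algebraMap_eq, map_C,
        ← IsScalarTower.algebraMap_apply, algebraMap_eq]) n B A₁ A₂
    exact h1
  have hfull : (PH B₁ B₂ B₁ A₁ A₂).map (algebraMap H Ω) * C (aeval a B₂) -
      (PH B₁ B₂ B₂ A₁ A₂).map (algebraMap H Ω) * C (aeval a B₁) = (α₁ - C a * α₂) * f := by
    have h1 := congrArg (fun p => hg n p α₁ α₂) (PhiAt_eq hΦ a)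
    have h2 : hg n ((X - C a) * PhiAt Φ a) α₁ α₂ = (α₁ - C a * α₂) * f := by
      have h3 : n = 1 + (n - 1) := by omega
      conv_lhs => rw [h3]
      rw [hg_mul 1 (n - 1) _ _ (natDegree_X_sub_C_le a) hdeg α₁ α₂ hα₂0, hg_X_sub_C]
      rfl
    rw [h2, hg_sub, mul_comm _ (C (aeval a B₂)), mul_comm _ (C (aeval a B₁)), hg_C_mul, hg_C_mul] at h1
    rw [hPm, hPm, ← h1]
    show _ = C (aeval a B₂) * _ - C (aeval a B₁) * _
    ring
  have hfeq : (PH B₁ B₂ B₁ A₁ A₂).map (algebraMap H Ω) -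
      C (U ^ N) * (PH B₁ B₂ B₂ A₁ A₂).map (algebraMap H Ω) =
      C (aeval a B₂)⁻¹ * (α₁ - C a * α₂) * f := by
    rw [mul_assoc, ← hfull, ← hc.eqU, C_mul]
    have h3 : (C (aeval a B₂)⁻¹ * C (aeval a B₂) : Polynomial Ω) = 1 := by
      rw [← C_mul, inv_mul_cancel₀ hB₂a, C_1]
    linear_combination (-(PH B₁ B₂ B₁ A₁ A₂).map (algebraMap H Ω) +
      C (U ^ N) * (PH B₁ B₂ B₂ A₁ A₂).map (algebraMap H Ω)) * h3
  have hPt : ∀ B : k[X], B.natDegree ≤ n → ∀ x : Ω, aeval x A₂ ≠ 0 →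
      aeval x (PH B₁ B₂ B A₁ A₂) = (aeval x A₂) ^ n * aeval (aeval x A₁ / aeval x A₂) B :=
    fun B hB x hx => hg_eval n B hB A₁ A₂ x hx
  have hQ0 : PH B₁ B₂ B₂ A₁ A₂ ≠ 0 := by
    intro h
    have h1 := hPt B₂ (le_max_right _ _) t hA₂t
    rw [h, map_zero, ha'] at h1
    exact mul_ne_zero (pow_ne_zero _ hA₂t) hB₂a h1.symm
  have hfull0 : (PH B₁ B₂ B₁ A₁ A₂).map (algebraMap H Ω) -
      C (U ^ N) * (PH B₁ B₂ B₂ A₁ A₂).map (algebraMap H Ω) ≠ 0 := by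
    intro h
    obtain ⟨j, hj⟩ : ∃ j, (PH B₁ B₂ B₂ A₁ A₂).coeff j ≠ 0 := by
      by_contra hcon
      push Not at hcon
      exact hQ0 (Polynomial.ext fun j => by rw [hcon j, coeff_zero])
    have h1 := congrArg (fun p => p.coeff j) h
    simp only [coeff_sub, coeff_C_mul, coeff_map, coeff_zero] at h1
    have hj' : ((PH B₁ B₂ B₂ A₁ A₂).coeff j : Ω) ≠ 0 := by simpa using hj
    apply hUH
    have h2 : U ^ N = ((PH B₁ B₂ B₁ A₁ A₂).coeff j : Ω) / (PH B₁ B₂ B₂ A₁ A₂).coeff j := by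
      rw [eq_div_iff hj']
      exact (sub_eq_zero.1 h1).symm
    rw [h2]
    exact div_mem (Subtype.property _) (Subtype.property _)
  have hf0 : f ≠ 0 := by
    intro h
    rw [hfeq, h, mul_zero] at hfull0
    exact hfull0 rfl
  -- the values
  have heval : ∀ (x : Ω) (P : H[X]), (P.map (algebraMap H Ω)).eval x = aeval x P := fun x P =>
    eval_map_algebraMap P x
  have hroot : ∀ x, f.IsRoot x → aeval x (PH B₁ B₂ B₁ A₁ A₂) = U ^ N * aeval x (PH B₁ B₂ B₂ A₁ A₂) := by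
    intro x hx
    have h1 := congrArg (eval x) hfeq
    rw [eval_mul, hx.eq_zero, mul_zero, eval_sub, eval_mul, eval_C, heval, heval, sub_eq_zero] at h1
    exact h1
  have hTH : ∀ x, f.IsRoot x → x ∉ H := by
    intro x hx hxH
    have h1 := hroot x hx
    have hm : ∀ P : H[X], aeval x P ∈ H := by
      intro P
      have : aeval x P = ((P.eval ⟨x, hxH⟩ : H) : Ω) := by
        have h2 := aeval_algebraMap_apply Ω (⟨x, hxH⟩ : H) P
        exact h2
      rw [this]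
      exact Subtype.property _
    have h2 : aeval x (PH B₁ B₂ B₂ A₁ A₂) = 0 := by
      by_contra hne
      apply hUH
      have h3 : U ^ N = aeval x (PH B₁ B₂ B₁ A₁ A₂) / aeval x (PH B₁ B₂ B₂ A₁ A₂) := by
        rw [eq_div_iff hne, h1]
      rw [h3]
      exact div_mem (hm _) (hm _)
    rw [h2, mul_zero] at h1
    have h4 : aeval x A₁ ≠ 0 ∨ aeval x A₂ ≠ 0 := by
      by_contra hcon
      push Not at hcon
      obtain ⟨p, q, hpq⟩ := hcop
      have := congrArg (aeval x) hpq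
      rw [map_add, map_mul, map_mul, hcon.1, hcon.2, mul_zero, mul_zero, add_zero, map_one] at this
      exact zero_ne_one this
    refine hg_no_common B₁ B₂ hc.bc.cop hc.bc.ne.1 hc.bc.ne.2 _ _ h4 ?_ ?_
    · rw [← hg_map_aeval]
      exact h1
    · rw [← hg_map_aeval]
      exact h2
  have hPhia : (PhiAt Φ a).eval a ≠ 0 := by
    rw [PhiAt_self hΦ]
    exact aeval_ne_k H haH hc.W_ne
  have hfev : ∀ x, aeval x A₂ ≠ 0 → f.eval x =
      (aeval x A₂) ^ (n - 1) * (PhiAt Φ a).eval (aeval x A₁ / aeval x A₂) := by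
    intro x hx
    have h1 := hg_eval (F := Ω) (n - 1) (PhiAt Φ a) hdeg α₁ α₂ x (by
      rw [hα₂, aeval_map_algebraMap]
      exact hx)
    rw [hα₁, hα₂, aeval_map_algebraMap, aeval_map_algebraMap, ← hα₁, ← hα₂] at h1
    rw [← coe_aeval_eq_eval, ← coe_aeval_eq_eval]
    exact h1
  have hane : ∀ x, f.IsRoot x → aeval x A₁ / aeval x A₂ ≠ a := by
    intro x hx hxa
    have hxA : aeval x A₂ ≠ 0 := aeval_ne_zero H x (hTH x hx) A₂ hA₂
    have h1 := hfev x hxA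
    rw [hx.eq_zero, hxa] at h1
    exact mul_ne_zero (pow_ne_zero _ hxA) hPhia h1.symm
  -- the roots
  obtain ⟨m, T, hT⟩ : ∃ (m : ℕ) (T : Fin m → Ω), f.roots = Finset.univ.val.map T := by
    refine ⟨f.roots.toList.length, f.roots.toList.get, ?_⟩
    rw [Fin.univ_val_map, List.ofFn_get, Multiset.coe_toList]
  have hTr : ∀ i, f.IsRoot (T i) := by
    intro i
    rw [← mem_roots hf0, hT, Multiset.mem_map]
    exact ⟨i, Finset.mem_univ_val _, rfl⟩
  have hs : ∀ i, ∃ s ∈ Fx k (H : Set Ω), s t = T i := fun i =>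
    exists_s H hc.trH t (T i) hc.tH (hTH _ (hTr i))
  choose s hsH hst using hs
  have hsa : ∀ i, s i a = aeval (T i) A₁ / aeval (T i) A₂ := by
    intro i
    rw [← ha', map_div₀, Fx_aeval H (hsH i), Fx_aeval H (hsH i), hst]
  have hA₂T : ∀ i, aeval (T i) A₂ ≠ 0 := fun i => aeval_ne_zero H _ (hTH _ (hTr i)) A₂ hA₂
  have hseq : ∀ i, U ^ N * aeval (s i a) B₂ = aeval (s i a) B₁ := by
    intro i
    have h1 := hroot _ (hTr i)
    rw [hPt B₁ (le_max_left _ _) _ (hA₂T i), hPt B₂ (le_max_right _ _) _ (hA₂T i), ← hsa] at h1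
    refine mul_left_cancel₀ (pow_ne_zero n (hA₂T i)) ?_
    linear_combination -h1
  have hξ := fun i => hc.exists_xi (s i) (hseq i)
  choose ξ hξK hξz using hξ
  refine ⟨A₁, A₂, (aeval a B₂)⁻¹, Φ, m, T, s, ξ, f, hcop, hA₂, hA₂t, haeq, inv_ne_zero hB₂a, hΦ, hf0,
    rfl, hfeq, hT, fun i => hTH _ (hTr i), fun i h => ?_, hsH, hst, hξK, hξz, hseq, fun i => ?_,
    fun i => ?_, fun i => ?_⟩
  · have h1 := hane _ (hTr i)
    rw [h, ha'] at h1
    exact h1 rfl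
  · have h1 : aeval (s i a) B₂ = s i (aeval a B₂) := aeval_algHom_apply (s i : Ω →ₐ[k] Ω) a B₂
    rw [h1]
    exact (_root_.map_ne_zero _).2 hB₂a
  · rw [hsa]
    exact hane _ (hTr i)
  · have h1 := hfev _ (hA₂T i)
    rw [(hTr i).eq_zero, ← hsa] at h1
    exact (mul_eq_zero.1 h1.symm).resolve_left (pow_ne_zero _ (hA₂T i))

end

end Pool.Agent.TUQ
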