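import Pool.Agent.TUQ.F2

/-!
# The set-up: a uniruled field in a rational function field
-/

set_option autoImplicit false

namespace Pool.Agent.TUQ

open Polynomial Pool.Agent.TBR Pool.Agent.UQ Cardinal

universe u

theorem range_closed {k M Ω : Type u} [Field k] [Field M] [Field Ω] [Algebra k M] [Algebra k Ω]
    [IsAlgClosed M] (i : M →ₐ[k] Ω) : IsAlgClosed i.fieldRange :=
  IsAlgClosed.of_ringEquiv M i.fieldRange (AlgEquiv.ofInjectiveField i).toRingEquiv

theorem setup {k M : Type u} [Field k] [Field M] [Algebra k M] [IsAlgClosed M]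
    (K₀ : IntermediateField k M) (hfg : K₀.FG) (htd : Algebra.trdeg k M = 2)
    (hal : ∀ x : M, IsAlgebraic K₀ x) (N : ℕ) (B₁ B₂ : k[X]) (hb : Bc k M N B₁ B₂)
    (hdv : ∀ e ∈ bds k M B₁ B₂, ¬ N ∣ e) (z : M) (z0 : z ≠ 0) (zN : z ^ N ∈ K₀)
    (irr : Irreducible (X ^ N - C (⟨z ^ N, zN⟩ : K₀)))
    (L : Type u) [Field L] [Algebra k L] [Algebra K₀ L] [IsScalarTower k K₀ L] (a w : L)
    (ha : Transcendental K₀ a)
    (hw : w ^ N * aeval a B₁ = algebraMap K₀ L ⟨z ^ N, zN⟩ * aeval a B₂)
    (hgen : IntermediateField.adjoin K₀ {a, w} = ⊤) (hL : Uniruled k L) :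
    ∃ (Ω : Type u) (_ : Field Ω) (_ : Algebra k Ω) (A H : IntermediateField k Ω) (e : M ≃ₐ[k] A)
      (a' w' U t : Ω), IsAlgClosed Ω ∧ IsAlgClosed A ∧ IsAlgClosed H ∧
      Cfg A H (K₀.map (e : M →ₐ[k] A)) (e z) N B₁ B₂ a' w' U t := by
  have hN0 : 0 < N := by
    rcases Nat.eq_zero_or_pos N with h | h
    · exact absurd (by rw [h, Nat.cast_zero]) hb.N0
    · exact h
  have hB0 : B₁ * B₂ ≠ 0 := by
    intro h0
    have h1 : (0 : ℕ) ∉ bds k M B₁ B₂ := fun h => hb.tame 0 h (by rw [Nat.cast_zero])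
    rcases mul_eq_zero.1 h0 with h2 | h2
    · have h3 := hb.cop
      rw [h2, isCoprime_zero_left] at h3
      have h4 := natDegree_eq_zero_of_isUnit h3
      apply h1
      unfold bds
      rw [Finset.mem_insert]
      left
      rw [h2, h4, natDegree_zero]
      rfl
    · have h3 := hb.cop
      rw [h2, isCoprime_zero_right] at h3
      have h4 := natDegree_eq_zero_of_isUnit h3
      apply h1
      unfold bds
      rw [Finset.mem_insert]
      left
      rw [h2, h4, natDegree_zero]
      rfl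
  have hB₁ : B₁ ≠ 0 := left_ne_zero_of_mul hB0
  have hB₂ : B₂ ≠ 0 := right_ne_zero_of_mul hB0
  have hKalg : Algebra.IsAlgebraic K₀ M := ⟨hal⟩
  have htd₀ : Algebra.trdeg k K₀ = 2 := by rw [← trdeg_alg k K₀ M, htd]
  have htL := setup_trL htd₀ N hN0 B₁ B₂ hB₁ a w ⟨z ^ N, zN⟩ ha hw hgen
  obtain ⟨M', _, _, hM'fg, hM't, ⟨φ⟩⟩ := hL
  rw [htL] at hM't
  -- the field `Ω`
  have h0 : Algebra.IsAlgebraic (Polynomial M') (RatFunc M') :=
    IsLocalization.isAlgebraic (RatFunc M') (nonZeroDivisors (Polynomial M'))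
  have hR1 : Algebra.trdeg M' (RatFunc M') = 1 := by
    rw [← _root_.trdeg_add_eq M' (Polynomial M') (A := RatFunc M'),
      _root_.trdeg_eq_zero (R := Polynomial M') (A := RatFunc M'), add_zero,
      Polynomial.trdeg_of_isDomain]
  have hR3 : Algebra.trdeg k (RatFunc M') = 3 := by
    rw [← _root_.trdeg_add_eq k M' (A := RatFunc M'), hR1, hM't]
  have hM'2 : Algebra.trdeg k M' = 2 := by
    have h1 : (2 : Cardinal.{u}) + 1 = 3 := by norm_num
    rw [← h1] at hM't
    exact (Cardinal.add_one_inj).1 hM't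
  let Ω := AlgebraicClosure (RatFunc M')
  have hΩR : Algebra.trdeg k Ω = 3 := by rw [trdeg_alg k (RatFunc M') Ω, hR3]
  let ι : RatFunc M' →ₐ[k] Ω := IsScalarTower.toAlgHom k (RatFunc M') Ω
  let j : L →ₐ[k] Ω := ι.comp φ
  let j₀ : K₀ →ₐ[k] Ω := j.comp (IsScalarTower.toAlgHom k K₀ L)
  -- the field `H`
  let HM : IntermediateField M' Ω := algebraicClosure M' Ω
  let H : IntermediateField k Ω := HM.restrictScalars k
  have hHcl : IsAlgClosed H := by
    have h1 : IsAlgClosure M' HM := inferInstance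
    exact h1.isAlgClosed
  have hM'H : ∀ x : M', algebraMap M' Ω x ∈ H := fun x => HM.algebraMap_mem x
  have hH2 : Algebra.trdeg k H = 2 := by
    have h1 : Algebra.IsAlgebraic M' HM := algebraicClosure.isAlgebraic M' Ω
    have h2 := trdeg_alg k M' HM
    rw [hM'2] at h2
    exact h2
  let t : Ω := ι RatFunc.X
  have htM' : Transcendental M' t := by
    intro h
    have h1 : IsAlgebraic M' (algebraMap (RatFunc M') Ω RatFunc.X) := h
    rw [isAlgebraic_algebraMap_iff (algebraMap (RatFunc M') Ω).injective] at h1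
    exact RatFunc.transcendental_X h1
  have htH : t ∉ H := fun h => htM' (mem_algebraicClosure_iff.1 h)
  have hRH : ∀ x : RatFunc M', ι x ∈ AA H {t} := by
    intro x
    have hpol : ∀ p : M'[X], ι (algebraMap M'[X] (RatFunc M') p) ∈ AA H {t} := by
      intro p
      induction p using Polynomial.induction_on' with
      | add p q hp hq => rw [map_add, map_add]; exact add_mem hp hq
      | monomial n c =>
        rw [← C_mul_X_pow_eq_monomial, map_mul, map_mul, map_pow, map_pow, RatFunc.algebraMap_C,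
          RatFunc.algebraMap_X]
        refine mul_mem ?_ (pow_mem ?_ n)
        · exact (le_sup_left : H ≤ AA H {t}) (hM'H c)
        · exact (le_sup_right : IntermediateField.adjoin k {t} ≤ AA H {t})
            (IntermediateField.subset_adjoin k _ rfl)
    obtain ⟨p, q, hq, rfl⟩ := IsFractionRing.div_surjective (A := M'[X]) x
    rw [map_div₀]
    exact div_mem (hpol p) (hpol q)
  -- the field `A`
  let _ : Algebra K₀ Ω := j₀.toRingHom.toAlgebra
  have hst : IsScalarTower k K₀ Ω := IsScalarTower.of_algebraMap_eq fun x => (j₀.commutes x).symm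
  let lift : M →ₐ[K₀] Ω := IsAlgClosed.lift
  let i : M →ₐ[k] Ω := lift.restrictScalars k
  have hi : ∀ x : K₀, i x = j (algebraMap K₀ L x) := fun x => lift.commutes x
  let A : IntermediateField k Ω := i.fieldRange
  have hAcl : IsAlgClosed A := range_closed i
  let e : M ≃ₐ[k] A := AlgEquiv.ofInjectiveField i
  have he : ∀ x, ((e x : A) : Ω) = i x := fun x => rfl
  have hA2 : Algebra.trdeg k A = 2 := by rw [← e.trdeg_eq, htd]
  have htrA : Algebra.trdeg A Ω ≤ 1 := by
    have h1 := _root_.trdeg_add_eq k A (A := Ω)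
    rw [hΩR, hA2] at h1
    refine trdeg_cancel 2 (a := 2) ?_ (by norm_num)
    rw [h1]
    norm_num
  have htrH : Algebra.trdeg H Ω ≤ 1 := by
    have h1 := _root_.trdeg_add_eq k H (A := Ω)
    rw [hΩR, hH2] at h1
    refine trdeg_cancel 2 (a := 2) ?_ (by norm_num)
    rw [h1]
    norm_num
  have hjB : ∀ B : k[X], aeval (j a) B = j (aeval a B) := fun B =>
    Polynomial.aeval_algHom_apply j a B
  have hB₁a : aeval a B₁ ≠ 0 := by
    intro h0
    have h3 : aeval a (B₁.map (algebraMap k K₀)) = 0 := by rwa [aeval_map_algebraMap]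
    have h4 := (transcendental_iff.1 ha) _ h3
    exact hB₁ ((Polynomial.map_eq_zero _).1 h4)
  have hB₂a : aeval a B₂ ≠ 0 := by
    intro h0
    have h3 : aeval a (B₂.map (algebraMap k K₀)) = 0 := by rwa [aeval_map_algebraMap]
    have h4 := (transcendental_iff.1 ha) _ h3
    exact hB₂ ((Polynomial.map_eq_zero _).1 h4)
  have hF0 : algebraMap K₀ L ⟨z ^ N, zN⟩ ≠ 0 := by
    rw [Ne, map_eq_zero]
    intro h
    exact pow_ne_zero N z0 (congrArg Subtype.val h)
  have hw0 : w ≠ 0 := by
    rintro rfl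
    rw [zero_pow hN0.ne', zero_mul] at hw
    exact mul_ne_zero hF0 hB₂a hw.symm
  have haA : j a ∉ A := by
    rintro ⟨x, hx⟩
    apply ha
    have h1 : IsAlgebraic K₀ (i x) := (hal x).algHom lift
    have hx' : i x = j a := hx
    rw [hx'] at h1
    obtain ⟨p, hp, hp0⟩ := h1
    refine ⟨p, hp, ?_⟩
    apply j.injective
    rw [map_zero, ← hp0]
    rw [Polynomial.aeval_def, Polynomial.aeval_def, ← AlgHom.coe_toRingHom, Polynomial.hom_eval₂]
    rfl
  let U : Ω := i z / j w
  have hjw0 : j w ≠ 0 := by rwa [Ne, map_eq_zero]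
  have hizN : (i z) ^ N = j (algebraMap K₀ L ⟨z ^ N, zN⟩) := by
    rw [← map_pow, ← hi]
  refine ⟨Ω, inferInstance, inferInstance, A, H, e, j a, j w, U, t, inferInstance, hAcl, hHcl, ?_⟩
  have zN' : (e z) ^ N ∈ K₀.map (e : M →ₐ[k] A) :=
    ⟨z ^ N, zN, map_pow (e : M →ₐ[k] A) z N⟩
  exact
    { trA := fun x hx y => alg_of_trdeg A htrA x hx y
      trH := fun x hx y => alg_of_trdeg H htrH x hx y
      tdA := hA2
      tdH := hH2
      fg := by
        obtain ⟨S, hS⟩ := hfg
        classical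
        refine ⟨S.image e, ?_⟩
        rw [← hS, IntermediateField.adjoin_map, Finset.coe_image]
        rfl
      al := by
        intro x
        obtain ⟨y, rfl⟩ := e.surjective x
        obtain ⟨p, hp, hp0⟩ := hal y
        let ε : K₀ ≃ₐ[k] K₀.map (e : M →ₐ[k] A) := K₀.intermediateFieldMap e
        refine ⟨p.map (ε : K₀ →+* K₀.map (e : M →ₐ[k] A)), ?_, ?_⟩
        · exact (Polynomial.map_ne_zero_iff ε.injective).2 hp
        · rw [Polynomial.aeval_def, Polynomial.eval₂_map]
          have h1 : (algebraMap (K₀.map (e : M →ₐ[k] A)) A).comp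
              (ε : K₀ →+* K₀.map (e : M →ₐ[k] A)) = (e : M →+* A).comp (algebraMap K₀ M) := by
            ext x
            rfl
          have h2 : e y = (e : M →+* A) y := rfl
          rw [h1, h2, ← Polynomial.hom_eval₂, ← Polynomial.aeval_def, hp0, map_zero]
      z0 := by rwa [Ne, map_eq_zero]
      zN := zN'
      irr := irr_congr e K₀ N z zN zN' irr
      bc := hb.congr e
      dv := by rw [bds_congr e]; exact hdv
      aA := haA
      tH := htH
      K₀t := by
        rintro x ⟨y, hy, rfl⟩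
        have h1 : ((((e : M →ₐ[k] A) y : A)) : Ω) = ι (φ (algebraMap K₀ L ⟨y, hy⟩)) := by
          show i y = _
          exact hi ⟨y, hy⟩
        show (((e : M →ₐ[k] A) y : A) : Ω) ∈ _
        rw [h1]
        exact hRH _
      at' := hRH _
      wt := hRH _
      eqU := by
        rw [hjB, hjB, div_pow, hizN, ← map_pow, div_mul_eq_mul_div, div_eq_iff (by
          rw [Ne, map_eq_zero]; exact pow_ne_zero N hw0), ← map_mul, ← map_mul, ← hw, mul_comm]
      eqz := by
        show j w * (i z / j w) = i z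
        rw [mul_div_cancel₀ _ hjw0] }

end Pool.Agent.TUQ
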