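import Pool.Agent.TUQ.S5a

/-!
# Existence of a place with a positive contribution
-/

set_option autoImplicit false

namespace Pool.Agent.TUQ

open Polynomial Pool.Agent.TBR

universe u

section

variable {k Ω : Type u} [Field k] [Field Ω] [Algebra k Ω]
variable {A H : IntermediateField k Ω} {V : ValuationSubring Ω} {r : V →+* Ω}
variable {K₀ : IntermediateField k A} {z : A} {N : ℕ} {B₁ B₂ : k[X]} {a w U t : Ω}
variable {A₁ A₂ : H[X]} {c : Ω} {Φ : k[X][X]} {m : ℕ} {T : Fin m → Ω}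
  {s : Fin m → (Ω ≃ₐ[k] Ω)} {ξ : Fin m → (A →ₐ[k] Ω)} {f : Polynomial Ω}

/-- the inclusion of `k` in `V` -/
def jk (hP : Plc A V r) : k →+* V where
  toFun c := ⟨algebraMap k Ω c, hP.k_mem c⟩
  map_one' := Subtype.ext (map_one _)
  map_mul' _ _ := Subtype.ext (map_mul _ _ _)
  map_zero' := Subtype.ext (map_zero _)
  map_add' _ _ := Subtype.ext (map_add _ _ _)

/-- `B₁ / B₂` takes the value of `P₁ / P₂` at `t` -/
theorem GD.PH_t (hc : Cfg A H K₀ z N B₁ B₂ a w U t)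
    (hG : GD A H K₀ z N B₁ B₂ a w U t A₁ A₂ c Φ T s ξ f) :
    aeval t (PH B₁ B₂ B₁ A₁ A₂) = U ^ N * aeval t (PH B₁ B₂ B₂ A₁ A₂) := by
  have h1 : aeval t A₁ / aeval t A₂ = a := by rw [div_eq_iff hG.A₂t, hG.aeq]
  rw [PH, PH, hg_eval _ B₁ (le_max_left _ _) A₁ A₂ t hG.A₂t,
    hg_eval _ B₂ (le_max_right _ _) A₁ A₂ t hG.A₂t, h1, ← hc.eqU]
  ring

theorem GD.PH₂_t [IsAlgClosed H] (hc : Cfg A H K₀ z N B₁ B₂ a w U t) (haH : a ∉ H)
    (hG : GD A H K₀ z N B₁ B₂ a w U t A₁ A₂ c Φ T s ξ f) :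
    aeval t (PH B₁ B₂ B₂ A₁ A₂) ≠ 0 := by
  have h1 : aeval t A₁ / aeval t A₂ = a := by rw [div_eq_iff hG.A₂t, hG.aeq]
  rw [PH, hg_eval _ B₂ (le_max_right _ _) A₁ A₂ t hG.A₂t, h1]
  exact mul_ne_zero (pow_ne_zero _ hG.A₂t) (aeval_ne_k H haH hc.bc.ne.2)

/-- the reduction of `f` -/
theorem GD.red (hG : GD A H K₀ z N B₁ B₂ a w U t A₁ A₂ c Φ T s ξ f) (hP : Plc A V r)
    (hH : ∀ x ∈ H, x ∈ V) (haV : a ∈ V) :
    ∃ F : V[X], F.map (algebraMap V Ω) = f ∧
      F.map r = hg (max B₁.natDegree B₂.natDegree - 1) (PhiAt Φ (r ⟨a, haV⟩))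
        (A₁.map (rho r hH)) (A₂.map (rho r hH)) := by
  have hk : ∀ x, r (jk hP x) = algebraMap k Ω x := fun x => hP.res.alg x _
  let g : k[X] →+* V := eval₂RingHom (jk hP) ⟨a, haV⟩
  refine ⟨hg (max B₁.natDegree B₂.natDegree - 1) (Φ.map g) (A₁.map (jH hH)) (A₂.map (jH hH)),
    ?_, ?_⟩
  · have h1 := hg_hom (algebraMap V Ω) (mapRingHom (algebraMap V Ω)) (fun x => by
      rw [coe_mapRingHom, algebraMap_eq, map_C, algebraMap_eq])
      (max B₁.natDegree B₂.natDegree - 1) (Φ.map g) (A₁.map (jH hH)) (A₂.map (jH hH))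
    have h2 : (algebraMap V Ω).comp g = ((aeval a : k[X] →ₐ[k] Ω) : k[X] →+* Ω) := by
      apply Polynomial.ringHom_ext
      · intro x
        show algebraMap V Ω (eval₂ (jk hP) ⟨a, haV⟩ (C x)) = aeval a (C x)
        rw [eval₂_C, aeval_C]
        rfl
      · show algebraMap V Ω (eval₂ (jk hP) ⟨a, haV⟩ X) = aeval a X
        rw [eval₂_X, aeval_X]
        rfl
    have h3 : (algebraMap V Ω).comp (jH hH) = algebraMap H Ω := rfl
    rw [coe_mapRingHom, Polynomial.map_map, Polynomial.map_map, Polynomial.map_map, h2, h3] at h1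
    rw [h1, hG.fdef]
    rfl
  · have h1 := hg_hom r (mapRingHom r) (fun x => by
      rw [coe_mapRingHom, algebraMap_eq, map_C, algebraMap_eq])
      (max B₁.natDegree B₂.natDegree - 1) (Φ.map g) (A₁.map (jH hH)) (A₂.map (jH hH))
    have h2 : r.comp g = ((aeval (r ⟨a, haV⟩) : k[X] →ₐ[k] Ω) : k[X] →+* Ω) := by
      apply Polynomial.ringHom_ext
      · intro x
        show r (eval₂ (jk hP) ⟨a, haV⟩ (C x)) = aeval (r ⟨a, haV⟩) (C x)
        rw [eval₂_C, aeval_C]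
        exact hk x
      · show r (eval₂ (jk hP) ⟨a, haV⟩ X) = aeval (r ⟨a, haV⟩) X
        rw [eval₂_X, aeval_X]
    rw [coe_mapRingHom, Polynomial.map_map, Polynomial.map_map, Polynomial.map_map, h2] at h1
    rw [h1]
    rfl

/-- the reduction of the homogenization -/
theorem PH_rho (hP : Plc A V r) (hH : ∀ x ∈ H, x ∈ V) (B : k[X]) :
    (PH B₁ B₂ B A₁ A₂).map (rho r hH) = hg (max B₁.natDegree B₂.natDegree) (B.map (algebraMap k Ω))
      (A₁.map (rho r hH)) (A₂.map (rho r hH)) := by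
  have hk : ∀ x : k, rho r hH (algebraMap k H x) = algebraMap k Ω x := fun x =>
    hP.res.alg x (hP.k_mem x)
  have h1 := hg_hom (algebraMap k Ω) (mapRingHom (rho r hH)) (fun x => by
      rw [coe_mapRingHom, IsScalarTower.algebraMap_apply k H H[X], algebraMap_eq, map_C, hk,
        algebraMap_eq])
      (max B₁.natDegree B₂.natDegree) B A₁ A₂
  exact h1

/-- (5.3) there is a place with a positive contribution of the identity only -/
theorem GD.exists_pos [IsAlgClosed Ω] [IsAlgClosed H] [IsAlgClosed A]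
    (hc : Cfg A H K₀ z N B₁ B₂ a w U t)
    (hNU : NU (K₀ ⊔ IntermediateField.adjoin k {z})) (hCP : CP A H K₀ t)
    (hG : GD A H K₀ z N B₁ B₂ a w U t A₁ A₂ c Φ T s ξ f) :
    ∃ (V : ValuationSubring Ω) (r : V →+* Ω), Plc A V r ∧
        (∃ i, (∀ x, ξ i x ∈ V) ∧ V.valuation (T i - t) < 1) ∧
        ∀ i, (∀ x, ξ i x ∈ V) → V.valuation (T i - t) ≠ 1 → V.valuation (T i - t) < 1 ∧
          ∀ ψ, ResE A V r (ξ i) ψ → ∀ x ∈ K₀ ⊔ IntermediateField.adjoin k {z}, ψ x = x := by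
  classical
  obtain ⟨β, hβalg, hβ, hβW⟩ := exists_crit hc.bc (M := A)
  set β₀ : Ω := (β : Ω) with hβ₀
  have hval : ∀ B : k[X], aeval β₀ B = ((aeval β B : A) : Ω) := fun B =>
    aeval_algebraMap_apply Ω β B
  have hβ₀alg : IsAlgebraic k β₀ := hβalg.algebraMap
  have hβ₀B : aeval β₀ (B₁ * B₂) ≠ 0 := by
    rw [hval]
    exact fun h => hβ (Subtype.ext h)
  have hβ₀W : aeval β₀ (derivative B₁ * B₂ - derivative B₂ * B₁) = 0 := by
    rw [hval, hβW]
    rfl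
  have haβ : a - β₀ ∉ A := fun h => hc.aA (by
    have := add_mem h β.2
    rwa [sub_add_cancel] at this)
  obtain ⟨V, r, hP, hv⟩ := exists_plc A hc.trA (a - β₀) haβ
  have hH := hc.H_mem hNU hP β₀ hβ₀alg hβ₀B hv
  obtain ⟨haV, hra⟩ := hP.sub_lt β.2 hv
  have ht := hCP.t_mem hP hH
  have haH := hc.aH hNU
  have hUH := hc.UH hNU
  refine ⟨V, r, hP, ?_, fun i hi hi' => hG.alt1 hc hCP hP hH haV (by rw [hra]; exact hβ₀B) i hi hi'⟩
  obtain ⟨F, hF, hFr⟩ := hG.red hP hH haV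
  rw [hra] at hFr
  set n := max B₁.natDegree B₂.natDegree with hn
  have hA₂r := frac_res (r := r) hH hG.cop ht haV hG.aeq
  set τ := r ⟨t, ht⟩ with hτ
  have hA₁r : (A₁.map (rho r hH)).eval τ / (A₂.map (rho r hH)).eval τ = β₀ := by
    rw [div_eq_iff hA₂r, hτ, ← res_aevalH r hH A₁ ht, ← res_aevalH r hH A₂ ht]
    have h1 : (⟨aeval t A₁, aeval_memV hH A₁ ht⟩ : V) = ⟨a, haV⟩ * ⟨aeval t A₂, aeval_memV hH A₂ ht⟩ :=
      Subtype.ext hG.aeq.symm
    rw [h1, map_mul, hra]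
  have hn1 : 1 ≤ n := by
    by_contra hcon
    have h0 : n = 0 := by omega
    have h5 : B₁.natDegree = 0 := Nat.le_zero.1 (h0 ▸ le_max_left _ _)
    have h6 : B₂.natDegree = 0 := Nat.le_zero.1 (h0 ▸ le_max_right _ _)
    have h7 : (((B₁.natDegree : ℤ) - B₂.natDegree).natAbs : k) ≠ 0 :=
      hc.bc.tame _ (mem_bds_inf B₁ B₂)
    rw [h5, h6] at h7
    simp at h7
  have hdeg : (PhiAt Φ β₀).natDegree ≤ n - 1 :=
    PhiAt_deg hG.Phi n (le_max_left _ _) (le_max_right _ _) β₀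
  -- the reduction vanishes at `τ`
  have hroot : (F.map r).eval τ = 0 := by
    have h1 := hg_eval (F := Ω) (n - 1) (PhiAt Φ β₀) hdeg (A₁.map (rho r hH)) (A₂.map (rho r hH)) τ (by
      rw [coe_aeval_eq_eval]
      exact hA₂r)
    rw [coe_aeval_eq_eval, coe_aeval_eq_eval, hA₁r, PhiAt_self hG.Phi, hβ₀W, mul_zero] at h1
    rw [hFr]
    exact h1
  -- the reduction is not zero
  have hne : F.map r ≠ 0 := by
    intro h0
    rw [map_mul] at hβ₀B
    have hb₁ : aeval β₀ B₁ ≠ 0 := left_ne_zero_of_mul hβ₀B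
    have hb₂ : aeval β₀ B₂ ≠ 0 := right_ne_zero_of_mul hβ₀B
    have hα₂0 : A₂.map (rho r hH) ≠ 0 := (Polynomial.map_ne_zero_iff (rho r hH).injective).2 hG.A₂0
    have h1 := congrArg (fun p => hg n p (A₁.map (rho r hH)) (A₂.map (rho r hH)))
      (PhiAt_eq hG.Phi β₀)
    have h2 : hg n ((X - C β₀) * PhiAt Φ β₀) (A₁.map (rho r hH)) (A₂.map (rho r hH)) = 0 := by
      have h3 : n = 1 + (n - 1) := by omega
      conv_lhs => rw [h3]
      rw [hg_mul 1 (n - 1) _ _ (natDegree_X_sub_C_le β₀) hdeg _ _ hα₂0, ← hFr, h0, mul_zero]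
    rw [h2, hg_sub, mul_comm _ (C (aeval β₀ B₂)), mul_comm _ (C (aeval β₀ B₁)), hg_C_mul, hg_C_mul,
      ← PH_rho hP hH B₁, ← PH_rho hP hH B₂, sub_eq_zero] at h1
    -- the constant
    set u : Ω := aeval β₀ B₁ / aeval β₀ B₂ with hu
    have hualg : IsAlgebraic k u := by
      rw [hu, div_eq_mul_inv]
      exact (alg_aeval hβ₀alg B₁).mul (alg_aeval hβ₀alg B₂).inv
    have huH : u ∈ H := s_mem_of_alg H u hualg
    have huA : u ∈ A := s_mem_of_alg A u hualg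
    have hru : rho r hH ⟨u, huH⟩ = u := hP.res.fix u (hP.mem u huA) huA
    have h4 : (PH B₁ B₂ B₁ A₁ A₂).map (rho r hH) =
        (C (⟨u, huH⟩ : H) * PH B₁ B₂ B₂ A₁ A₂).map (rho r hH) := by
      rw [Polynomial.map_mul, map_C, hru]
      have h5 : (C (aeval β₀ B₂) : Polynomial Ω) * (PH B₁ B₂ B₁ A₁ A₂).map (rho r hH) =
          C (aeval β₀ B₂) * (C u * (PH B₁ B₂ B₂ A₁ A₂).map (rho r hH)) := by
        have h6 : (C (aeval β₀ B₂) : Polynomial Ω) * C u = C (aeval β₀ B₁) := by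
          rw [← C_mul, hu, mul_div_cancel₀ _ hb₂]
        rw [← mul_assoc, h6]
        exact h1
      exact mul_left_cancel₀ (by rwa [Ne, C_eq_zero]) h5
    have h5 := Polynomial.map_injective _ (rho r hH).injective h4
    have h6 := hG.PH_t hc
    rw [h5, map_mul, aeval_C] at h6
    have h7 : u = U ^ N := mul_right_cancel₀ (hG.PH₂_t hc haH) h6
    apply hUH
    rw [← h7]
    exact huH
  -- a root of `f` near `t`
  obtain ⟨S, hS₁, hS₂⟩ := roots_map hP.res hP.mem F hne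
  have h1 : τ ∈ (F.map r).roots := (mem_roots hne).2 hroot
  rw [hS₂, Multiset.mem_map] at h1
  obtain ⟨x, hxS, hx⟩ := h1
  have h2 : (x : Ω) ∈ (F.map (algebraMap V Ω)).roots.filter (· ∈ V) := by
    rw [hS₁, Multiset.mem_map]
    exact ⟨x, hxS, rfl⟩
  rw [Multiset.mem_filter, hF, hG.roots, Multiset.mem_map] at h2
  obtain ⟨⟨i, -, hi⟩, -⟩ := h2
  have h3 : V.valuation (T i - t) < 1 := by
    rw [hi]
    exact (hP.res.eq_of_sub hP.mem x.2 ht).1 hx
  exact ⟨i, hG.good_of_lt hc hP hH ht i h3, h3⟩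

end

end Pool.Agent.TUQ
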