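import Pool.Agent.TUQ.S5a

/-!
# The local equation at a place which contains `H`
-/

set_option autoImplicit false

namespace Pool.Agent.TUQ

open Polynomial Pool.Agent.TBR

universe u

section

variable {k Ω : Type u} [Field k] [Field Ω] [Algebra k Ω]
variable {A H : IntermediateField k Ω} {V : ValuationSubring Ω} {r : V →+* Ω}

/-- the residue map of `H` is surjective -/
theorem exists_liftH [IsAlgClosed H] (hP : Plc A V r) (hH : ∀ x ∈ H, x ∈ V)
    (hA2 : Algebra.trdeg k A = 2) (hH2 : Algebra.trdeg k H = 2) (y : Ω) (hy : y ∈ A) :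
    ∃ x : H, rho r hH x = y := by
  let φ : H →ₐ[k] A :=
    { toFun := fun x => ⟨rho r hH x, hP.res.mem _⟩
      map_one' := Subtype.ext (map_one (rho r hH))
      map_mul' := fun x y => Subtype.ext (map_mul (rho r hH) x y)
      map_zero' := Subtype.ext (map_zero (rho r hH))
      map_add' := fun x y => Subtype.ext (map_add (rho r hH) x y)
      commutes' := fun c => Subtype.ext (hP.res.alg c _) }
  let e : H ≃ₐ[k] φ.fieldRange := AlgEquiv.ofInjectiveField φ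
  have h1 : IsAlgClosed φ.fieldRange := IsAlgClosed.of_ringEquiv _ _ e.toRingEquiv
  have h2 : Algebra.trdeg k φ.fieldRange = 2 := by rw [← e.trdeg_eq, hH2]
  have h3 := trdeg_add_eq k φ.fieldRange (A := A)
  rw [h2, hA2] at h3
  have h4 : Algebra.trdeg φ.fieldRange A = 0 := by
    have h5 : Algebra.trdeg φ.fieldRange A < Cardinal.aleph0 := by
      refine lt_of_le_of_lt (self_le_add_left _ _ : _ ≤ (2 : Cardinal) + _) ?_
      rw [h3]
      exact Cardinal.natCast_lt_aleph0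
    obtain ⟨n, hn⟩ := Cardinal.lt_aleph0.1 h5
    rw [hn] at h3 ⊢
    have h6 : ((2 + n : ℕ) : Cardinal) = ((2 : ℕ) : Cardinal) := by
      push_cast
      exact h3
    have h7 := Nat.cast_injective h6
    have : n = 0 := by omega
    rw [this, Nat.cast_zero]
  have h5 : Algebra.IsAlgebraic φ.fieldRange A := trdeg_eq_zero_iff.1 h4
  have h6 : (⟨y, hy⟩ : A) ∈ φ.fieldRange := s_mem_of_alg' φ.fieldRange _ (h5.isAlgebraic _)
  obtain ⟨x, hx⟩ := h6
  exact ⟨x, congrArg Subtype.val hx⟩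

/-- the residue of the value at `t` -/
theorem res_at (hH : ∀ x ∈ H, x ∈ V) {t : Ω} (ht : t ∈ V) (T₀ : H)
    (h0 : rho r hH T₀ = r ⟨t, ht⟩) (P : H[X]) :
    r ⟨aeval t P, aeval_memV hH P ht⟩ = rho r hH (P.eval T₀) := by
  rw [res_aevalH r hH P ht, ← h0, eval_map, eval₂_hom]

theorem unit_at (hP : Plc A V r) (hH : ∀ x ∈ H, x ∈ V) {t : Ω} (ht : t ∈ V) (T₀ : H)
    (h0 : rho r hH T₀ = r ⟨t, ht⟩) (P : H[X]) (h : P.eval T₀ ≠ 0) :
    V.valuation (aeval t P) = 1 := by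
  refine hP.unit (aeval_memV hH P ht) ?_
  rw [res_at hH ht T₀ h0]
  exact (_root_.map_ne_zero _).2 h

theorem lam_lt (hP : Plc A V r) (hH : ∀ x ∈ H, x ∈ V) {t : Ω} (ht : t ∈ V) (T₀ : H)
    (h0 : rho r hH T₀ = r ⟨t, ht⟩) : V.valuation (t - T₀) < 1 :=
  (hP.res.eq_of_sub hP.mem ht (hH _ T₀.2)).1 h0.symm

theorem lam_ne {t : Ω} (htH : t ∉ H) (T₀ : H) : t - T₀ ≠ 0 := fun h => htH (by
  rw [sub_eq_zero.1 h]
  exact T₀.2)

open scoped Classical in
/-- **The local equation.** -/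
theorem loc_roots [IsAlgClosed Ω] (hP : Plc A V r) (hH : ∀ x ∈ H, x ∈ V) {t : Ω} (htH : t ∉ H)
    (ht : t ∈ V) (T₀ : H) (h0 : rho r hH T₀ = r ⟨t, ht⟩) (P P₀ Q : H[X]) (q : ℕ)
    (hPP : P = (X - C T₀) ^ q * P₀) (hP₀ : P₀.eval T₀ ≠ 0) (hQ : Q.eval T₀ ≠ 0) (hq : 0 < q) :
    (((P.map (algebraMap H Ω) * C (aeval t Q) - Q.map (algebraMap H Ω) * C (aeval t P)).roots.map
      fun x : Ω => (x - (T₀ : Ω)) / (t - T₀)).filter (· ∈ V)).map (rr r) =
      ((X : Polynomial Ω) ^ q - 1).roots := by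
  have hlt := lam_lt hP hH ht T₀ h0
  have hne := lam_ne htH T₀
  have hlV : t - T₀ ∈ V := (val_le V _).2 hlt.le
  have hrl : r ⟨t - T₀, hlV⟩ = 0 := (hP.res_eq_zero hlV).2 hlt
  set G : Polynomial Ω := P.map (algebraMap H Ω) * C (aeval t Q) -
    Q.map (algebraMap H Ω) * C (aeval t P) with hG
  obtain ⟨sub, hsubd⟩ : ∃ sub : V[X], sub = C (jH hH T₀) + C ⟨t - T₀, hlV⟩ * X := ⟨_, rfl⟩
  obtain ⟨F, hFd⟩ : ∃ F : V[X],
    F = X ^ q * (P₀.map (jH hH)).comp sub * C ⟨aeval t Q, aeval_memV hH Q ht⟩ -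
      (Q.map (jH hH)).comp sub * C ⟨aeval t P₀, aeval_memV hH P₀ ht⟩ := ⟨_, rfl⟩
  have hPt : aeval t P = (t - T₀) ^ q * aeval t P₀ := by
    rw [hPP, map_mul, map_pow, map_sub, aeval_X, aeval_C]
    rfl
  have hsub : sub.map (algebraMap V Ω) = C (T₀ : Ω) + C (t - T₀) * X := by
    rw [hsubd, Polynomial.map_add, Polynomial.map_mul, map_C, map_C, map_X]
    rfl
  have hjH : (algebraMap V Ω).comp (jH hH) = algebraMap H Ω := rfl
  have hFG : C ((t - T₀) ^ q) * F.map (algebraMap V Ω) = G.comp (C (T₀ : Ω) + C (t - T₀) * X) := by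
    have e1 : algebraMap V Ω ⟨aeval t Q, aeval_memV hH Q ht⟩ = aeval t Q := rfl
    have e2 : algebraMap V Ω ⟨aeval t P₀, aeval_memV hH P₀ ht⟩ = aeval t P₀ := rfl
    have e3 : algebraMap H Ω T₀ = (T₀ : Ω) := rfl
    have e4 : ∀ G : H[X], ((G.map (jH hH)).comp sub).map (algebraMap V Ω) =
        (G.map (algebraMap H Ω)).comp (C (T₀ : Ω) + C (t - T₀) * X) := by
      intro G
      rw [Polynomial.map_comp, hsub, map_map, hjH]
    have e5 : F.map (algebraMap V Ω) =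
        X ^ q * (P₀.map (algebraMap H Ω)).comp (C (T₀ : Ω) + C (t - T₀) * X) * C (aeval t Q) -
          (Q.map (algebraMap H Ω)).comp (C (T₀ : Ω) + C (t - T₀) * X) * C (aeval t P₀) := by
      rw [hFd, Polynomial.map_sub, Polynomial.map_mul, Polynomial.map_mul, Polynomial.map_mul, e4,
        e4, map_C, map_C, Polynomial.map_pow, map_X, e1, e2]
    have e6 : (P.map (algebraMap H Ω)).comp (C (T₀ : Ω) + C (t - T₀) * X) =
        C ((t - T₀) ^ q) * X ^ q * (P₀.map (algebraMap H Ω)).comp (C (T₀ : Ω) + C (t - T₀) * X) := by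
      rw [hPP, Polynomial.map_mul, Polynomial.map_pow, Polynomial.map_sub, map_X, map_C, mul_comp,
        pow_comp, sub_comp, X_comp, C_comp, e3, add_sub_cancel_left, mul_pow, C_pow]
    rw [e5, hG, sub_comp, mul_comp, mul_comp, C_comp, C_comp, e6, hPt, C_mul]
    ring
  -- the reduction
  have hrsub : sub.map r = C (r ⟨t, ht⟩) := by
    rw [hsubd, Polynomial.map_add, Polynomial.map_mul, map_C, map_C, map_X, hrl, C_0, zero_mul,
      add_zero, ← h0]
    rfl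
  have hred : ∀ P : H[X], ((P.map (jH hH)).comp sub).map r = C (rho r hH (P.eval T₀)) := by
    intro P
    rw [Polynomial.map_comp, hrsub, map_map, comp_C, ← h0]
    have h1 : (P.map (r.comp (jH hH))).eval (rho r hH T₀) = rho r hH (P.eval T₀) := by
      rw [eval_map]
      exact eval₂_hom _ _
    rw [h1]
  set c : Ω := rho r hH (P₀.eval T₀) * rho r hH (Q.eval T₀) with hc
  have hc0 : c ≠ 0 := mul_ne_zero ((_root_.map_ne_zero _).2 hP₀) ((_root_.map_ne_zero _).2 hQ)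
  have hFr : F.map r = C c * (X ^ q - 1) := by
    rw [hFd, Polynomial.map_sub, Polynomial.map_mul, Polynomial.map_mul, Polynomial.map_mul, hred,
      hred, map_C, map_C, Polynomial.map_pow, map_X, res_at hH ht T₀ h0 Q, res_at hH ht T₀ h0 P₀, hc,
      C_mul]
    ring
  have hX1 : ((X : Polynomial Ω) ^ q - 1) ≠ 0 := by
    have := X_pow_sub_C_ne_zero hq (1 : Ω)
    rwa [C_1] at this
  have hFr0 : F.map r ≠ 0 := by
    rw [hFr]
    exact mul_ne_zero (by rwa [Ne, C_eq_zero]) hX1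
  obtain ⟨S, hS₁, hS₂⟩ := roots_map hP.res hP.mem F hFr0
  have h1 : (F.map (algebraMap V Ω)).roots = G.roots.map fun x : Ω => (x - (T₀ : Ω)) / (t - T₀) := by
    rw [← roots_sub (T₀ : Ω) (t - T₀) hne G, ← hFG, roots_C_mul _ (pow_ne_zero _ hne)]
  rw [← h1, hS₁, Multiset.map_map, ← roots_C_mul (X ^ q - 1 : Polynomial Ω) hc0, ← hFr, hS₂]
  refine Multiset.map_congr rfl fun x _ => ?_
  exact rr_coe r x

/-- the roots near `t` are at the distance of `t` from `T₀` -/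
theorem loc_val (hP : Plc A V r) (hH : ∀ x ∈ H, x ∈ V) {t : Ω}
    (ht : t ∈ V) (T₀ : H) (h0 : rho r hH T₀ = r ⟨t, ht⟩) (P P₀ Q : H[X]) (q : ℕ)
    (hPP : P = (X - C T₀) ^ q * P₀) (hP₀ : P₀.eval T₀ ≠ 0) (hQ : Q.eval T₀ ≠ 0) (hq : 0 < q)
    (T' : Ω) (hT' : V.valuation (T' - t) < 1)
    (heq : aeval T' P * aeval t Q = aeval T' Q * aeval t P) :
    V.valuation (T' - T₀) = V.valuation (t - T₀) := by
  obtain ⟨hTV, hTr⟩ := res_of_lt hP ht hT'
  have h0' : rho r hH T₀ = r ⟨T', hTV⟩ := by rw [hTr, h0]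
  have hPt : ∀ x : Ω, aeval x P = (x - T₀) ^ q * aeval x P₀ := by
    intro x
    rw [hPP, map_mul, map_pow, map_sub, aeval_X, aeval_C]
    rfl
  have h1 := congrArg V.valuation heq
  rw [hPt, hPt, map_mul, map_mul, map_mul, map_mul, map_pow, map_pow,
    unit_at hP hH ht T₀ h0 P₀ hP₀, unit_at hP hH ht T₀ h0 Q hQ,
    unit_at hP hH hTV T₀ h0' P₀ hP₀, unit_at hP hH hTV T₀ h0' Q hQ, mul_one, mul_one, one_mul,
    mul_one] at h1
  exact (pow_left_inj₀ zero_le zero_le hq.ne').1 h1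

/-- the elements of `H(t)` in terms of the uniformizer `t - T₀` -/
theorem exists_unif [IsAlgClosed H] (hP : Plc A V r) (hH : ∀ x ∈ H, x ∈ V) {t : Ω} (htH : t ∉ H)
    (ht : t ∈ V) (T₀ : H) (h0 : rho r hH T₀ = r ⟨t, ht⟩) (y : Ω) (hy : y ∈ AA H {t})
    (hy0 : y ≠ 0) : ∃ (e : ℤ) (u : Ω), u ∈ AA H {t} ∧ V.valuation u = 1 ∧ y = (t - T₀) ^ e * u := by
  obtain ⟨P, Q, -, hQ, hQt, h⟩ := exists_frac H t htH y hy
  have hne := lam_ne htH T₀
  have hP0 : P ≠ 0 := by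
    rintro rfl
    rw [map_zero] at h
    exact hy0 ((mul_eq_zero.1 h).resolve_right hQt)
  obtain ⟨P₀, hP₁, hP₂⟩ := exists_eq_pow_rootMultiplicity_mul_and_not_dvd P hP0 T₀
  obtain ⟨Q₀, hQ₁, hQ₂⟩ := exists_eq_pow_rootMultiplicity_mul_and_not_dvd Q hQ T₀
  rw [dvd_iff_isRoot, IsRoot.def] at hP₂ hQ₂
  have hmem : ∀ G : H[X], aeval t G ∈ AA H {t} := by
    intro G
    rw [Pool.Agent.TBR.V.mem_AA]
    exact ⟨G, 1, by rw [map_one, div_one]⟩
  have hv₁ := unit_at hP hH ht T₀ h0 P₀ hP₂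
  have hv₂ := unit_at hP hH ht T₀ h0 Q₀ hQ₂
  have hQ₀t : aeval t Q₀ ≠ 0 := by
    intro h'
    rw [h', map_zero] at hv₂
    exact zero_ne_one hv₂
  refine ⟨(P.rootMultiplicity T₀ : ℤ) - Q.rootMultiplicity T₀, aeval t P₀ / aeval t Q₀,
    div_mem (hmem _) (hmem _), by rw [map_div₀, hv₁, hv₂, div_one], ?_⟩
  have e1 : ∀ (G G₀ : H[X]) (j : ℕ), G = (X - C T₀) ^ j * G₀ → aeval t G = (t - T₀) ^ j * aeval t G₀ := by
    intro G G₀ j hG
    rw [hG, map_mul, map_pow, map_sub, aeval_X, aeval_C]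
    rfl
  rw [e1 P P₀ _ hP₁, e1 Q Q₀ _ hQ₁] at h
  rw [zpow_sub₀ hne, zpow_natCast, zpow_natCast]
  have h2 : (t - (T₀ : Ω)) ^ Q.rootMultiplicity T₀ ≠ 0 := pow_ne_zero _ hne
  field_simp
  linear_combination h

end

end Pool.Agent.TUQ
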