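import Pool.Agent.TUQ.S8a
import Pool.Agent.TUQ.S3f

/-!
# The family of the cyclic planes
-/

set_option autoImplicit false

namespace Pool.Agent.TUQ

open Polynomial Pool.Agent.UQ

universe u

section

variable {k M : Type u} [Field k] [Field M] [Algebra k M]

/-- `K₀ = k(x, y)`, `z ^ N = f(x, y) / q(x, y) ^ 2`, `b = 1 + X ^ 2` and there are weights `ω` of
`x` and `y` and a natural number `g` such that `(N - c) g + 2 wt q ≤ 2 (ω x + ω y)` and
`wt f ≤ 2 (ω x + ω y) + c g`, where `c = 1` if `N` is odd and `c = 2` if `N` is even -/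
def Fam (K₀ : IntermediateField k M) (z : M) (N : ℕ) (B₁ B₂ : k[X]) : Prop :=
  B₁ = 1 + X ^ 2 ∧ B₂ = 1 ∧ ∃ (x : Fin 2 → M) (f q : MvPolynomial (Fin 2) k) (ω : Fin 2 → ℕ)
    (g : ℕ), K₀ = IntermediateField.adjoin k (Set.range x) ∧ MvPolynomial.aeval x q ≠ 0 ∧
      z ^ N * MvPolynomial.aeval x q ^ 2 = MvPolynomial.aeval x f ∧ 0 < ω 0 + ω 1 ∧
        (N - Nat.gcd N 2) * g + 2 * MvPolynomial.weightedTotalDegree ω q ≤ 2 * (ω 0 + ω 1) ∧
          MvPolynomial.weightedTotalDegree ω f ≤ 2 * (ω 0 + ω 1) + Nat.gcd N 2 * g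

theorem wtd_scale (ω : Fin 2 → ℕ) (c : ℕ) (f : MvPolynomial (Fin 2) k) :
    MvPolynomial.weightedTotalDegree ![c * ω 0, c * ω 1] f ≤
      c * MvPolynomial.weightedTotalDegree ω f := by
  have h1 := (wtd_le_iff ω f (MvPolynomial.weightedTotalDegree ω f)).1 le_rfl
  rw [wtd_le_iff]
  intro d hd
  refine le_trans (le_of_eq ?_) (Nat.mul_le_mul_left c (h1 d hd))
  rw [Finsupp.weight_apply, Finsupp.weight_apply, Finsupp.sum_fintype _ _ (by simp),
    Finsupp.sum_fintype _ _ (by simp), Finset.mul_sum]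
  refine Finset.sum_congr rfl fun i _ => ?_
  fin_cases i
  · show d 0 * (c * ω 0) = c * (d 0 * ω 0)
    ring
  · show d 1 * (c * ω 1) = c * (d 1 * ω 1)
    ring

theorem vec2_eq (ω : Fin 2 → ℕ) : ![ω 0, ω 1] = ω := by
  ext i
  fin_cases i <;> rfl

theorem wtd_one (ω : Fin 2 → ℕ) :
    MvPolynomial.weightedTotalDegree ω (1 : MvPolynomial (Fin 2) k) = 0 := by
  have h1 : MvPolynomial.weightedTotalDegree ω (1 : MvPolynomial (Fin 2) k) ≤ 0 := by
    rw [wtd_le_iff]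
    intro d hd
    rw [MvPolynomial.mem_support_iff, MvPolynomial.coeff_one] at hd
    have h2 : 0 = d := by
      by_contra h
      exact hd (if_neg h)
    rw [← h2, map_zero]
  omega

/-- the case of a polynomial: it is sufficient that `(N - c) wt f ≤ 2 N (ω x + ω y)` -/
theorem Fam.of_poly (K₀ : IntermediateField k M) (z : M) (N : ℕ) (hN : 0 < N)
    (x : Fin 2 → M) (f : MvPolynomial (Fin 2) k) (ω : Fin 2 → ℕ)
    (hK : K₀ = IntermediateField.adjoin k (Set.range x)) (hz : z ^ N = MvPolynomial.aeval x f)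
    (hω : 0 < ω 0 + ω 1)
    (h : (N - Nat.gcd N 2) * MvPolynomial.weightedTotalDegree ω f ≤ 2 * N * (ω 0 + ω 1)) :
    Fam K₀ z N (1 + X ^ 2) 1 := by
  have hle : Nat.gcd N 2 ≤ N := Nat.gcd_le_left 2 hN
  have hpos : 0 < Nat.gcd N 2 := Nat.gcd_pos_of_pos_left 2 hN
  rcases Nat.eq_zero_or_pos (N - Nat.gcd N 2) with h0 | h0
  · refine ⟨rfl, rfl, x, f, 1, ω, MvPolynomial.weightedTotalDegree ω f, hK, ?_, ?_, hω, ?_, ?_⟩
    · rw [map_one]
      exact one_ne_zero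
    · rw [map_one, one_pow, mul_one, hz]
    · rw [h0, wtd_one]
      omega
    · have h1 : 1 * MvPolynomial.weightedTotalDegree ω f ≤
          Nat.gcd N 2 * MvPolynomial.weightedTotalDegree ω f := Nat.mul_le_mul_right _ hpos
      omega
  · refine ⟨rfl, rfl, x, f, 1, ![(N - Nat.gcd N 2) * ω 0, (N - Nat.gcd N 2) * ω 1],
      2 * (ω 0 + ω 1), hK, ?_, ?_, ?_, ?_, ?_⟩
    · rw [map_one]
      exact one_ne_zero
    · rw [map_one, one_pow, mul_one, hz]
    · show 0 < (N - Nat.gcd N 2) * ω 0 + (N - Nat.gcd N 2) * ω 1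
      rw [← Nat.mul_add]
      exact Nat.mul_pos h0 hω
    · rw [wtd_one]
      show (N - Nat.gcd N 2) * (2 * (ω 0 + ω 1)) + 2 * 0 ≤
        2 * ((N - Nat.gcd N 2) * ω 0 + (N - Nat.gcd N 2) * ω 1)
      refine le_of_eq ?_
      ring
    · refine (wtd_scale ω (N - Nat.gcd N 2) f).trans (h.trans (le_of_eq ?_))
      show 2 * N * (ω 0 + ω 1) = 2 * ((N - Nat.gcd N 2) * ω 0 + (N - Nat.gcd N 2) * ω 1) +
        Nat.gcd N 2 * (2 * (ω 0 + ω 1))
      obtain ⟨c, hc⟩ : ∃ c, c = N - Nat.gcd N 2 := ⟨_, rfl⟩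
      have hc' : N = c + Nat.gcd N 2 := by omega
      rw [← hc]
      obtain ⟨e, he⟩ : ∃ e, e = Nat.gcd N 2 := ⟨_, rfl⟩
      rw [← he] at hc' ⊢
      rw [hc']
      ring

/-- the weights of the threefold -/
theorem wtC_of (N : ℕ) (hN : 0 < N) (ω : Fin 2 → ℕ) (g : ℕ) (f q : MvPolynomial (Fin 2) k)
    (h1 : (N - Nat.gcd N 2) * g + 2 * MvPolynomial.weightedTotalDegree ω q ≤ 2 * (ω 0 + ω 1))
    (h2 : MvPolynomial.weightedTotalDegree ω f ≤ 2 * (ω 0 + ω 1) + Nat.gcd N 2 * g) :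
    WtC f q N (ω 0) (ω 1) g (ω 0 + ω 1 + g) := by
  unfold WtC
  rw [vec2_eq]
  rcases Nat.even_or_odd N with hE | hO
  · left
    have hg : Nat.gcd N 2 = 2 := Nat.gcd_eq_right hE.two_dvd
    rw [hg] at h1 h2
    obtain ⟨j, hj⟩ := hE
    obtain ⟨c, hc⟩ : ∃ c, N = c + 2 := ⟨N - 2, by omega⟩
    have hc' : N - 2 = c := by omega
    rw [hc'] at h1
    refine ⟨⟨j, hj⟩, by omega, ?_⟩
    rw [hc, Nat.add_mul]
    omega
  · right
    have hg : Nat.gcd N 2 = 1 := Nat.Coprime.gcd_eq_one (Nat.coprime_two_right.2 hO)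
    rw [hg] at h1 h2
    obtain ⟨c, hc⟩ : ∃ c, N = c + 1 := ⟨N - 1, by omega⟩
    have hc' : N - 1 = c := by omega
    rw [hc'] at h1
    refine ⟨hO, by omega, ?_⟩
    rw [hc, Nat.add_mul, Nat.add_mul]
    omega

theorem uniruled_family [IsAlgClosed M] (K₀ : IntermediateField k M)
    (htd : Algebra.trdeg k M = 2) (hal : ∀ x : M, IsAlgebraic K₀ x) (N : ℕ) (B₁ B₂ : k[X])
    (hb : Bc k M N B₁ B₂) (z : M) (z0 : z ≠ 0) (zN : z ^ N ∈ K₀)
    (L : Type u) [Field L] [Algebra k L] [Algebra K₀ L] [IsScalarTower k K₀ L] (a w : L)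
    (ha : Transcendental K₀ a)
    (hw : w ^ N * aeval a B₁ = algebraMap K₀ L ⟨z ^ N, zN⟩ * aeval a B₂)
    (hgen : IntermediateField.adjoin K₀ {a, w} = ⊤) (hF : Fam K₀ z N B₁ B₂) : Uniruled k L := by
  obtain ⟨rfl, rfl, x, f, q, ω, g, hK₀, hq, hzf, hω, hg1, hg2⟩ := hF
  have hN : 0 < N := by
    rcases Nat.eq_zero_or_pos N with h | h
    · exact absurd (by rw [h, Nat.cast_zero]) hb.N0
    · exact h
  have h2 : (2 : k) ≠ 0 := by
    have h1 := hb.tame _ (mem_bds_inf (M := M) (1 + X ^ 2) 1)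
    have h3 : (1 + X ^ 2 : k[X]).natDegree = 2 := by compute_degree!
    rw [h3, natDegree_one] at h1
    exact h1
  have hxK : ∀ i, x i ∈ K₀ := fun i => by
    rw [hK₀]
    exact IntermediateField.subset_adjoin _ _ ⟨i, rfl⟩
  have htd₀ : Algebra.trdeg k K₀ = 2 := by
    have h1 : Algebra.IsAlgebraic K₀ M := ⟨hal⟩
    have h3 := trdeg_add_eq k K₀ (A := M)
    rwa [trdeg_eq_zero_iff.2 h1, add_zero, htd] at h3
  have hgen₀ : IntermediateField.adjoin k {(⟨x 0, hxK 0⟩ : K₀), ⟨x 1, hxK 1⟩} = ⊤ := by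
    apply IntermediateField.lift_injective K₀
    rw [IntermediateField.lift_adjoin, IntermediateField.lift_top, Set.image_pair]
    have h1 : Set.range x = {x 0, x 1} := by
      ext b
      constructor
      · rintro ⟨i, rfl⟩
        fin_cases i
        · exact Or.inl rfl
        · exact Or.inr rfl
      · rintro (rfl | rfl)
        · exact ⟨0, rfl⟩
        · exact ⟨1, rfl⟩
    rw [h1] at hK₀
    exact hK₀.symm
  have hval : ∀ r : MvPolynomial (Fin 2) k,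
      ((MvPolynomial.aeval ![(⟨x 0, hxK 0⟩ : K₀), ⟨x 1, hxK 1⟩] r : K₀) : M) =
        MvPolynomial.aeval x r := by
    intro r
    have h1 := MvPolynomial.aeval_algebraMap_apply (A := K₀) (B := M)
      ![(⟨x 0, hxK 0⟩ : K₀), ⟨x 1, hxK 1⟩] r
    show algebraMap K₀ M (MvPolynomial.aeval ![(⟨x 0, hxK 0⟩ : K₀), ⟨x 1, hxK 1⟩] r) = _
    rw [← h1]
    congr 2
    ext i
    fin_cases i <;> rfl
  have hw' : w ^ N * (1 + a ^ 2) = algebraMap K₀ L ⟨z ^ N, zN⟩ := by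
    rw [map_add, map_one, map_pow, aeval_X, mul_one] at hw
    exact hw
  have hw0 : w ≠ 0 := by
    rintro rfl
    rw [zero_pow hN.ne', zero_mul] at hw'
    have h1 : (⟨z ^ N, zN⟩ : K₀) = 0 := (algebraMap K₀ L).injective (by rw [← hw', map_zero])
    exact pow_ne_zero N z0 (congrArg Subtype.val h1)
  refine fam_uni h2 _ _ hgen₀ htd₀ N f q (fun h => hq ?_) a w ha hw0 ?_ hgen _ _ _ _
    (wtC_of N hN ω g f q hg1 hg2) (by omega) le_rfl
  · rw [← hval, h]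
    rfl
  · rw [hw', ← map_pow, ← map_mul]
    congr 1
    apply Subtype.ext
    show z ^ N * ((MvPolynomial.aeval ![(⟨x 0, hxK 0⟩ : K₀), ⟨x 1, hxK 1⟩] q : K₀) : M) ^ 2 =
      ((MvPolynomial.aeval ![(⟨x 0, hxK 0⟩ : K₀), ⟨x 1, hxK 1⟩] f : K₀) : M)
    rw [hval, hval, hzf]

end

end Pool.Agent.TUQ
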