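import Pool.Agent.TBM.Main
import Pool.Agent.T1B.Defs
import Pool.Agent.UQ.Defs
import Pool.Agent.TUQ.G1

/-!
# Uniruled quotients and the Tate conjecture: definitions
-/

set_option autoImplicit false

namespace Pool.Agent.TUQ

open Polynomial Pool.Agent.TBR

universe u

section

variable {k M Ω : Type u} [Field k] [Field M] [Field Ω] [Algebra k M] [Algebra k Ω]

/-- the automorphism of `M` induced by `s`, if `s` maps `ξ(M)` to itself -/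
noncomputable def rs (ξ : M →ₐ[k] Ω) (s : Ω ≃ₐ[k] Ω) : M ≃ₐ[k] M := by
  classical
  exact if h : ∃ t : M ≃ₐ[k] M, ∀ x, s (ξ x) = ξ (t x) then h.choose else 1

/-- the conjugate of a 2-cochain by `ψ` -/
def tw (ψ : M ≃ₐ[k] M) (c : (M ≃ₐ[k] M) → (M ≃ₐ[k] M) → Mˣ) (s t : M ≃ₐ[k] M) : Mˣ :=
  ψ • c (ψ⁻¹ * s * ψ) (ψ⁻¹ * t * ψ)

/-- a class in `Br(K k^s)` which is invariant and unramified -/
structure UnC (K : Set M) (c : (M ≃ₐ[k] M) → (M ≃ₐ[k] M) → Mˣ) : Prop where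
  lc : Lc2 Set.univ c
  coc : Coc (Ge k K) c
  inv : ∀ g ∈ Fx k K, Tri (Ge k K) (fun σ τ => tw g c σ τ * (c σ τ)⁻¹)
  unr : ∀ V : ValuationSubring M, (∀ x : k, algebraMap k M x ∈ V) → V ≠ ⊤ → Tri (Ge k K ⊓ St k V) c

end

section

variable {k Ω : Type u} [Field k] [Field Ω] [Algebra k Ω]

/-- `V` is a place of `Ω` over `A` with residue map `r` -/
structure Plc (A : IntermediateField k Ω) (V : ValuationSubring Ω) (r : V →+* Ω) : Prop where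
  mem : ∀ x ∈ A, x ∈ V
  ne : V ≠ ⊤
  res : IsRes A V r

/-- the embedding `ξ` of `A` has values in `V`, and `ψ` is its residue -/
structure ResE (A : IntermediateField k Ω) (V : ValuationSubring Ω) (r : V →+* Ω)
    (ξ : A →ₐ[k] Ω) (ψ : A ≃ₐ[k] A) : Prop where
  mem : ∀ x, ξ x ∈ V
  eq : ∀ (x : A) (h : ξ x ∈ V), r ⟨ξ x, h⟩ = ψ x

/-- the absolute values of the orders of the zeros and poles of `B₁ / B₂`, infinity included -/
noncomputable def bds (k M : Type u) [Field k] [Field M] [Algebra k M] (B₁ B₂ : k[X]) :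
    Finset ℕ := by
  classical
  exact insert ((B₁.natDegree : ℤ) - B₂.natDegree).natAbs
    (((B₁ * B₂).map (algebraMap k M)).roots.toFinset.image fun c =>
      ((B₁ * B₂).map (algebraMap k M)).rootMultiplicity c)

/-- the conditions on `b = B₁ / B₂` and `N`: `N` is invertible, the orders of all zeros and poles
of `b` are invertible, infinity is one of them and there are at least two others -/
structure Bc (k M : Type u) [Field k] [Field M] [Algebra k M] (N : ℕ) (B₁ B₂ : k[X]) : Prop where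
  N0 : (N : k) ≠ 0
  cop : IsCoprime B₁ B₂
  tame : ∀ e ∈ bds k M B₁ B₂, (e : k) ≠ 0
  two : ∃ c₁ c₂ : M, c₁ ≠ c₂ ∧ aeval c₁ (B₁ * B₂) = 0 ∧ aeval c₂ (B₁ * B₂) = 0

/-- The situation after the embedding of `L = K₀(a, w)` in `H(t)`. -/
structure Cfg (A H : IntermediateField k Ω) (K₀ : IntermediateField k A) (z : A) (N : ℕ)
    (B₁ B₂ : k[X]) (a w U t : Ω) : Prop where
  trA : ∀ x : Ω, x ∉ A → ∀ y : Ω, IsAlgebraic (AA A {x}) y
  trH : ∀ x : Ω, x ∉ H → ∀ y : Ω, IsAlgebraic (AA H {x}) y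
  tdA : Algebra.trdeg k A = 2
  tdH : Algebra.trdeg k H = 2
  fg : K₀.FG
  al : ∀ x : A, IsAlgebraic K₀ x
  z0 : z ≠ 0
  zN : z ^ N ∈ K₀
  irr : Irreducible (X ^ N - C (⟨z ^ N, zN⟩ : K₀))
  bc : Bc k A N B₁ B₂
  dv : ∀ e ∈ bds k A B₁ B₂, ¬ N ∣ e
  aA : a ∉ A
  tH : t ∉ H
  K₀t : ∀ x ∈ K₀, (x : Ω) ∈ AA H {t}
  at' : a ∈ AA H {t}
  wt : w ∈ AA H {t}
  eqU : U ^ N * aeval a B₂ = aeval a B₁
  eqz : w * U = z

/-- `K` is not contained in `κ(θ)` for an algebraically closed `κ` of transcendence degree at most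
one -/
def NU {A : Type u} [Field A] [Algebra k A] (K : IntermediateField k A) : Prop :=
  ∀ (κ : IntermediateField k A) (θ : A), IsAlgClosed κ → Algebra.trdeg k κ ≤ 1 →
    ¬ K ≤ κ ⊔ IntermediateField.adjoin k {θ}

/-- the fields which occur in the theorem -/
def Good {A : Type u} [Field A] [Algebra k A] (K₀ : IntermediateField k A) (z : A) (N : ℕ)
    (B₁ B₂ : k[X]) (L : IntermediateField k A) : Prop :=
  (∃ K₁ K₂ : IntermediateField k A, K₁.FG ∧ K₂.FG ∧ Algebra.trdeg k K₁ ≤ 1 ∧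
    Algebra.trdeg k K₂ ≤ 1 ∧ L = K₁ ⊔ K₂) ∨
  ∃ e ∈ bds k A B₁ B₂, L = K₀ ⊔ IntermediateField.adjoin k {z ^ (N / Nat.gcd N e)}

/-- The local statement at the place `V` for the embeddings `ξ i` and the functions `h i`. -/
def LocSt (A : IntermediateField k Ω) (K₀ : IntermediateField k A) (z : A) (N : ℕ)
    (B₁ B₂ : k[X]) {m : ℕ} (ξ : Fin m → (A →ₐ[k] Ω)) (h : Fin m → Ω) (V : ValuationSubring Ω)
    (r : V →+* Ω) : Prop :=
  (∀ i, (∀ x, ξ i x ∈ V) → V.valuation (h i) ≠ 1 → V.valuation (h i) < 1 ∧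
    ∀ ψ, ResE A V r (ξ i) ψ → ∀ x ∈ K₀ ⊔ IntermediateField.adjoin k {z}, ψ x = x) ∨
  ∃ L : IntermediateField k A, Good K₀ z N B₁ B₂ L ∧ (∀ x : A, IsAlgebraic L x) ∧
    ∀ g ∈ Fx k (L : Set A),
      ∃ π : Equiv.Perm {i : Fin m // (∀ x, ξ i x ∈ V) ∧ V.valuation (h i) ≠ 1},
        ∀ i, V.valuation (h (π i)) = V.valuation (h i) ∧
          ∀ ψ ψ', ResE A V r (ξ i) ψ → ResE A V r (ξ (π i)) ψ' →
            ∀ x ∈ K₀ ⊔ IntermediateField.adjoin k {z}, g (ψ x) = ψ' x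

end

/-! ## The block statements -/

open Classical in
/-- block R: the reciprocity relation -/
def BlockR (k Ω : Type u) [Field k] [Field Ω] [Algebra k Ω] : Prop :=
  ∀ (_ : IsAlgClosed Ω) (A : IntermediateField k Ω) (_ : IsAlgClosed A)
    (_ : ∀ x : Ω, x ∉ A → ∀ y : Ω, IsAlgebraic (AA A {x}) y)
    (K : IntermediateField k A) (_ : K.FG) (_ : ∀ x : A, IsAlgebraic K x)
    (_ : Algebra.trdeg k A < Cardinal.aleph0)
    (m : ℕ) (ξ : Fin m → (A →ₐ[k] Ω)) (h : Fin m → Ω) (_ : ∀ i, h i ≠ 0)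
    (T : Finset Ω) (_ : ∃ y : Ω, y ∉ A) (p : ℕ) (_ : ExpChar k p),
    ∃ (n : ℕ) (V : Fin n → ValuationSubring Ω) (r : ∀ j, V j →+* Ω) (e : Fin n → Fin m → ℤ)
      (S : Finset A),
      (∀ j, Plc A (V j) (r j)) ∧
      (∀ j i, 0 < e j i ↔ (V j).valuation (h i) < 1) ∧
      (∀ j i, e j i < 0 ↔ 1 < (V j).valuation (h i)) ∧
      (∀ j i i', (V j).valuation (h i) = (V j).valuation (h i') → e j i = e j i') ∧
      (∀ (W : ValuationSubring Ω) (rW : W →+* Ω), Plc A W rW → (∃ i, W.valuation (h i) ≠ 1) →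
        ∃ j, ∀ x ∈ T, (x ∈ W ↔ x ∈ V j) ∧ ∀ (h : x ∈ W) (h' : x ∈ V j), rW ⟨x, h⟩ = r j ⟨x, h'⟩) ∧
      ∀ c : (A ≃ₐ[k] A) → (A ≃ₐ[k] A) → Aˣ, UnC (K : Set A) c →
        ∀ ψ : Fin n → Fin m → (A ≃ₐ[k] A),
          (∀ j i, (∀ x, ξ i x ∈ V j) → ResE A (V j) (r j) (ξ i) (ψ j i)) →
          ∃ s : ℕ, Tri (Ge k (S : Set A)) (fun σ τ => ∏ j, ∏ i,
            if (∀ x, ξ i x ∈ V j) ∧ (V j).valuation (h i) ≠ 1 then
              tw (ψ j i) c σ τ ^ (e j i * (p : ℤ) ^ s) else 1)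

/-- block G: the geometry of the embeddings -/
def BlockG (k Ω : Type u) [Field k] [Field Ω] [Algebra k Ω] : Prop :=
  ∀ (_ : IsAlgClosed Ω) (A H : IntermediateField k Ω) (_ : IsAlgClosed A) (_ : IsAlgClosed H)
    (K₀ : IntermediateField k A) (z : A) (N : ℕ) (B₁ B₂ : k[X]) (a w U t : Ω),
    Cfg A H K₀ z N B₁ B₂ a w U t → NU (K₀ ⊔ IntermediateField.adjoin k {z}) →
    ∃ (m : ℕ) (ξ : Fin m → (A →ₐ[k] Ω)) (h : Fin m → Ω), (∀ i, h i ≠ 0) ∧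
      (∀ (V : ValuationSubring Ω) (r : V →+* Ω), Plc A V r → LocSt A K₀ z N B₁ B₂ ξ h V r) ∧
      ∃ (V : ValuationSubring Ω) (r : V →+* Ω), Plc A V r ∧
        (∃ i, (∀ x, ξ i x ∈ V) ∧ V.valuation (h i) < 1) ∧
        ∀ i, (∀ x, ξ i x ∈ V) → V.valuation (h i) ≠ 1 → V.valuation (h i) < 1 ∧
          ∀ ψ, ResE A V r (ξ i) ψ → ∀ x ∈ K₀ ⊔ IntermediateField.adjoin k {z}, ψ x = x

end Pool.Agent.TUQ
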