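import Pool.Agent.TUQ.F1

/-!
# The set-up: a uniruled field in a rational function field
-/

set_option autoImplicit false

namespace Pool.Agent.TUQ

open Polynomial Pool.Agent.TBR Pool.Agent.UQ Cardinal

universe u

theorem map_map_e {k M M' : Type u} [Field k] [Field M] [Field M'] [Algebra k M] [Algebra k M']
    (e : M ≃ₐ[k] M') (B : k[X]) :
    B.map (algebraMap k M') = (B.map (algebraMap k M)).map (e : M →+* M') := by
  rw [Polynomial.map_map]
  congr 1
  ext x
  exact (e.commutes x).symm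

theorem bds_congr {k M M' : Type u} [Field k] [Field M] [Field M'] [Algebra k M] [Algebra k M']
    [IsAlgClosed M] (e : M ≃ₐ[k] M') (B₁ B₂ : k[X]) : bds k M' B₁ B₂ = bds k M B₁ B₂ := by
  classical
  unfold bds
  have hinj : Function.Injective (e : M →+* M') := e.injective
  have h1 : ((B₁ * B₂).map (algebraMap k M')).roots =
      ((B₁ * B₂).map (algebraMap k M)).roots.map (e : M →+* M') := by
    rw [map_map_e e]
    exact (IsAlgClosed.splits _).roots_map _
  congr 1
  ext n
  simp only [Finset.mem_image, Multiset.mem_toFinset]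
  constructor
  · rintro ⟨c, hc, rfl⟩
    rw [h1, Multiset.mem_map] at hc
    obtain ⟨d, hd, rfl⟩ := hc
    refine ⟨d, hd, ?_⟩
    rw [map_map_e e]
    exact Polynomial.eq_rootMultiplicity_map hinj d
  · rintro ⟨c, hc, rfl⟩
    refine ⟨e c, ?_, ?_⟩
    · rw [h1, Multiset.mem_map]
      exact ⟨c, hc, rfl⟩
    · rw [map_map_e e]
      exact (Polynomial.eq_rootMultiplicity_map hinj c).symm

theorem Bc.congr {k M M' : Type u} [Field k] [Field M] [Field M'] [Algebra k M] [Algebra k M']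
    [IsAlgClosed M] (e : M ≃ₐ[k] M') {N : ℕ} {B₁ B₂ : k[X]} (h : Bc k M N B₁ B₂) :
    Bc k M' N B₁ B₂ := by
  obtain ⟨h1, h2, h3, c₁, c₂, h4, h5, h6⟩ := h
  refine ⟨h1, h2, ?_, e c₁, e c₂, fun h => h4 (e.injective h), ?_, ?_⟩
  · rw [bds_congr e]
    exact h3
  · have := congrArg e h5
    rwa [map_zero, ← Polynomial.aeval_algHom_apply] at this
  · have := congrArg e h6
    rwa [map_zero, ← Polynomial.aeval_algHom_apply] at this

theorem irr_congr {k M M' : Type u} [Field k] [Field M] [Field M'] [Algebra k M] [Algebra k M']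
    (e : M ≃ₐ[k] M') (K₀ : IntermediateField k M) (N : ℕ) (z : M) (zN : z ^ N ∈ K₀)
    (zN' : (e z) ^ N ∈ K₀.map (e : M →ₐ[k] M'))
    (irr : Irreducible (X ^ N - C (⟨z ^ N, zN⟩ : K₀))) :
    Irreducible (X ^ N - C (⟨(e z) ^ N, zN'⟩ : K₀.map (e : M →ₐ[k] M'))) := by
  let ε : K₀ ≃+* K₀.map (e : M →ₐ[k] M') := (K₀.intermediateFieldMap e).toRingEquiv
  have h1 : (Polynomial.mapEquiv ε) (X ^ N - C (⟨z ^ N, zN⟩ : K₀)) =
      X ^ N - C (⟨(e z) ^ N, zN'⟩ : K₀.map (e : M →ₐ[k] M')) := by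
    rw [Polynomial.mapEquiv_apply, Polynomial.map_sub, Polynomial.map_pow, Polynomial.map_X,
      Polynomial.map_C]
    congr 2
    apply Subtype.ext
    show e (z ^ N) = (e z) ^ N
    exact map_pow e z N
  rw [← h1]
  exact (MulEquiv.irreducible_iff (Polynomial.mapEquiv ε)).2 irr

end Pool.Agent.TUQ
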