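import Pool.Agent.TUQ.Defs
import Pool.Agent.TUQ.Vl
import Pool.Agent.RDM.C5

/-!
# The combination of the reciprocity relation and the local statements
-/

set_option autoImplicit false

namespace Pool.Agent.TUQ

open Polynomial Pool.Agent.TBR

universe u

/-- the statement of block INV: families of embeddings which are stable under `Gal(M/L)` -/
def InvSt (k M : Type u) [Field k] [Field M] [Algebra k M] : Prop :=
  ∀ (_ : IsAlgClosed M) (K L : IntermediateField k M) (_ : K.FG) (_ : L.FG)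
    (_ : ∀ x : M, IsAlgebraic K x) (_ : ∀ x : M, IsAlgebraic L x) (ι : Type) (_ : Fintype ι)
    (ψ : ι → (M ≃ₐ[k] M)) (e : ι → ℤ)
    (_ : ∀ g ∈ Fx k (L : Set M), ∃ π : Equiv.Perm ι, ∀ i, e (π i) = e i ∧
      ∀ x ∈ K, g (ψ i x) = ψ (π i) x),
    ∃ (m : ℕ) (S : Finset M), 0 < m ∧ ∀ ℓ : ℕ, ∃ f : Vl k K M ℓ →* Vl k L M ℓ,
      ∀ (c : sysG k K M ℓ) (C : ℕ → (M ≃ₐ[k] M) → (M ≃ₐ[k] M) → Mˣ), SysU (K : Set M) ℓ C →
        (∀ n σ τ, C n (rsh K σ) (rsh K τ) =
          (c : ℕ → (M ≃ₐ[K] M) → (M ≃ₐ[K] M) → Mˣ) n σ τ) →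
        f (QuotientGroup.mk c) = 1 →
          ∀ n, Tri (Ge k (S : Set M)) (fun σ τ => (∏ i, tw (ψ i) (C n) σ τ ^ e i) ^ m)

section

variable {k Ω : Type u} [Field k] [Field Ω] [Algebra k Ω]

/-- injective endomorphisms of an algebraically closed field of finite transcendence degree are
surjective -/
theorem surj_of_trdeg {A : Type u} [Field A] [Algebra k A] [IsAlgClosed A]
    (h : Algebra.trdeg k A < Cardinal.aleph0) (f : A →ₐ[k] A) : Function.Surjective f := by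
  have hcl : IsAlgClosed f.fieldRange :=
    IsAlgClosed.of_ringEquiv A f.fieldRange (AlgEquiv.ofInjectiveField f).toRingEquiv
  have h1 := _root_.trdeg_add_eq k f.fieldRange (A := A)
  have h2 : Algebra.trdeg k f.fieldRange = Algebra.trdeg k A :=
    (AlgEquiv.ofInjectiveField f).symm.trdeg_eq
  rw [h2] at h1
  have h3 : Algebra.trdeg f.fieldRange A = 0 := by
    obtain ⟨n, hn⟩ := Cardinal.lt_aleph0.1 h
    rw [hn] at h1
    have h4 : Algebra.trdeg f.fieldRange A ≤ n := by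
      rw [← h1]
      exact self_le_add_left _ _
    obtain ⟨m, hm⟩ := Cardinal.lt_aleph0.1 (h4.trans_lt (Cardinal.natCast_lt_aleph0))
    rw [hm] at h1 ⊢
    rw [← Nat.cast_add, Nat.cast_inj] at h1
    have : m = 0 := by omega
    rw [this, Nat.cast_zero]
  have h4 : Algebra.IsAlgebraic f.fieldRange A := by
    rwa [_root_.trdeg_eq_zero_iff] at h3
  intro x
  have h5 : IsAlgebraic f.fieldRange x := h4.isAlgebraic x
  obtain ⟨b, hb⟩ : x ∈ (algebraMap f.fieldRange A).range :=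
    minpoly.mem_range_of_degree_eq_one f.fieldRange x
      (IsAlgClosed.degree_eq_one_of_irreducible f.fieldRange (minpoly.irreducible h5.isIntegral))
  obtain ⟨y, hy⟩ := b.2
  exact ⟨y, hy.trans hb⟩

theorem exists_resE_F (A : IntermediateField k Ω) [IsAlgClosed A]
    (h : Algebra.trdeg k A < Cardinal.aleph0) (V : ValuationSubring Ω) (r : V →+* Ω)
    (hV : Plc A V r) (ξ : A →ₐ[k] Ω) (hξ : ∀ x, ξ x ∈ V) : ∃ ψ, ResE A V r ξ ψ := by
  let f : A →ₐ[k] A :=
    { toFun := fun x => ⟨r ⟨ξ x, hξ x⟩, hV.res.mem _⟩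
      map_one' := by
        apply Subtype.ext
        show r ⟨ξ 1, hξ 1⟩ = 1
        have : (⟨ξ 1, hξ 1⟩ : V) = 1 := Subtype.ext (map_one ξ)
        rw [this, map_one]
      map_mul' := fun x y => by
        apply Subtype.ext
        show r ⟨ξ (x * y), hξ (x * y)⟩ = r ⟨ξ x, hξ x⟩ * r ⟨ξ y, hξ y⟩
        rw [← map_mul]
        congr 1
        exact Subtype.ext (map_mul ξ x y)
      map_zero' := by
        apply Subtype.ext
        show r ⟨ξ 0, hξ 0⟩ = 0
        have : (⟨ξ 0, hξ 0⟩ : V) = 0 := Subtype.ext (map_zero ξ)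
        rw [this, map_zero]
      map_add' := fun x y => by
        apply Subtype.ext
        show r ⟨ξ (x + y), hξ (x + y)⟩ = r ⟨ξ x, hξ x⟩ + r ⟨ξ y, hξ y⟩
        rw [← map_add]
        congr 1
        exact Subtype.ext (map_add ξ x y)
      commutes' := fun c => by
        apply Subtype.ext
        show r ⟨ξ (algebraMap k A c), hξ _⟩ = algebraMap k Ω c
        have h1 : algebraMap k Ω c ∈ V := hV.mem _ (A.algebraMap_mem c)
        have h2 : (⟨ξ (algebraMap k A c), hξ _⟩ : V) = ⟨algebraMap k Ω c, h1⟩ :=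
          Subtype.ext (ξ.commutes c)
        rw [h2]
        exact hV.res.fix _ h1 (A.algebraMap_mem c) }
  refine ⟨AlgEquiv.ofBijective f ⟨f.injective, surj_of_trdeg h f⟩, hξ, fun x hx => rfl⟩

theorem ResE.unique {A : IntermediateField k Ω} {V : ValuationSubring Ω} {r : V →+* Ω}
    {ξ : A →ₐ[k] Ω} {ψ ψ' : A ≃ₐ[k] A} (h : ResE A V r ξ ψ) (h' : ResE A V r ξ ψ') : ψ = ψ' := by
  ext x
  rw [← h.eq x (h.mem x), h'.eq x (h'.mem x)]

theorem tw_one (c : (Ω ≃ₐ[k] Ω) → (Ω ≃ₐ[k] Ω) → Ωˣ) : tw 1 c = c := by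
  funext σ τ
  show (1 : Ω ≃ₐ[k] Ω) • c ((1 : Ω ≃ₐ[k] Ω)⁻¹ * σ * 1) ((1 : Ω ≃ₐ[k] Ω)⁻¹ * τ * 1) = c σ τ
  rw [one_smul, inv_one, one_mul, mul_one, one_mul, mul_one]

end

/-- Two places with the same traces and residues on the generators of `ξ(K)`. -/
theorem trace_lemma {k Ω : Type u} [Field k] [Field Ω] [Algebra k Ω] (A : IntermediateField k Ω)
    [IsAlgClosed A] (V : ValuationSubring Ω) (r : V →+* Ω) (hV : Plc A V r)
    (W : ValuationSubring Ω) (rW : W →+* Ω) (hW : Plc A W rW) (ξ : A →ₐ[k] Ω) (ψ : A ≃ₐ[k] A)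
    (hψ : ResE A V r ξ ψ) (G : Finset A) (K : IntermediateField k A)
    (hG : IntermediateField.adjoin k (G : Set A) = K) (hK : ∀ x : A, IsAlgebraic K x)
    (h : ∀ g ∈ G, ξ g ∈ W ∧ ∀ (h : ξ g ∈ W) (h' : ξ g ∈ V), rW ⟨ξ g, h⟩ = r ⟨ξ g, h'⟩) :
    (∀ x, ξ x ∈ W) ∧ ∀ x ∈ K, ∀ (h : ξ x ∈ W), rW ⟨ξ x, h⟩ = ψ x := by
  -- polynomials in the generators
  have h1 : ∀ x ∈ Algebra.adjoin k (G : Set A), ∃ h : ξ x ∈ W, rW ⟨ξ x, h⟩ = ψ x := by
    intro x hx
    induction hx using Algebra.adjoin_induction with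
    | mem x hx =>
      obtain ⟨h2, h3⟩ := h x hx
      exact ⟨h2, by rw [h3 h2 (hψ.mem x), hψ.eq x (hψ.mem x)]⟩
    | algebraMap c =>
      have h2 : algebraMap k Ω c ∈ W := hW.mem _ (A.algebraMap_mem c)
      have h3 : ξ (algebraMap k A c) ∈ W := by rw [ξ.commutes]; exact h2
      refine ⟨h3, ?_⟩
      have h4 : (⟨ξ (algebraMap k A c), h3⟩ : W) = ⟨algebraMap k Ω c, h2⟩ :=
        Subtype.ext (ξ.commutes c)
      rw [h4, hW.res.fix _ h2 (A.algebraMap_mem c), ψ.commutes]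
      rfl
    | add x y _ _ hx hy =>
      obtain ⟨hx1, hx2⟩ := hx
      obtain ⟨hy1, hy2⟩ := hy
      have h3 : ξ (x + y) ∈ W := by rw [map_add]; exact add_mem hx1 hy1
      refine ⟨h3, ?_⟩
      have h4 : (⟨ξ (x + y), h3⟩ : W) = ⟨ξ x, hx1⟩ + ⟨ξ y, hy1⟩ := Subtype.ext (map_add ξ x y)
      rw [h4, map_add, hx2, hy2, map_add]
      rfl
    | mul x y _ _ hx hy =>
      obtain ⟨hx1, hx2⟩ := hx
      obtain ⟨hy1, hy2⟩ := hy
      have h3 : ξ (x * y) ∈ W := by rw [map_mul]; exact mul_mem hx1 hy1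
      refine ⟨h3, ?_⟩
      have h4 : (⟨ξ (x * y), h3⟩ : W) = ⟨ξ x, hx1⟩ * ⟨ξ y, hy1⟩ := Subtype.ext (map_mul ξ x y)
      rw [h4, map_mul, hx2, hy2, map_mul]
      rfl
  have h2 : ∀ x ∈ K, ∃ h : ξ x ∈ W, rW ⟨ξ x, h⟩ = ψ x := by
    intro x hx
    rw [← hG, IntermediateField.mem_adjoin_iff_div] at hx
    obtain ⟨a, ha, b, hb, rfl⟩ := hx
    obtain ⟨ha1, ha2⟩ := h1 a ha
    obtain ⟨hb1, hb2⟩ := h1 b hb
    by_cases hb0 : b = 0
    · subst hb0
      rw [div_zero]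
      have h3 : ξ 0 ∈ W := by rw [map_zero]; exact W.zero_mem
      refine ⟨h3, ?_⟩
      have h4 : (⟨ξ 0, h3⟩ : W) = 0 := Subtype.ext (map_zero ξ)
      rw [h4, map_zero, map_zero]
      rfl
    · have hψb : (ψ b : Ω) ≠ 0 := by
        intro h0
        apply hb0
        have h3 : ψ b = 0 := Subtype.ext h0
        rwa [map_eq_zero] at h3
      have hbu : (ξ b)⁻¹ ∈ W := by
        by_contra hcon
        have h3 : W.valuation (ξ b) < 1 := by
          rcases W.mem_or_inv_mem (ξ b)⁻¹ with h4 | h4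
          · exact absurd h4 hcon
          · by_contra h5
            apply hcon
            rw [val_le, map_inv₀]
            exact inv_le_one_of_one_le₀ (not_lt.1 h5)
        have h4 := (hW.res.zero_iff hW.mem ⟨ξ b, hb1⟩).2 h3
        rw [hb2] at h4
        exact hψb h4
      have h3 : ξ (a / b) ∈ W := by rw [map_div₀, div_eq_mul_inv]; exact mul_mem ha1 hbu
      refine ⟨h3, ?_⟩
      have h4 : (⟨ξ (a / b), h3⟩ : W) * ⟨ξ b, hb1⟩ = ⟨ξ a, ha1⟩ := by
        apply Subtype.ext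
        show ξ (a / b) * ξ b = ξ a
        rw [← map_mul, div_mul_cancel₀ _ hb0]
      have h5 := congrArg rW h4
      rw [map_mul, ha2, hb2] at h5
      have h6 : (ψ (a / b) : Ω) = (ψ a : Ω) / (ψ b : Ω) := by rw [map_div₀]; rfl
      rw [h6, eq_div_iff hψb, h5]
  refine ⟨fun x => ?_, fun x hx h => (h2 x hx).2⟩
  -- `A` is algebraic over `K`
  let W' : ValuationSubring A := W.comap (ξ : A →+* Ω)
  have h3 : ∀ x ∈ K, x ∈ W' := fun x hx => (h2 x hx).1
  have h4 : IsIntegral K x := (hK x).isIntegral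
  obtain ⟨p, hp, hp0⟩ := h4
  have h5 : ∃ q : Polynomial W', q.Monic ∧ Polynomial.eval₂ (algebraMap W' A) x q = 0 := by
    let i : K →+* W' := (algebraMap K A).codRestrict W'.toSubring fun x => h3 _ x.2
    refine ⟨p.map i, hp.map i, ?_⟩
    rw [Polynomial.eval₂_map]
    exact hp0
  have h6 : IsIntegral W' x := h5
  obtain ⟨y, hy⟩ := IsIntegrallyClosed.isIntegral_iff.1 h6
  have h7 : x ∈ W' := by rw [← hy]; exact y.2
  exact h7

end Pool.Agent.TUQ
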