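import Pool.Agent.TUQ.F5

set_option maxSynthPendingDepth 3

/-!
# The combination of the reciprocity relation and the local statements
-/

set_option autoImplicit false

namespace Pool.Agent.TUQ

open Polynomial Pool.Agent.TBR

universe u

/-- a place is of type 0 -/
def Type0 {k Ω : Type u} [Field k] [Field Ω] [Algebra k Ω] (A : IntermediateField k Ω)
    (K : IntermediateField k A) {m : ℕ} (ξ : Fin m → (A →ₐ[k] Ω)) (h : Fin m → Ω)
    (V : ValuationSubring Ω) (r : V →+* Ω) : Prop :=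
  ∀ i, (∀ x, ξ i x ∈ V) → V.valuation (h i) ≠ 1 → V.valuation (h i) < 1 ∧
    ∀ ψ, ResE A V r (ξ i) ψ → ∀ x ∈ K, ψ x = x

theorem val_lt_iff {Ω : Type u} [Field Ω] (V : ValuationSubring Ω) (x : Ω) (hx : x ≠ 0) :
    V.valuation x < 1 ↔ x⁻¹ ∉ V := by
  rw [val_le, map_inv₀, not_le]
  exact (one_lt_inv₀ (zero_lt_iff.2 ((_root_.map_ne_zero _).2 hx))).symm

/-- type 0 depends only on finitely many traces and residues -/
theorem Type0.transfer {k Ω : Type u} [Field k] [Field Ω] [Algebra k Ω]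
    (A : IntermediateField k Ω) [IsAlgClosed A] (K : IntermediateField k A) {m : ℕ}
    (ξ : Fin m → (A →ₐ[k] Ω)) (h : Fin m → Ω) (h0 : ∀ i, h i ≠ 0)
    (htd : Algebra.trdeg k A < Cardinal.aleph0)
    (W : ValuationSubring Ω) (rW : W →+* Ω) (hW : Plc A W rW)
    (V : ValuationSubring Ω) (r : V →+* Ω) (hV : Plc A V r)
    (G : Finset A) (hG : IntermediateField.adjoin k (G : Set A) = K)
    (hK : ∀ x : A, IsAlgebraic K x)
    (hh : ∀ i, (h i ∈ W ↔ h i ∈ V) ∧ ((h i)⁻¹ ∈ W ↔ (h i)⁻¹ ∈ V))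
    (hξ : ∀ i, ∀ g ∈ G, (ξ i g ∈ W ↔ ξ i g ∈ V) ∧
      ∀ (h : ξ i g ∈ W) (h' : ξ i g ∈ V), rW ⟨ξ i g, h⟩ = r ⟨ξ i g, h'⟩)
    (hT : Type0 A K ξ h W rW) :
    Type0 A K ξ h V r ∧ ∀ i, (∀ x, ξ i x ∈ W) → W.valuation (h i) < 1 →
      (∀ x, ξ i x ∈ V) ∧ V.valuation (h i) < 1 := by
  have hval : ∀ i, V.valuation (h i) < 1 ↔ W.valuation (h i) < 1 := by
    intro i
    rw [val_lt_iff V _ (h0 i), val_lt_iff W _ (h0 i), (hh i).2]
  have hval1 : ∀ i, V.valuation (h i) ≠ 1 ↔ W.valuation (h i) ≠ 1 := by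
    intro i
    have h1 : V.valuation (h i) ≤ 1 ↔ W.valuation (h i) ≤ 1 := by
      rw [← val_le, ← val_le, (hh i).1]
    constructor
    · intro h2 h3
      apply h2
      refine le_antisymm (h1.2 h3.le) (not_lt.1 fun h4 => ?_)
      exact absurd ((hval i).1 h4) (by rw [h3]; exact lt_irrefl _)
    · intro h2 h3
      apply h2
      refine le_antisymm (h1.1 h3.le) (not_lt.1 fun h4 => ?_)
      exact absurd ((hval i).2 h4) (by rw [h3]; exact lt_irrefl _)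
  refine ⟨?_, ?_⟩
  · intro i hi hi1
    obtain ⟨ψ', hψ'⟩ := exists_resE_F A htd V r hV (ξ i) hi
    obtain ⟨h1, h2⟩ := trace_lemma A V r hV W rW hW (ξ i) ψ' hψ' G K hG hK (fun g hg =>
      ⟨((hξ i g hg).1).2 (hi g), (hξ i g hg).2⟩)
    obtain ⟨h3, h4⟩ := hT i h1 ((hval1 i).1 hi1)
    refine ⟨(hval i).2 h3, fun ψ hψ x hx => ?_⟩
    obtain ⟨ψ₁, hψ₁⟩ := exists_resE_F A htd W rW hW (ξ i) h1
    have h5 := h4 ψ₁ hψ₁ x hx
    have h6 := h2 x hx (h1 x)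
    rw [hψ₁.eq x (h1 x)] at h6
    rw [hψ.unique hψ', ← Subtype.coe_inj, ← h6, h5]
  · intro i hi hi1
    obtain ⟨ψ₁, hψ₁⟩ := exists_resE_F A htd W rW hW (ξ i) hi
    obtain ⟨h1, h2⟩ := trace_lemma A W rW hW V r hV (ξ i) ψ₁ hψ₁ G K hG hK (fun g hg =>
      ⟨((hξ i g hg).1).1 (hi g), fun h h' => ((hξ i g hg).2 h' h).symm⟩)
    exact ⟨h1, (hval i).2 hi1⟩

theorem pi_inj_aux {V : Type*} [Group V] {ι κ : Type*} {W : κ → Type*} [∀ j, Group (W j)]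
    (f : ∀ j, V →* W j) (ε : κ ≃ ι) (h : ∀ x, (∀ j, f j x = 1) → x = 1) :
    ∃ g : V →* (∀ i : ι, W (ε.symm i)), Function.Injective g := by
  refine ⟨MonoidHom.pi fun i => f (ε.symm i), (injective_iff_map_eq_one _).2 fun x hx => h x fun j => ?_⟩
  have h1 : f (ε.symm (ε j)) x = 1 := congrFun hx (ε j)
  rw [ε.symm_apply_apply] at h1
  exact h1

theorem combine {k Ω : Type u} [Field k] [Field Ω] [Algebra k Ω] [hΩ : IsAlgClosed Ω]
    (hR : BlockR k Ω) (hG : BlockG k Ω) (A H : IntermediateField k Ω) [hA : IsAlgClosed A]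
    [hH : IsAlgClosed H] (hI : InvSt k A) (K₀ : IntermediateField k A) (z : A) (N : ℕ)
    (B₁ B₂ : k[X]) (a w U t : Ω) (hc : Cfg A H K₀ z N B₁ B₂ a w U t)
    (hNU : NU (K₀ ⊔ IntermediateField.adjoin k {z})) :
    ∃ (n : ℕ) (L : Fin n → IntermediateField k A),
      (∀ j, Good K₀ z N B₁ B₂ (L j) ∧ ∀ x : A, IsAlgebraic (L j) x) ∧
      ∀ ℓ : ℕ, ℓ.Prime → (ℓ : k) ≠ 0 →
        ∃ f : Vl k (K₀ ⊔ IntermediateField.adjoin k {z} : IntermediateField k A) A ℓ →*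
          (∀ j, Vl k (L j) A ℓ), Function.Injective f := by
  classical
  obtain ⟨K, hKdef⟩ : ∃ K, K = K₀ ⊔ IntermediateField.adjoin k {z} := ⟨_, rfl⟩
  obtain ⟨m, ξ, h, h0, hloc, V₀, r₀, hV₀, ⟨i₀, hi₀, hi₀'⟩, hV₀t⟩ :=
    hG hΩ A H hA hH K₀ z N B₁ B₂ a w U t hc hNU
  rw [← hKdef] at hNU hV₀t ⊢
  have hfg : K.FG := by
    rw [hKdef]
    exact IntermediateField.fg_sup hc.fg ⟨{z}, by rw [Finset.coe_singleton]⟩
  have hK₀K : K₀ ≤ K := by rw [hKdef]; exact le_sup_left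
  have hKal : ∀ x : A, IsAlgebraic K x := by
    intro x
    obtain ⟨q, hq, hq0⟩ := hc.al x
    refine ⟨q.map (IntermediateField.inclusion hK₀K : K₀ →+* K), ?_, ?_⟩
    · exact (Polynomial.map_ne_zero_iff (RingHom.injective _)).2 hq
    · rw [Polynomial.aeval_def, Polynomial.eval₂_map]
      exact hq0
  have htd : Algebra.trdeg k A < Cardinal.aleph0 := by
    rw [hc.tdA]
    exact Cardinal.ofNat_lt_aleph0
  obtain ⟨G, hGK⟩ := hfg
  obtain ⟨p, hp⟩ := ExpChar.exists k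
  let T : Finset Ω := (Finset.univ.image h) ∪ (Finset.univ.image fun i => (h i)⁻¹) ∪
    Finset.univ.biUnion fun i => G.image fun g => ξ i g
  obtain ⟨n, V, r, e, S, hPl, he1, he2, he3, hcov, hrel⟩ :=
    hR hΩ A hA hc.trA K ⟨G, hGK⟩ hKal htd m ξ h h0 T ⟨a, hc.aA⟩ p hp
  have hψ : ∀ j i, ∃ ψ, (∀ x, ξ i x ∈ V j) → ResE A (V j) (r j) (ξ i) ψ := by
    intro j i
    by_cases hi : ∀ x, ξ i x ∈ V j
    · obtain ⟨ψ, hψ⟩ := exists_resE_F A htd (V j) (r j) (hPl j) (ξ i) hi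
      exact ⟨ψ, fun _ => hψ⟩
    · exact ⟨1, fun h' => absurd h' hi⟩
  choose ψ hψ using hψ
  let t0 : Fin n → Prop := fun j => Type0 A K ξ h (V j) (r j)
  let P : Fin n → Fin m → Prop := fun j i => (∀ x, ξ i x ∈ V j) ∧ (V j).valuation (h i) ≠ 1
  -- the places which are not of type 0
  have hL : ∀ j, ∃ L : IntermediateField k A, ¬ t0 j →
      Good K₀ z N B₁ B₂ L ∧ (∀ x : A, IsAlgebraic L x) ∧
      ∀ g ∈ Fx k (L : Set A), ∃ π : Equiv.Perm {i : Fin m // P j i},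
        ∀ i, e j (π i) = e j i ∧ ∀ x ∈ K, g (ψ j i x) = ψ j (π i) x := by
    intro j
    by_cases ht : t0 j
    · exact ⟨⊥, fun h' => absurd ht h'⟩
    rcases hloc (V j) (r j) (hPl j) with h1 | ⟨L, h1, h2, h3⟩
    · rw [← hKdef] at h1
      exact absurd h1 ht
    · rw [← hKdef] at h3
      refine ⟨L, fun _ => ⟨h1, h2, fun g hg => ?_⟩⟩
      obtain ⟨π, hπ⟩ := h3 g hg
      refine ⟨π, fun i => ⟨he3 j _ _ (hπ i).1, fun x hx => ?_⟩⟩
      exact (hπ i).2 _ _ (hψ j i i.2.1) (hψ j (π i) (π i).2.1) x hx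
  choose L hL using hL
  have hinv : ∀ j, ∃ (μ : ℕ) (Sj : Finset A), ¬ t0 j → 0 < μ ∧ ∀ ℓ : ℕ,
      ∃ f : Vl k K A ℓ →* Vl k (L j) A ℓ,
      ∀ (c : sysG k K A ℓ) (C : ℕ → (A ≃ₐ[k] A) → (A ≃ₐ[k] A) → Aˣ), SysU (K : Set A) ℓ C →
        (∀ n σ τ, C n (rsh K σ) (rsh K τ) =
          (c : ℕ → (A ≃ₐ[K] A) → (A ≃ₐ[K] A) → Aˣ) n σ τ) →
        f (QuotientGroup.mk c) = 1 →
          ∀ n, Tri (Ge k (Sj : Set A)) (fun σ τ =>
            (∏ i : {i : Fin m // P j i}, tw (ψ j i) (C n) σ τ ^ e j i) ^ μ) := by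
    intro j
    by_cases ht : t0 j
    · exact ⟨0, ∅, fun h' => absurd ht h'⟩
    obtain ⟨h1, h2, h3⟩ := hL j ht
    obtain ⟨μ, Sj, h4, h5⟩ := hI hA K (L j) ⟨G, hGK⟩ (h1.fg hc.fg) hKal h2
      {i : Fin m // P j i} inferInstance (fun i => ψ j i) (fun i => e j i) h3
    exact ⟨μ, Sj, fun _ => ⟨h4, h5⟩⟩
  choose μ Sj hinv using hinv
  -- positivity
  have hpos : 0 < ∑ j, if t0 j then ∑ i, (if P j i then e j i else 0) else 0 := by
    have h1 : ∀ j i, t0 j → P j i → 0 < e j i := fun j i hj hi =>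
      (he1 j i).2 (hj i hi.1 hi.2).1
    obtain ⟨j, hj⟩ := hcov V₀ r₀ hV₀ ⟨i₀, hi₀'.ne⟩
    have hmem1 : ∀ i, h i ∈ T := fun i => by
      simp only [T, Finset.mem_union, Finset.mem_image]
      exact Or.inl (Or.inl ⟨i, Finset.mem_univ i, rfl⟩)
    have hmem2 : ∀ i, (h i)⁻¹ ∈ T := fun i => by
      simp only [T, Finset.mem_union, Finset.mem_image]
      exact Or.inl (Or.inr ⟨i, Finset.mem_univ i, rfl⟩)
    have hmem3 : ∀ i, ∀ g ∈ G, ξ i g ∈ T := fun i g hg => by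
      simp only [T, Finset.mem_union, Finset.mem_biUnion, Finset.mem_image]
      exact Or.inr ⟨i, Finset.mem_univ i, g, hg, rfl⟩
    obtain ⟨h2, h3⟩ := Type0.transfer A K ξ h h0 htd V₀ r₀ hV₀ (V j) (r j) (hPl j) G hGK hKal
      (fun i => ⟨(hj _ (hmem1 i)).1, (hj _ (hmem2 i)).1⟩)
      (fun i g hg => hj _ (hmem3 i g hg)) hV₀t
    obtain ⟨h4, h5⟩ := h3 i₀ hi₀ hi₀'
    refine Finset.sum_pos' (fun j' _ => ?_) ⟨j, Finset.mem_univ j, ?_⟩
    · split_ifs with hj'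
      · refine Finset.sum_nonneg fun i _ => ?_
        split_ifs with hi
        · exact (h1 j' i hj' hi).le
        · exact le_rfl
      · exact le_rfl
    · rw [if_pos (show t0 j from h2)]
      refine Finset.sum_pos' (fun i _ => ?_) ⟨i₀, Finset.mem_univ i₀, ?_⟩
      · split_ifs with hi
        · exact (h1 j i h2 hi).le
        · exact le_rfl
      · rw [if_pos (show P j i₀ from ⟨h4, h5.ne⟩)]
        exact h1 j i₀ h2 ⟨h4, h5.ne⟩
  -- the list of fields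
  let J := {j : Fin n // ¬ t0 j}
  let ε : J ≃ Fin (Fintype.card J) := Fintype.equivFin J
  refine ⟨Fintype.card J, fun j => L (ε.symm j), fun j => ?_, fun ℓ hℓ hℓk => ?_⟩
  · obtain ⟨h1, h2, -⟩ := hL _ (ε.symm j).2
    exact ⟨h1, h2⟩
  have hf : ∀ j : J, ∃ f : Vl k K A ℓ →* Vl k (L j) A ℓ,
      ∀ (c : sysG k K A ℓ) (C : ℕ → (A ≃ₐ[k] A) → (A ≃ₐ[k] A) → Aˣ), SysU (K : Set A) ℓ C →
        (∀ n σ τ, C n (rsh K σ) (rsh K τ) =
          (c : ℕ → (A ≃ₐ[K] A) → (A ≃ₐ[K] A) → Aˣ) n σ τ) →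
        f (QuotientGroup.mk c) = 1 →
          ∀ n, Tri (Ge k (Sj j : Set A)) (fun σ τ =>
            (∏ i : {i : Fin m // P j i}, tw (ψ j i) (C n) σ τ ^ e j i) ^ μ j) :=
    fun j => (hinv j j.2).2 ℓ
  choose f hf using hf
  refine pi_inj_aux (V := Vl k K A ℓ) (W := fun j : J => Vl k (L j) A ℓ) f ε fun x hfx => ?_
  obtain ⟨c, rfl⟩ := QuotientGroup.mk_surjective x
  have hfc : ∀ j : J, f j (QuotientGroup.mk c) = 1 := hfx
  obtain ⟨C, hC, hCc⟩ := sysK K hKal ℓ _ c.2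
  -- the set
  let S' : Finset A := S ∪ G ∪ Finset.univ.biUnion Sj
  have hS'K : K ≤ IntermediateField.adjoin k (S' : Set A) := by
    rw [← hGK]
    refine IntermediateField.adjoin.mono k _ _ ?_
    intro x hx
    simp only [S', Finset.coe_union]
    exact Or.inl (Or.inr hx)
  have hGeK : Ge k (S' : Set A) ≤ Ge k (K : Set A) := by
    have h1 : Ge k (K : Set A) = Ge k (G : Set A) := by rw [← hGK, Ge_adjoin]
    rw [h1]
    refine Ge_mono fun x hx => ?_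
    simp only [S', Finset.coe_union]
    exact Or.inl (Or.inr hx)
  have hGeS : Ge k (S' : Set A) ≤ Ge k (S : Set A) := by
    refine Ge_mono fun x hx => ?_
    simp only [S', Finset.coe_union]
    exact Or.inl (Or.inl hx)
  have hGeSj : ∀ j, Ge k (S' : Set A) ≤ Ge k (Sj j : Set A) := by
    intro j
    refine Ge_mono fun x hx => ?_
    simp only [S', Finset.coe_union, Finset.coe_biUnion]
    exact Or.inr (Set.mem_biUnion (Finset.mem_coe.2 (Finset.mem_univ j)) hx)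
  obtain ⟨n₀, hn₀⟩ : ∃ n₀ : ℤ, n₀ = (∑ j, if t0 j then ∑ i, (if P j i then e j i else 0) else 0) *
        ∏ j, (if t0 j then 1 else (μ j : ℤ)) := ⟨_, rfl⟩
  have hn₀0 : n₀ ≠ 0 := by
    rw [hn₀]
    refine mul_ne_zero hpos.ne' (Finset.prod_ne_zero_iff.2 fun j _ => ?_)
    split_ifs with hj
    · exact one_ne_zero
    · exact_mod_cast ((hinv j hj).1).ne'
  have hfin := fin_step K hKal ℓ hℓ hℓk p _ c.2 C hCc S' hS'K n₀ hn₀0 (fun l => by
    obtain ⟨s, hs⟩ := hrel (C l) (unC_of_sysU hC l) ψ hψ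
    refine ⟨s, ?_⟩
    rw [hn₀]
    refine comb_alg (K : Set A) S' (C l) (hC.lc l) (fun g hg => hC.inv l g hg) hGeK P ψ e _
      ((hs.mono hGeS).congr fun σ _ τ _ => ?_) t0 (fun j hj i hi => ?_) μ (fun j hj => ?_)
    · rfl
    · exact (hj i hi.1 hi.2).2 _ (hψ j i hi.1)
    · exact (hf ⟨j, hj⟩ c C hC hCc (hfc ⟨j, hj⟩) l).mono (hGeSj j))
  refine (QuotientGroup.eq_one_iff c).2 ?_
  rw [Subgroup.mem_subgroupOf]
  exact hfin

end Pool.Agent.TUQ
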