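import Pool.Agent.TUQ.G9

/-!
# The local equation at a zero or pole of `b`
-/

set_option autoImplicit false

namespace Pool.Agent.TUQ

open Polynomial Pool.Agent.TBR

universe u

section

variable {k Ω : Type u} [Field k] [Field Ω] [Algebra k Ω]

/-- `y` is `s ^ (n₁ - n₂)` times a local unit at `s = 0` with algebraic coefficients -/
def LocEq (k : Type u) {Ω : Type u} [Field k] [Field Ω] [Algebra k Ω] (c₁ c₂ : Polynomial Ω)
    (n₁ n₂ : ℕ) (y s : Ω) : Prop :=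
  (∀ n, IsAlgebraic k (c₁.coeff n)) ∧ (∀ n, IsAlgebraic k (c₂.coeff n)) ∧
    c₁.coeff 0 ≠ 0 ∧ c₂.coeff 0 ≠ 0 ∧ ((n₁ : k) ≠ (n₂ : k)) ∧
    y * s ^ n₂ * c₂.eval s = s ^ n₁ * c₁.eval s

variable {A : IntermediateField k Ω} {V : ValuationSubring Ω} {r : V →+* Ω}

/-- the value of a polynomial with algebraic coefficients at an element of positive value -/
theorem eval_small (hr : IsRes A V r) (hV : ∀ x ∈ A, x ∈ V) [IsAlgClosed A]
    (c : Polynomial Ω) (hc : ∀ n, IsAlgebraic k (c.coeff n)) (s : Ω) (hs : V.valuation s < 1) :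
    ∃ h : c.eval s ∈ V, r ⟨_, h⟩ = c.coeff 0 := by
  have halg : ∀ x : Ω, IsAlgebraic k x → x ∈ A := by
    intro x hx
    obtain ⟨p, hp0, hp⟩ := hx
    have hs : (p.map (algebraMap k A)).Splits := IsAlgClosed.splits _
    by_contra hxA
    have h1 := aeval_ne_zero A x hxA (p.map (algebraMap k A))
      (by rwa [Ne, Polynomial.map_eq_zero_iff (algebraMap k A).injective])
    rw [aeval_map_algebraMap] at h1
    exact h1 hp
  have h1 : ∀ x ∈ V, c.eval x ∈ V := by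
    intro x hx
    rw [eval_eq_sum_range]
    exact sum_mem fun i _ => mul_mem (hV _ (halg _ (hc i))) (pow_mem hx i)
  have hsV : s ∈ V := (val_le V s).mpr hs.le
  refine ⟨h1 s hsV, ?_⟩
  have h0V : c.coeff 0 ∈ V := hV _ (halg _ (hc 0))
  have h2 : r ⟨c.coeff 0, h0V⟩ = c.coeff 0 := hr.fix _ _ (halg _ (hc 0))
  conv_rhs => rw [← h2]
  rw [hr.eq_of_sub hV]
  have h3 : c.eval s = c.coeff 0 + s * (c.divX).eval s := by
    conv_lhs => rw [← c.divX_mul_X_add]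
    rw [eval_add, eval_mul, eval_X, eval_C]
    ring
  rw [h3, add_sub_cancel_left, map_mul]
  refine mul_lt_one_of_nonneg_of_lt_one_left zero_le hs ((val_le V _).mp ?_)
  rw [eval_eq_sum_range]
  refine sum_mem fun i _ => mul_mem (hV _ (halg _ ?_)) (pow_mem hsV i)
  rw [coeff_divX]
  exact hc _

/-- difference of the values of a polynomial with integral coefficients -/
theorem eval_diff (V : ValuationSubring Ω) (c : Polynomial Ω) (hc : ∀ n, c.coeff n ∈ V) (s s' : Ω)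
    (hs : s ∈ V) (hs' : s' ∈ V) : ∃ p ∈ V, c.eval s' = c.eval s + (s' - s) * p := by
  have h1 : ∀ n : ℕ, ∃ p ∈ V, s' ^ n = s ^ n + (s' - s) * p := by
    intro n
    induction n with
    | zero => exact ⟨0, zero_mem V, by ring⟩
    | succ n ih =>
      obtain ⟨p, hp, h⟩ := ih
      refine ⟨s ^ n + s' * p, add_mem (pow_mem hs n) (mul_mem hs' hp), ?_⟩
      rw [pow_succ', h, pow_succ' s n]
      ring
  choose p hp h using h1
  refine ⟨∑ i ∈ Finset.range (c.natDegree + 1), c.coeff i * p i,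
    sum_mem fun i _ => mul_mem (hc i) (hp i), ?_⟩
  rw [eval_eq_sum_range, eval_eq_sum_range, Finset.mul_sum, ← Finset.sum_add_distrib]
  refine Finset.sum_congr rfl fun i _ => ?_
  rw [h i]
  ring

/-- powers of a principal unit -/
theorem one_add_pow (V : ValuationSubring Ω) (δ : Ω) (hδ : δ ∈ V) (n : ℕ) :
    ∃ p ∈ V, (1 + δ) ^ n = 1 + n * δ + δ ^ 2 * p := by
  induction n with
  | zero => exact ⟨0, zero_mem V, by simp⟩
  | succ n ih =>
    obtain ⟨p, hp, h⟩ := ih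
    refine ⟨n + p + δ * p, add_mem (add_mem (natCast_mem V n) hp) (mul_mem hδ hp), ?_⟩
    rw [pow_succ, h, Nat.cast_succ]
    ring

/-- (6.5 b) the solutions of the local equation are separated -/
theorem LocEq.sep (hr : IsRes A V r) (hV : ∀ x ∈ A, x ∈ V) [IsAlgClosed A] {c₁ c₂ : Polynomial Ω}
    {n₁ n₂ : ℕ} {y s s' : Ω} (h : LocEq k c₁ c₂ n₁ n₂ y s) (h' : LocEq k c₁ c₂ n₁ n₂ y s')
    (hy : y ≠ 0) (hs : V.valuation s < 1) (hs0 : s ≠ 0) (hss : s' ≠ s) :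
    ¬ V.valuation (s' / s - 1) < 1 := by
  intro hδ
  obtain ⟨a1, a2, b1, b2, hn, h1⟩ := h
  obtain ⟨-, -, -, -, -, h2⟩ := h'
  have halg : ∀ x : Ω, IsAlgebraic k x → x ∈ A := by
    intro x hx
    obtain ⟨p, hp0, hp⟩ := hx
    by_contra hxA
    have h1 := aeval_ne_zero A x hxA (p.map (algebraMap k A))
      (by rwa [Ne, Polynomial.map_eq_zero_iff (algebraMap k A).injective])
    rw [aeval_map_algebraMap] at h1
    exact h1 hp
  set δ := s' / s - 1 with hδd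
  have hs' : s' = s * (1 + δ) := by rw [hδd]; field_simp; ring
  have hδ0 : δ ≠ 0 := by
    intro h0
    rw [h0, add_zero, mul_one] at hs'
    exact hss hs'
  have hδV : δ ∈ V := (val_le V _).mpr hδ.le
  have hsV : s ∈ V := (val_le V _).mpr hs.le
  have hs'V : s' ∈ V := by
    rw [hs']
    exact mul_mem hsV (add_mem (one_mem V) hδV)
  obtain ⟨p, hp, e1⟩ := eval_diff V c₁ (fun n => hV _ (halg _ (a1 n))) s s' hsV hs'V
  obtain ⟨q, hq, e2⟩ := eval_diff V c₂ (fun n => hV _ (halg _ (a2 n))) s s' hsV hs'V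
  obtain ⟨P, hP, e3⟩ := one_add_pow V δ hδV n₁
  obtain ⟨Q, hQ, e4⟩ := one_add_pow V δ hδV n₂
  obtain ⟨m1, r1⟩ := eval_small hr hV c₁ a1 s hs
  obtain ⟨m2, r2⟩ := eval_small hr hV c₂ a2 s hs
  set x₁ := c₁.eval s with hx₁
  set x₂ := c₂.eval s with hx₂
  have v1 : V.valuation x₁ = 1 := by
    refine le_antisymm ((val_le V _).mp m1) (not_lt.mp fun hlt => b1 ?_)
    rw [← r1]
    exact (hr.zero_iff hV ⟨_, m1⟩).mpr hlt
  have v2 : V.valuation x₂ = 1 := by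
    refine le_antisymm ((val_le V _).mp m2) (not_lt.mp fun hlt => b2 ?_)
    rw [← r2]
    exact (hr.zero_iff hV ⟨_, m2⟩).mpr hlt
  have hd : s' - s = s * δ := by rw [hs']; ring
  rw [hd] at e1 e2
  -- the equation
  have h3 : (1 + n₁ * δ + δ ^ 2 * P) * (x₁ + s * δ * p) * x₂ =
      (1 + n₂ * δ + δ ^ 2 * Q) * (x₂ + s * δ * q) * x₁ := by
    rw [← e3, ← e4, ← e1, ← e2]
    have h4 : s' ^ n₁ = s ^ n₁ * (1 + δ) ^ n₁ := by rw [hs', mul_pow]
    have h5 : s' ^ n₂ = s ^ n₂ * (1 + δ) ^ n₂ := by rw [hs', mul_pow]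
    rw [h4, h5] at h2
    have hsn1 : s ^ n₁ ≠ 0 := pow_ne_zero _ hs0
    have hsn2 : s ^ n₂ ≠ 0 := pow_ne_zero _ hs0
    have h6 : (y * s ^ n₂ * s ^ n₁) * ((1 + δ) ^ n₁ * eval s' c₁ * x₂) =
        (y * s ^ n₂ * s ^ n₁) * ((1 + δ) ^ n₂ * eval s' c₂ * x₁) := by
      linear_combination (s ^ n₁ * (1 + δ) ^ n₁ * eval s' c₁) * h1 -
        (s ^ n₁ * x₁) * h2
    exact mul_left_cancel₀ (mul_ne_zero (mul_ne_zero hy hsn2) hsn1) h6
  have h7 : x₁ * x₂ * ((n₁ : Ω) - n₂) = -(δ * (P * (x₁ + s * δ * p) * x₂ +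
      n₁ * s * p * x₂ - Q * (x₂ + s * δ * q) * x₁ - n₂ * s * q * x₁) +
      s * (p * x₂ - q * x₁)) := by
    apply mul_left_cancel₀ hδ0
    linear_combination h3
  have hnv : V.valuation ((n₁ : Ω) - n₂) = 1 := by
    have h8 : (n₁ : Ω) - n₂ = algebraMap k Ω ((n₁ : k) - n₂) := by
      rw [map_sub, map_natCast, map_natCast]
    rw [h8]
    exact Pool.Agent.TBR.V.val_A A V hV ⟨_, A.algebraMap_mem _⟩ (by
      intro h
      have h5 : algebraMap k Ω ((n₁ : k) - n₂) = 0 := congrArg Subtype.val h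
      exact hn (sub_eq_zero.mp ((_root_.map_eq_zero _).mp h5)))
  have h9 : V.valuation (x₁ * x₂ * ((n₁ : Ω) - n₂)) = 1 := by
    rw [map_mul, map_mul, v1, v2, hnv, one_mul, one_mul]
  rw [h7, Valuation.map_neg] at h9
  have h10 : V.valuation (δ * (P * (x₁ + s * δ * p) * x₂ +
      n₁ * s * p * x₂ - Q * (x₂ + s * δ * q) * x₁ - n₂ * s * q * x₁) +
      s * (p * x₂ - q * x₁)) < 1 := by
    refine Valuation.map_add_lt _ ?_ ?_
    · rw [map_mul]
      refine mul_lt_one_of_nonneg_of_lt_one_left zero_le hδ ((val_le V _).mp ?_)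
      have hn1 : (n₁ : Ω) ∈ V := natCast_mem V n₁
      have hn2 : (n₂ : Ω) ∈ V := natCast_mem V n₂
      exact sub_mem (sub_mem (add_mem (mul_mem (mul_mem hP (add_mem m1 (mul_mem (mul_mem hsV hδV)
        hp))) m2) (mul_mem (mul_mem (mul_mem hn1 hsV) hp) m2)) (mul_mem (mul_mem hQ (add_mem m2
        (mul_mem (mul_mem hsV hδV) hq))) m1)) (mul_mem (mul_mem (mul_mem hn2 hsV) hq) m1)
    · rw [map_mul]
      exact mul_lt_one_of_nonneg_of_lt_one_left zero_le hs ((val_le V _).mp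
        (sub_mem (mul_mem hp m2) (mul_mem hq m1)))
  rw [h9] at h10
  exact lt_irrefl _ h10

/-- the relation between the residues -/
theorem LocEq.rel (hr : IsRes A V r) (hV : ∀ x ∈ A, x ∈ V) [IsAlgClosed A] {c₁ c₂ : Polynomial Ω}
    {n₁ n₂ : ℕ} {s U : Ω} {N : ℕ} (h : LocEq k c₁ c₂ n₁ n₂ (U ^ N) s)
    (hs : V.valuation s < 1) (hs0 : s ≠ 0) (H : IntermediateField k Ω) (ϖw ϖ₂ : Ω)
    (hϖw : ϖw ∈ H) (hϖw0 : ϖw ≠ 0) (hϖ₂ : ϖ₂ ∈ H) (hϖ₂0 : ϖ₂ ≠ 0)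
    (hu : U * ϖw ∈ V) (hu1 : V.valuation (U * ϖw) = 1)
    (h2 : s / ϖ₂ ∈ V) (h21 : V.valuation (s / ϖ₂) = 1) :
    ∃ c ∈ kap hr hV H, c ≠ 0 ∧ (r ⟨_, hu⟩) ^ N * (r ⟨_, h2⟩) ^ n₂ * c₂.coeff 0 =
      (r ⟨_, h2⟩) ^ n₁ * c₁.coeff 0 * c := by
  obtain ⟨a1, a2, b1, b2, hn, h1⟩ := h
  obtain ⟨m1, r1⟩ := eval_small hr hV c₁ a1 s hs
  obtain ⟨m2, r2⟩ := eval_small hr hV c₂ a2 s hs
  have v1 : V.valuation (c₁.eval s) = 1 := by
    refine le_antisymm ((val_le V _).mp m1) (not_lt.mp fun hlt => b1 ?_)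
    rw [← r1]
    exact (hr.zero_iff hV ⟨_, m1⟩).mpr hlt
  have v2 : V.valuation (c₂.eval s) = 1 := by
    refine le_antisymm ((val_le V _).mp m2) (not_lt.mp fun hlt => b2 ?_)
    rw [← r2]
    exact (hr.zero_iff hV ⟨_, m2⟩).mpr hlt
  set c := ϖ₂ ^ n₁ * ϖw ^ N / ϖ₂ ^ n₂ with hc
  have h3 : (U * ϖw) ^ N * (s / ϖ₂) ^ n₂ * c₂.eval s = (s / ϖ₂) ^ n₁ * c₁.eval s * c := by
    rw [hc, mul_pow, div_pow, div_pow]
    have e2 : ϖ₂ ^ n₂ ≠ 0 := pow_ne_zero _ hϖ₂0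
    have e1 : ϖ₂ ^ n₁ ≠ 0 := pow_ne_zero _ hϖ₂0
    field_simp
    linear_combination h1
  have hcv : V.valuation c = 1 := by
    have e5 : V.valuation ((U * ϖw) ^ N * (s / ϖ₂) ^ n₂ * c₂.eval s) = 1 := by
      rw [map_mul, map_mul, map_pow, map_pow, hu1, h21, v2, one_pow, one_pow, one_mul, one_mul]
    have e6 : V.valuation ((s / ϖ₂) ^ n₁ * c₁.eval s * c) = V.valuation c := by
      rw [map_mul, map_mul, map_pow, h21, v1, one_pow, one_mul, one_mul]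
    rw [← e6, ← h3, e5]
  have hcV : c ∈ V := (val_le V _).mpr hcv.le
  have hcH : c ∈ H := div_mem (mul_mem (pow_mem hϖ₂ _) (pow_mem hϖw _)) (pow_mem hϖ₂ _)
  refine ⟨r ⟨c, hcV⟩, res_mem_kap hr hV H hcV hcH, ?_, ?_⟩
  · intro h0
    have := (hr.zero_iff hV ⟨c, hcV⟩).mp h0
    rw [hcv] at this
    exact lt_irrefl _ this
  · rw [← r1, ← r2, ← map_pow, ← map_pow, ← map_pow, ← map_mul, ← map_mul, ← map_mul, ← map_mul]
    congr 1
    exact Subtype.ext h3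

end

end Pool.Agent.TUQ
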