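import Pool.Agent.TUQ.G9
import Pool.Agent.TUQ.Defs
import Pool.Agent.T1B.Dominated

/-!
# Embeddings of `K` in an algebraically closed field and the residue field of `H`
-/

set_option autoImplicit false

namespace Pool.Agent.TUQ

open Polynomial Pool.Agent.TBR Cardinal

universe u

section

variable {k M : Type u} [Field k] [Field M] [Algebra k M]

/-- an element which is algebraic over an algebraically closed subfield is in it -/
theorem g_mem_of_alg (E : IntermediateField k M) [IsAlgClosed E] (x : M) (hx : IsAlgebraic E x) :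
    x ∈ E := by
  by_contra hxE
  obtain ⟨p, hp0, hp⟩ := hx
  exact aeval_ne_zero E x hxE p hp0 hp

theorem g_end_surj [IsAlgClosed M] (htr : Algebra.trdeg k M < ℵ₀) (φ : M →ₐ[k] M) :
    Function.Surjective φ := by
  have h1 : Algebra.trdeg k φ.fieldRange = Algebra.trdeg k M :=
    (AlgEquiv.ofInjectiveField φ).symm.trdeg_eq
  have h2 := trdeg_add_eq k φ.fieldRange (A := M)
  rw [h1] at h2
  have h3 : Algebra.trdeg φ.fieldRange M = 0 := by
    refine Cardinal.eq_of_add_eq_add_left (a := Algebra.trdeg k M) ?_ htr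
    rw [h2, add_zero]
  have h4 : Algebra.IsAlgebraic φ.fieldRange M := trdeg_eq_zero_iff.mp h3
  have h5 : IsAlgClosed φ.fieldRange :=
    IsAlgClosed.of_ringEquiv M _ (AlgEquiv.ofInjectiveField φ).toRingEquiv
  intro x
  exact g_mem_of_alg φ.fieldRange x (h4.isAlgebraic x)

/-- an embedding extends to an automorphism -/
theorem g_exists_aut [IsAlgClosed M] (htr : Algebra.trdeg k M < ℵ₀) (K : IntermediateField k M)
    (hK : ∀ x : M, IsAlgebraic K x) (e : K →ₐ[k] M) : ∃ φ : M ≃ₐ[k] M, ∀ x : K, φ x = e x := by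
  obtain ⟨φ, hφ⟩ := IntermediateField.exists_algHom_of_splits' (F := k) (E := M) (K := M) (L := K) e
    (fun s => ⟨(hK s).isIntegral, IsAlgClosed.splits _⟩)
  refine ⟨AlgEquiv.ofBijective φ ⟨φ.injective, g_end_surj htr φ⟩, fun x => ?_⟩
  rw [← hφ]
  rfl

theorem g_nu_emb [IsAlgClosed M] (htr : Algebra.trdeg k M < ℵ₀) (K : IntermediateField k M)
    (hK : ∀ x : M, IsAlgebraic K x) (hNU : NU K) (e : K →ₐ[k] M) (κ : IntermediateField k M)
    (θ : M) (hκ : IsAlgClosed κ) (hκ1 : Algebra.trdeg k κ ≤ 1) :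
    ¬ ∀ x, e x ∈ κ ⊔ IntermediateField.adjoin k {θ} := by
  intro hcon
  obtain ⟨φ, hφ⟩ := g_exists_aut htr K hK e
  have e1 : κ ≃ₐ[k] κ.map (φ.symm : M →ₐ[k] M) := κ.equivMap (φ.symm : M →ₐ[k] M)
  refine hNU (κ.map (φ.symm : M →ₐ[k] M)) (φ.symm θ) (IsAlgClosed.of_ringEquiv κ _ e1.toRingEquiv)
    (by rw [← e1.trdeg_eq]; exact hκ1) ?_
  intro x hx
  have h1 := hcon ⟨x, hx⟩
  rw [← hφ] at h1
  have h2 : φ.symm (φ x) ∈ (κ ⊔ IntermediateField.adjoin k {θ}).map (φ.symm : M →ₐ[k] M) :=
    ⟨φ x, h1, rfl⟩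
  rw [φ.symm_apply_apply, IntermediateField.map_sup, IntermediateField.adjoin_map,
    Set.image_singleton] at h2
  exact h2

/-- everything is algebraic over a field over which the image of an embedding is algebraic -/
theorem g_alg_of_emb [IsAlgClosed M] (htr : Algebra.trdeg k M < ℵ₀) (K : IntermediateField k M)
    (hK : ∀ x : M, IsAlgebraic K x) (e : K →ₐ[k] M) (L : IntermediateField k M)
    (h : ∀ x, IsAlgebraic L (e x)) (y : M) : IsAlgebraic L y := by
  obtain ⟨φ, hφ⟩ := g_exists_aut htr K hK e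
  obtain ⟨p, hp0, hp⟩ := hK (φ.symm y)
  let R := algebraicClosure L M
  let f : K →+* R :=
    { toFun := fun x => ⟨e x, mem_algebraicClosure_iff.2 (h x)⟩
      map_one' := Subtype.ext (map_one e)
      map_mul' := fun x y => Subtype.ext (map_mul e x y)
      map_zero' := Subtype.ext (map_zero e)
      map_add' := fun x y => Subtype.ext (map_add e x y) }
  have h1 : IsAlgebraic R y := by
    refine ⟨p.map f, (Polynomial.map_ne_zero_iff f.injective).2 hp0, ?_⟩
    have h2 := congrArg (φ : M →+* M) hp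
    rw [map_zero, aeval_def, hom_eval₂] at h2
    rw [aeval_def, eval₂_map]
    have h3 : φ (φ.symm y) = y := φ.apply_symm_apply y
    rw [← h2]
    have h4 : ((φ : M →+* M).comp (algebraMap K M)) = (algebraMap R M).comp f := by
      ext x
      exact hφ x
    have h5 : eval₂ ((φ : M →+* M).comp (algebraMap K M)) (φ (φ.symm y)) p =
      eval₂ ((algebraMap R M).comp f) y p := by rw [h4, h3]
    exact h5.symm
  have h6 : Algebra.IsAlgebraic L R := algebraicClosure.isAlgebraic L M
  exact h1.restrictScalars L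

end

section

variable {k Ω : Type u} [Field k] [Field Ω] [Algebra k Ω]
variable {A : IntermediateField k Ω} {V : ValuationSubring Ω} {r : V →+* Ω}

/-- the residue field of `H`, as a subfield of `A` -/
noncomputable def kA (hr : IsRes A V r) (hV : ∀ x ∈ A, x ∈ V) (H : IntermediateField k Ω) :
    IntermediateField k A := IntermediateField.restrict (kap_le hr hV H)

theorem mem_kA (hr : IsRes A V r) (hV : ∀ x ∈ A, x ∈ V) (H : IntermediateField k Ω) (x : A) :
    x ∈ kA hr hV H ↔ (x : Ω) ∈ kap hr hV H := IntermediateField.mem_restrict (kap_le hr hV H) x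

theorem kA_closed (hr : IsRes A V r) (hV : ∀ x ∈ A, x ∈ V) (H : IntermediateField k Ω)
    [IsAlgClosed H] : IsAlgClosed (kA hr hV H) := by
  have := kap_closed hr hV H
  exact IsAlgClosed.of_ringEquiv (kap hr hV H) _
    (IntermediateField.restrictAlgEquiv (kap_le hr hV H)).toRingEquiv

theorem kA_trdeg (hr : IsRes A V r) (hV : ∀ x ∈ A, x ∈ V) (H : IntermediateField k Ω)
    (hH : ∃ β ∈ H, β ∉ V) (h2 : Algebra.trdeg k H = 2) :
    Algebra.trdeg k (kA hr hV H) ≤ 1 := by
  have h1 := trdeg_kap hr hV H hH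
  rw [h2] at h1
  have h3 : Algebra.trdeg k (kA hr hV H) = Algebra.trdeg k (kap hr hV H) :=
    (IntermediateField.restrictAlgEquiv (kap_le hr hV H)).trdeg_eq.symm
  rw [h3]
  have h4 : Algebra.trdeg k (kap hr hV H) + 1 ≤ 1 + 1 := by
    rw [one_add_one_eq_two]
    exact h1
  exact (Cardinal.add_le_add_iff_of_lt_aleph0 Cardinal.one_lt_aleph0).mp h4

end

end Pool.Agent.TUQ
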