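import Pool.Agent.TUQ.G10
import Pool.Agent.TUQ.G11
import Pool.Agent.TUQ.F1

/-!
# Local equations of `b`, permutations, stable subfields
-/

set_option autoImplicit false

namespace Pool.Agent.TUQ

open Polynomial Pool.Agent.TBR

universe u

/-- a permutation from an equality of multisets on every class -/
theorem perm_of_classes {I X C : Type*} [Fintype I] [DecidableEq C] (cls : I → C) (F G : I → X)
    (h : ∀ c, ((Finset.univ.filter fun j => cls j = c).val.map F) =
      ((Finset.univ.filter fun j => cls j = c).val.map G)) :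
    ∃ π : Equiv.Perm I, ∀ i, cls (π i) = cls i ∧ G (π i) = F i := by
  classical
  obtain ⟨π, hπ⟩ := perm_of_multiset (fun i => (cls i, F i)) (fun i => (cls i, G i)) (by
    rw [Multiset.ext]
    rintro ⟨c, x⟩
    have h1 := congrArg (Multiset.count x) (h c)
    rw [Multiset.count_map, Multiset.count_map] at h1
    rw [Multiset.count_map, Multiset.count_map]
    have h2 : ∀ F' : I → X, Multiset.filter (fun a => (c, x) = (cls a, F' a)) Finset.univ.val =
        Multiset.filter (fun a => x = F' a)
          (Finset.univ.filter fun j => cls j = c).val := by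
      intro F'
      rw [Finset.filter_val, Multiset.filter_filter]
      refine Multiset.filter_congr fun a _ => ?_
      rw [Prod.mk.injEq]
      constructor
      · rintro ⟨rfl, rfl⟩
        exact ⟨rfl, rfl⟩
      · rintro ⟨rfl, rfl⟩
        exact ⟨rfl, rfl⟩
    rw [h2, h2]
    exact h1)
  exact ⟨π, fun i => ⟨congrArg Prod.fst (hπ i), congrArg Prod.snd (hπ i)⟩⟩

/-- the degree of a polynomial with derivative zero is zero in the field -/
theorem deg_of_derivative {k : Type*} [Field k] (B : k[X]) (h : derivative B = 0) :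
    (B.natDegree : k) = 0 := by
  rcases Nat.eq_zero_or_pos B.natDegree with h0 | h0
  · rw [h0, Nat.cast_zero]
  · have h1 := congrArg (fun q => q.coeff (B.natDegree - 1)) h
    simp only [coeff_derivative, coeff_zero] at h1
    rw [Nat.sub_add_cancel h0] at h1
    rcases mul_eq_zero.1 h1 with h2 | h2
    · exfalso
      rw [coeff_natDegree, leadingCoeff_eq_zero] at h2
      rw [h2, natDegree_zero] at h0
      exact absurd h0 (lt_irrefl _)
    · rw [← h2, ← Nat.cast_succ]
      congr 1
      omega

theorem natAbs_cast {k : Type*} [Field k] (a b : ℕ) (h : (a : k) = b) :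
    ((((a : ℤ) - b).natAbs : ℕ) : k) = 0 := by
  rcases le_total a b with h1 | h1
  · have h2 : ((a : ℤ) - b).natAbs = b - a := by omega
    rw [h2, Nat.cast_sub h1, h, sub_self]
  · have h2 : ((a : ℤ) - b).natAbs = a - b := by omega
    rw [h2, Nat.cast_sub h1, h, sub_self]

/-- the Wronskian is not zero -/
theorem Bc.wr_ne {k M : Type u} [Field k] [Field M] [Algebra k M] {N : ℕ} {B₁ B₂ : k[X]}
    (hb : Bc k M N B₁ B₂) : derivative B₁ * B₂ - B₁ * derivative B₂ ≠ 0 := by
  intro hW
  rw [sub_eq_zero] at hW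
  have h1 : B₁ ∣ derivative B₁ := by
    refine hb.cop.dvd_of_dvd_mul_right ?_
    rw [hW]
    exact dvd_mul_right _ _
  have h2 : B₂ ∣ derivative B₂ := by
    refine hb.cop.symm.dvd_of_dvd_mul_left ?_
    rw [← hW]
    exact dvd_mul_left _ _
  have h3 : ∀ B : k[X], B ∣ derivative B → derivative B = 0 := by
    intro B hB
    by_contra hne
    have h4 := natDegree_le_of_dvd hB hne
    rcases Nat.eq_zero_or_pos B.natDegree with h5 | h5
    · rw [eq_C_of_natDegree_eq_zero h5, derivative_C] at hne
      exact hne rfl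
    · have h6 := natDegree_derivative_lt (p := B) h5.ne'
      omega
  have h4 := deg_of_derivative _ (h3 _ h1)
  have h5 := deg_of_derivative _ (h3 _ h2)
  have h6 : ((B₁.natDegree : ℤ) - B₂.natDegree).natAbs ∈ bds k M B₁ B₂ := by
    unfold bds
    exact Finset.mem_insert_self _ _
  apply hb.tame _ h6
  exact natAbs_cast _ _ (by rw [h4, h5])

section

variable {k Ω : Type u} [Field k] [Field Ω] [Algebra k Ω]

theorem alg_coeff_taylor {β : Ω} (hβ : IsAlgebraic k β) (B : k[X]) (n : ℕ) :
    IsAlgebraic k (((B.map (algebraMap k Ω)).comp (X + C β)).coeff n) := by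
  have h1 : ∃ Q : Polynomial (algebraicClosure k Ω),
      Q.map (algebraMap (algebraicClosure k Ω) Ω) = (B.map (algebraMap k Ω)).comp (X + C β) := by
    refine ⟨(B.map (algebraMap k (algebraicClosure k Ω))).comp
      (X + C ⟨β, (mem_algebraicClosure_iff).2 hβ⟩), ?_⟩
    rw [Polynomial.map_comp, Polynomial.map_map, ← IsScalarTower.algebraMap_eq, Polynomial.map_add,
      Polynomial.map_X, Polynomial.map_C]
    rfl
  obtain ⟨Q, hQ⟩ := h1
  rw [← hQ, coeff_map]
  exact mem_algebraicClosure_iff.1 (Q.coeff n).2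

variable [IsAlgClosed Ω]
variable {A : IntermediateField k Ω} [IsAlgClosed A] {V : ValuationSubring Ω} {r : V →+* Ω}
variable {N : ℕ} {B₁ B₂ : k[X]}

theorem eval_taylor (B : k[X]) (β x : Ω) :
    ((B.map (algebraMap k Ω)).comp (X + C β)).eval (x - β) = aeval x B := by
  rw [eval_comp, eval_add, eval_X, eval_C, sub_add_cancel, eval_map_algebraMap]

theorem Bc.alg_root (hb : Bc k A N B₁ B₂) {β : Ω} (hβ : aeval β (B₁ * B₂) = 0) :
    IsAlgebraic k β := by
  refine ⟨B₁ * B₂, ?_, hβ⟩
  intro h0
  apply hb.wr_ne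
  rcases mul_eq_zero.1 h0 with h | h
  · rw [h, derivative_zero, zero_mul, zero_mul, sub_zero]
  · rw [h, derivative_zero, mul_zero, mul_zero, sub_zero]

theorem factor_root (B : k[X]) (hB : B ≠ 0) (β : A) :
    ∃ c : Polynomial Ω, (B.map (algebraMap k Ω)).comp (X + C (β : Ω)) =
      X ^ ((B.map (algebraMap k A)).rootMultiplicity β) * c ∧ c.coeff 0 ≠ 0 := by
  have hB' : B.map (algebraMap k A) ≠ 0 := (Polynomial.map_ne_zero_iff (RingHom.injective _)).2 hB
  obtain ⟨q, hq, hq0⟩ := exists_eq_pow_rootMultiplicity_mul_and_not_dvd _ hB' β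
  refine ⟨(q.map (algebraMap A Ω)).comp (X + C (β : Ω)), ?_, ?_⟩
  · have h1 : B.map (algebraMap k Ω) = (B.map (algebraMap k A)).map (algebraMap A Ω) := by
      rw [Polynomial.map_map, ← IsScalarTower.algebraMap_eq]
    have h2 : (algebraMap A Ω) β = (β : Ω) := rfl
    rw [h1]
    conv_lhs => rw [hq]
    rw [Polynomial.map_mul, Polynomial.map_pow, Polynomial.map_sub, Polynomial.map_X,
      Polynomial.map_C, mul_comp, pow_comp, sub_comp, X_comp, C_comp, h2, add_sub_cancel_right]
  · rw [coeff_zero_eq_eval_zero, eval_comp, eval_add, eval_X, eval_C, zero_add]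
    have h2 : (β : Ω) = algebraMap A Ω β := rfl
    rw [h2, eval_map_algebraMap, aeval_algebraMap_apply]
    intro h3
    apply hq0
    rw [dvd_iff_isRoot]
    exact (algebraMap A Ω).injective (by rw [map_zero]; simpa using h3)

theorem Bc.root_mem (hb : Bc k A N B₁ B₂) (hB : B₁ * B₂ ≠ 0) (β : A)
    (hβ : aeval (β : Ω) (B₁ * B₂) = 0) :
    ((((B₁ * B₂).map (algebraMap k A)).rootMultiplicity β : ℕ) : k) ≠ 0 := by
  apply hb.tame
  unfold bds
  simp only [Finset.mem_insert, Finset.mem_image, Multiset.mem_toFinset]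
  right
  refine ⟨β, ?_, rfl⟩
  rw [mem_roots ((Polynomial.map_ne_zero_iff (RingHom.injective _)).2 hB),
    IsRoot.def, eval_map_algebraMap]
  apply (algebraMap A Ω).injective
  rw [map_zero, ← aeval_algebraMap_apply]
  exact hβ

/-- the local equation at a finite zero or pole `β` of `b` -/
theorem exists_locEq_fin (hb : Bc k A N B₁ B₂) {β : Ω} (hβA : β ∈ A)
    (hβ : aeval β (B₁ * B₂) = 0) :
    ∃ (c₁ c₂ : Polynomial Ω) (n₁ n₂ : ℕ), ∀ y x : Ω, y * aeval x B₂ = aeval x B₁ →
      LocEq k c₁ c₂ n₁ n₂ y (x - β) := by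
  classical
  have halg := hb.alg_root hβ
  have hB : B₁ * B₂ ≠ 0 := by
    intro h0
    apply hb.wr_ne
    rcases mul_eq_zero.1 h0 with h | h
    · rw [h, derivative_zero, zero_mul, zero_mul, sub_zero]
    · rw [h, derivative_zero, mul_zero, mul_zero, sub_zero]
  have hB₁ := left_ne_zero_of_mul hB
  have hB₂ := right_ne_zero_of_mul hB
  have hm := hb.root_mem hB ⟨β, hβA⟩ hβ
  rw [Polynomial.map_mul, rootMultiplicity_mul (by
    rw [← Polynomial.map_mul]
    exact (Polynomial.map_ne_zero_iff (RingHom.injective _)).2 hB)] at hm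
  obtain ⟨c₁, hc₁, hc₁0⟩ := factor_root B₁ hB₁ (⟨β, hβA⟩ : A)
  obtain ⟨c₂, hc₂, hc₂0⟩ := factor_root B₂ hB₂ (⟨β, hβA⟩ : A)
  refine ⟨c₁, c₂, (B₁.map (algebraMap k A)).rootMultiplicity ⟨β, hβA⟩,
    (B₂.map (algebraMap k A)).rootMultiplicity ⟨β, hβA⟩, fun y x hyx =>
      ⟨fun n => ?_, fun n => ?_, hc₁0, hc₂0, ?_, ?_⟩⟩
  · have h1 := alg_coeff_taylor halg B₁ (n + (B₁.map (algebraMap k A)).rootMultiplicity ⟨β, hβA⟩)
    rw [hc₁, coeff_X_pow_mul] at h1
    exact h1
  · have h1 := alg_coeff_taylor halg B₂ (n + (B₂.map (algebraMap k A)).rootMultiplicity ⟨β, hβA⟩)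
    rw [hc₂, coeff_X_pow_mul] at h1
    exact h1
  · -- one of the multiplicities is zero
    have h2 : (B₁.map (algebraMap k A)).rootMultiplicity ⟨β, hβA⟩ = 0 ∨
        (B₂.map (algebraMap k A)).rootMultiplicity ⟨β, hβA⟩ = 0 := by
      by_contra hcon
      push Not at hcon
      obtain ⟨u, v, huv⟩ := hb.cop
      have h3 := (rootMultiplicity_pos ((Polynomial.map_ne_zero_iff (RingHom.injective
        (algebraMap k A))).2 hB₁)).1 (Nat.pos_of_ne_zero hcon.1)
      have h4 := (rootMultiplicity_pos ((Polynomial.map_ne_zero_iff (RingHom.injective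
        (algebraMap k A))).2 hB₂)).1 (Nat.pos_of_ne_zero hcon.2)
      rw [IsRoot.def, eval_map_algebraMap] at h3 h4
      have h5 := congrArg (aeval (⟨β, hβA⟩ : A)) huv
      rw [map_add, map_mul, map_mul, h3, h4, mul_zero, mul_zero, add_zero, map_one] at h5
      exact zero_ne_one h5
    rcases h2 with h2 | h2
    · rw [h2, zero_add] at hm
      rw [h2, Nat.cast_zero]
      exact hm.symm
    · rw [h2, add_zero] at hm
      rw [h2, Nat.cast_zero]
      exact hm
  · have h1 := congrArg (eval (x - β)) hc₁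
    have h2 := congrArg (eval (x - β)) hc₂
    rw [eval_taylor, eval_mul, eval_pow, eval_X] at h1 h2
    rw [mul_assoc, ← h2, ← h1]
    exact hyx

theorem alg_coeff_reverse (B : k[X]) (n : ℕ) :
    IsAlgebraic k (((B.map (algebraMap k Ω)).reverse).coeff n) := by
  have h1 : (B.map (algebraMap k Ω)).reverse = (B.reverse).map (algebraMap k Ω) := by
    rw [reverse, reverse, natDegree_map, reflect_map]
  rw [h1, coeff_map]
  exact isAlgebraic_algebraMap _

theorem eval_reverse' (B : k[X]) {x : Ω} (hx : x ≠ 0) :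
    ((B.map (algebraMap k Ω)).reverse).eval x⁻¹ = aeval x B * x⁻¹ ^ B.natDegree := by
  have := invertibleOfNonzero hx
  have h1 := eval₂_reverse_mul_pow (RingHom.id Ω) x (B.map (algebraMap k Ω))
  rw [invOf_eq_inv, natDegree_map] at h1
  rw [eval₂_id, eval₂_id] at h1
  rw [← eval_map_algebraMap, ← h1, mul_assoc, ← mul_pow, mul_inv_cancel₀ hx, one_pow, mul_one]

/-- the local equation at infinity -/
theorem exists_locEq_inf (hb : Bc k A N B₁ B₂) :
    ∃ (c₁ c₂ : Polynomial Ω) (n₁ n₂ : ℕ), ∀ y x : Ω, x ≠ 0 → y * aeval x B₂ = aeval x B₁ →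
      LocEq k c₁ c₂ n₁ n₂ y x⁻¹ := by
  have hB : B₁ * B₂ ≠ 0 := by
    intro h0
    apply hb.wr_ne
    rcases mul_eq_zero.1 h0 with h | h
    · rw [h, derivative_zero, zero_mul, zero_mul, sub_zero]
    · rw [h, derivative_zero, mul_zero, mul_zero, sub_zero]
  have hB₁ := left_ne_zero_of_mul hB
  have hB₂ := right_ne_zero_of_mul hB
  refine ⟨(B₁.map (algebraMap k Ω)).reverse, (B₂.map (algebraMap k Ω)).reverse, B₂.natDegree,
    B₁.natDegree, fun y x hx hyx => ⟨alg_coeff_reverse B₁, alg_coeff_reverse B₂, ?_, ?_, ?_, ?_⟩⟩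
  · rw [coeff_zero_reverse, Ne, leadingCoeff_eq_zero]
    exact (Polynomial.map_ne_zero_iff (RingHom.injective _)).2 hB₁
  · rw [coeff_zero_reverse, Ne, leadingCoeff_eq_zero]
    exact (Polynomial.map_ne_zero_iff (RingHom.injective _)).2 hB₂
  · intro h
    have h6 : ((B₁.natDegree : ℤ) - B₂.natDegree).natAbs ∈ bds k A B₁ B₂ := by
      unfold bds
      exact Finset.mem_insert_self _ _
    apply hb.tame _ h6
    exact natAbs_cast _ _ h.symm
  · rw [eval_reverse' B₁ hx, eval_reverse' B₂ hx, ← hyx]
    ring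

/-- `b x = b a`, `x ≠ a`, and `x` and `a` have the same residue -/
theorem sep_a (hP : Plc A V r) (hb : Bc k A N B₁ B₂) {x a : Ω} (hx : x ∈ V) (ha : a ∈ V)
    (hxa : r ⟨x, hx⟩ = r ⟨a, ha⟩) (hne : x ≠ a)
    (h : aeval x B₁ * aeval a B₂ = aeval x B₂ * aeval a B₁) : IsAlgebraic k (r ⟨a, ha⟩) := by
  have hk : ∀ c : k, algebraMap k Ω c ∈ V := fun c => hP.mem _ (A.algebraMap_mem c)
  let g : k →+* V :=
    { toFun := fun c => ⟨algebraMap k Ω c, hk c⟩
      map_one' := Subtype.ext (map_one _)
      map_mul' := fun x y => Subtype.ext (map_mul _ x y)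
      map_zero' := Subtype.ext (map_zero _)
      map_add' := fun x y => Subtype.ext (map_add _ x y) }
  have hev : ∀ (B : k[X]) (y : V), ((B.map g).eval y : V) = (aeval (y : Ω) B : Ω) := by
    intro B y
    have h2 := hom_eval₂ B g (algebraMap V Ω) y
    rw [eval_map, aeval_def]
    exact h2
  -- the polynomial over `V`
  let y : V := ⟨x, hx⟩
  let b : V := ⟨a, ha⟩
  let G : Polynomial V := C ((B₂.map g).eval b) * B₁.map g - C ((B₁.map g).eval b) * B₂.map g
  have hGb : G.eval b = 0 := by
    simp only [G, eval_sub, eval_mul, eval_C]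
    ring
  have hGy : G.eval y = 0 := by
    simp only [G, eval_sub, eval_mul, eval_C]
    apply Subtype.ext
    have e1 := hev B₂ b
    have e2 := hev B₁ b
    have e3 := hev B₁ y
    have e4 := hev B₂ y
    push_cast
    rw [e1, e2, e3, e4]
    show aeval a B₂ * aeval x B₁ - aeval a B₁ * aeval x B₂ = 0
    rw [sub_eq_zero, mul_comm, h, mul_comm]
  obtain ⟨Q, hQ⟩ := dvd_iff_isRoot.2 (show G.IsRoot b from hGb)
  have hQy : Q.eval y = 0 := by
    rw [hQ, eval_mul, eval_sub, eval_X, eval_C] at hGy
    rcases mul_eq_zero.1 hGy with h1 | h1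
    · exfalso
      apply hne
      have := congrArg Subtype.val (sub_eq_zero.1 h1)
      exact this
    · exact h1
  have hd : (derivative G).eval b = Q.eval b := by
    rw [hQ, derivative_mul, eval_add, eval_mul, eval_mul, eval_sub, eval_X, eval_C, sub_self,
      zero_mul, add_zero, derivative_sub, derivative_X, derivative_C, sub_zero, eval_one, one_mul]
  have hr1 : r (Q.eval b) = r (Q.eval y) := by
    rw [← eval₂_hom, ← eval₂_hom]
    congr 1
    exact hxa.symm
  rw [hQy, map_zero, ← hd] at hr1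
  have hW : r ((derivative G).eval b) =
      aeval (r b) (derivative B₁ * B₂ - B₁ * derivative B₂) := by
    have h1 : ∀ B : k[X], r ((B.map g).eval b) = aeval (r b) B := by
      intro B
      rw [eval_map, hom_eval₂, aeval_def]
      congr 1
      ext c
      exact hP.res.alg c _
    simp only [G, derivative_sub, derivative_mul, derivative_C, zero_mul, zero_add, eval_sub,
      eval_mul, eval_C, derivative_map, map_sub, map_mul]
    rw [h1, h1, h1, h1]
    ring
  exact ⟨_, hb.wr_ne, by rw [← hW]; exact hr1⟩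

end

section

variable {k M : Type u} [Field k] [Field M] [Algebra k M] [IsAlgClosed M]

/-- an algebraically closed field `κ` of transcendence degree at most one is stable under
all automorphisms which fix a suitable finite subset of `κ` -/
theorem exists_fix (κ : IntermediateField k M) [IsAlgClosed κ] (h : Algebra.trdeg k κ ≤ 1) :
    ∃ C : Finset M, (C : Set M) ⊆ κ ∧ ∀ σ : M ≃ₐ[k] M, (∀ x ∈ C, σ x = x) →
      ∀ x : M, σ x ∈ κ ↔ x ∈ κ := by
  classical
  obtain ⟨ι, x, hx⟩ := exists_isTranscendenceBasis' k κ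
  have h1 : Cardinal.mk ι = Algebra.trdeg k κ := hx.cardinalMk_eq_trdeg
  have hfin : Finite ι := by
    rw [← Cardinal.lt_aleph0_iff_finite, h1]
    exact h.trans_lt Cardinal.one_lt_aleph0
  have hft := Fintype.ofFinite ι
  refine ⟨Finset.univ.image fun i => (x i : M), ?_, ?_⟩
  · intro y hy
    simp only [Finset.coe_image, Finset.coe_univ, Set.image_univ, Set.mem_range] at hy
    obtain ⟨i, rfl⟩ := hy
    exact (x i).2
  · have h2 : ∀ σ : M ≃ₐ[k] M, (∀ x' ∈ Finset.univ.image fun i => (x i : M), σ x' = x') →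
        ∀ y ∈ κ, σ y ∈ κ := by
      intro σ hσ y hy
      let E := IntermediateField.adjoin k (Set.range x)
      have h3 : IsAlgebraic E (⟨y, hy⟩ : κ) := by
        have := hx.isAlgebraic_field
        exact this.isAlgebraic _
      obtain ⟨q, hq, hq0⟩ := h3
      let i : E →+* κ := algebraMap E κ
      have h4 : ∀ z : E, σ ((z : κ) : M) = ((z : κ) : M) := by
        rintro ⟨z, hz⟩
        show σ (z : M) = (z : M)
        induction hz using IntermediateField.adjoin_induction with
        | mem z hz =>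
          obtain ⟨j, rfl⟩ := hz
          exact hσ _ (Finset.mem_image_of_mem _ (Finset.mem_univ j))
        | algebraMap z => exact σ.commutes z
        | add z w _ _ hz hw =>
          show σ ((z : M) + w) = z + w
          rw [map_add, hz, hw]
        | inv z _ hz =>
          show σ (z : M)⁻¹ = (z : M)⁻¹
          rw [map_inv₀, hz]
        | mul z w _ _ hz hw =>
          show σ ((z : M) * w) = z * w
          rw [map_mul, hz, hw]
      apply g_mem_of_alg κ
      refine ⟨q.map i, (Polynomial.map_ne_zero_iff (RingHom.injective _)).2 hq, ?_⟩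
      rw [aeval_map_algebraMap, aeval_def]
      have h5 := congrArg (fun z : κ => σ (z : M)) hq0
      have h6 : σ ((0 : κ) : M) = 0 := map_zero σ
      rw [h6, aeval_def] at h5
      have h7 : ((σ : M →+* M).comp ((algebraMap κ M).comp (algebraMap E κ))) =
          (algebraMap E M) := by
        ext z
        exact h4 z
      have h8 := hom_eval₂ q (algebraMap E κ) ((σ : M →+* M).comp (algebraMap κ M)) ⟨y, hy⟩
      rw [RingHom.comp_assoc, h7] at h8
      rw [← h5]
      exact h8.symm
    intro σ hσ y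
    constructor
    · intro hy
      have h3 := h2 σ.symm (fun z hz => by
        rw [AlgEquiv.symm_apply_eq]
        exact (hσ z hz).symm) _ hy
      rwa [σ.symm_apply_apply] at h3
    · exact h2 σ hσ y

/-- transcendence degrees -/
theorem trdeg_adjoin_of_subset (κ : IntermediateField k M) (h : Algebra.trdeg k κ ≤ 1)
    (C : Finset M) (hC : (C : Set M) ⊆ κ) :
    (IntermediateField.adjoin k (C : Set M)).FG ∧
      Algebra.trdeg k (IntermediateField.adjoin k (C : Set M)) ≤ 1 := by
  refine ⟨⟨C, rfl⟩, ?_⟩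
  have h1 : IntermediateField.adjoin k (C : Set M) ≤ κ := IntermediateField.adjoin_le_iff.2 hC
  exact (trdeg_le_of_injective (IntermediateField.inclusion h1)
    (IntermediateField.inclusion_injective h1)).trans h

/-- transcendence degrees -/
theorem trdeg_adjoin_of_alg (θ : M) (C : Finset M)
    (hC : ∀ x ∈ C, IsAlgebraic (IntermediateField.adjoin k {θ}) x) :
    (IntermediateField.adjoin k (C : Set M)).FG ∧
      Algebra.trdeg k (IntermediateField.adjoin k (C : Set M)) ≤ 1 := by
  let L := IntermediateField.adjoin k {θ}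
  let E : IntermediateField k M := (algebraicClosure L M).restrictScalars k
  refine trdeg_adjoin_of_subset E ?_ C fun x hx => ?_
  · have h1 : Algebra.IsAlgebraic L (algebraicClosure L M) := inferInstance
    have h2 : Algebra.trdeg k (algebraicClosure L M) = Algebra.trdeg k L :=
      trdeg_alg k L (algebraicClosure L M)
    have h3 : Algebra.trdeg k L ≤ 1 := by
      have := Pool.Agent.T1B.trdeg_adjoin_le_mk (k := k) ({θ} : Set M)
      rwa [Cardinal.mk_singleton] at this
    exact h2.le.trans h3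
  · exact (mem_algebraicClosure_iff).2 (hC x hx)

end

end Pool.Agent.TUQ
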