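import Pool.Agent.TUQ.G12

/-!
# Generators of `K`, the residue embedding as a function of the point
-/

set_option autoImplicit false

namespace Pool.Agent.TUQ

open Polynomial Pool.Agent.TBR Cardinal

universe u

section

variable {k Ω : Type u} [Field k] [Field Ω] [Algebra k Ω]
variable {A H : IntermediateField k Ω} {K₀ : IntermediateField k A} {z : A}
  {w U t : Ω}

/-- two automorphisms over `H` with the same value at `t` agree on `H(t)` -/
theorem agree_Ht {s s' : Ω ≃ₐ[k] Ω} (hs : s ∈ Fx k (H : Set Ω)) (hs' : s' ∈ Fx k (H : Set Ω))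
    (h : s t = s' t) {x : Ω} (hx : x ∈ AA H {t}) : s x = s' x := by
  obtain ⟨p, q, rfl⟩ := (Pool.Agent.TBR.V.mem_AA H t x).mp hx
  rw [map_div₀, map_div₀, Fx.aeval hs, Fx.aeval hs, Fx.aeval hs', Fx.aeval hs', h]

/-- the embedding at a point is unique on `K` -/
theorem Pnt.agree (K₀t : ∀ x ∈ K₀, (x : Ω) ∈ AA H {t}) (wt : w ∈ AA H {t}) {T : Ω}
    {s s' : Ω ≃ₐ[k] Ω} {ξ ξ' : A →ₐ[k] Ω} (h : Pnt H K₀ z w U t T s ξ)
    (h' : Pnt H K₀ z w U t T s' ξ') (x : A) (hx : x ∈ KK K₀ z) : ξ x = ξ' x := by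
  have hst : s t = s' t := by rw [h.st, h'.st]
  have h1 : KK K₀ z ≤ (AlgHom.equalizer ξ ξ').toIntermediateField (by
      intro x hx
      change ξ x⁻¹ = ξ' x⁻¹
      rw [map_inv₀, map_inv₀, show ξ x = ξ' x from hx]) := by
    refine sup_le ?_ ?_
    · intro x hx
      change ξ x = ξ' x
      rw [h.xK x hx, h'.xK x hx]
      exact agree_Ht h.sH h'.sH hst (K₀t x hx)
    · rw [IntermediateField.adjoin_le_iff]
      rintro x rfl
      change ξ x = ξ' x
      rw [h.xz, h'.xz, agree_Ht h.sH h'.sH hst wt]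
  exact h1 hx

variable {V : ValuationSubring Ω} {r : V →+* Ω}

/-- the residue embedding at the point `T` -/
noncomputable def eT (H : IntermediateField k Ω) (K₀ : IntermediateField k A) (z : A) (w U t : Ω)
    {V : ValuationSubring Ω} (r : V →+* Ω) (T : Ω) : KK K₀ z →ₐ[k] A :=
  @Classical.epsilon _ ⟨(KK K₀ z).val⟩ fun e : KK K₀ z →ₐ[k] A =>
    ∃ s ξ, Pnt H K₀ z w U t T s ξ ∧ IsResE A r (ξ.comp (KK K₀ z).val) e

theorem eT_spec (hr : IsRes A V r) (K₀t : ∀ x ∈ K₀, (x : Ω) ∈ AA H {t}) (wt : w ∈ AA H {t})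
    {T : Ω} {s : Ω ≃ₐ[k] Ω} {ξ : A →ₐ[k] Ω} (h : Pnt H K₀ z w U t T s ξ)
    (hgood : ∀ x, ξ x ∈ V) : IsResE A r (ξ.comp (KK K₀ z).val) (eT H K₀ z w U t r T) := by
  obtain ⟨e, he⟩ := exists_resE hr (ξ.comp (KK K₀ z).val) fun x => hgood x
  have h0 : ∃ e : KK K₀ z →ₐ[k] A, ∃ s ξ, Pnt H K₀ z w U t T s ξ ∧
    IsResE A r (ξ.comp (KK K₀ z).val) e := ⟨e, s, ξ, h, he⟩
  obtain ⟨s', ξ', h2, h3⟩ := Classical.epsilon_spec h0
  intro x
  obtain ⟨h4, h5⟩ := h3 x
  refine ⟨hgood x, ?_⟩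
  have h6 : r ⟨(ξ.comp (KK K₀ z).val) x, hgood x⟩ = r ⟨(ξ'.comp (KK K₀ z).val) x, h4⟩ := by
    congr 1
    exact Subtype.ext (h.agree K₀t wt h2 x x.2)
  rw [h6, h5]
  rfl

/-- the value of an integral embedding -/
theorem val_good {ξ : A →ₐ[k] Ω} (hgood : ∀ x, ξ x ∈ V) {x : A} (hx : x ≠ 0) :
    V.valuation (ξ x) = 1 := by
  have h1 := (val_le V _).mp (hgood x)
  have h2 := (val_le V _).mp (hgood x⁻¹)
  have h0 : ξ x ≠ 0 := (_root_.map_ne_zero ξ).mpr hx
  rw [map_inv₀, map_inv₀, inv_le_one₀ (zero_lt_iff.mpr ((_root_.map_ne_zero _).mpr h0))] at h2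
  exact le_antisymm h1 h2

/-- the generators of `K` -/
def gS (z : A) (S : Finset A) : Option S → A
  | none => z
  | some x => x

/-- the factors -/
def uS (U : Ω) (S : Finset A) : Option S → Ω
  | none => U
  | some _ => 1

/-- the normalizations -/
def ϖS (ϖU : H) (S : Finset A) : Option S → H
  | none => ϖU⁻¹
  | some _ => 1

/-- generators of `K`, as rational functions of `t` -/
structure Gens (H : IntermediateField k Ω) (K₀ : IntermediateField k A) (z : A) (w t : Ω)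
    (S : Finset A) (p q : Option S → H[X]) : Prop where
  adj : IntermediateField.adjoin k (S : Set A) = K₀
  S0 : ∀ x ∈ S, x ≠ 0
  p0 : ∀ j, p j ≠ 0
  q0 : ∀ j, q j ≠ 0
  eqS : ∀ x : S, ((x : A) : Ω) * aeval t (q (some x)) = aeval t (p (some x))
  eqz : w * aeval t (q none) = aeval t (p none)

theorem Gens.mem {S : Finset A} {p q : Option S → H[X]} (h : Gens H K₀ z w t S p q) (x : S) :
    (x : A) ∈ K₀ := by
  rw [← h.adj]
  exact IntermediateField.subset_adjoin k _ x.2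

theorem exists_gens [IsAlgClosed H] (fg : K₀.FG) (tH : t ∉ H)
    (K₀t : ∀ x ∈ K₀, (x : Ω) ∈ AA H {t}) (wt : w ∈ AA H {t}) (w0 : w ≠ 0) :
    ∃ (S : Finset A) (p q : Option S → H[X]), Gens H K₀ z w t S p q := by
  classical
  obtain ⟨S₁, hS₁⟩ := fg
  have hadj : IntermediateField.adjoin k ((S₁.erase 0 : Finset A) : Set A) = K₀ := by
    rw [← hS₁]
    apply le_antisymm
    · exact IntermediateField.adjoin.mono k _ _ (Finset.coe_subset.mpr (Finset.erase_subset _ _))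
    · rw [IntermediateField.adjoin_le_iff]
      intro x hx
      by_cases h0 : x = 0
      · rw [h0]
        exact zero_mem _
      · exact IntermediateField.subset_adjoin k _ (Finset.mem_coe.mpr
          (Finset.mem_erase.mpr ⟨h0, hx⟩))
  set S := S₁.erase 0 with hS
  have key : ∀ x : Ω, x ∈ AA H {t} → x ≠ 0 → ∃ p q : H[X], p ≠ 0 ∧ q ≠ 0 ∧
      x * aeval t q = aeval t p := by
    intro x hx h0
    obtain ⟨p, q, -, hq, hqt, hpq⟩ := exists_frac H t tH x hx
    refine ⟨p, q, ?_, hq, hpq⟩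
    rintro rfl
    rw [map_zero] at hpq
    exact h0 ((mul_eq_zero.1 hpq).resolve_right hqt)
  have hmem : ∀ x : S, (x : A) ∈ K₀ := fun x => by
    rw [← hadj]
    exact IntermediateField.subset_adjoin k _ x.2
  have hne : ∀ x : S, ((x : A) : Ω) ≠ 0 := fun x h =>
    (Finset.mem_erase.mp x.2).1 (Subtype.ext h)
  choose p q h1 h2 h3 using fun x : S => key (x : A) (K₀t _ (hmem x)) (hne x)
  obtain ⟨p', q', h1', h2', h3'⟩ := key w wt w0
  refine ⟨S, fun j => j.elim p' p, fun j => j.elim q' q, hadj,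
    fun x hx => (Finset.mem_erase.mp hx).1, ?_, ?_, fun x => h3 x, h3'⟩
  · rintro (_ | x)
    · exact h1'
    · exact h1 x
  · rintro (_ | x)
    · exact h2'
    · exact h2 x

theorem Gens.formula {S : Finset A} {p q : Option S → H[X]} (h : Gens H K₀ z w t S p q) {T : Ω}
    {s : Ω ≃ₐ[k] Ω} {ξ : A →ₐ[k] Ω} (hp : Pnt H K₀ z w U t T s ξ) (j : Option S) :
    ξ (gS z S j) * aeval T (q j) = aeval T (p j) * uS U S j := by
  rcases j with _ | x
  · exact hp.formula_z _ _ h.eqz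
  · have := hp.formula (h.mem x) _ _ (h.eqS x)
    rw [uS, mul_one]
    exact this

theorem Gens.mem_KK {S : Finset A} {p q : Option S → H[X]} (h : Gens H K₀ z w t S p q)
    (j : Option S) : gS z S j ∈ KK K₀ z := by
  rcases j with _ | x
  · exact (le_sup_right (a := K₀)) (IntermediateField.mem_adjoin_simple_self k z)
  · exact (le_sup_left (a := K₀)) (h.mem x)

/-- the generators, in `K` -/
def gK {S : Finset A} {p q : Option S → H[X]} (h : Gens H K₀ z w t S p q) (j : Option S) :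
    KK K₀ z := ⟨gS z S j, h.mem_KK j⟩

theorem Gens.top {S : Finset A} {p q : Option S → H[X]} (h : Gens H K₀ z w t S p q) :
    IntermediateField.adjoin k (Set.range (gK h)) = ⊤ := by
  apply IntermediateField.map_injective (KK K₀ z).val
  rw [IntermediateField.adjoin_map, ← AlgHom.fieldRange_eq_map, IntermediateField.fieldRange_val]
  apply le_antisymm
  · rw [IntermediateField.adjoin_le_iff]
    rintro _ ⟨_, ⟨j, rfl⟩, rfl⟩
    exact h.mem_KK j
  · refine sup_le ?_ ?_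
    · conv_lhs => rw [← h.adj]
      rw [IntermediateField.adjoin_le_iff]
      intro x hx
      exact IntermediateField.subset_adjoin k _ ⟨gK h (some ⟨x, hx⟩), ⟨_, rfl⟩, rfl⟩
    · rw [IntermediateField.adjoin_le_iff]
      rintro x rfl
      exact IntermediateField.subset_adjoin k _ ⟨gK h none, ⟨_, rfl⟩, rfl⟩

theorem uS_val {ϖU : H} (hϖU : V.valuation (ϖU : Ω) = V.valuation U) (U0 : U ≠ 0)
    (S : Finset A) (j : Option S) : V.valuation (uS U S j * (ϖS ϖU S j : H)) = 1 := by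
  rcases j with _ | x
  · have h1 : ((ϖS ϖU S none : H) : Ω) = (ϖU : Ω)⁻¹ := map_inv₀ (algebraMap H Ω) _
    rw [h1, uS, map_mul, map_inv₀, hϖU]
    exact mul_inv_cancel₀ ((_root_.map_ne_zero _).mpr U0)
  · have h1 : ((ϖS ϖU S (some x) : H) : Ω) = 1 := rfl
    rw [h1, uS, mul_one, map_one]

theorem uS_mem {ϖU : H} (hϖU : V.valuation (ϖU : Ω) = V.valuation U) (U0 : U ≠ 0)
    (S : Finset A) (j : Option S) : uS U S j * (ϖS ϖU S j : H) ∈ V :=
  (val_le V _).mpr (uS_val hϖU U0 S j).le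

/-- the reductions of the generators on a disc with a good point -/
theorem Gens.exists_RD [IsAlgClosed H] {S : Finset A} {p q : Option S → H[X]}
    (h : Gens H K₀ z w t S p q)
    (z0 : z ≠ 0) (U0 : U ≠ 0) (hr : IsRes A V r) (hV : ∀ x ∈ A, x ∈ V) {ϖU : H}
    (hϖU : V.valuation (ϖU : Ω) = V.valuation U)
    {α π : H} (hπ : π ≠ 0) {T : Ω} {s : Ω ≃ₐ[k] Ω} {ξ : A →ₐ[k] Ω}
    (hp : Pnt H K₀ z w U t T s ξ) (hG : Gen hr hV H α π T) (hgood : ∀ x, ξ x ∈ V) (j : Option S) :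
    ∃ (β : H) (P₁ Q₁ : (VH V H)[X]), RD hr hV H α π (p j) (q j) (ϖS ϖU S j) β P₁ Q₁ := by
  obtain ⟨ϖ, β, P₁, Q₁, hRD⟩ := Pool.Agent.TUQ.exists_RD hr hV H α π hπ (p j) (q j) (h.p0 j) (h.q0 j)
  have h1 := h.formula hp j
  obtain ⟨hT, hT1⟩ := hG
  have h0 : gS z S j ≠ 0 := by
    rcases j with _ | x
    · exact z0
    · exact h.S0 _ x.2
  have hq := hRD.Q_ne hπ T hT hT1
  have h2 : V.valuation (aeval T (p j) / aeval T (q j)) * V.valuation (uS U S j) = 1 := by
    rw [← map_mul, ← val_good hgood h0]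
    congr 1
    rw [div_mul_eq_mul_div, ← h1, mul_div_assoc, div_self hq, mul_one]
  have h3 := uS_val hϖU U0 S j
  rw [map_mul] at h3
  have h4 : V.valuation (uS U S j) ≠ 0 := left_ne_zero_of_mul_eq_one h3
  have h5 : V.valuation ((ϖS ϖU S j : H) : Ω) = V.valuation (ϖ : Ω) := by
    rw [← hRD.val hπ T hT hT1]
    apply mul_left_cancel₀ h4
    rw [h3, mul_comm, h2]
  obtain ⟨P₂, hP₂⟩ := hRD.change (ϖS ϖU S j) h5
  exact ⟨β, P₂, Q₁, hP₂⟩

end

end Pool.Agent.TUQ
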