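import Pool.Agent.TUQ.G13

/-!
# The equations on a disc with a good point
-/

set_option autoImplicit false

namespace Pool.Agent.TUQ

open Polynomial Pool.Agent.TBR Cardinal

universe u

section

variable {k Ω : Type u} [Field k] [Field Ω] [Algebra k Ω]
variable {A H : IntermediateField k Ω} {V : ValuationSubring Ω} {r : V →+* Ω}

/-- the reduced equation is not trivial if the constant is not in the residue field of `H` -/
theorem redEq_ne {hr : IsRes A V r} {hV : ∀ x ∈ A, x ∈ V} {P₁ Q₁ : (VH V H)[X]}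
    (hQ : Q₁.map (rH hr hV H) ≠ 0) {η : Ω} (hη : η ∉ kap hr hV H) :
    redEq hr hV H P₁ Q₁ η ≠ 0 := by
  intro h0
  apply hη
  obtain ⟨j, hj⟩ : ∃ j, (Q₁.map (rH hr hV H)).coeff j ≠ 0 := by
    by_contra! h'
    exact hQ (Polynomial.ext h')
  have h1 := congrArg (fun q => q.coeff j) h0
  simp only [redEq, coeff_sub, coeff_C_mul, coeff_zero] at h1
  rw [coeff_map, coeff_map (algebraMap (kap hr hV H) Ω), sub_eq_zero] at h1
  have hj' : algebraMap (kap hr hV H) Ω ((Q₁.map (rH hr hV H)).coeff j) ≠ 0 :=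
    (_root_.map_ne_zero _).mpr hj
  rw [← div_eq_iff hj'] at h1
  rw [← h1]
  exact div_mem (Subtype.property _) (Subtype.property _)

/-- the reduction of an equation with a generic solution -/
theorem exists_RD_eq (hr : IsRes A V r) (hV : ∀ x ∈ A, x ∈ V) [IsAlgClosed H] {α π : H}
    (hπ : π ≠ 0) (P Q : H[X]) (hP : P ≠ 0) (hQ : Q ≠ 0) (y : Ω) (ϖ : H)
    (hϖ : V.valuation (ϖ : Ω) = V.valuation y) {T : Ω} (hG : Gen hr hV H α π T)
    (hT : aeval T P = y * aeval T Q) :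
    ∃ (β : H) (P₁ Q₁ : (VH V H)[X]), RD hr hV H α π P Q ϖ β P₁ Q₁ := by
  obtain ⟨ϖ', β, P₁, Q₁, hRD⟩ := exists_RD hr hV H α π hπ P Q hP hQ
  obtain ⟨hx, hx1⟩ := hG
  have hq := hRD.Q_ne hπ T hx hx1
  have h1 : V.valuation (ϖ : Ω) = V.valuation (ϖ' : Ω) := by
    rw [hϖ, ← hRD.val hπ T hx hx1, hT, mul_div_assoc, div_self hq, mul_one]
  obtain ⟨P₂, hP₂⟩ := hRD.change ϖ h1
  exact ⟨β, P₂, Q₁, hP₂⟩

theorem pA_coeff_mem (hr : IsRes A V r) (hV : ∀ x ∈ A, x ∈ V) (f : (VH V H)[X]) (n : ℕ) :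
    (pA hr hV H f).coeff n ∈ kA hr hV H := by
  rw [mem_kA, pA, coeff_map]
  exact ((f.map (rH hr hV H)).coeff n).2

theorem eval_mem_of_coeff (L : IntermediateField k A) (f : Polynomial A) (h : ∀ n, f.coeff n ∈ L)
    {x : A} (hx : x ∈ L) : f.eval x ∈ L := by
  rw [eval_eq_sum_range]
  exact sum_mem fun i _ => mul_mem (h i) (pow_mem hx i)

/-- the set of coefficients -/
noncomputable def cfs (f : Polynomial A) : Finset A := by
  classical
  exact f.support.image f.coeff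

theorem FixC_of {σ : A ≃ₐ[k] A} {f : Polynomial A} (h : ∀ x ∈ cfs f, σ x = x) : FixC σ f := by
  classical
  intro n
  by_cases hn : n ∈ f.support
  · exact h _ (Finset.mem_image_of_mem f.coeff hn)
  · rw [notMem_support_iff.mp hn, map_zero]

theorem coeff_mem_of {L : IntermediateField k A} {f : Polynomial A} (h : ∀ x ∈ cfs f, x ∈ L)
    (n : ℕ) : f.coeff n ∈ L := by
  classical
  by_cases hn : n ∈ f.support
  · exact h _ (Finset.mem_image_of_mem f.coeff hn)
  · rw [notMem_support_iff.mp hn]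
    exact zero_mem L

theorem mem_cfs {f : Polynomial A} {x : A} (h : x ∈ cfs f) : ∃ n, x = f.coeff n := by
  classical
  obtain ⟨n, -, hn⟩ := Finset.mem_image.mp h
  exact ⟨n, hn.symm⟩

theorem algebraic_of_root (L : IntermediateField k A) (f : Polynomial A) (hf : f ≠ 0)
    (h : ∀ n, f.coeff n ∈ L) {x : A} (hx : f.eval x = 0) : IsAlgebraic L x := by
  have h1 : f ∈ Polynomial.lifts (algebraMap L A) := by
    rw [Polynomial.lifts_iff_coeff_lifts]
    exact fun n => ⟨⟨_, h n⟩, rfl⟩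
  obtain ⟨g, hg⟩ := h1
  rw [coe_mapRingHom] at hg
  refine ⟨g, ?_, ?_⟩
  · rintro rfl
    rw [Polynomial.map_zero] at hg
    exact hf hg.symm
  · rw [aeval_def, ← eval_map, hg, hx]

end

section

variable {k Ω : Type u} [Field k] [Field Ω] [Algebra k Ω]
variable {A H : IntermediateField k Ω} {K₀ : IntermediateField k A} {z : A}
  {w U t a : Ω} {N : ℕ} {B₁ B₂ : k[X]} {V : ValuationSubring Ω} {r : V →+* Ω}
variable [IsAlgClosed Ω] [IsAlgClosed A] [IsAlgClosed H]
variable {S : Finset A} {p q : Option S → H[X]}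

/-- the formula for the residue embedding of the generators -/
theorem eT_formula (hc : Cfg A H K₀ z N B₁ B₂ a w U t) (hP : Plc A V r)
    (hg : Gens H K₀ z w t S p q) {ϖU : H} (hϖU : V.valuation (ϖU : Ω) = V.valuation U)
    {α π : H} (hπ : π ≠ 0) {T : Ω} {s : Ω ≃ₐ[k] Ω} {ξ : A →ₐ[k] Ω}
    (hp : Pnt H K₀ z w U t T s ξ) (hG : Gen hP.res hP.mem H α π T) (hgood : ∀ x, ξ x ∈ V)
    (j : Option S) {β : H} {P₁ Q₁ : (VH V H)[X]}
    (hRD : RD hP.res hP.mem H α π (p j) (q j) (ϖS ϖU S j) β P₁ Q₁) :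
    eT H K₀ z w U t r T (gK hg j) * (pA hP.res hP.mem H Q₁).eval (rA hP.res α π T) =
      (pA hP.res hP.mem H P₁).eval (rA hP.res α π T) *
        ⟨r ⟨_, uS_mem hϖU hc.U0 S j⟩, hP.res.mem _⟩ := by
  obtain ⟨h1, h2⟩ := eT_spec hP.res hc.K₀t hc.wt hp hgood (gK hg j)
  rw [← resE_formulaA hRD hπ _ (uS_mem hϖU hc.U0 S j) T hG _ h1 (hg.formula hp j)]
  congr 1
  exact Subtype.ext h2.symm

theorem pA_eval_ne (hP : Plc A V r) {α π : H} {T : Ω} (hG : Gen hP.res hP.mem H α π T)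
    {Q₁ : (VH V H)[X]} (hQ : Q₁.map (rH hP.res hP.mem H) ≠ 0) :
    (pA hP.res hP.mem H Q₁).eval (rA hP.res α π T) ≠ 0 := by
  have := kap_closed hP.res hP.mem H
  intro h0
  have h1 : (((pA hP.res hP.mem H Q₁).eval (rA hP.res α π T) : A) : Ω) = 0 := by rw [h0]; rfl
  rw [pA_eval] at h1
  exact aeval_ne_zero _ _ hG.rT_notMem _ hQ h1

theorem hom_mem {S : Finset A} {p q : Option S → H[X]} (hg : Gens H K₀ z w t S p q)
    (L : IntermediateField k A) (e : KK K₀ z →ₐ[k] A) (h : ∀ j, e (gK hg j) ∈ L) (x : KK K₀ z) :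
    e x ∈ L := by
  have h1 : (⊤ : IntermediateField k (KK K₀ z)) ≤ L.comap e := by
    rw [← hg.top, IntermediateField.adjoin_le_iff]
    rintro _ ⟨j, rfl⟩
    exact h j
  exact h1 (IntermediateField.mem_top (x := x))

/-- the residue of `U` is not in the residue field of `H` -/
theorem u0_notMem (hc : Cfg A H K₀ z N B₁ B₂ a w U t) (hNU : NU (KK K₀ z)) (hP : Plc A V r)
    (hH : ∃ β ∈ H, β ∉ V) (hg : Gens H K₀ z w t S p q) {ϖU : H}
    (hϖU : V.valuation (ϖU : Ω) = V.valuation U)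
    {α π : H} (hπ : π ≠ 0) {T : Ω} {s : Ω ≃ₐ[k] Ω} {ξ : A →ₐ[k] Ω}
    (hp : Pnt H K₀ z w U t T s ξ) (hG : Gen hP.res hP.mem H α π T) (hgood : ∀ x, ξ x ∈ V) :
    r ⟨_, uS_mem hϖU hc.U0 S none⟩ ∉ kap hP.res hP.mem H := by
  intro hu
  have hκ := kA_closed hP.res hP.mem H
  have htr : Algebra.trdeg k A < ℵ₀ := by
    rw [hc.tdA]
    exact Cardinal.ofNat_lt_aleph0
  refine g_nu_emb htr (KK K₀ z) (KK_alg hc.al) hNU (eT H K₀ z w U t r T) (kA hP.res hP.mem H)
    (rA hP.res α π T) hκ (kA_trdeg hP.res hP.mem H hH hc.tdH) fun x => ?_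
  refine hom_mem hg _ _ (fun j => ?_) x
  obtain ⟨β, P₁, Q₁, hRD⟩ := hg.exists_RD hc.z0 hc.U0 hP.res hP.mem hϖU hπ hp hG hgood j
  have h1 := eT_formula hc hP hg hϖU hπ hp hG hgood j hRD
  have hne := pA_eval_ne hP hG hRD.Q0
  rw [← eq_div_iff hne] at h1
  rw [h1]
  set L := kA hP.res hP.mem H ⊔ IntermediateField.adjoin k {rA hP.res α π T} with hL
  have h2 : rA hP.res α π T ∈ L :=
    (le_sup_right (a := kA hP.res hP.mem H)) (IntermediateField.mem_adjoin_simple_self k _)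
  have h3 : ∀ f : (VH V H)[X], (pA hP.res hP.mem H f).eval (rA hP.res α π T) ∈ L := fun f =>
    eval_mem_of_coeff L _ (fun n => (le_sup_left (a := kA hP.res hP.mem H))
      (pA_coeff_mem hP.res hP.mem f n)) h2
  refine div_mem (mul_mem (h3 _) ?_) (h3 _)
  apply le_sup_left (a := kA hP.res hP.mem H)
  rw [mem_kA]
  rcases j with _ | x
  · exact hu
  · have h4 : (⟨_, uS_mem hϖU hc.U0 S (some x)⟩ : V) = 1 := by
      apply Subtype.ext
      change (1 : Ω) * ((1 : H) : Ω) = 1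
      rw [one_mul]
      rfl
    change r ⟨_, uS_mem hϖU hc.U0 S (some x)⟩ ∈ _
    rw [h4, map_one]
    exact one_mem _

/-- everything is algebraic over the field generated by the coefficients and the residues of `U`
and of `y` -/
theorem eq_alg (hc : Cfg A H K₀ z N B₁ B₂ a w U t) (hP : Plc A V r)
    (hg : Gens H K₀ z w t S p q) {ϖU : H}
    (hϖU : V.valuation (ϖU : Ω) = V.valuation U)
    {α π : H} (hπ : π ≠ 0) {T : Ω} {s : Ω ≃ₐ[k] Ω} {ξ : A →ₐ[k] Ω}
    (hp : Pnt H K₀ z w U t T s ξ) (hG : Gen hP.res hP.mem H α π T) (hgood : ∀ x, ξ x ∈ V)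
    (P Q : H[X]) (hP0 : P ≠ 0) (hQ0 : Q ≠ 0) (y : Ω) (ϖ : H)
    (hϖ : V.valuation (ϖ : Ω) = V.valuation y) (hY : y / ϖ ∈ V)
    (hη : r ⟨_, hY⟩ ∉ kap hP.res hP.mem H) (hT : aeval T P = y * aeval T Q) :
    ∃ C : Finset A, (∀ x ∈ C, x ∈ kA hP.res hP.mem H) ∧ ∀ L : IntermediateField k A,
      (∀ x ∈ C, x ∈ L) → (⟨r ⟨_, uS_mem hϖU hc.U0 S none⟩, hP.res.mem _⟩ : A) ∈ L →
      (⟨r ⟨_, hY⟩, hP.res.mem _⟩ : A) ∈ L → ∀ x : A, IsAlgebraic L x := by
  classical
  have htr : Algebra.trdeg k A < ℵ₀ := by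
    rw [hc.tdA]
    exact Cardinal.ofNat_lt_aleph0
  obtain ⟨β, P₁, Q₁, hRD⟩ := exists_RD_eq hP.res hP.mem hπ P Q hP0 hQ0 y ϖ hϖ hG hT
  choose βg Pg Qg hRg using fun j => hg.exists_RD hc.z0 hc.U0 hP.res hP.mem hϖU hπ hp hG hgood j
  refine ⟨cfs (pA hP.res hP.mem H P₁) ∪ cfs (pA hP.res hP.mem H Q₁) ∪
    Finset.univ.biUnion (fun j => cfs (pA hP.res hP.mem H (Pg j)) ∪
      cfs (pA hP.res hP.mem H (Qg j))), ?_, ?_⟩
  · intro x hx
    simp only [Finset.mem_union, Finset.mem_biUnion, Finset.mem_univ, true_and] at hx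
    rcases hx with (hx | hx) | ⟨j, hx | hx⟩ <;>
    · obtain ⟨n, rfl⟩ := mem_cfs hx
      exact pA_coeff_mem _ _ _ _
  · intro L hC hu hη' x
    have c1 : ∀ n, (pA hP.res hP.mem H P₁).coeff n ∈ L := coeff_mem_of fun x hx =>
      hC x (by simp only [Finset.mem_union]; exact Or.inl (Or.inl hx))
    have c2 : ∀ n, (pA hP.res hP.mem H Q₁).coeff n ∈ L := coeff_mem_of fun x hx =>
      hC x (by simp only [Finset.mem_union]; exact Or.inl (Or.inr hx))
    have c3 : ∀ j n, (pA hP.res hP.mem H (Pg j)).coeff n ∈ L := fun j => coeff_mem_of fun x hx =>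
      hC x (by
        simp only [Finset.mem_union, Finset.mem_biUnion, Finset.mem_univ, true_and]
        exact Or.inr ⟨j, Or.inl hx⟩)
    have c4 : ∀ j n, (pA hP.res hP.mem H (Qg j)).coeff n ∈ L := fun j => coeff_mem_of fun x hx =>
      hC x (by
        simp only [Finset.mem_union, Finset.mem_biUnion, Finset.mem_univ, true_and]
        exact Or.inr ⟨j, Or.inr hx⟩)
    -- the residue of `T`
    set τ := rA hP.res α π T with hτ
    have hτa : IsAlgebraic L τ := by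
      set η : A := ⟨r ⟨_, hY⟩, hP.res.mem _⟩ with hηd
      refine algebraic_of_root L (pA hP.res hP.mem H P₁ - C η * pA hP.res hP.mem H Q₁) ?_ ?_ ?_
      · intro h0
        have h1 := redEq_ne (P₁ := P₁) hRD.Q0 hη
        apply h1
        have h2 := congrArg (Polynomial.map (algebraMap A Ω)) h0
        rw [Polynomial.map_sub, Polynomial.map_mul, map_C, pA_map, pA_map,
          Polynomial.map_zero] at h2
        exact h2
      · intro n
        rw [coeff_sub, coeff_C_mul]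
        exact sub_mem (c1 n) (mul_mem hη' (c2 n))
      · rw [eval_sub, eval_mul, eval_C, sub_eq_zero]
        obtain ⟨hx, hx1⟩ := hG
        obtain ⟨h3, h4⟩ := hRD.res hπ T hx hx1
        apply Subtype.ext
        change _ = r ⟨_, hY⟩ * (((pA hP.res hP.mem H Q₁).eval τ : A) : Ω)
        rw [pA_eval, pA_eval, hτ, rA_coe, rT_of α π hx, ← h4]
        congr 2
        apply Subtype.ext
        change aeval T P / aeval T Q / ϖ = y / ϖ
        rw [hT, mul_div_assoc, div_self (hRD.Q_ne hπ T hx hx1), mul_one]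
    refine g_alg_of_emb htr (KK K₀ z) (KK_alg hc.al) (eT H K₀ z w U t r T) L ?_ x
    have h1 : ∀ x, eT H K₀ z w U t r T x ∈ (algebraicClosure L A).restrictScalars k := by
      intro x
      refine hom_mem hg _ _ (fun j => ?_) x
      have h2 := eT_formula hc hP hg hϖU hπ hp hG hgood j (hRg j)
      have hne := pA_eval_ne hP hG (hRg j).Q0
      rw [← eq_div_iff hne] at h2
      rw [h2]
      have hL : L ≤ (algebraicClosure L A).restrictScalars k := fun x hx =>
        mem_algebraicClosure_iff.2 (isAlgebraic_algebraMap (⟨x, hx⟩ : L))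
      have hτ' : τ ∈ (algebraicClosure L A).restrictScalars k := mem_algebraicClosure_iff.2 hτa
      refine div_mem (mul_mem (eval_mem_of_coeff _ _ (fun n => hL (c3 j n)) hτ') ?_)
        (eval_mem_of_coeff _ _ (fun n => hL (c4 j n)) hτ')
      apply hL
      rcases j with _ | x
      · exact hu
      · have h4 : (⟨_, uS_mem hϖU hc.U0 S (some x)⟩ : V) = 1 := by
          apply Subtype.ext
          change (1 : Ω) * ((1 : H) : Ω) = 1
          rw [one_mul]
          rfl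
        have h5 : (⟨r ⟨_, uS_mem hϖU hc.U0 S (some x)⟩, hP.res.mem _⟩ : A) = 1 := by
          apply Subtype.ext
          change r ⟨_, uS_mem hϖU hc.U0 S (some x)⟩ = 1
          rw [h4, map_one]
        rw [h5]
        exact one_mem _
    exact fun x => mem_algebraicClosure_iff.1 (h1 x)

open scoped Classical in
/-- the multiset of the residue embeddings of the generic solutions of an equation is stable -/
theorem eq_inv (hc : Cfg A H K₀ z N B₁ B₂ a w U t) (hP : Plc A V r)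
    (hg : Gens H K₀ z w t S p q) {ϖU : H}
    (hϖU : V.valuation (ϖU : Ω) = V.valuation U)
    {α π : H} (hπ : π ≠ 0) {T₀ : Ω} {s₀ : Ω ≃ₐ[k] Ω} {ξ₀ : A →ₐ[k] Ω}
    (hp : Pnt H K₀ z w U t T₀ s₀ ξ₀) (hG : Gen hP.res hP.mem H α π T₀) (hgood : ∀ x, ξ₀ x ∈ V)
    (P Q : H[X]) (hP0 : P ≠ 0) (hQ0 : Q ≠ 0) (y : Ω) (ϖ : H)
    (hϖ : V.valuation (ϖ : Ω) = V.valuation y) (hY : y / ϖ ∈ V)
    (hη : r ⟨_, hY⟩ ∉ kap hP.res hP.mem H)
    (hroots : ∀ T, Gen hP.res hP.mem H α π T → aeval T P = y * aeval T Q →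
      ∃ s ξ, Pnt H K₀ z w U t T s ξ) :
    ∃ D : Finset A, (∀ x ∈ D, x ∈ kA hP.res hP.mem H) ∧ ∀ σ : A ≃ₐ[k] A,
      (∀ x ∈ D, σ x = x) → (∀ x, σ x ∈ kA hP.res hP.mem H ↔ x ∈ kA hP.res hP.mem H) →
      σ ⟨r ⟨_, uS_mem hϖU hc.U0 S none⟩, hP.res.mem _⟩ =
        ⟨r ⟨_, uS_mem hϖU hc.U0 S none⟩, hP.res.mem _⟩ →
      σ ⟨r ⟨_, hY⟩, hP.res.mem _⟩ = ⟨r ⟨_, hY⟩, hP.res.mem _⟩ →
      ((((P.map (algebraMap H Ω) - C y * Q.map (algebraMap H Ω)).roots.filter
        (Gen hP.res hP.mem H α π)).map (eT H K₀ z w U t r)).map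
          fun ξ => (σ : A →ₐ[k] A).comp ξ) =
      ((P.map (algebraMap H Ω) - C y * Q.map (algebraMap H Ω)).roots.filter
        (Gen hP.res hP.mem H α π)).map (eT H K₀ z w U t r) := by
  classical
  by_cases hex : ∃ T, Gen hP.res hP.mem H α π T ∧ aeval T P = y * aeval T Q
  swap
  · refine ⟨∅, by simp, fun σ _ _ _ _ => ?_⟩
    have h0 : (P.map (algebraMap H Ω) - C y * Q.map (algebraMap H Ω)).roots.filter
        (Gen hP.res hP.mem H α π) = 0 := by
      rw [Multiset.filter_eq_nil]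
      intro T hT hG'
      apply hex
      refine ⟨T, hG', ?_⟩
      have h3 := (mem_roots'.mp hT).2
      rw [IsRoot.def, eval_sub, eval_mul, eval_C, eval_map, eval_map, sub_eq_zero] at h3
      exact h3
    rw [h0]
    rfl
  obtain ⟨T₁, hG₁, hT₁⟩ := hex
  obtain ⟨β, P₁, Q₁, hRD⟩ := exists_RD_eq hP.res hP.mem hπ P Q hP0 hQ0 y ϖ hϖ hG₁ hT₁
  choose βg Pg Qg hRg using fun j => hg.exists_RD hc.z0 hc.U0 hP.res hP.mem hϖU hπ hp hG hgood j
  refine ⟨cfs (pA hP.res hP.mem H P₁) ∪ cfs (pA hP.res hP.mem H Q₁) ∪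
    Finset.univ.biUnion (fun j => cfs (pA hP.res hP.mem H (Pg j)) ∪
      cfs (pA hP.res hP.mem H (Qg j))), ?_, ?_⟩
  · intro x hx
    simp only [Finset.mem_union, Finset.mem_biUnion, Finset.mem_univ, true_and] at hx
    rcases hx with (hx | hx) | ⟨j, hx | hx⟩ <;>
    · obtain ⟨n, rfl⟩ := mem_cfs hx
      exact pA_coeff_mem _ _ _ _
  · intro σ hC hσκ hu hη'
    refine hRD.E_inv hπ y hY (redEq_ne hRD.Q0 hη) (gK hg) hg.top p q (ϖS ϖU S) βg Pg Qg hRg
      (uS U S) (fun j => uS_mem hϖU hc.U0 S j) (eT H K₀ z w U t r) ?_ σ ?_ hη' ?_ ?_ ?_ ?_ ?_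
    · intro T hT hroot
      obtain ⟨s, ξ, h1⟩ := hroots T hT hroot
      have h2 := good_of_disc hP.res hP.mem hc.al hc.tH hc.K₀t hπ hp h1 hG hT hgood
      exact ⟨ξ.comp (KK K₀ z).val, fun j => hg.formula h1 j, eT_spec hP.res hc.K₀t hc.wt h1 h2⟩
    · intro x
      have := hσκ x
      rwa [mem_kA, mem_kA] at this
    · exact FixC_of fun x hx => hC x (by simp only [Finset.mem_union]; exact Or.inl (Or.inl hx))
    · exact FixC_of fun x hx => hC x (by simp only [Finset.mem_union]; exact Or.inl (Or.inr hx))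
    · exact fun j => FixC_of fun x hx => hC x (by
        simp only [Finset.mem_union, Finset.mem_biUnion, Finset.mem_univ, true_and]
        exact Or.inr ⟨j, Or.inl hx⟩)
    · exact fun j => FixC_of fun x hx => hC x (by
        simp only [Finset.mem_union, Finset.mem_biUnion, Finset.mem_univ, true_and]
        exact Or.inr ⟨j, Or.inr hx⟩)
    · rintro (_ | x)
      · exact hu
      · have h4 : (⟨_, uS_mem hϖU hc.U0 S (some x)⟩ : V) = 1 := by
          apply Subtype.ext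
          change (1 : Ω) * ((1 : H) : Ω) = 1
          rw [one_mul]
          rfl
        have h5 : (⟨r ⟨_, uS_mem hϖU hc.U0 S (some x)⟩, hP.res.mem _⟩ : A) = 1 := by
          apply Subtype.ext
          change r ⟨_, uS_mem hϖU hc.U0 S (some x)⟩ = 1
          rw [h4, map_one]
        rw [h5, map_one]

end

end Pool.Agent.TUQ
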