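import Pool.Agent.TUQ.G14
import Pool.Agent.TUQ.G10t

/-!
# The product type data at a place which does not contain `H`
-/

set_option autoImplicit false

namespace Pool.Agent.TUQ

open Polynomial Pool.Agent.TBR Cardinal

universe u

section

variable {k Ω : Type u} [Field k] [Field Ω] [Algebra k Ω]
variable {A H : IntermediateField k Ω} {K₀ : IntermediateField k A} {z : A}
  {w U t a : Ω} {N : ℕ} {B₁ B₂ : k[X]} {V : ValuationSubring Ω} {r : V →+* Ω}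
variable [IsAlgClosed Ω] [IsAlgClosed A] [IsAlgClosed H]

/-- the equation of the diagonal roots and its normalization -/
structure DgD (hP : Plc A V r) (H : IntermediateField k Ω) (N : ℕ) (B₁ B₂ : k[X]) (a U t u : Ω)
    (A₁ A₂ : H[X])
    (P Q : H[X]) (y c : Ω) (ϖ : H) (hY : y / ϖ ∈ V) : Prop where
  P0 : P ≠ 0
  Q0 : Q ≠ 0
  c0 : c ≠ 0
  ϖv : V.valuation (ϖ : Ω) = V.valuation y
  eq : A₁.map (algebraMap H Ω) - C a * A₂.map (algebraMap H Ω) =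
    C c * (P.map (algebraMap H Ω) - C y * Q.map (algebraMap H Ω))
  rel : ∃ c' ∈ kap hP.res hP.mem H, c' ≠ 0 ∧
    IsAlgebraic (IntermediateField.adjoin k {r ⟨_, hY⟩}) (u / c')
  sep : ∀ (α π : H), π ≠ 0 → ∀ (T a' : Ω), Gen hP.res hP.mem H α π T →
    Gen hP.res hP.mem H α π t → rT r α π T = rT r α π t → aeval T A₂ ≠ 0 →
    aeval T A₁ = a' * aeval T A₂ → a' ≠ a → U ^ N * aeval a' B₂ = aeval a' B₁ → False

/-- an element which is algebraic over `k(η)`, `η ∈ κ` -/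
theorem mem_kap_of_alg (hP : Plc A V r) (η x : Ω) (hη : η ∈ kap hP.res hP.mem H)
    (hx : IsAlgebraic (IntermediateField.adjoin k {η}) x) : x ∈ kap hP.res hP.mem H := by
  have := kap_closed hP.res hP.mem H
  refine g_mem_of_alg _ _ ?_
  have hle : IntermediateField.adjoin k {η} ≤ kap hP.res hP.mem H := by
    rw [IntermediateField.adjoin_le_iff]
    rintro _ rfl
    exact hη
  obtain ⟨p, hp0, hp⟩ := hx
  refine ⟨p.map (IntermediateField.inclusion hle : _ →+* kap hP.res hP.mem H),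
    (Polynomial.map_ne_zero_iff (IntermediateField.inclusion_injective hle)).2 hp0, ?_⟩
  rw [aeval_def, eval₂_map]
  exact hp

theorem mem_kap_of_alg_k (hP : Plc A V r) (x : Ω) (hx : IsAlgebraic k x) :
    x ∈ kap hP.res hP.mem H := by
  have := kap_closed hP.res hP.mem H
  exact g_mem_of_alg _ _ (hx.tower_top _)

theorem DgD.η_notMem {hP : Plc A V r} {u : Ω} {A₁ A₂ P Q : H[X]} {y c : Ω} {ϖ : H}
    {hY : y / ϖ ∈ V} (h : DgD hP H N B₁ B₂ a U t u A₁ A₂ P Q y c ϖ hY)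
    (hu : u ∉ kap hP.res hP.mem H) : r ⟨_, hY⟩ ∉ kap hP.res hP.mem H := by
  intro hη
  obtain ⟨c', hc', h0, h1⟩ := h.rel
  apply hu
  have h2 := mem_kap_of_alg hP _ _ hη h1
  have h3 : u = (u / c') * c' := by field_simp
  rw [h3]
  exact mul_mem h2 hc'

/-- two points with the same residue: the values of the function are close -/
theorem near (hP : Plc A V r) {α π : H} (hπ : π ≠ 0) {P Q : H[X]} (hP0 : P ≠ 0) (hQ0 : Q ≠ 0)
    {T t y₁ y₂ : Ω} {ϖ : H}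
    (hϖ : V.valuation (ϖ : Ω) = V.valuation y₂) (hG : Gen hP.res hP.mem H α π T)
    (hGt : Gen hP.res hP.mem H α π t) (hres : rT r α π T = rT r α π t)
    (h₁ : aeval T P = y₁ * aeval T Q) (h₂ : aeval t P = y₂ * aeval t Q) :
    V.valuation (y₁ / ϖ - y₂ / ϖ) < 1 ∧ V.valuation (y₁ / y₂ - 1) < 1 := by
  have hκ := kap_closed hP.res hP.mem H
  obtain ⟨β, P₁, Q₁, hRD⟩ := exists_RD_eq hP.res hP.mem hπ P Q hP0 hQ0 y₂ ϖ hϖ hGt h₂
  obtain ⟨hx, hx1⟩ := hG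
  obtain ⟨hy, hy1⟩ := hGt
  obtain ⟨e1, e2⟩ := hRD.res hπ T hx hx1
  obtain ⟨f1, f2⟩ := hRD.res hπ t hy hy1
  have hqT := hRD.Q_ne hπ T hx hx1
  have hqt := hRD.Q_ne hπ t hy hy1
  have hy1' : aeval T P / aeval T Q = y₁ := by rw [h₁, mul_div_assoc, div_self hqT, mul_one]
  have hy2' : aeval t P / aeval t Q = y₂ := by rw [h₂, mul_div_assoc, div_self hqt, mul_one]
  rw [rT_of α π hx, rT_of α π hy] at hres
  rw [hres, ← f2] at e2
  have h3 := mul_right_cancel₀ (aeval_ne_zero _ _ hy1 _ hRD.Q0) e2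
  rw [hP.res.eq_of_sub hP.mem, hy1', hy2'] at h3
  refine ⟨h3, ?_⟩
  have hϖ0 : (ϖ : Ω) ≠ 0 := by simpa using hRD.ϖ0
  have hy0 : y₂ ≠ 0 := by
    rintro rfl
    rw [map_zero] at hϖ
    exact (_root_.map_ne_zero V.valuation).mpr hϖ0 hϖ
  have h4 : y₁ / y₂ - 1 = (y₁ / ϖ - y₂ / ϖ) * (ϖ / y₂) := by field_simp
  rw [h4, map_mul, map_div₀ V.valuation (ϖ : Ω), hϖ,
    div_self ((_root_.map_ne_zero V.valuation).mpr hy0), mul_one]
  exact h3

variable {S : Finset A}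

/-- case (a): the value of `a` is not a zero or pole of `b` -/
theorem dg_a (hc : Cfg A H K₀ z N B₁ B₂ a w U t) (hP : Plc A V r) {ϖU : H}
    (hϖU : V.valuation (ϖU : Ω) = V.valuation U)
    (hu : r ⟨_, uS_mem hϖU hc.U0 S none⟩ ∉ kap hP.res hP.mem H) {A₁ A₂ : H[X]} (hA₁ : A₁ ≠ 0)
    (hA₂ : A₂ ≠ 0) (aeq : a * aeval t A₂ = aeval t A₁) (haV : a ∈ V)
    (hb : aeval (r ⟨a, haV⟩) (B₁ * B₂) ≠ 0) :
    ∃ (P Q : H[X]) (y c : Ω) (ϖ : H) (hY : y / ϖ ∈ V),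
      DgD hP H N B₁ B₂ a U t (r ⟨_, uS_mem hϖU hc.U0 S none⟩) A₁ A₂ P Q y c ϖ hY := by
  set β := r ⟨a, haV⟩ with hβ
  rw [map_mul] at hb
  have hb₁ : aeval β B₁ ≠ 0 := left_ne_zero_of_mul hb
  have hb₂ : aeval β B₂ ≠ 0 := right_ne_zero_of_mul hb
  have hr₁ := hP.res_aeval B₁ haV
  have hr₂ := hP.res_aeval B₂ haV
  rw [← hβ] at hr₁ hr₂
  have hv₁ : V.valuation (aeval a B₁) = 1 := hP.unit (hP.aeval_mem B₁ haV) (by rw [hr₁]; exact hb₁)
  have hv₂ : V.valuation (aeval a B₂) = 1 := hP.unit (hP.aeval_mem B₂ haV) (by rw [hr₂]; exact hb₂)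
  have hvU : V.valuation U = 1 := by
    have h2 := congrArg V.valuation hc.eqU
    rw [map_mul, map_pow, hv₁, hv₂, mul_one] at h2
    exact (pow_eq_one_iff_of_nonneg zero_le hc.Npos.ne').1 h2
  have hUV : U ∈ V := (val_le V U).2 hvU.le
  have hueq : (r ⟨U, hUV⟩) ^ N * aeval β B₂ = aeval β B₁ := by
    rw [← hr₁, ← hr₂, ← map_pow, ← map_mul]
    congr 1
    exact Subtype.ext hc.eqU
  have hUN : (r ⟨U, hUV⟩) ^ N = aeval β B₁ / aeval β B₂ := by rw [eq_div_iff hb₂, hueq]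
  -- the constant
  have hϖ1 : V.valuation ((ϖU⁻¹ : H) : Ω) = 1 := by
    have h1 : ((ϖU⁻¹ : H) : Ω) = (ϖU : Ω)⁻¹ := map_inv₀ (algebraMap H Ω) _
    rw [h1, map_inv₀, hϖU, hvU, inv_one]
  have hϖV : ((ϖU⁻¹ : H) : Ω) ∈ V := (val_le V _).2 hϖ1.le
  have hu0 : r ⟨_, uS_mem hϖU hc.U0 S none⟩ = r ⟨U, hUV⟩ * r ⟨_, hϖV⟩ := by
    rw [← map_mul]
    rfl
  have hc' : r ⟨_, hϖV⟩ ∈ kap hP.res hP.mem H := res_mem_kap hP.res hP.mem H hϖV (ϖU⁻¹ : H).2
  have hc'0 : r ⟨_, hϖV⟩ ≠ 0 := by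
    intro h0
    have h1 := (hP.res.zero_iff hP.mem ⟨_, hϖV⟩).mp h0
    rw [hϖ1] at h1
    exact lt_irrefl _ h1
  have hrU : r ⟨_, uS_mem hϖU hc.U0 S none⟩ / r ⟨_, hϖV⟩ = r ⟨U, hUV⟩ := by
    rw [hu0, mul_div_assoc, div_self hc'0, mul_one]
  -- the value of `a` is one
  have hva : V.valuation a = 1 := by
    refine le_antisymm ((val_le V a).1 haV) (not_lt.1 fun hlt => ?_)
    have hβ0 : β = 0 := (hP.res.zero_iff hP.mem ⟨a, haV⟩).mpr hlt
    apply hu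
    rw [hu0]
    refine mul_mem (mem_kap_of_alg_k hP _ ?_) hc'
    refine IsAlgebraic.of_pow hc.Npos ?_
    rw [hUN, hβ0, div_eq_mul_inv]
    exact (alg_aeval isAlgebraic_zero B₁).mul (alg_aeval isAlgebraic_zero B₂).inv
  have hY : a / ((1 : H) : Ω) ∈ V := by
    have : a / ((1 : H) : Ω) = a := by
      change a / 1 = a
      rw [div_one]
    rw [this]
    exact haV
  have hYr : r ⟨_, hY⟩ = β := by
    rw [hβ]
    congr 1
    apply Subtype.ext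
    change a / 1 = a
    rw [div_one]
  have hrel : IsAlgebraic (IntermediateField.adjoin k {β}) (r ⟨U, hUV⟩) := by
    refine IsAlgebraic.of_pow hc.Npos ?_
    have h1 : ∀ B : k[X], aeval β B ∈ IntermediateField.adjoin k {β} := by
      intro B
      rw [aeval_eq_sum_range]
      refine sum_mem fun i _ => ?_
      rw [Algebra.smul_def]
      exact mul_mem (IntermediateField.algebraMap_mem _ _)
        (pow_mem (IntermediateField.mem_adjoin_simple_self k β) i)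
    rw [hUN]
    exact isAlgebraic_algebraMap
      (⟨_, div_mem (h1 B₁) (h1 B₂)⟩ : IntermediateField.adjoin k {β})
  have hD1 : V.valuation ((1 : H) : Ω) = V.valuation a := by
    rw [hva]
    exact map_one _
  have hr1 : ∃ c' ∈ kap hP.res hP.mem H, c' ≠ 0 ∧
      IsAlgebraic (IntermediateField.adjoin k {r ⟨_, hY⟩})
        (r ⟨_, uS_mem hϖU hc.U0 S none⟩ / c') := by
    refine ⟨_, hc', hc'0, ?_⟩
    rw [hYr, hrU]
    exact hrel
  refine ⟨A₁, A₂, a, 1, 1, hY, ⟨hA₁, hA₂, one_ne_zero, hD1, by rw [C_1, one_mul], hr1, ?_⟩⟩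
  intro α π hπ T a' hG hGt hres hA2T hT hne hb'
  have h1 := near hP hπ hA₁ hA₂ hD1 hG hGt hres hT aeq.symm
  have h2 : V.valuation (a' - a) < 1 := by
    have := h1.1
    have e1 : a' / ((1 : H) : Ω) - a / ((1 : H) : Ω) = a' - a := by
      change a' / 1 - a / 1 = _
      rw [div_one, div_one]
    rwa [e1] at this
  have ha'V : a' ∈ V := by
    have : a' = (a' - a) + a := by ring
    rw [this]
    exact add_mem ((val_le V _).2 h2.le) haV
  have h3 : r ⟨a', ha'V⟩ = r ⟨a, haV⟩ := (hP.res.eq_of_sub hP.mem ha'V haV).mpr h2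
  have h4 := sep_a hP hc.bc ha'V haV h3 hne (by
    rw [← hb', ← hc.eqU]
    ring)
  apply hu
  rw [hu0]
  refine mul_mem (mem_kap_of_alg hP β _ (mem_kap_of_alg_k hP _ h4) hrel) hc'

/-- case (b): the value of `a` is a zero or pole of `b` -/
theorem dg_b (hc : Cfg A H K₀ z N B₁ B₂ a w U t) (hP : Plc A V r) (hH : ∃ β ∈ H, β ∉ V) {ϖU : H}
    (hϖU : V.valuation (ϖU : Ω) = V.valuation U) {A₁ A₂ : H[X]} (P Q : H[X]) (hP0 : P ≠ 0)
    (hQ0 : Q ≠ 0) (c : Ω) (c0 : c ≠ 0) (m : Ω → Ω) (m0 : m a ≠ 0) (hm : V.valuation (m a) < 1)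
    (eq : A₁.map (algebraMap H Ω) - C a * A₂.map (algebraMap H Ω) =
      C c * (P.map (algebraMap H Ω) - C (m a) * Q.map (algebraMap H Ω)))
    (hmi : ∀ x, m x = m a → x = a)
    (hmT : ∀ T x : Ω, aeval T A₂ ≠ 0 → aeval T A₁ = x * aeval T A₂ →
      U ^ N * aeval x B₂ = aeval x B₁ → aeval T P = m x * aeval T Q)
    (hmt : aeval t P = m a * aeval t Q)
    {c₁ c₂ : Polynomial Ω} {n₁ n₂ : ℕ}
    (hloc : ∀ y x : Ω, U ^ N * aeval x B₂ = aeval x B₁ → y * aeval x B₂ = aeval x B₁ →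
      LocEq k c₁ c₂ n₁ n₂ y (m x)) :
    ∃ (P Q : H[X]) (y c : Ω) (ϖ : H) (hY : y / ϖ ∈ V),
      DgD hP H N B₁ B₂ a U t (r ⟨_, uS_mem hϖU hc.U0 S none⟩) A₁ A₂ P Q y c ϖ hY := by
  have hκ := kap_closed hP.res hP.mem H
  obtain ⟨ϖ, hϖH, hϖ0, hϖ⟩ := exists_pi A hc.trA V hP.mem H hH (m a) m0
  have hvm : V.valuation (m a) ≠ 0 := (_root_.map_ne_zero _).mpr m0
  have h21 : V.valuation (m a / ϖ) = 1 := by rw [map_div₀, hϖ, div_self (by rwa [← hϖ])]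
  have hY : m a / ((⟨ϖ, hϖH⟩ : H) : Ω) ∈ V := (val_le V _).2 h21.le
  have hϖU0 : (ϖU⁻¹ : H) ≠ 0 := by
    intro h0
    have h1 := uS_val hϖU hc.U0 S none
    have h2 : ((ϖS ϖU S none : H) : Ω) = 0 := by
      change ((ϖU⁻¹ : H) : Ω) = 0
      rw [h0]
      rfl
    rw [h2, mul_zero, map_zero] at h1
    exact zero_ne_one h1
  have hrel := (hloc (U ^ N) a hc.eqU hc.eqU).rel hP.res hP.mem hm m0 H ((ϖU⁻¹ : H) : Ω) ϖ
    (ϖU⁻¹ : H).2 (fun h => hϖU0 (Subtype.ext h)) hϖH hϖ0 (uS_mem hϖU hc.U0 S none)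
    (uS_val hϖU hc.U0 S none) hY h21
  obtain ⟨a1, a2, b1, b2, hn, -⟩ := hloc (U ^ N) a hc.eqU hc.eqU
  set η := r ⟨_, hY⟩ with hη
  have hη0 : η ≠ 0 := by
    intro h0
    have h1 := (hP.res.zero_iff hP.mem ⟨_, hY⟩).mp h0
    change V.valuation (m a / ϖ) < 1 at h1
    rw [h21] at h1
    exact lt_irrefl _ h1
  refine ⟨P, Q, m a, c, ⟨ϖ, hϖH⟩, hY, ⟨hP0, hQ0, c0, hϖ.symm, eq, ?_, ?_⟩⟩
  · obtain ⟨d, hd, hd0, h1⟩ := hrel
    obtain ⟨⟨d', hd'⟩, hd'N⟩ := IsAlgClosed.exists_pow_nat_eq (⟨d, hd⟩ : kap hP.res hP.mem H) hc.Npos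
    have hd'N' : d' ^ N = d := congrArg Subtype.val hd'N
    have hd'0 : d' ≠ 0 := by
      rintro rfl
      rw [zero_pow hc.Npos.ne'] at hd'N'
      exact hd0 hd'N'.symm
    refine ⟨d', hd', hd'0, IsAlgebraic.of_pow hc.Npos ?_⟩
    have h2 : (r ⟨_, uS_mem hϖU hc.U0 S none⟩ / d') ^ N =
        (η ^ n₁ / η ^ n₂) * (c₁.coeff 0 * (c₂.coeff 0)⁻¹) := by
      rw [div_pow, hd'N', div_eq_iff hd0]
      have h3 : η ^ n₂ ≠ 0 := pow_ne_zero _ hη0
      have h1' : (r ⟨_, uS_mem hϖU hc.U0 S none⟩) ^ N * η ^ n₂ * c₂.coeff 0 =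
          η ^ n₁ * c₁.coeff 0 * d := h1
      field_simp
      linear_combination h1'
    rw [h2]
    have h4 : η ∈ IntermediateField.adjoin k {η} := IntermediateField.mem_adjoin_simple_self k η
    have h5 : IsAlgebraic (IntermediateField.adjoin k {η}) (η ^ n₁ / η ^ n₂) :=
      isAlgebraic_algebraMap
        (⟨_, div_mem (pow_mem h4 n₁) (pow_mem h4 n₂)⟩ : IntermediateField.adjoin k {η})
    exact h5.mul (((a1 0).mul (a2 0).inv).tower_top _)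
  · intro α π hπ T a' hG hGt hres hA2T hT hne hb'
    have h1 := near hP hπ hP0 hQ0 (ϖ := ⟨ϖ, hϖH⟩) hϖ.symm hG hGt hres (hmT T a' hA2T hT hb') hmt
    exact (hloc (U ^ N) a hc.eqU hc.eqU).sep hP.res hP.mem (hloc (U ^ N) a' hb' hb')
      (pow_ne_zero _ hc.U0) hm m0 (fun h => hne (hmi a' h)) h1.2

end

end Pool.Agent.TUQ
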