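import Pool.Agent.TUQ.G15
import Pool.Agent.TUQ.S4c

/-!
# The product type data: existence
-/

set_option autoImplicit false

namespace Pool.Agent.TUQ

open Polynomial Pool.Agent.TBR Cardinal

universe u

section

variable {k Ω : Type u} [Field k] [Field Ω] [Algebra k Ω]
variable {A H : IntermediateField k Ω} {K₀ : IntermediateField k A} {z : A}
  {w U t a : Ω} {N : ℕ} {B₁ B₂ : k[X]} {V : ValuationSubring Ω} {r : V →+* Ω}
variable [IsAlgClosed Ω] [IsAlgClosed A] [IsAlgClosed H]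

theorem ne_zero_of_eq (hc : Cfg A H K₀ z N B₁ B₂ a w U t) (hNU : NU (KK K₀ z)) {x : Ω}
    (hx : U ^ N * aeval x B₂ = aeval x B₁) : x ≠ 0 := by
  rintro rfl
  have h1 : ∀ B : k[X], aeval (0 : Ω) B = algebraMap k Ω (B.eval 0) := by
    intro B
    have := aeval_algebraMap_apply_eq_algebraMap_eval (A := Ω) (0 : k) B
    rwa [map_zero] at this
  rw [h1, h1] at hx
  by_cases h2 : B₂.eval 0 = 0
  · rw [h2, map_zero, mul_zero] at hx
    have h3 : B₁.eval 0 = 0 := (_root_.map_eq_zero _).mp hx.symm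
    obtain ⟨p, q, hpq⟩ := hc.bc.cop
    have := congrArg (eval 0) hpq
    rw [eval_add, eval_mul, eval_mul, h2, h3, mul_zero, mul_zero, add_zero, eval_one] at this
    exact zero_ne_one this
  · apply hc.UH hNU
    have h3 : algebraMap k Ω (B₂.eval 0) ≠ 0 := (_root_.map_ne_zero _).mpr h2
    rw [← eq_div_iff h3] at hx
    rw [hx]
    exact div_mem (H.algebraMap_mem _) (H.algebraMap_mem _)

theorem aeval_H (H : IntermediateField k Ω) [IsAlgClosed H] {t : Ω} (ht : t ∉ H) {P : H[X]}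
    (h : aeval t P = 0) : P = 0 := by
  by_contra hP
  exact aeval_ne_zero H t ht P hP h

variable {S : Finset A}

theorem exists_dg (hc : Cfg A H K₀ z N B₁ B₂ a w U t) (hNU : NU (KK K₀ z)) (hP : Plc A V r)
    (hH : ∃ β ∈ H, β ∉ V) {ϖU : H}
    (hϖU : V.valuation (ϖU : Ω) = V.valuation U)
    (hu : r ⟨_, uS_mem hϖU hc.U0 S none⟩ ∉ kap hP.res hP.mem H) {A₁ A₂ : H[X]}
    (hA₂ : A₂ ≠ 0) (hA₂t : aeval t A₂ ≠ 0) (aeq : a * aeval t A₂ = aeval t A₁) :
    ∃ (P Q : H[X]) (y c : Ω) (ϖ : H) (hY : y / ϖ ∈ V),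
      DgD hP H N B₁ B₂ a U t (r ⟨_, uS_mem hϖU hc.U0 S none⟩) A₁ A₂ P Q y c ϖ hY := by
  have ha0 : a ≠ 0 := by
    rintro rfl
    exact hc.aA (zero_mem A)
  have hA₁ : A₁ ≠ 0 := by
    rintro rfl
    rw [map_zero] at aeq
    exact ha0 ((mul_eq_zero.1 aeq).resolve_right hA₂t)
  by_cases haV : a ∈ V
  · by_cases hb : aeval (r ⟨a, haV⟩) (B₁ * B₂) ≠ 0
    · exact dg_a hc hP hϖU hu hA₁ hA₂ aeq haV hb
    · push Not at hb
      set β := r ⟨a, haV⟩ with hβ
      have hβA : β ∈ A := hP.res.mem _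
      have hβk : IsAlgebraic k β := ⟨B₁ * B₂, mul_ne_zero hc.bc.ne.1 hc.bc.ne.2, hb⟩
      have hβH : β ∈ H := g_mem_of_alg H β (hβk.tower_top _)
      obtain ⟨c₁, c₂, n₁, n₂, hloc⟩ := exists_locEq_fin (Ω := Ω) hc.bc hβA hb
      have hne : a ≠ β := fun h => hc.aA (by rw [h]; exact hβA)
      have hPt : ∀ x : Ω, aeval x (A₁ - C (⟨β, hβH⟩ : H) * A₂) = aeval x A₁ - β * aeval x A₂ := by
        intro x
        rw [map_sub, map_mul, aeval_C]
        rfl
      refine dg_b hc hP hH hϖU (A₁ - C (⟨β, hβH⟩ : H) * A₂) A₂ ?_ hA₂ 1 one_ne_zero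
        (fun x => x - β) (sub_ne_zero.mpr hne) ?_ ?_ ?_ ?_ ?_ (c₁ := c₁) (c₂ := c₂) (n₁ := n₁)
        (n₂ := n₂) (fun y x _ h => hloc y x h)
      · intro h0
        have h1 := hPt t
        rw [h0, map_zero, ← aeq, ← sub_mul] at h1
        exact mul_ne_zero (sub_ne_zero.mpr hne) hA₂t h1.symm
      · have h1 := hP.res.sub ⟨a, haV⟩
        rw [nonunits_iff] at h1
        exact h1
      · rw [Polynomial.map_sub, Polynomial.map_mul, map_C]
        have h1 : algebraMap H Ω ⟨β, hβH⟩ = β := rfl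
        rw [h1, C_1, C_sub]
        ring
      · intro x hx
        exact sub_left_injective hx
      · intro T x _ h _
        rw [hPt, h]
        ring
      · rw [hPt, ← aeq]
        ring
  · have hva : V.valuation a⁻¹ < 1 := by
      rw [map_inv₀]
      refine inv_lt_one_of_one_lt₀ (not_le.mp ?_)
      rwa [← val_le]
    obtain ⟨c₁, c₂, n₁, n₂, hloc⟩ := exists_locEq_inf (Ω := Ω) hc.bc
    refine dg_b hc hP hH hϖU A₂ A₁ hA₂ hA₁ (-a) (neg_ne_zero.mpr ha0)
      (fun x => x⁻¹) (inv_ne_zero ha0) hva ?_ ?_ ?_ ?_ (c₁ := c₁) (c₂ := c₂) (n₁ := n₁)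
      (n₂ := n₂) (fun y x h' h => hloc y x (ne_zero_of_eq hc hNU h') h)
    · have h1 : (C a : Polynomial Ω) * C a⁻¹ = 1 := by
        rw [← C_mul, mul_inv_cancel₀ ha0, C_1]
      rw [C_neg]
      linear_combination (-A₁.map (algebraMap H Ω)) * h1
    · intro x hx
      exact inv_injective hx
    · intro T x _ h hb
      have hx := ne_zero_of_eq hc hNU hb
      rw [h]
      field_simp
    · rw [← aeq]
      field_simp

end

end Pool.Agent.TUQ
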