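import Pool.Agent.TUQ.G16

/-!
# The multiset of residue embeddings of the roots of `f` in a disc
-/

set_option autoImplicit false

namespace Pool.Agent.TUQ

open Polynomial Pool.Agent.TBR Cardinal

universe u

section

variable {k Ω : Type u} [Field k] [Field Ω] [Algebra k Ω]
variable {A H : IntermediateField k Ω} {K₀ : IntermediateField k A} {z : A}
  {w U t a : Ω} {N : ℕ} {B₁ B₂ : k[X]} {V : ValuationSubring Ω} {r : V →+* Ω}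
variable [IsAlgClosed Ω] [IsAlgClosed A] [IsAlgClosed H]
variable {A₁ A₂ : H[X]} {c : Ω} {Φ : k[X][X]} {m : ℕ} {T : Fin m → Ω}
  {s : Fin m → (Ω ≃ₐ[k] Ω)} {ξ : Fin m → (A →ₐ[k] Ω)} {f : Polynomial Ω}

theorem PH_eval (B₁ B₂ B : k[X]) (hB : B.natDegree ≤ max B₁.natDegree B₂.natDegree)
    (A₁ A₂ : H[X]) (x : Ω) (hx : aeval x A₂ ≠ 0) :
    aeval x (PH B₁ B₂ B A₁ A₂) =
      (aeval x A₂) ^ (max B₁.natDegree B₂.natDegree) * aeval (aeval x A₁ / aeval x A₂) B :=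
  hg_eval _ B hB A₁ A₂ x hx

theorem GD.a_eq (hd : GD A H K₀ z N B₁ B₂ a w U t A₁ A₂ c Φ T s ξ f) :
    aeval t A₁ / aeval t A₂ = a := by
  rw [div_eq_iff hd.A₂t, hd.aeq]

theorem GD.sa_eq (hd : GD A H K₀ z N B₁ B₂ a w U t A₁ A₂ c Φ T s ξ f) {s' : Ω ≃ₐ[k] Ω}
    (hs' : s' ∈ Fx k (H : Set Ω)) {x : Ω} (hx : s' t = x) : s' a = aeval x A₁ / aeval x A₂ := by
  rw [← hd.a_eq, map_div₀, Fx_aeval H hs', Fx_aeval H hs', hx]

theorem GD.pnt (hd : GD A H K₀ z N B₁ B₂ a w U t A₁ A₂ c Φ T s ξ f) (i : Fin m) :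
    Pnt H K₀ z w U t (T i) (s i) (ξ i) := ⟨hd.sH i, hd.st i, hd.ξK i, hd.ξz i⟩

theorem GD.root (hd : GD A H K₀ z N B₁ B₂ a w U t A₁ A₂ c Φ T s ξ f) (i : Fin m) :
    aeval (T i) (PH B₁ B₂ B₁ A₁ A₂) = U ^ N * aeval (T i) (PH B₁ B₂ B₂ A₁ A₂) := by
  classical
  have hr : f.IsRoot (T i) := by
    rw [← mem_roots hd.f0, hd.roots, Multiset.mem_map]
    exact ⟨i, Finset.mem_univ_val _, rfl⟩
  have h1 := congrArg (eval (T i)) hd.feq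
  rw [eval_mul, hr.eq_zero, mul_zero, eval_sub, eval_mul, eval_C, eval_map_algebraMap,
    eval_map_algebraMap, sub_eq_zero] at h1
  exact h1

/-- every solution of the full equation outside `H` carries an embedding -/
theorem GD.exists_pnt (hd : GD A H K₀ z N B₁ B₂ a w U t A₁ A₂ c Φ T s ξ f)
    (hc : Cfg A H K₀ z N B₁ B₂ a w U t) {x : Ω} (hx : x ∉ H)
    (h : aeval x (PH B₁ B₂ B₁ A₁ A₂) = U ^ N * aeval x (PH B₁ B₂ B₂ A₁ A₂)) :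
    ∃ s ξ, Pnt H K₀ z w U t x s ξ := by
  obtain ⟨s', hs', hst⟩ := exists_s H hc.trH t x hc.tH hx
  have hA₂x : aeval x A₂ ≠ 0 := aeval_ne_zero H x hx A₂ hd.A₂0
  obtain ⟨ξ', h1, h2⟩ := hc.exists_xi s' (by
    rw [hd.sa_eq hs' hst]
    rw [PH_eval _ _ _ (le_max_left _ _) _ _ _ hA₂x, PH_eval _ _ _ (le_max_right _ _) _ _ _ hA₂x]
      at h
    refine mul_left_cancel₀ (pow_ne_zero (max B₁.natDegree B₂.natDegree) hA₂x) ?_
    linear_combination -h)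
  exact ⟨s', ξ', hs', hst, h1, h2⟩

/-- every diagonal solution carries an embedding -/
theorem GD.exists_pnt' (hd : GD A H K₀ z N B₁ B₂ a w U t A₁ A₂ c Φ T s ξ f)
    (hc : Cfg A H K₀ z N B₁ B₂ a w U t) {x : Ω} (hx : x ∉ H)
    (h : aeval x A₁ = a * aeval x A₂) :
    ∃ s ξ, Pnt H K₀ z w U t x s ξ := by
  obtain ⟨s', hs', hst⟩ := exists_s H hc.trH t x hc.tH hx
  have hA₂x : aeval x A₂ ≠ 0 := aeval_ne_zero H x hx A₂ hd.A₂0
  obtain ⟨ξ', h1, h2⟩ := hc.exists_xi s' (by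
    rw [hd.sa_eq hs' hst, h, mul_div_assoc, div_self hA₂x, mul_one, hc.eqU])
  exact ⟨s', ξ', hs', hst, h1, h2⟩

variable {S : Finset A} {p q : Option S → H[X]}

theorem PH_ne (hc : Cfg A H K₀ z N B₁ B₂ a w U t)
    (hd : GD A H K₀ z N B₁ B₂ a w U t A₁ A₂ c Φ T s ξ f) {B : k[X]}
    (hB : B.natDegree ≤ max B₁.natDegree B₂.natDegree) (hB0 : B ≠ 0) : PH B₁ B₂ B A₁ A₂ ≠ 0 := by
  intro h
  have h1 := PH_eval B₁ B₂ B hB A₁ A₂ t hd.A₂t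
  rw [h, map_zero, hd.a_eq] at h1
  exact mul_ne_zero (pow_ne_zero _ hd.A₂t) (aeval_ne_k A hc.aA hB0) h1.symm

theorem full_mem {ϖU : H} (hϖU : V.valuation (ϖU : Ω) = V.valuation U) (U0 : U ≠ 0) (N : ℕ) :
    U ^ N / ((ϖU ^ N : H) : Ω) ∈ V := by
  have h1 : ((ϖU ^ N : H) : Ω) = (ϖU : Ω) ^ N := map_pow (algebraMap H Ω) _ _
  rw [h1, val_le, map_div₀, map_pow, map_pow, hϖU, div_self]
  exact pow_ne_zero _ ((_root_.map_ne_zero _).mpr U0)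

theorem full_res (hP : Plc A V r) {ϖU : H} (hϖU : V.valuation (ϖU : Ω) = V.valuation U)
    (U0 : U ≠ 0) (N : ℕ) :
    r ⟨_, full_mem hϖU U0 N⟩ = (r ⟨_, uS_mem hϖU U0 S none⟩) ^ N := by
  rw [← map_pow]
  congr 1
  apply Subtype.ext
  have h1 : ((ϖU ^ N : H) : Ω) = (ϖU : Ω) ^ N := map_pow (algebraMap H Ω) _ _
  have h2 : ((ϖU⁻¹ : H) : Ω) = (ϖU : Ω)⁻¹ := map_inv₀ (algebraMap H Ω) _
  change U ^ N / ((ϖU ^ N : H) : Ω) = (U * ((ϖU⁻¹ : H) : Ω)) ^ N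
  rw [h1, h2, mul_pow, inv_pow, div_eq_mul_inv]

theorem full_notMem (hP : Plc A V r) {ϖU : H} (hϖU : V.valuation (ϖU : Ω) = V.valuation U)
    (U0 : U ≠ 0) {N : ℕ} (hN : 0 < N)
    (hu : r ⟨_, uS_mem hϖU U0 S none⟩ ∉ kap hP.res hP.mem H) :
    r ⟨_, full_mem hϖU U0 N⟩ ∉ kap hP.res hP.mem H := by
  have := kap_closed hP.res hP.mem H
  rw [full_res (S := S) hP hϖU U0 N]
  intro h
  apply hu
  refine g_mem_of_alg _ _ (IsAlgebraic.of_pow hN ?_)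
  exact isAlgebraic_algebraMap (⟨_, h⟩ : kap hP.res hP.mem H)

open scoped Classical in
/-- the multiset of the residue embeddings of the roots of `f` in a disc is stable -/
theorem disc_f (hc : Cfg A H K₀ z N B₁ B₂ a w U t) (hP : Plc A V r)
    (hd : GD A H K₀ z N B₁ B₂ a w U t A₁ A₂ c Φ T s ξ f)
    (hg : Gens H K₀ z w t S p q) {ϖU : H} (hϖU : V.valuation (ϖU : Ω) = V.valuation U)
    (hu : r ⟨_, uS_mem hϖU hc.U0 S none⟩ ∉ kap hP.res hP.mem H)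
    {P Q : H[X]} {y c' : Ω} {ϖ : H} {hY : y / ϖ ∈ V}
    (hD : DgD hP H N B₁ B₂ a U t (r ⟨_, uS_mem hϖU hc.U0 S none⟩) A₁ A₂ P Q y c' ϖ hY)
    {α π : H} (hπ : π ≠ 0) {T₀ : Ω} {s₀ : Ω ≃ₐ[k] Ω} {ξ₀ : A →ₐ[k] Ω}
    (hp : Pnt H K₀ z w U t T₀ s₀ ξ₀) (hG : Gen hP.res hP.mem H α π T₀) (hgood : ∀ x, ξ₀ x ∈ V) :
    ∃ D : Finset A, (∀ x ∈ D, x ∈ kA hP.res hP.mem H) ∧ ∀ σ : A ≃ₐ[k] A,
      (∀ x ∈ D, σ x = x) → (∀ x, σ x ∈ kA hP.res hP.mem H ↔ x ∈ kA hP.res hP.mem H) →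
      σ ⟨r ⟨_, uS_mem hϖU hc.U0 S none⟩, hP.res.mem _⟩ =
        ⟨r ⟨_, uS_mem hϖU hc.U0 S none⟩, hP.res.mem _⟩ →
      σ ⟨r ⟨_, hY⟩, hP.res.mem _⟩ = ⟨r ⟨_, hY⟩, hP.res.mem _⟩ →
      (((f.roots.filter (Gen hP.res hP.mem H α π)).map (eT H K₀ z w U t r)).map
          fun ξ => (σ : A →ₐ[k] A).comp ξ) =
      (f.roots.filter (Gen hP.res hP.mem H α π)).map (eT H K₀ z w U t r) := by
  classical
  have hϖN : V.valuation ((ϖU ^ N : H) : Ω) = V.valuation (U ^ N) := by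
    have h1 : ((ϖU ^ N : H) : Ω) = (ϖU : Ω) ^ N := map_pow (algebraMap H Ω) _ _
    rw [h1, map_pow, map_pow, hϖU]
  obtain ⟨D₁, hD₁, h₁⟩ := eq_inv hc hP hg hϖU hπ hp hG hgood (PH B₁ B₂ B₁ A₁ A₂)
    (PH B₁ B₂ B₂ A₁ A₂) (PH_ne hc hd (le_max_left _ _) hc.bc.ne.1)
    (PH_ne hc hd (le_max_right _ _) hc.bc.ne.2) (U ^ N) (ϖU ^ N) hϖN (full_mem hϖU hc.U0 N)
    (full_notMem hP hϖU hc.U0 hc.Npos hu) (fun x hx h => hd.exists_pnt hc hx.notMem h)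
  have hdiag : ∀ x, aeval x P = y * aeval x Q → aeval x A₁ = a * aeval x A₂ := by
    intro x hx
    have h1 := congrArg (eval x) hD.eq
    rw [eval_sub, eval_mul, eval_C, eval_map_algebraMap, eval_map_algebraMap, eval_mul, eval_C,
      eval_sub, eval_mul, eval_C, eval_map_algebraMap, eval_map_algebraMap, hx, sub_self, mul_zero,
      sub_eq_zero] at h1
    exact h1
  obtain ⟨D₂, hD₂, h₂⟩ := eq_inv hc hP hg hϖU hπ hp hG hgood P Q hD.P0 hD.Q0 y ϖ hD.ϖv hY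
    (hD.η_notMem hu) (fun x hx h => hd.exists_pnt' hc hx.notMem (hdiag x h))
  refine ⟨D₁ ∪ D₂, fun x hx => ?_, fun σ hσ hσκ hσu hση => ?_⟩
  · rcases Finset.mem_union.mp hx with h | h
    · exact hD₁ x h
    · exact hD₂ x h
  have e1 := h₁ σ (fun x hx => hσ x (Finset.mem_union_left _ hx)) hσκ hσu (by
    have h3 : (⟨r ⟨_, full_mem hϖU hc.U0 N⟩, hP.res.mem _⟩ : A) =
        (⟨r ⟨_, uS_mem hϖU hc.U0 S none⟩, hP.res.mem _⟩ : A) ^ N :=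
      Subtype.ext (full_res hP hϖU hc.U0 N)
    rw [h3, map_pow, hσu])
  have e2 := h₂ σ (fun x hx => hσ x (Finset.mem_union_right _ hx)) hσκ hσu hση
  -- the roots
  have hne : (A₁.map (algebraMap H Ω) - C a * A₂.map (algebraMap H Ω)) ≠ 0 := by
    intro h0
    have h3 := hd.feq
    rw [h0, mul_zero, zero_mul] at h3
    obtain ⟨β, P₁, Q₁, hRD⟩ := exists_RD_eq hP.res hP.mem hπ (PH B₁ B₂ B₁ A₁ A₂)
      (PH B₁ B₂ B₂ A₁ A₂) (PH_ne hc hd (le_max_left _ _) hc.bc.ne.1)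
      (PH_ne hc hd (le_max_right _ _) hc.bc.ne.2) (U ^ N) (ϖU ^ N) hϖN hG (by
        have h4 := congrArg (eval T₀) h3
        rw [eval_zero, eval_sub, eval_mul, eval_C, eval_map_algebraMap, eval_map_algebraMap,
          sub_eq_zero] at h4
        exact h4)
    have h5 : C (U ^ N) * (PH B₁ B₂ B₂ A₁ A₂).map (algebraMap H Ω) =
        (PH B₁ B₂ B₁ A₁ A₂).map (algebraMap H Ω) := (sub_eq_zero.mp h3).symm
    obtain ⟨j, hj⟩ : ∃ j, (PH B₁ B₂ B₂ A₁ A₂).coeff j ≠ 0 := by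
      by_contra! hcon
      exact PH_ne hc hd (le_max_right _ _) hc.bc.ne.2 (Polynomial.ext fun j => by
        rw [hcon j, coeff_zero])
    have h6 := congrArg (fun p => p.coeff j) h5
    simp only [coeff_C_mul, coeff_map] at h6
    have hj' : algebraMap H Ω ((PH B₁ B₂ B₂ A₁ A₂).coeff j) ≠ 0 := (_root_.map_ne_zero _).mpr hj
    have h7 : U ^ N ∈ H := by
      rw [← eq_div_iff hj'] at h6
      rw [h6]
      exact div_mem (Subtype.property _) (Subtype.property _)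
    have h8 : r ⟨_, full_mem hϖU hc.U0 N⟩ ∈ kap hP.res hP.mem H :=
      res_mem_kap hP.res hP.mem H _ (div_mem h7 (ϖU ^ N : H).2)
    exact full_notMem hP hϖU hc.U0 hc.Npos hu h8
  have hroots : ((PH B₁ B₂ B₁ A₁ A₂).map (algebraMap H Ω) -
      C (U ^ N) * (PH B₁ B₂ B₂ A₁ A₂).map (algebraMap H Ω)).roots =
      (P.map (algebraMap H Ω) - C y * Q.map (algebraMap H Ω)).roots + f.roots := by
    rw [hd.feq, mul_assoc, roots_C_mul _ hd.c0, roots_mul (mul_ne_zero hne hd.f0), hD.eq,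
      roots_C_mul _ hD.c0]
  rw [hroots, Multiset.filter_add, Multiset.map_add, Multiset.map_add, e2] at e1
  exact add_left_cancel e1

end

end Pool.Agent.TUQ
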