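import Pool.Agent.TUQ.G1
import Pool.Agent.UQ.Trdeg

/-!
# The residue field of an algebraically closed subfield
-/

set_option autoImplicit false

namespace Pool.Agent.TUQ

open Polynomial Pool.Agent.TBR

universe u

section

variable {k Ω : Type u} [Field k] [Field Ω] [Algebra k Ω]
variable {A : IntermediateField k Ω} {V : ValuationSubring Ω} {r : V →+* Ω}

theorem IsRes.alg (hr : IsRes A V r) (c : k) (h : algebraMap k Ω c ∈ V) :
    r ⟨algebraMap k Ω c, h⟩ = algebraMap k Ω c :=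
  hr.fix _ h (A.algebraMap_mem c)

/-- the residue field of the subfield `H`, inside the field of representatives `A` -/
def kap (hr : IsRes A V r) (hV : ∀ x ∈ A, x ∈ V) (H : IntermediateField k Ω) :
    IntermediateField k Ω where
  carrier := {a | ∃ (h : Ω) (hh : h ∈ V), h ∈ H ∧ r ⟨h, hh⟩ = a}
  mul_mem' := by
    rintro _ _ ⟨a, ha, haH, rfl⟩ ⟨b, hb, hbH, rfl⟩
    exact ⟨a * b, mul_mem ha hb, mul_mem haH hbH, map_mul r ⟨a, ha⟩ ⟨b, hb⟩⟩
  one_mem' := ⟨1, one_mem _, one_mem _, map_one r⟩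
  add_mem' := by
    rintro _ _ ⟨a, ha, haH, rfl⟩ ⟨b, hb, hbH, rfl⟩
    exact ⟨a + b, add_mem ha hb, add_mem haH hbH, map_add r ⟨a, ha⟩ ⟨b, hb⟩⟩
  zero_mem' := ⟨0, zero_mem _, zero_mem _, map_zero r⟩
  algebraMap_mem' c := ⟨algebraMap k Ω c, hV _ (A.algebraMap_mem c), H.algebraMap_mem c,
    hr.alg c _⟩
  inv_mem' := by
    rintro _ ⟨a, ha, haH, rfl⟩
    by_cases h0 : r ⟨a, ha⟩ = 0
    · exact ⟨0, zero_mem _, zero_mem _, by
        rw [h0, inv_zero]; exact map_zero r⟩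
    have h1 : V.valuation a = 1 := by
      refine le_antisymm ((val_le V a).mp ha) (not_lt.mp fun h => h0 ?_)
      exact (hr.zero_iff hV ⟨a, ha⟩).mpr h
    have ha0 : a ≠ 0 := by rintro rfl; exact h0 (map_zero r)
    have h2 : a⁻¹ ∈ V := by rw [val_le, map_inv₀, h1, inv_one]
    refine ⟨a⁻¹, h2, inv_mem haH, ?_⟩
    have h3 : r ⟨a⁻¹, h2⟩ * r ⟨a, ha⟩ = 1 := by
      rw [← map_mul]
      have : (⟨a⁻¹, h2⟩ : V) * ⟨a, ha⟩ = 1 := Subtype.ext (inv_mul_cancel₀ ha0)
      rw [this, map_one]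
    exact eq_inv_of_mul_eq_one_left h3

theorem mem_kap (hr : IsRes A V r) (hV : ∀ x ∈ A, x ∈ V) (H : IntermediateField k Ω) (a : Ω) :
    a ∈ kap hr hV H ↔ ∃ (h : Ω) (hh : h ∈ V), h ∈ H ∧ r ⟨h, hh⟩ = a := Iff.rfl

theorem kap_le (hr : IsRes A V r) (hV : ∀ x ∈ A, x ∈ V) (H : IntermediateField k Ω) :
    kap hr hV H ≤ A := by
  rintro _ ⟨h, hh, -, rfl⟩
  exact hr.mem _

theorem res_mem_kap (hr : IsRes A V r) (hV : ∀ x ∈ A, x ∈ V) (H : IntermediateField k Ω) {h : Ω}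
    (hh : h ∈ V) (hH : h ∈ H) : r ⟨h, hh⟩ ∈ kap hr hV H := ⟨h, hh, hH, rfl⟩

/-- (G4) the residue field of an algebraically closed field is algebraically closed -/
theorem kap_closed (hr : IsRes A V r) (hV : ∀ x ∈ A, x ∈ V) (H : IntermediateField k Ω)
    [IsAlgClosed H] : IsAlgClosed (kap hr hV H) := by
  let VH : ValuationSubring H := V.comap (algebraMap H Ω)
  let rH : VH →+* kap hr hV H :=
    { toFun := fun x => ⟨r ⟨(x : H), x.2⟩, res_mem_kap hr hV H _ (x : H).2⟩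
      map_one' := Subtype.ext (map_one r)
      map_mul' := fun x y => Subtype.ext (map_mul r ⟨((x : H) : Ω), x.2⟩ ⟨((y : H) : Ω), y.2⟩)
      map_zero' := Subtype.ext (map_zero r)
      map_add' := fun x y => Subtype.ext (map_add r ⟨((x : H) : Ω), x.2⟩ ⟨((y : H) : Ω), y.2⟩) }
  have hsurj : Function.Surjective rH := by
    rintro ⟨_, h, hh, hH, rfl⟩
    exact ⟨⟨⟨h, hH⟩, hh⟩, rfl⟩
  refine IsAlgClosed.of_exists_root _ fun p hp hirr => ?_
  have hl : p ∈ Polynomial.lifts rH := by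
    rw [Polynomial.lifts_iff_coeff_lifts]
    intro n
    exact hsurj _
  obtain ⟨P, hP, hPd, hPm⟩ := Polynomial.lifts_and_natDegree_eq_and_monic hl hp
  have hPn : P.natDegree ≠ 0 := by
    rw [hPd]
    exact (hirr.natDegree_pos).ne'
  have hdeg : (P.map (algebraMap VH H)).degree ≠ 0 := by
    rw [hPm.degree_map, degree_eq_natDegree hPm.ne_zero]
    exact_mod_cast hPn
  obtain ⟨x, hx⟩ := IsAlgClosed.exists_root _ hdeg
  have hxi : IsIntegral VH x := ⟨P, hPm, by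
    rwa [IsRoot.def, eval_map] at hx⟩
  obtain ⟨y, hy⟩ := IsIntegrallyClosed.algebraMap_eq_of_integral (R := VH) (K := H) hxi
  refine ⟨rH y, ?_⟩
  rw [← hP, eval_map, eval₂_hom]
  have h1 : P.eval y = 0 := by
    apply (IsFractionRing.injective VH H)
    rw [map_zero, ← eval₂_hom, hy]
    rwa [IsRoot.def, eval_map] at hx
  rw [h1, map_zero]

/-- (G4) the residue field of a subfield of transcendence degree `n + 1` which is not contained in
`V` has transcendence degree at most `n` -/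
theorem trdeg_kap (hr : IsRes A V r) (hV : ∀ x ∈ A, x ∈ V) (H : IntermediateField k Ω)
    (hH : ∃ β ∈ H, β ∉ V) : Algebra.trdeg k (kap hr hV H) + 1 ≤ Algebra.trdeg k H := by
  obtain ⟨β, hβ, hβV⟩ := hH
  have hβ0 : β ≠ 0 := by rintro rfl; exact hβV V.zero_mem
  have hb1 : V.valuation β⁻¹ < 1 := by
    rw [map_inv₀]
    refine inv_lt_one_of_one_lt₀ (not_le.mp ?_)
    rwa [← val_le]
  have hbV : β⁻¹ ∈ V := (val_le V _).mpr hb1.le
  let R : Subalgebra k H :=
    { carrier := {x | (x : Ω) ∈ V}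
      mul_mem' := fun {x y} hx hy => by
        change ((x * y : H) : Ω) ∈ V
        exact mul_mem hx hy
      add_mem' := fun {x y} hx hy => by
        change ((x + y : H) : Ω) ∈ V
        exact add_mem hx hy
      algebraMap_mem' := fun c => hV _ (A.algebraMap_mem c) }
  let θ : R →ₐ[k] Ω :=
    { toFun := fun x => r ⟨((x : H) : Ω), x.2⟩
      map_one' := map_one r
      map_mul' := fun x y => map_mul r ⟨((x : H) : Ω), x.2⟩ ⟨((y : H) : Ω), y.2⟩
      map_zero' := map_zero r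
      map_add' := fun x y => map_add r ⟨((x : H) : Ω), x.2⟩ ⟨((y : H) : Ω), y.2⟩
      commutes' := fun c => hr.alg c _ }
  have h1 := Pool.Agent.UQ.trdeg_drop R θ ⟨⟨β⁻¹, inv_mem hβ⟩, hbV⟩
    (by
      intro h
      have : (β⁻¹ : Ω) = 0 := congrArg (fun x : R => ((x : H) : Ω)) h
      exact inv_ne_zero hβ0 this)
    ((hr.zero_iff hV ⟨β⁻¹, hbV⟩).mpr hb1)
  have h2 : IntermediateField.adjoin k (Set.range θ) = kap hr hV H := by
    apply le_antisymm
    · rw [IntermediateField.adjoin_le_iff]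
      rintro _ ⟨x, rfl⟩
      exact res_mem_kap hr hV H _ (x : H).2
    · rintro _ ⟨h, hh, hhH, rfl⟩
      exact IntermediateField.subset_adjoin k _ ⟨⟨⟨h, hhH⟩, hh⟩, rfl⟩
  rwa [h2] at h1

end

end Pool.Agent.TUQ
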