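import Pool.Agent.TUQ.G2

/-!
# Gauss discs and immediate elements
-/

set_option autoImplicit false

namespace Pool.Agent.TUQ

open Polynomial Pool.Agent.TBR

universe u

section

variable {k Ω : Type u} [Field k] [Field Ω] [Algebra k Ω]
variable {A : IntermediateField k Ω} {V : ValuationSubring Ω} {r : V →+* Ω}

theorem IsRes.eq_of_sub (hr : IsRes A V r) (hV : ∀ x ∈ A, x ∈ V) {x y : Ω} (hx : x ∈ V)
    (hy : y ∈ V) : r ⟨x, hx⟩ = r ⟨y, hy⟩ ↔ V.valuation (x - y) < 1 := by
  rw [← sub_eq_zero, ← map_sub, hr.zero_iff hV]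
  rfl

/-- `τ` is Gauss in the disc `(α, π)` with residue `θ` -/
def Gauss (hr : IsRes A V r) (hV : ∀ x ∈ A, x ∈ V) (H : IntermediateField k Ω) (α π τ θ : Ω) :
    Prop :=
  α ∈ H ∧ π ∈ H ∧ π ≠ 0 ∧ (∃ h : (τ - α) / π ∈ V, r ⟨_, h⟩ = θ) ∧ θ ∉ kap hr hV H

/-- `τ` is immediate over `H` -/
def Imm (V : ValuationSubring Ω) (H : IntermediateField k Ω) (τ : Ω) : Prop :=
  ∀ α ∈ H, ∃ α' ∈ H, V.valuation (τ - α') < V.valuation (τ - α)

/-- (G5) -/
theorem gauss_or_imm (hr : IsRes A V r) (hV : ∀ x ∈ A, x ∈ V)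
    (hA1 : ∀ t : Ω, t ∉ A → ∀ x : Ω, IsAlgebraic (AA A {t}) x)
    (H : IntermediateField k Ω) [IsAlgClosed H] (hH : ∃ β ∈ H, β ∉ V) (τ : Ω) (hτ : τ ∉ H) :
    (∃ α π θ, Gauss hr hV H α π τ θ) ∨ Imm V H τ := by
  by_contra hcon
  rw [not_or] at hcon
  obtain ⟨h1, h2⟩ := hcon
  unfold Imm at h2
  push Not at h2
  obtain ⟨α, hα, h2⟩ := h2
  have h0 : τ - α ≠ 0 := fun h => hτ (by rw [sub_eq_zero.mp h]; exact hα)
  obtain ⟨π, hπ, hπ0, hv⟩ := exists_pi A hA1 V hV H hH (τ - α) h0
  have hvπ : V.valuation π ≠ 0 := (_root_.map_ne_zero _).mpr hπ0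
  have hmem : (τ - α) / π ∈ V := by
    rw [val_le, map_div₀, hv, div_self hvπ]
  apply h1
  refine ⟨α, π, r ⟨_, hmem⟩, hα, hπ, hπ0, ⟨hmem, rfl⟩, ?_⟩
  rintro ⟨γ, hγ, hγH, hγr⟩
  have h3 := (hr.eq_of_sub hV hγ hmem).mp hγr
  have h4 := h2 (α + π * γ) (add_mem hα (mul_mem hπ hγH))
  have h5 : γ - (τ - α) / π = - ((τ - (α + π * γ)) / π) := by
    field_simp
    ring
  rw [h5, Valuation.map_neg, map_div₀] at h3
  rw [div_lt_one₀ (zero_lt_iff.mpr hvπ)] at h3
  rw [hv] at h4
  exact absurd h3 (not_lt.mpr h4)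

/-- principal units -/
theorem p1_mul {u w : Ω} (hu : V.valuation (u - 1) < 1) (hw : V.valuation (w - 1) < 1) :
    V.valuation (u * w - 1) < 1 := by
  have h1 : u * w - 1 = (u - 1) * (w - 1) + ((u - 1) + (w - 1)) := by ring
  rw [h1]
  refine Valuation.map_add_lt _ ?_ (Valuation.map_add_lt _ hu hw)
  rw [map_mul]
  exact mul_lt_one_of_nonneg_of_lt_one_left zero_le hu hw.le

theorem p1_val {u : Ω} (hu : V.valuation (u - 1) < 1) : V.valuation u = 1 := by
  have h1 : u = 1 + (u - 1) := by ring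
  rw [h1, Valuation.map_add_eq_of_lt_left _ (by rwa [map_one]), map_one]

theorem p1_inv {u : Ω} (hu : V.valuation (u - 1) < 1) : V.valuation (u⁻¹ - 1) < 1 := by
  have h0 : u ≠ 0 := by
    intro h
    have := p1_val hu
    rw [h, map_zero] at this
    exact zero_ne_one this
  have h1 : u⁻¹ - 1 = - ((u - 1) / u) := by field_simp; ring
  rw [h1, Valuation.map_neg, map_div₀, p1_val hu, div_one]
  exact hu

/-- a centre which is closer to `τ` than all the roots of `p` -/
theorem imm_eval {H : IntermediateField k Ω} [IsAlgClosed H] (τ α : Ω) (hα : α ∈ H) (p : H[X])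
    (hp : p ≠ 0) (h : ∀ s ∈ p.roots, V.valuation (τ - α) < V.valuation (τ - (s : Ω))) :
    ∃ u : Ω, V.valuation (u - 1) < 1 ∧ aeval τ p = aeval α p * u ∧ aeval α p ≠ 0 := by
  have hs : p.Splits := IsAlgClosed.splits p
  have key : ∀ S : Multiset H, (∀ s ∈ S, V.valuation (τ - α) < V.valuation (τ - (s : Ω))) →
      ∃ u : Ω, V.valuation (u - 1) < 1 ∧
        (S.map fun s : H => τ - (s : Ω)).prod = (S.map fun s : H => α - (s : Ω)).prod * u ∧
        (S.map fun s : H => α - (s : Ω)).prod ≠ 0 := by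
    intro S
    induction S using Multiset.induction with
    | empty => intro _; exact ⟨1, by simp, by simp, by simp⟩
    | cons s S ih =>
      intro hS
      obtain ⟨u, hu, h1, h2⟩ := ih (fun s hs => hS s (Multiset.mem_cons_of_mem hs))
      have h3 := hS s (Multiset.mem_cons_self s S)
      have h4 : V.valuation (α - (s : Ω)) = V.valuation (τ - (s : Ω)) := by
        have : α - (s : Ω) = (τ - (s : Ω)) - (τ - α) := by ring
        rw [this, Valuation.map_sub_eq_of_lt_left _ h3]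
      have h5 : α - (s : Ω) ≠ 0 := by
        intro h
        rw [h, map_zero] at h4
        rw [← h4] at h3
        exact not_lt_zero h3
      refine ⟨((τ - s) / (α - s)) * u, p1_mul ?_ hu, ?_, ?_⟩
      · have : (τ - (s : Ω)) / (α - s) - 1 = (τ - α) / (α - s) := by field_simp; ring
        rw [this, map_div₀, h4, div_lt_one₀ (lt_of_le_of_lt zero_le h3)]
        exact h3
      · rw [Multiset.map_cons, Multiset.map_cons, Multiset.prod_cons, Multiset.prod_cons, h1]
        field_simp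
      · rw [Multiset.map_cons, Multiset.prod_cons]
        exact mul_ne_zero h5 h2
  obtain ⟨u, hu, h1, h2⟩ := key p.roots h
  have e : ∀ x : Ω, aeval x p = algebraMap H Ω p.leadingCoeff *
      (p.roots.map fun s : H => x - (s : Ω)).prod := by
    intro x
    conv_lhs => rw [hs.eq_prod_roots]
    rw [map_mul, aeval_C, map_multiset_prod, Multiset.map_map]
    congr 2
    refine Multiset.map_congr rfl fun s _ => ?_
    simp only [Function.comp_apply, map_sub, aeval_X, aeval_C]
    rfl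
  refine ⟨u, hu, ?_, ?_⟩
  · rw [e, e, h1, mul_assoc]
  · rw [e]
    exact mul_ne_zero ((_root_.map_ne_zero _).mpr (leadingCoeff_ne_zero.mpr hp)) h2

/-- (G6) -/
theorem imm_res (hr : IsRes A V r) (hV : ∀ x ∈ A, x ∈ V)
    (H : IntermediateField k Ω) [IsAlgClosed H] (τ : Ω) (hτ : Imm V H τ) (u : Ω)
    (hu : u ∈ AA H {τ}) (huV : u ∈ V) : r ⟨u, huV⟩ ∈ kap hr hV H := by
  obtain ⟨p, q, rfl⟩ := (Pool.Agent.TBR.V.mem_AA H τ u).mp hu
  by_cases hp : p = 0
  · subst hp
    have : (⟨aeval τ (0 : H[X]) / aeval τ q, huV⟩ : V) = 0 := Subtype.ext (by simp)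
    rw [this, map_zero]
    exact zero_mem _
  by_cases hq : q = 0
  · subst hq
    have : (⟨aeval τ p / aeval τ (0 : H[X]), huV⟩ : V) = 0 := Subtype.ext (by simp)
    rw [this, map_zero]
    exact zero_mem _
  -- a centre good for all the roots
  have hc : ∀ S : Multiset H, ∃ α ∈ H, ∀ s ∈ S, V.valuation (τ - α) < V.valuation (τ - (s : Ω)) := by
    intro S
    induction S using Multiset.induction with
    | empty => exact ⟨0, zero_mem _, by simp⟩
    | cons s S ih =>
      obtain ⟨α, hα, h⟩ := ih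
      obtain ⟨β, hβ, h'⟩ := hτ s s.2
      rcases le_total (V.valuation (τ - α)) (V.valuation (τ - β)) with hle | hle
      · refine ⟨α, hα, fun x hx => ?_⟩
        rcases Multiset.mem_cons.mp hx with rfl | hx
        · exact lt_of_le_of_lt hle h'
        · exact h x hx
      · refine ⟨β, hβ, fun x hx => ?_⟩
        rcases Multiset.mem_cons.mp hx with rfl | hx
        · exact h'
        · exact lt_of_le_of_lt hle (h x hx)
  obtain ⟨α, hα, h⟩ := hc (p.roots + q.roots)
  obtain ⟨u, hu1, h1, h1'⟩ := imm_eval τ α hα p hp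
    (fun s hs => h s (Multiset.mem_add.mpr (Or.inl hs)))
  obtain ⟨w, hw1, h2, h2'⟩ := imm_eval τ α hα q hq
    (fun s hs => h s (Multiset.mem_add.mpr (Or.inr hs)))
  have hw0 : w ≠ 0 := by
    intro h
    have := p1_val hw1
    rw [h, map_zero] at this
    exact zero_ne_one this
  have h3 : aeval τ p / aeval τ q = (aeval α p / aeval α q) * (u * w⁻¹) := by
    rw [h1, h2]; field_simp
  have h4 := p1_mul hu1 (p1_inv hw1)
  have hH : ∀ f : H[X], aeval α f ∈ H := by
    intro f
    rw [aeval_eq_sum_range]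
    exact sum_mem fun i _ => by
      rw [Algebra.smul_def]
      exact mul_mem (f.coeff i).2 (pow_mem hα i)
  have h5 : aeval α p / aeval α q ∈ V := by
    rw [val_le] at huV ⊢
    rw [h3, map_mul, p1_val h4, mul_one] at huV
    exact huV
  refine ⟨aeval α p / aeval α q, h5, div_mem (hH p) (hH q), ?_⟩
  rw [hr.eq_of_sub hV, Valuation.map_sub_swap, h3]
  have h6 : (aeval α p / aeval α q) * (u * w⁻¹) - aeval α p / aeval α q =
      (aeval α p / aeval α q) * (u * w⁻¹ - 1) := by ring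
  rw [h6, map_mul]
  rw [val_le] at h5
  exact mul_lt_one_of_nonneg_of_lt_one_right h5 zero_le h4

end

end Pool.Agent.TUQ
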