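import Pool.Agent.TUQ.G3

/-!
# Reduction of polynomials
-/

set_option autoImplicit false

namespace Pool.Agent.TUQ

open Polynomial Pool.Agent.TBR

universe u

section

variable {k Ω : Type u} [Field k] [Field Ω] [Algebra k Ω]
variable {A : IntermediateField k Ω} {V : ValuationSubring Ω} {r : V →+* Ω}

/-- the valuation ring of the subfield `H` -/
def VH (V : ValuationSubring Ω) (H : IntermediateField k Ω) : ValuationSubring H :=
  V.comap (algebraMap H Ω)

theorem mem_VH (V : ValuationSubring Ω) (H : IntermediateField k Ω) (x : H) :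
    x ∈ VH V H ↔ (x : Ω) ∈ V := Iff.rfl

/-- the inclusion of the valuation ring of `H` in the valuation ring of `Ω` -/
def iV (V : ValuationSubring Ω) (H : IntermediateField k Ω) : VH V H →+* V where
  toFun x := ⟨((x : H) : Ω), x.2⟩
  map_one' := rfl
  map_mul' _ _ := rfl
  map_zero' := rfl
  map_add' _ _ := rfl

/-- the residue map of the valuation ring of `H` -/
def rH (hr : IsRes A V r) (hV : ∀ x ∈ A, x ∈ V) (H : IntermediateField k Ω) :
    VH V H →+* kap hr hV H where
  toFun x := ⟨r (iV V H x), res_mem_kap hr hV H _ (x : H).2⟩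
  map_one' := Subtype.ext (map_one r)
  map_mul' x y := Subtype.ext (map_mul r (iV V H x) (iV V H y))
  map_zero' := Subtype.ext (map_zero r)
  map_add' x y := Subtype.ext (map_add r (iV V H x) (iV V H y))

theorem rH_coe (hr : IsRes A V r) (hV : ∀ x ∈ A, x ∈ V) (H : IntermediateField k Ω)
    (x : VH V H) : (rH hr hV H x : Ω) = r (iV V H x) := rfl

/-- the value of a polynomial with coefficients in the valuation ring of `H` -/
theorem res_eval (hr : IsRes A V r) (hV : ∀ x ∈ A, x ∈ V) (H : IntermediateField k Ω)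
    (f : (VH V H)[X]) (x : V) :
    r (f.eval₂ (iV V H) x) = aeval (r x) (f.map (rH hr hV H)) := by
  rw [hom_eval₂, aeval_def, eval₂_map]
  rfl

theorem coe_eval (V : ValuationSubring Ω) (H : IntermediateField k Ω)
    (f : (VH V H)[X]) (x : V) :
    ((f.eval₂ (iV V H) x : V) : Ω) = aeval (x : Ω) (f.map (algebraMap (VH V H) H)) := by
  rw [aeval_def, eval₂_map]
  have := hom_eval₂ f (iV V H) (algebraMap V Ω) x
  exact this

/-- an element outside an algebraically closed field is not a root of a polynomial over it -/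
theorem aeval_ne_zero (κ : IntermediateField k Ω) [IsAlgClosed κ] (θ : Ω) (hθ : θ ∉ κ) (g : κ[X])
    (hg : g ≠ 0) : aeval θ g ≠ 0 := by
  have hs : g.Splits := IsAlgClosed.splits g
  rw [hs.eq_prod_roots, map_mul, aeval_C, map_multiset_prod, Multiset.map_map]
  refine mul_ne_zero ((_root_.map_ne_zero _).mpr (leadingCoeff_ne_zero.mpr hg)) ?_
  intro h
  obtain ⟨c, -, hc⟩ := Multiset.mem_map.mp (Multiset.prod_eq_zero_iff.mp h)
  simp only [Function.comp_apply, map_sub, aeval_X, aeval_C] at hc
  exact hθ (by rw [sub_eq_zero.mp hc]; exact c.2)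

/-- (G7) every nonzero polynomial over `H` is a scalar times a polynomial with nonzero reduction -/
theorem exists_prim (hr : IsRes A V r) (hV : ∀ x ∈ A, x ∈ V) (H : IntermediateField k Ω)
    (f : H[X]) (hf : f ≠ 0) :
    ∃ (ρ : H) (g : (VH V H)[X]), ρ ≠ 0 ∧ f = C ρ * g.map (algebraMap (VH V H) H) ∧
      g.map (rH hr hV H) ≠ 0 := by
  classical
  obtain ⟨i, hi, hmax⟩ := Finset.exists_max_image f.support
    (fun i => V.valuation ((f.coeff i : H) : Ω)) (support_nonempty.mpr hf)
  have hi0 : f.coeff i ≠ 0 := mem_support_iff.mp hi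
  have hi0' : ((f.coeff i : H) : Ω) ≠ 0 := by simpa using hi0
  have hvi : V.valuation ((f.coeff i : H) : Ω) ≠ 0 := (_root_.map_ne_zero _).mpr hi0'
  have hmem : ∀ j, f.coeff j / f.coeff i ∈ VH V H := by
    intro j
    rw [mem_VH, val_le]
    have : ((f.coeff j / f.coeff i : H) : Ω) = (f.coeff j : Ω) / (f.coeff i : Ω) :=
      map_div₀ (algebraMap H Ω) _ _
    rw [this, map_div₀, div_le_one₀ (zero_lt_iff.mpr hvi)]
    by_cases hj : j ∈ f.support
    · exact hmax j hj
    · rw [notMem_support_iff.mp hj]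
      simp
  let g : (VH V H)[X] := ∑ j ∈ f.support, monomial j ⟨f.coeff j / f.coeff i, hmem j⟩
  have hg : ∀ j, ((g.coeff j : VH V H) : H) = f.coeff j / f.coeff i := by
    intro j
    rw [finsetSum_coeff]
    simp only [coeff_monomial]
    rw [Finset.sum_ite_eq' f.support j]
    split_ifs with h
    · rfl
    · rw [notMem_support_iff.mp h, zero_div]
      rfl
  refine ⟨f.coeff i, g, hi0, ?_, ?_⟩
  · ext j
    rw [coeff_C_mul, coeff_map]
    have : (algebraMap (VH V H) H) (g.coeff j) = ((g.coeff j : VH V H) : H) := rfl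
    rw [this, hg, mul_div_cancel₀ _ hi0]
  · intro h
    have h1 := congrArg (fun q => q.coeff i) h
    simp only [coeff_map, coeff_zero] at h1
    have h2 : g.coeff i = 1 := by
      apply Subtype.ext
      rw [hg, div_self hi0]
      rfl
    rw [h2, map_one] at h1
    exact one_ne_zero h1

/-- the Gauss property: a primitive polynomial takes a unit value at a Gauss point -/
theorem prim_val (hr : IsRes A V r) (hV : ∀ x ∈ A, x ∈ V) (H : IntermediateField k Ω)
    [IsAlgClosed H] (g : (VH V H)[X]) (hg : g.map (rH hr hV H) ≠ 0) (x : V)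
    (hx : r x ∉ kap hr hV H) :
    V.valuation (aeval (x : Ω) (g.map (algebraMap (VH V H) H))) = 1 := by
  have := kap_closed hr hV H
  rw [← coe_eval]
  refine le_antisymm ((val_le V _).mp (Subtype.property _)) (not_lt.mp fun h => ?_)
  have h1 := (hr.zero_iff hV _).mpr h
  rw [res_eval hr hV] at h1
  exact aeval_ne_zero _ _ hx _ hg h1

open scoped Classical in
/-- roots of a primitive polynomial over `V` and roots of its reduction (G12) -/
theorem roots_map (hr : IsRes A V r) (hV : ∀ x ∈ A, x ∈ V) [IsAlgClosed Ω] (F : V[X])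
    (hF : F.map r ≠ 0) :
    ∃ S : Multiset V, (F.map (algebraMap V Ω)).roots.filter (· ∈ V) =
      S.map (algebraMap V Ω) ∧ (F.map r).roots = S.map r := by
  classical
  have hF0 : F.map (algebraMap V Ω) ≠ 0 := by
    intro h
    apply hF
    rw [Polynomial.map_eq_zero_iff (IsFractionRing.injective V Ω)] at h
    rw [h, Polynomial.map_zero]
  have hs : (F.map (algebraMap V Ω)).Splits := IsAlgClosed.splits _
  -- key: for every multiset of elements of `Ω`
  have key : ∀ T : Multiset Ω, ∃ (S : Multiset V) (G : V[X]) (d : Ω), d ≠ 0 ∧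
      T.filter (· ∈ V) = S.map (algebraMap V Ω) ∧
      (T.map fun ρ => X - C ρ).prod = C d * G.map (algebraMap V Ω) ∧
      G.map r = (S.map fun ρ => X - C (r ρ)).prod := by
    intro T
    induction T using Multiset.induction with
    | empty => exact ⟨0, 1, 1, one_ne_zero, by simp, by simp, by simp⟩
    | cons ρ T ih =>
      obtain ⟨S, G, d, hd, h1, h2, h3⟩ := ih
      by_cases hρ : ρ ∈ V
      · refine ⟨⟨ρ, hρ⟩ ::ₘ S, (X - C ⟨ρ, hρ⟩) * G, d, hd, ?_, ?_, ?_⟩
        · rw [Multiset.filter_cons_of_pos _ hρ, h1, Multiset.map_cons]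
          rfl
        · rw [Multiset.map_cons, Multiset.prod_cons, h2, Polynomial.map_mul, Polynomial.map_sub,
            map_X, map_C]
          have : algebraMap V Ω ⟨ρ, hρ⟩ = ρ := rfl
          rw [this]
          ring
        · rw [Polynomial.map_mul, Polynomial.map_sub, map_X, map_C, h3, Multiset.map_cons,
            Multiset.prod_cons]
      · have hρ0 : ρ ≠ 0 := by rintro rfl; exact hρ V.zero_mem
        have hi : ρ⁻¹ ∈ V := (V.mem_or_inv_mem ρ).resolve_left hρ
        have hi0 : r ⟨ρ⁻¹, hi⟩ = 0 := by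
          rw [hr.zero_iff hV, map_inv₀]
          refine inv_lt_one_of_one_lt₀ (not_le.mp ?_)
          rwa [← val_le]
        refine ⟨S, (1 - C ⟨ρ⁻¹, hi⟩ * X) * G, -ρ * d, mul_ne_zero (neg_ne_zero.mpr hρ0) hd,
          ?_, ?_, ?_⟩
        · rw [Multiset.filter_cons_of_neg _ hρ, h1]
        · rw [Multiset.map_cons, Multiset.prod_cons, h2, Polynomial.map_mul, Polynomial.map_sub,
            Polynomial.map_one, Polynomial.map_mul, map_X, map_C, map_mul, map_neg]
          have h4 : algebraMap V Ω ⟨ρ⁻¹, hi⟩ = ρ⁻¹ := rfl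
          have h5 : (C ρ : Polynomial Ω) * C ρ⁻¹ = 1 := by
            rw [← C_mul, mul_inv_cancel₀ hρ0, C_1]
          rw [h4]
          linear_combination (-(X : Polynomial Ω) * C d * G.map (algebraMap V Ω)) * h5
        · rw [Polynomial.map_mul, Polynomial.map_sub, Polynomial.map_one, Polynomial.map_mul,
            map_X, map_C, hi0, map_zero, zero_mul, sub_zero, one_mul, h3]
  obtain ⟨S, G, d, hd, h1, h2, h3⟩ := key (F.map (algebraMap V Ω)).roots
  have h4 := hs.eq_prod_roots
  rw [h2, ← mul_assoc, ← C_mul] at h4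
  have hGm : (G.map r).Monic := by
    rw [h3]
    exact monic_multiset_prod_of_monic _ _ fun ρ _ => monic_X_sub_C _
  refine ⟨S, h1, ?_⟩
  -- the scalar is a unit
  set c : Ω := (F.map (algebraMap V Ω)).leadingCoeff * d with hc
  obtain ⟨i, hi⟩ : ∃ i, r (G.coeff i) ≠ 0 := ⟨(G.map r).natDegree, by
    rw [← coeff_map, coeff_natDegree, hGm.leadingCoeff]
    exact one_ne_zero⟩
  have hvi : V.valuation (G.coeff i : Ω) = 1 :=
    le_antisymm ((val_le V _).mp (G.coeff i).2) (not_lt.mp fun h => hi ((hr.zero_iff hV _).mpr h))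
  have h5 : ∀ j, ((F.coeff j : V) : Ω) = c * (G.coeff j : Ω) := by
    intro j
    have := congrArg (fun q => q.coeff j) h4
    simp only [coeff_map, coeff_C_mul] at this
    exact this
  have hcV : c ∈ V := by
    rw [val_le]
    have := (val_le V _).mp (F.coeff i).2
    rwa [h5, map_mul, hvi, mul_one] at this
  have h6 : F = C ⟨c, hcV⟩ * G := by
    ext j
    rw [coeff_C_mul]
    exact h5 j
  have h7 : r ⟨c, hcV⟩ ≠ 0 := by
    intro h
    apply hF
    rw [h6, Polynomial.map_mul, map_C, h, map_zero, zero_mul]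
  rw [h6, Polynomial.map_mul, map_C, roots_C_mul _ h7, h3]
  have h8 := roots_multiset_prod_X_sub_C (S.map r)
  rw [Multiset.map_map] at h8
  exact h8

end

end Pool.Agent.TUQ
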