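import Pool.Agent.TUQ.G4

/-!
# Rational functions on a Gauss disc
-/

set_option autoImplicit false

namespace Pool.Agent.TUQ

open Polynomial Pool.Agent.TBR

universe u

section

variable {k Ω : Type u} [Field k] [Field Ω] [Algebra k Ω]
variable {A : IntermediateField k Ω} {V : ValuationSubring Ω} {r : V →+* Ω}

/-- the reduction of a rational function `P / Q` on a disc: `Q = β Q₁`, `P - γ Q = ρ β P₁`, and the
reduction of `P₁ / Q₁` is not constant -/
structure Nred (hr : IsRes A V r) (hV : ∀ x ∈ A, x ∈ V) (H : IntermediateField k Ω)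
    (P Q : H[X]) (γ ρ β : H) (P₁ Q₁ : (VH V H)[X]) : Prop where
  ρ0 : ρ ≠ 0
  β0 : β ≠ 0
  eQ : Q = C β * Q₁.map (algebraMap (VH V H) H)
  eP : P - C γ * Q = C (ρ * β) * P₁.map (algebraMap (VH V H) H)
  Q0 : Q₁.map (rH hr hV H) ≠ 0
  P0 : P₁.map (rH hr hV H) ≠ 0
  nc : ∀ c : kap hr hV H, P₁.map (rH hr hV H) ≠ C c * Q₁.map (rH hr hV H)

/-- (G10) -/
theorem exists_nred (hr : IsRes A V r) (hV : ∀ x ∈ A, x ∈ V) (H : IntermediateField k Ω)
    (P Q : H[X]) (hQ : Q ≠ 0) (hPQ : ∀ γ : H, P ≠ C γ * Q) :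
    ∃ (γ ρ β : H) (P₁ Q₁ : (VH V H)[X]), Nred hr hV H P Q γ ρ β P₁ Q₁ := by
  obtain ⟨β, Q₁, hβ, hQ₁, hQ₁0⟩ := exists_prim hr hV H Q hQ
  obtain ⟨j, hj⟩ : ∃ j, (Q₁.map (rH hr hV H)).coeff j ≠ 0 := by
    by_contra! h
    exact hQ₁0 (Polynomial.ext h)
  have hj' : Q.coeff j ≠ 0 := by
    intro h
    rw [hQ₁, coeff_C_mul, coeff_map, mul_eq_zero, or_iff_right hβ] at h
    have h1 : Q₁.coeff j = 0 := (IsFractionRing.injective (VH V H) H) (by rw [h, map_zero])
    apply hj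
    rw [coeff_map, h1, map_zero]
  set γ : H := P.coeff j / Q.coeff j with hγ
  have h0 : P - C γ * Q ≠ 0 := fun h => hPQ γ (sub_eq_zero.mp h)
  obtain ⟨σ, P₁, hσ, hP₁, hP₁0⟩ := exists_prim hr hV H _ h0
  have hcj : P₁.coeff j = 0 := by
    have h1 := congrArg (fun q => q.coeff j) hP₁
    simp only [coeff_sub, coeff_C_mul, coeff_map] at h1
    rw [hγ, div_mul_cancel₀ _ hj', sub_self] at h1
    have h2 := (mul_eq_zero.mp h1.symm).resolve_left hσ
    exact (IsFractionRing.injective (VH V H) H) (by rw [h2, map_zero])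
  refine ⟨γ, σ / β, β, P₁, Q₁, ⟨div_ne_zero hσ hβ, hβ, hQ₁, ?_, hQ₁0, hP₁0, fun c hc => ?_⟩⟩
  · rw [hP₁, div_mul_cancel₀ _ hβ]
  · have h1 := congrArg (fun q => q.coeff j) hc
    simp only [coeff_C_mul] at h1
    rw [coeff_map, hcj, map_zero] at h1
    have h2 := (mul_eq_zero.mp h1.symm).resolve_right hj
    apply hP₁0
    rw [hc, h2, C_0, zero_mul]

variable {H : IntermediateField k Ω} {P Q : H[X]} {γ ρ β : H} {P₁ Q₁ : (VH V H)[X]}

/-- the reduced equation is not trivial -/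
theorem Nred.ne {hr : IsRes A V r} {hV : ∀ x ∈ A, x ∈ V} (h : Nred hr hV H P Q γ ρ β P₁ Q₁)
    (η : Ω) :
    (P₁.map (rH hr hV H)).map (algebraMap (kap hr hV H) Ω) -
      C η * (Q₁.map (rH hr hV H)).map (algebraMap (kap hr hV H) Ω) ≠ 0 := by
  intro h0
  obtain ⟨j, hj⟩ : ∃ j, (Q₁.map (rH hr hV H)).coeff j ≠ 0 := by
    by_contra! h'
    exact h.Q0 (Polynomial.ext h')
  have hη : η ∈ kap hr hV H := by
    have h1 := congrArg (fun q => q.coeff j) h0
    simp only [coeff_sub, coeff_C_mul, coeff_zero] at h1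
    rw [coeff_map, coeff_map (algebraMap (kap hr hV H) Ω), sub_eq_zero] at h1
    have hj' : algebraMap (kap hr hV H) Ω ((Q₁.map (rH hr hV H)).coeff j) ≠ 0 :=
      (_root_.map_ne_zero _).mpr hj
    rw [← div_eq_iff hj'] at h1
    rw [← h1]
    exact div_mem (Subtype.property _) (Subtype.property _)
  apply h.nc ⟨η, hη⟩
  apply Polynomial.map_injective (algebraMap (kap hr hV H) Ω) (algebraMap (kap hr hV H) Ω).injective
  rw [Polynomial.map_mul, map_C]
  exact sub_eq_zero.mp h0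

/-- (G11) a Gauss root of `P - y Q`: the normalised `y` is in `V` with residue not in `κ` -/
theorem Nred.eta {hr : IsRes A V r} {hV : ∀ x ∈ A, x ∈ V} [IsAlgClosed H]
    (h : Nred hr hV H P Q γ ρ β P₁ Q₁) (y : Ω) (x : V) (hx : r x ∉ kap hr hV H)
    (hroot : aeval (x : Ω) P = y * aeval (x : Ω) Q) :
    ∃ hY : (y - γ) / ρ ∈ V, r ⟨_, hY⟩ ∉ kap hr hV H ∧
      aeval (r x) (P₁.map (rH hr hV H)) = r ⟨_, hY⟩ * aeval (r x) (Q₁.map (rH hr hV H)) := by
  have := kap_closed hr hV H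
  have hβ : (β : Ω) ≠ 0 := by simpa using h.β0
  have hρ : (ρ : Ω) ≠ 0 := by simpa using h.ρ0
  have e1 : aeval (x : Ω) Q = β * aeval (x : Ω) (Q₁.map (algebraMap (VH V H) H)) := by
    conv_lhs => rw [h.eQ]
    rw [map_mul, aeval_C]
    rfl
  have e2 : aeval (x : Ω) P - γ * aeval (x : Ω) Q =
      (ρ * β) * aeval (x : Ω) (P₁.map (algebraMap (VH V H) H)) := by
    have := congrArg (aeval (x : Ω)) h.eP
    rw [map_sub, map_mul, aeval_C, map_mul, aeval_C, map_mul] at this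
    exact this
  have hv1 := prim_val hr hV H Q₁ h.Q0 x hx
  have hv2 := prim_val hr hV H P₁ h.P0 x hx
  set p1 := aeval (x : Ω) (P₁.map (algebraMap (VH V H) H)) with hp1
  set q1 := aeval (x : Ω) (Q₁.map (algebraMap (VH V H) H)) with hq1
  have hq10 : q1 ≠ 0 := by
    intro h'
    rw [h', map_zero] at hv1
    exact zero_ne_one hv1
  have e3 : p1 = (y - γ) / ρ * q1 := by
    rw [hroot, e1] at e2
    have : (ρ : Ω) * β * p1 = (y - γ) * β * q1 := by rw [← e2]; ring
    field_simp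
    have h' : (β : Ω) * (ρ * p1) = β * ((y - γ) * q1) := by linear_combination this
    have := mul_left_cancel₀ hβ h'
    linear_combination this
  have e4 : (y - γ) / ρ = p1 / q1 := by rw [e3, mul_div_cancel_right₀ _ hq10]
  have hY : (y - γ) / ρ ∈ V := by
    rw [e4, val_le, map_div₀, hv1, hv2, div_one]
  refine ⟨hY, ?_, ?_⟩
  rotate_left
  · rw [← res_eval hr hV, ← res_eval hr hV, ← map_mul]
    congr 1
    apply Subtype.ext
    rw [coe_eval, ← hp1, e3]
    change _ = (y - γ) / ρ * ((eval₂ (iV V H) x Q₁ : V) : Ω)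
    rw [coe_eval]
  · intro hη
    have h5 : aeval (r x) (P₁.map (rH hr hV H)) = r ⟨_, hY⟩ * aeval (r x) (Q₁.map (rH hr hV H)) := by
      rw [← res_eval hr hV, ← res_eval hr hV, ← map_mul]
      congr 1
      apply Subtype.ext
      rw [coe_eval, ← hp1, e3]
      change _ = (y - γ) / ρ * ((eval₂ (iV V H) x Q₁ : V) : Ω)
      rw [coe_eval]
    have h6 : P₁.map (rH hr hV H) - C ⟨_, hη⟩ * Q₁.map (rH hr hV H) ≠ 0 := fun h' =>
      h.nc ⟨_, hη⟩ (sub_eq_zero.mp h')
    apply aeval_ne_zero _ _ hx _ h6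
    rw [map_sub, map_mul, aeval_C, h5]
    exact sub_self _

open scoped Classical in
/-- (G12) the roots of `P - y Q` in `V` and the roots of the reduced equation -/
theorem Nred.roots {hr : IsRes A V r} {hV : ∀ x ∈ A, x ∈ V} [IsAlgClosed Ω]
    (h : Nred hr hV H P Q γ ρ β P₁ Q₁) (y : Ω) (hY : (y - γ) / ρ ∈ V) :
    ∃ S : Multiset V,
      (∀ x : V, S.count x = (P.map (algebraMap H Ω) - C y * Q.map (algebraMap H Ω)).roots.count
        (x : Ω)) ∧
      ((P₁.map (rH hr hV H)).map (algebraMap (kap hr hV H) Ω) -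
        C (r ⟨_, hY⟩) * (Q₁.map (rH hr hV H)).map (algebraMap (kap hr hV H) Ω)).roots =
          S.map r := by
  classical
  have hβ : (β : Ω) ≠ 0 := by simpa using h.β0
  have hρ : (ρ : Ω) ≠ 0 := by simpa using h.ρ0
  let F : V[X] := P₁.map (iV V H) - C ⟨_, hY⟩ * Q₁.map (iV V H)
  have e1 : ∀ f : (VH V H)[X], (f.map (iV V H)).map r =
      (f.map (rH hr hV H)).map (algebraMap (kap hr hV H) Ω) := by
    intro f
    rw [Polynomial.map_map, Polynomial.map_map]
    rfl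
  have e2 : ∀ f : (VH V H)[X], (f.map (iV V H)).map (algebraMap V Ω) =
      (f.map (algebraMap (VH V H) H)).map (algebraMap H Ω) := by
    intro f
    rw [Polynomial.map_map, Polynomial.map_map]
    rfl
  have hF : F.map r = (P₁.map (rH hr hV H)).map (algebraMap (kap hr hV H) Ω) -
      C (r ⟨_, hY⟩) * (Q₁.map (rH hr hV H)).map (algebraMap (kap hr hV H) Ω) := by
    rw [Polynomial.map_sub, Polynomial.map_mul, map_C, e1, e1]
  obtain ⟨S, hS1, hS2⟩ := roots_map hr hV F (by rw [hF]; exact h.ne _)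
  have hF2 : P.map (algebraMap H Ω) - C y * Q.map (algebraMap H Ω) =
      C ((ρ : Ω) * β) * F.map (algebraMap V Ω) := by
    have h1 := congrArg (Polynomial.map (algebraMap H Ω)) h.eP
    have h2 := congrArg (Polynomial.map (algebraMap H Ω)) h.eQ
    rw [Polynomial.map_sub, Polynomial.map_mul, map_C, Polynomial.map_mul, map_C] at h1
    rw [Polynomial.map_mul, map_C] at h2
    rw [Polynomial.map_sub, Polynomial.map_mul, map_C, e2, e2]
    have h3 : (algebraMap V Ω) ⟨_, hY⟩ = (y - γ) / ρ := rfl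
    have h4 : (C ((ρ : Ω) * β) : Polynomial Ω) * C ((y - γ) / ρ) = C (y - γ) * C (β : Ω) := by
      rw [← C_mul, ← C_mul]
      congr 1
      field_simp
    have h5 : algebraMap H Ω (ρ * β) = (ρ : Ω) * β := rfl
    have h6 : algebraMap H Ω β = (β : Ω) := rfl
    have h7 : algebraMap H Ω γ = (γ : Ω) := rfl
    rw [h5, h7] at h1
    rw [h6] at h2
    rw [h3, mul_sub, ← h1, ← mul_assoc, h4, C_sub]
    linear_combination (C (y : Ω) - C (γ : Ω)) * (-1 : Polynomial Ω) * h2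
  refine ⟨S, fun x => ?_, by rw [← hF, hS2]⟩
  rw [hF2, roots_C_mul _ (mul_ne_zero hρ hβ)]
  have h8 : Multiset.count (x : Ω) (S.map (algebraMap V Ω)) = S.count x :=
    Multiset.count_map_eq_count' _ _ (IsFractionRing.injective V Ω) x
  rw [← h8, ← hS1, Multiset.count_filter_of_pos x.2]

end

end Pool.Agent.TUQ
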