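import Pool.Agent.TUQ.G5

/-!
# Distances in a Gauss disc
-/

set_option autoImplicit false

namespace Pool.Agent.TUQ

open Polynomial Pool.Agent.TBR

universe u

section

variable {k Ω : Type u} [Field k] [Field Ω] [Algebra k Ω]
variable {A : IntermediateField k Ω} {V : ValuationSubring Ω} {r : V →+* Ω}
variable {H : IntermediateField k Ω} {P Q : H[X]} {γ ρ β : H} {P₁ Q₁ : (VH V H)[X]}

/-- two Gauss points with the same residue: the values of the rational function are close -/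
theorem Nred.same {hr : IsRes A V r} {hV : ∀ x ∈ A, x ∈ V} [IsAlgClosed H]
    (h : Nred hr hV H P Q γ ρ β P₁ Q₁) (y y' : Ω) (x x' : V) (hx : r x ∉ kap hr hV H)
    (hxx : r x' = r x) (hroot : aeval (x : Ω) P = y * aeval (x : Ω) Q)
    (hroot' : aeval (x' : Ω) P = y' * aeval (x' : Ω) Q) :
    V.valuation (y - y') < V.valuation (ρ : Ω) := by
  have := kap_closed hr hV H
  obtain ⟨hY, -, h1⟩ := h.eta y x hx hroot
  obtain ⟨hY', -, h2⟩ := h.eta y' x' (by rwa [hxx]) hroot'
  rw [hxx, h1] at h2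
  have h3 := mul_right_cancel₀ (aeval_ne_zero _ _ hx _ h.Q0) h2
  rw [hr.eq_of_sub hV] at h3
  have hρ : (ρ : Ω) ≠ 0 := by simpa using h.ρ0
  have h4 : (y - γ) / ρ - (y' - γ) / ρ = (y - y') / ρ := by ring
  rw [h4, map_div₀, div_lt_one₀ (zero_lt_iff.mpr ((_root_.map_ne_zero _).mpr hρ))] at h3
  exact h3

/-- (G13) a Gauss root `x` for the value `- y` and a root `t` for the value `y` have different
residues -/
theorem Nred.diff {hr : IsRes A V r} {hV : ∀ x ∈ A, x ∈ V} [IsAlgClosed H]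
    (h : Nred hr hV H P Q γ ρ β P₁ Q₁) (h2 : (2 : k) ≠ 0) (y : Ω) (x t : V)
    (hx : r x ∉ kap hr hV H)
    (hroot : aeval (x : Ω) P = -y * aeval (x : Ω) Q)
    (hroot' : aeval (t : Ω) P = y * aeval (t : Ω) Q) : r x ≠ r t := by
  intro hxt
  have h1 := h.same (-y) y x t hx hxt.symm hroot hroot'
  obtain ⟨hY, hη, -⟩ := h.eta (-y) x hx hroot
  have hρ : (ρ : Ω) ≠ 0 := by simpa using h.ρ0
  have hvρ : V.valuation (ρ : Ω) ≠ 0 := (_root_.map_ne_zero _).mpr hρ
  have h2' : V.valuation (2 : Ω) = 1 := by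
    have h3 : (2 : Ω) = algebraMap k Ω 2 := by rw [map_ofNat]
    have h4 := Pool.Agent.TBR.V.val_A A V hV ⟨2, by rw [h3]; exact A.algebraMap_mem 2⟩ (by
      intro h
      have h5 : (2 : Ω) = 0 := congrArg Subtype.val h
      rw [h3] at h5
      exact h2 ((_root_.map_eq_zero _).mp h5))
    exact h4
  have h3 : V.valuation y < V.valuation (ρ : Ω) := by
    have h4 : -y - y = -(2 * y) := by ring
    rw [h4, Valuation.map_neg, map_mul, h2', one_mul] at h1
    exact h1
  apply hη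
  -- the residue is that of `- γ / ρ`
  have h4 : (-y - γ) / ρ - (-(γ : Ω)) / ρ = -(y / ρ) := by ring
  have h5 : V.valuation ((-y - γ) / ρ - (-(γ : Ω)) / ρ) < 1 := by
    rw [h4, Valuation.map_neg, map_div₀, div_lt_one₀ (zero_lt_iff.mpr hvρ)]
    exact h3
  have h6 : (-(γ : Ω)) / ρ ∈ V := by
    have : (-(γ : Ω)) / ρ = (-y - γ) / ρ - ((-y - γ) / ρ - (-(γ : Ω)) / ρ) := by ring
    rw [this]
    exact sub_mem hY ((val_le V _).mpr h5.le)
  rw [(hr.eq_of_sub hV hY h6).mpr h5]
  exact res_mem_kap hr hV H h6 (div_mem (neg_mem γ.2) ρ.2)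

end

section

variable {k Ω : Type u} [Field k] [Field Ω] [Algebra k Ω]
variable {A : IntermediateField k Ω} {V : ValuationSubring Ω} {r : V →+* Ω}

/-- distance of two elements of a disc with different residues -/
theorem dist_eq (hr : IsRes A V r) (hV : ∀ x ∈ A, x ∈ V) (α π T t : Ω) (hπ : π ≠ 0)
    (hT : (T - α) / π ∈ V) (ht : (t - α) / π ∈ V) (h : r ⟨_, hT⟩ ≠ r ⟨_, ht⟩) :
    V.valuation (T - t) = V.valuation π := by
  have h1 : ¬ V.valuation ((T - α) / π - (t - α) / π) < 1 := fun h' =>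
    h ((hr.eq_of_sub hV hT ht).mpr h')
  have h2 : V.valuation ((T - α) / π - (t - α) / π) ≤ 1 := (val_le V _).mp (sub_mem hT ht)
  have h3 := le_antisymm h2 (not_lt.mp h1)
  have h4 : T - t = ((T - α) / π - (t - α) / π) * π := by field_simp; ring
  rw [h4, map_mul, h3, one_mul]

/-- distance to an element outside the disc -/
theorem dist_eq' (V : ValuationSubring Ω) (α π T t : Ω) (hπ : π ≠ 0)
    (hT : (T - α) / π ∈ V) (ht : (t - α) / π ∉ V) :
    V.valuation (T - t) = V.valuation (t - α) := by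
  have hvπ : 0 < V.valuation π := zero_lt_iff.mpr ((_root_.map_ne_zero _).mpr hπ)
  rw [val_le, map_div₀, div_le_one₀ hvπ] at hT
  rw [val_le, map_div₀, div_le_one₀ hvπ, not_le] at ht
  have h1 : T - t = (T - α) - (t - α) := by ring
  rw [h1, Valuation.map_sub_eq_of_lt_right _ (lt_of_le_of_lt hT ht)]

end

end Pool.Agent.TUQ
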