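import Pool.Agent.TUQ.G6

/-!
# Rational functions on a disc: affine substitution and counting roots
-/

set_option autoImplicit false

namespace Pool.Agent.TUQ

open Polynomial Pool.Agent.TBR

universe u

/-- the roots after an affine substitution -/
theorem roots_sub {F : Type*} [Field F] [IsAlgClosed F] (α π : F) (hπ : π ≠ 0) (f : Polynomial F) :
    (f.comp (C α + C π * X)).roots = f.roots.map fun ρ => (ρ - α) / π := by
  by_cases hf : f = 0
  · simp [hf]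
  have hs : f.Splits := IsAlgClosed.splits f
  have h1 : ∀ S : Multiset F, ∃ d : F, d ≠ 0 ∧
      ((S.map fun ρ => X - C ρ).prod).comp (C α + C π * X) =
        C d * ((S.map fun ρ => (ρ - α) / π).map fun ρ => X - C ρ).prod := by
    intro S
    induction S using Multiset.induction with
    | empty => exact ⟨1, one_ne_zero, by simp⟩
    | cons ρ S ih =>
      obtain ⟨d, hd, h⟩ := ih
      refine ⟨π * d, mul_ne_zero hπ hd, ?_⟩
      rw [Multiset.map_cons, Multiset.prod_cons, mul_comp, h, Multiset.map_cons, Multiset.map_cons,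
        Multiset.prod_cons, sub_comp, X_comp, C_comp]
      have h2 : C ρ = C α + C π * C ((ρ - α) / π) := by
        rw [← C_mul, ← C_add]
        congr 1
        field_simp
        ring
      conv_lhs => rw [h2]
      rw [C_mul]
      ring
  obtain ⟨d, hd, h⟩ := h1 f.roots
  conv_lhs => rw [hs.eq_prod_roots]
  rw [mul_comp, C_comp, h, ← mul_assoc, ← C_mul,
    roots_C_mul _ (mul_ne_zero (leadingCoeff_ne_zero.mpr hf) hd), roots_multiset_prod_X_sub_C]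

section

variable {k Ω : Type u} [Field k] [Field Ω] [Algebra k Ω]
variable {A : IntermediateField k Ω} {V : ValuationSubring Ω} {r : V →+* Ω}

open scoped Classical in
/-- the residue map as a total function -/
noncomputable def rr (r : V →+* Ω) (x : Ω) : Ω := if h : x ∈ V then r ⟨x, h⟩ else 0

theorem rr_of (r : V →+* Ω) {x : Ω} (h : x ∈ V) : rr r x = r ⟨x, h⟩ := dif_pos h

theorem rr_coe (r : V →+* Ω) (x : V) : rr r (x : Ω) = r x := dif_pos x.2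

/-- the affine substitution -/
noncomputable def asub {H : IntermediateField k Ω} (α π : H) (f : H[X]) : H[X] :=
  f.comp (C α + C π * X)

theorem aeval_asub {H : IntermediateField k Ω} (α π : H) (f : H[X]) (x : Ω) :
    aeval x (asub α π f) = aeval ((α : Ω) + π * x) f := by
  rw [asub, aeval_comp, map_add, map_mul, aeval_C, aeval_C, aeval_X]
  rfl

theorem aeval_asub' {H : IntermediateField k Ω} (α π : H) (hπ : π ≠ 0) (f : H[X]) (T : Ω) :
    aeval ((T - α) / π) (asub α π f) = aeval T f := by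
  have hπ' : (π : Ω) ≠ 0 := by simpa using hπ
  rw [aeval_asub]
  congr 1
  congr 1
  field_simp
  ring

theorem map_asub {H : IntermediateField k Ω} (α π : H) (f : H[X]) :
    (asub α π f).map (algebraMap H Ω) =
      (f.map (algebraMap H Ω)).comp (C (α : Ω) + C (π : Ω) * X) := by
  rw [asub, Polynomial.map_comp, Polynomial.map_add, Polynomial.map_mul, map_C, map_C, map_X]
  rfl

theorem asub_ne_zero {H : IntermediateField k Ω} (α π : H) (hπ : π ≠ 0) (f : H[X]) (hf : f ≠ 0) :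
    asub α π f ≠ 0 := by
  intro h
  have h1 : asub (-α / π) (1 / π) (asub α π f) = f := by
    rw [asub, asub, comp_assoc]
    have : (C α + C π * X : H[X]).comp (C (-α / π) + C (1 / π) * X) = X := by
      rw [add_comp, mul_comp, C_comp, C_comp, X_comp, mul_add, ← mul_assoc, ← C_mul, ← C_mul,
        ← add_assoc, ← C_add]
      have e1 : α + π * (-α / π) = 0 := by field_simp; ring
      have e2 : π * (1 / π) = 1 := by field_simp
      rw [e1, e2, C_0, C_1, zero_add, one_mul]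
    rw [this, comp_X]
  apply hf
  rw [← h1, h, asub, zero_comp]

/-- the reduction of the rational function `P / Q` on the disc `(α, π)`: `P / (ϖ Q) = P₁ / Q₁` -/
structure RD (hr : IsRes A V r) (hV : ∀ x ∈ A, x ∈ V) (H : IntermediateField k Ω)
    (α π : H) (P Q : H[X]) (ϖ β : H) (P₁ Q₁ : (VH V H)[X]) : Prop where
  ϖ0 : ϖ ≠ 0
  β0 : β ≠ 0
  eQ : asub α π Q = C β * Q₁.map (algebraMap (VH V H) H)
  eP : asub α π P = C (ϖ * β) * P₁.map (algebraMap (VH V H) H)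
  Q0 : Q₁.map (rH hr hV H) ≠ 0
  P0 : P₁.map (rH hr hV H) ≠ 0

theorem exists_RD (hr : IsRes A V r) (hV : ∀ x ∈ A, x ∈ V) (H : IntermediateField k Ω)
    (α π : H) (hπ : π ≠ 0) (P Q : H[X]) (hP : P ≠ 0) (hQ : Q ≠ 0) :
    ∃ (ϖ β : H) (P₁ Q₁ : (VH V H)[X]), RD hr hV H α π P Q ϖ β P₁ Q₁ := by
  obtain ⟨β, Q₁, hβ, hQ₁, hQ₁0⟩ := exists_prim hr hV H _ (asub_ne_zero α π hπ Q hQ)
  obtain ⟨σ, P₁, hσ, hP₁, hP₁0⟩ := exists_prim hr hV H _ (asub_ne_zero α π hπ P hP)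
  exact ⟨σ / β, β, P₁, Q₁, ⟨div_ne_zero hσ hβ, hβ, hQ₁, by rw [hP₁, div_mul_cancel₀ _ hβ],
    hQ₁0, hP₁0⟩⟩

variable {H : IntermediateField k Ω} {α π : H} {P Q : H[X]} {ϖ β : H} {P₁ Q₁ : (VH V H)[X]}

/-- `ϖ` can be replaced by any element with the same value -/
theorem RD.change {hr : IsRes A V r} {hV : ∀ x ∈ A, x ∈ V} (h : RD hr hV H α π P Q ϖ β P₁ Q₁)
    (ϖ' : H) (hv : V.valuation (ϖ' : Ω) = V.valuation (ϖ : Ω)) :
    ∃ P₂ : (VH V H)[X], RD hr hV H α π P Q ϖ' β P₂ Q₁ := by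
  have hϖ : (ϖ : Ω) ≠ 0 := by simpa using h.ϖ0
  have hvϖ : V.valuation (ϖ : Ω) ≠ 0 := (_root_.map_ne_zero _).mpr hϖ
  have hϖ' : (ϖ' : Ω) ≠ 0 := by
    intro h0
    rw [h0, map_zero] at hv
    exact hvϖ hv.symm
  have hϖ'' : ϖ' ≠ 0 := fun h0 => hϖ' (by rw [h0]; rfl)
  have hm : ϖ / ϖ' ∈ VH V H := by
    rw [mem_VH, val_le]
    have : ((ϖ / ϖ' : H) : Ω) = (ϖ : Ω) / (ϖ' : Ω) := map_div₀ (algebraMap H Ω) _ _
    rw [this, map_div₀, hv, div_self hvϖ]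
  refine ⟨C ⟨ϖ / ϖ', hm⟩ * P₁, ⟨hϖ'', h.β0, h.eQ, ?_, h.Q0, ?_⟩⟩
  · rw [h.eP, Polynomial.map_mul, map_C, ← mul_assoc, ← C_mul]
    congr 2
    have : algebraMap (VH V H) H ⟨ϖ / ϖ', hm⟩ = ϖ / ϖ' := rfl
    rw [this]
    field_simp
  · rw [Polynomial.map_mul, map_C]
    refine mul_ne_zero ?_ h.P0
    rw [Ne, C_eq_zero]
    intro h0
    have h1 : r (iV V H ⟨ϖ / ϖ', hm⟩) = 0 := by
      rw [← rH_coe hr hV, h0]
      rfl
    rw [hr.zero_iff hV] at h1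
    have h2 : ((iV V H ⟨ϖ / ϖ', hm⟩ : V) : Ω) = (ϖ : Ω) / (ϖ' : Ω) :=
      map_div₀ (algebraMap H Ω) _ _
    rw [h2, map_div₀, hv, div_self hvϖ] at h1
    exact lt_irrefl _ h1

theorem RD.valQ {hr : IsRes A V r} {hV : ∀ x ∈ A, x ∈ V} [IsAlgClosed H]
    (h : RD hr hV H α π P Q ϖ β P₁ Q₁) (hπ : π ≠ 0) (T : Ω) (hT : (T - α) / π ∈ V)
    (hx : r ⟨_, hT⟩ ∉ kap hr hV H) :
    V.valuation (aeval T Q) = V.valuation (β : Ω) := by
  have h1 := prim_val hr hV H Q₁ h.Q0 ⟨_, hT⟩ hx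
  rw [← aeval_asub' α π hπ, h.eQ, map_mul, aeval_C, map_mul]
  have h2 : V.valuation (aeval ((T - α) / π) (Q₁.map (algebraMap (VH V H) H))) = 1 := h1
  rw [h2, mul_one]
  rfl

theorem RD.valP {hr : IsRes A V r} {hV : ∀ x ∈ A, x ∈ V} [IsAlgClosed H]
    (h : RD hr hV H α π P Q ϖ β P₁ Q₁) (hπ : π ≠ 0) (T : Ω) (hT : (T - α) / π ∈ V)
    (hx : r ⟨_, hT⟩ ∉ kap hr hV H) :
    V.valuation (aeval T P) = V.valuation (ϖ : Ω) * V.valuation (β : Ω) := by
  have h1 := prim_val hr hV H P₁ h.P0 ⟨_, hT⟩ hx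
  rw [← aeval_asub' α π hπ, h.eP, map_mul, aeval_C, map_mul]
  have h2 : V.valuation (aeval ((T - α) / π) (P₁.map (algebraMap (VH V H) H))) = 1 := h1
  rw [h2, mul_one, ← map_mul]
  rfl

theorem RD.Q_ne {hr : IsRes A V r} {hV : ∀ x ∈ A, x ∈ V} [IsAlgClosed H]
    (h : RD hr hV H α π P Q ϖ β P₁ Q₁) (hπ : π ≠ 0) (T : Ω) (hT : (T - α) / π ∈ V)
    (hx : r ⟨_, hT⟩ ∉ kap hr hV H) : aeval T Q ≠ 0 := by
  intro h0
  have h1 := h.valQ hπ T hT hx
  rw [h0, map_zero] at h1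
  have : (β : Ω) ≠ 0 := by simpa using h.β0
  exact (_root_.map_ne_zero _).mpr this h1.symm

theorem RD.P_ne {hr : IsRes A V r} {hV : ∀ x ∈ A, x ∈ V} [IsAlgClosed H]
    (h : RD hr hV H α π P Q ϖ β P₁ Q₁) (hπ : π ≠ 0) (T : Ω) (hT : (T - α) / π ∈ V)
    (hx : r ⟨_, hT⟩ ∉ kap hr hV H) : aeval T P ≠ 0 := by
  intro h0
  have h1 := h.valP hπ T hT hx
  rw [h0, map_zero, ← map_mul] at h1
  have h2 : (β : Ω) ≠ 0 := by simpa using h.β0
  have h3 : (ϖ : Ω) ≠ 0 := by simpa using h.ϖ0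
  exact (_root_.map_ne_zero _).mpr (mul_ne_zero h3 h2) h1.symm

/-- the value of `P / Q` at the points of the disc -/
theorem RD.val {hr : IsRes A V r} {hV : ∀ x ∈ A, x ∈ V} [IsAlgClosed H]
    (h : RD hr hV H α π P Q ϖ β P₁ Q₁) (hπ : π ≠ 0) (T : Ω) (hT : (T - α) / π ∈ V)
    (hx : r ⟨_, hT⟩ ∉ kap hr hV H) :
    V.valuation (aeval T P / aeval T Q) = V.valuation (ϖ : Ω) := by
  have h2 : (β : Ω) ≠ 0 := by simpa using h.β0
  rw [map_div₀, h.valP hπ T hT hx, h.valQ hπ T hT hx, mul_div_assoc,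
    div_self ((_root_.map_ne_zero _).mpr h2), mul_one]

/-- the residue of `P / (ϖ Q)` at the points of the disc -/
theorem RD.res {hr : IsRes A V r} {hV : ∀ x ∈ A, x ∈ V} [IsAlgClosed H]
    (h : RD hr hV H α π P Q ϖ β P₁ Q₁) (hπ : π ≠ 0) (T : Ω) (hT : (T - α) / π ∈ V)
    (hx : r ⟨_, hT⟩ ∉ kap hr hV H) :
    ∃ hy : aeval T P / aeval T Q / ϖ ∈ V,
      r ⟨_, hy⟩ * aeval (r ⟨_, hT⟩) (Q₁.map (rH hr hV H)) =
        aeval (r ⟨_, hT⟩) (P₁.map (rH hr hV H)) := by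
  have hϖ : (ϖ : Ω) ≠ 0 := by simpa using h.ϖ0
  have hβ : (β : Ω) ≠ 0 := by simpa using h.β0
  have hvϖ : V.valuation (ϖ : Ω) ≠ 0 := (_root_.map_ne_zero _).mpr hϖ
  have hy : aeval T P / aeval T Q / ϖ ∈ V := by
    rw [val_le, map_div₀, h.val hπ T hT hx, div_self hvϖ]
  refine ⟨hy, ?_⟩
  have e1 : ∀ f : (VH V H)[X], aeval (r ⟨_, hT⟩) (f.map (rH hr hV H)) =
      r (f.eval₂ (iV V H) ⟨_, hT⟩) := fun f => (res_eval hr hV H f ⟨_, hT⟩).symm
  rw [e1, e1, ← map_mul]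
  congr 1
  apply Subtype.ext
  have hq := h.Q_ne hπ T hT hx
  have e2 : aeval T Q = β * ((Q₁.eval₂ (iV V H) ⟨_, hT⟩ : V) : Ω) := by
    rw [coe_eval, ← aeval_asub' α π hπ, h.eQ, map_mul, aeval_C]
    rfl
  have e3 : aeval T P = (ϖ * β) * ((P₁.eval₂ (iV V H) ⟨_, hT⟩ : V) : Ω) := by
    rw [coe_eval, ← aeval_asub' α π hπ, h.eP, map_mul, aeval_C]
    rfl
  change aeval T P / aeval T Q / ϖ * ((Q₁.eval₂ (iV V H) ⟨_, hT⟩ : V) : Ω) =
    ((P₁.eval₂ (iV V H) ⟨_, hT⟩ : V) : Ω)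
  set q := ((Q₁.eval₂ (iV V H) ⟨_, hT⟩ : V) : Ω) with hq'
  set p := ((P₁.eval₂ (iV V H) ⟨_, hT⟩ : V) : Ω) with hp'
  have hq0 : q ≠ 0 := by
    intro h0
    rw [h0, mul_zero] at e2
    exact hq e2
  rw [e2, e3]
  field_simp

/-- the reduced equation -/
noncomputable def redEq (hr : IsRes A V r) (hV : ∀ x ∈ A, x ∈ V) (H : IntermediateField k Ω)
    (P₁ Q₁ : (VH V H)[X]) (η : Ω) : Polynomial Ω :=
  (P₁.map (rH hr hV H)).map (algebraMap (kap hr hV H) Ω) -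
    C η * (Q₁.map (rH hr hV H)).map (algebraMap (kap hr hV H) Ω)

open scoped Classical in
/-- (2.5) the roots of `P - y Q` in the disc and the roots of the reduced equation -/
theorem RD.roots {hr : IsRes A V r} {hV : ∀ x ∈ A, x ∈ V} [IsAlgClosed Ω]
    (h : RD hr hV H α π P Q ϖ β P₁ Q₁) (hπ : π ≠ 0) (y : Ω) (hY : y / ϖ ∈ V)
    (h0 : redEq hr hV H P₁ Q₁ (r ⟨_, hY⟩) ≠ 0) :
    (((P.map (algebraMap H Ω) - C y * Q.map (algebraMap H Ω)).roots.map
      fun T : Ω => (T - (α : Ω)) / (π : Ω)).filter (· ∈ V)).map (rr r) = (redEq hr hV H P₁ Q₁ (r ⟨_, hY⟩)).roots := by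
  classical
  have hϖ : (ϖ : Ω) ≠ 0 := by simpa using h.ϖ0
  have hβ : (β : Ω) ≠ 0 := by simpa using h.β0
  have hπ' : (π : Ω) ≠ 0 := by simpa using hπ
  let F : V[X] := P₁.map (iV V H) - C ⟨_, hY⟩ * Q₁.map (iV V H)
  have e1 : ∀ f : (VH V H)[X], (f.map (iV V H)).map r =
      (f.map (rH hr hV H)).map (algebraMap (kap hr hV H) Ω) := by
    intro f
    rw [Polynomial.map_map, Polynomial.map_map]
    rfl
  have e2 : ∀ f : (VH V H)[X], (f.map (iV V H)).map (algebraMap V Ω) =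
      (f.map (algebraMap (VH V H) H)).map (algebraMap H Ω) := by
    intro f
    rw [Polynomial.map_map, Polynomial.map_map]
    rfl
  have hF : F.map r = redEq hr hV H P₁ Q₁ (r ⟨_, hY⟩) := by
    rw [redEq, Polynomial.map_sub, Polynomial.map_mul, map_C, e1, e1]
  obtain ⟨S, hS1, hS2⟩ := roots_map hr hV F (by rw [hF]; exact h0)
  have hF2 : (P.map (algebraMap H Ω) - C y * Q.map (algebraMap H Ω)).comp
      (C (α : Ω) + C (π : Ω) * X) = C ((ϖ : Ω) * β) * F.map (algebraMap V Ω) := by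
    have h1 := congrArg (Polynomial.map (algebraMap H Ω)) h.eP
    have h2 := congrArg (Polynomial.map (algebraMap H Ω)) h.eQ
    rw [map_asub, Polynomial.map_mul, map_C] at h1 h2
    rw [sub_comp, mul_comp, C_comp, h1, h2, Polynomial.map_sub, Polynomial.map_mul, map_C, e2, e2]
    have h3 : (algebraMap V Ω) ⟨_, hY⟩ = y / ϖ := rfl
    have h5 : algebraMap H Ω (ϖ * β) = (ϖ : Ω) * β := rfl
    have h6 : algebraMap H Ω β = (β : Ω) := rfl
    rw [h3, h5, h6, mul_sub, ← mul_assoc, ← mul_assoc, ← C_mul, ← C_mul]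
    congr 3
    field_simp
  rw [← roots_sub _ _ hπ', hF2, roots_C_mul _ (mul_ne_zero hϖ hβ), hS1, ← hF, hS2,
    Multiset.map_map]
  exact Multiset.map_congr rfl fun x _ => rr_coe r x

end

end Pool.Agent.TUQ
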