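import Pool.Agent.TUQ.G7

/-!
# Discs, and the invariance of the multiset of residue embeddings
-/

set_option autoImplicit false

namespace Pool.Agent.TUQ

open Polynomial Pool.Agent.TBR

universe u

/-- a multiset of maps which is parametrised by a stable multiset is stable -/
theorem inv_multiset {X J R : Type*} (S : Multiset X) (ρ : X → R) (e : X → J) (σR : R → R)
    (σJ : J → J) (hR : (S.map ρ).map σR = S.map ρ)
    (he : ∀ x ∈ S, ∀ x' ∈ S, ρ x' = σR (ρ x) → e x' = σJ (e x)) :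
    (S.map e).map σJ = S.map e := by
  classical
  by_cases hS : S = 0
  · subst hS; rfl
  obtain ⟨x₀, hx₀⟩ := Multiset.exists_mem_of_ne_zero hS
  have h1 : ∀ x ∈ S, ∀ x' ∈ S, ρ x = ρ x' → e x = e x' := by
    intro x hx x' hx' h
    have h2 : ρ x ∈ (S.map ρ).map σR := by
      rw [hR]
      exact Multiset.mem_map_of_mem ρ hx
    obtain ⟨y, hy, hyx⟩ := Multiset.mem_map.mp h2
    obtain ⟨x'', hx'', rfl⟩ := Multiset.mem_map.mp hy
    rw [he x'' hx'' x hx hyx.symm, he x'' hx'' x' hx' (by rw [hyx, h])]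
  have h2 : ∀ x ∈ S, ∃ x' ∈ S, ρ x' = σR (ρ x) := by
    intro x hx
    have h3 : σR (ρ x) ∈ S.map ρ := by
      rw [← hR]
      exact Multiset.mem_map_of_mem σR (Multiset.mem_map_of_mem ρ hx)
    obtain ⟨x', hx', h⟩ := Multiset.mem_map.mp h3
    exact ⟨x', hx', h⟩
  let e' : R → J := fun y => if h : ∃ x ∈ S, ρ x = y then e h.choose else e x₀
  have he' : ∀ x ∈ S, e' (ρ x) = e x := by
    intro x hx
    have h : ∃ x' ∈ S, ρ x' = ρ x := ⟨x, hx, rfl⟩
    have h3 : e' (ρ x) = e h.choose := dif_pos h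
    rw [h3]
    exact h1 _ h.choose_spec.1 x hx h.choose_spec.2
  have h3 : S.map e = (S.map ρ).map e' := by
    rw [Multiset.map_map]
    exact Multiset.map_congr rfl fun x hx => (he' x hx).symm
  have h4 : (S.map ρ).map e' = ((S.map ρ).map σR).map e' := by rw [hR]
  rw [h3]
  conv_rhs => rw [h4]
  rw [Multiset.map_map, Multiset.map_map, Multiset.map_map, Multiset.map_map]
  refine Multiset.map_congr rfl fun x hx => ?_
  obtain ⟨x', hx', h⟩ := h2 x hx
  simp only [Function.comp_apply]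
  rw [← h, he' x hx, he' x' hx', he x hx x' hx' h]

section

variable {k Ω : Type u} [Field k] [Field Ω] [Algebra k Ω]
variable {A : IntermediateField k Ω} {V : ValuationSubring Ω} {r : V →+* Ω}

/-- `T` is a generic point of the disc `(α, π)` -/
def Gen (hr : IsRes A V r) (hV : ∀ x ∈ A, x ∈ V) (H : IntermediateField k Ω) (α π : H) (T : Ω) :
    Prop :=
  ∃ hT : (T - α) / π ∈ V, r ⟨_, hT⟩ ∉ kap hr hV H

theorem Gauss.gen {hr : IsRes A V r} {hV : ∀ x ∈ A, x ∈ V} {H : IntermediateField k Ω}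
    {α π τ θ : Ω} (h : Gauss hr hV H α π τ θ) :
    ∃ (α' π' : H), (α' : Ω) = α ∧ (π' : Ω) = π ∧ π' ≠ 0 ∧ Gen hr hV H α' π' τ := by
  obtain ⟨hα, hπ, hπ0, ⟨hT, h1⟩, h2⟩ := h
  refine ⟨⟨α, hα⟩, ⟨π, hπ⟩, rfl, rfl, fun h => hπ0 (congrArg Subtype.val h), ⟨hT, ?_⟩⟩
  rw [h1]
  exact h2

variable {hr : IsRes A V r} {hV : ∀ x ∈ A, x ∈ V} {H : IntermediateField k Ω}

/-- two discs with a common generic point have the same radius -/
theorem disc_aux (α π α' π' : H) (hπ : π ≠ 0) (hπ' : π' ≠ 0) (T : Ω) (h : Gen hr hV H α π T)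
    (h' : Gen hr hV H α' π' T) : V.valuation (π : Ω) ≤ V.valuation (π' : Ω) := by
  obtain ⟨hx, hx'⟩ := h
  obtain ⟨hy, -⟩ := h'
  have hp : (π : Ω) ≠ 0 := by simpa using hπ
  have hp' : (π' : Ω) ≠ 0 := by simpa using hπ'
  by_contra hcon
  rw [not_le] at hcon
  apply hx'
  have hvπ : 0 < V.valuation (π : Ω) := zero_lt_iff.mpr ((_root_.map_ne_zero _).mpr hp)
  have h1 : V.valuation ((π' : Ω) / π) < 1 := by
    rw [map_div₀, div_lt_one₀ hvπ]
    exact hcon
  have h2 : (T - α) / π - (α' - α) / π = (T - α') / π' * (π' / π) := by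
    field_simp
    ring
  have h3 : V.valuation ((T - α) / π - ((α' : Ω) - α) / π) < 1 := by
    rw [h2, map_mul]
    exact mul_lt_one_of_nonneg_of_lt_one_right ((val_le V _).mp hy) zero_le h1
  have h4 : ((α' : Ω) - α) / π ∈ V := by
    have : ((α' : Ω) - α) / π = (T - α) / π - ((T - α) / π - ((α' : Ω) - α) / π) := by ring
    rw [this]
    exact sub_mem hx ((val_le V _).mpr h3.le)
  rw [(hr.eq_of_sub hV hx h4).mpr h3]
  exact res_mem_kap hr hV H h4 (div_mem (sub_mem α'.2 α.2) π.2)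

/-- (2.6) discs with a common generic point are equal -/
theorem disc_eq (α π α' π' : H) (hπ : π ≠ 0) (hπ' : π' ≠ 0) (T T' : Ω) (h : Gen hr hV H α π T)
    (h' : Gen hr hV H α' π' T) (h1 : Gen hr hV H α π T') : Gen hr hV H α' π' T' := by
  have hv := le_antisymm (disc_aux α π α' π' hπ hπ' T h h') (disc_aux α' π' α π hπ' hπ T h' h)
  obtain ⟨hx, hx'⟩ := h
  obtain ⟨hy, hy'⟩ := h'
  obtain ⟨hz, hz'⟩ := h1
  have hp : (π : Ω) ≠ 0 := by simpa using hπ
  have hp' : (π' : Ω) ≠ 0 := by simpa using hπ'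
  have hvπ : V.valuation (π : Ω) ≠ 0 := (_root_.map_ne_zero _).mpr hp
  have hc : (π : Ω) / π' ∈ V := by rw [val_le, map_div₀, ← hv, div_self hvπ]
  have hc' : (π' : Ω) / π ∈ V := by rw [val_le, map_div₀, ← hv, div_self hvπ]
  have hd : ((α : Ω) - α') / π' ∈ V := by
    have : ((α : Ω) - α') / π' = (T - α') / π' - (π / π') * ((T - α) / π) := by
      field_simp
      ring
    rw [this]
    exact sub_mem hy (mul_mem hc hx)
  have he : (T' - α') / π' = (π / π') * ((T' - α) / π) + ((α : Ω) - α') / π' := by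
    field_simp
    ring
  have hz2 : (T' - α') / π' ∈ V := by
    rw [he]
    exact add_mem (mul_mem hc hz) hd
  refine ⟨hz2, fun hκ => hz' ?_⟩
  have he2 : (T' - α) / π = (π' / π) * ((T' - α') / π' - ((α : Ω) - α') / π') := by
    field_simp
    ring
  have he3 : (⟨(T' - α) / π, hz⟩ : V) = ⟨_, hc'⟩ * (⟨_, hz2⟩ - ⟨_, hd⟩) := Subtype.ext he2
  rw [he3, map_mul, map_sub]
  exact mul_mem (res_mem_kap hr hV H hc' (div_mem π'.2 π.2))
    (sub_mem hκ (res_mem_kap hr hV H hd (div_mem (sub_mem α.2 α'.2) π'.2)))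

theorem Gen.notMem {α π : H} {T : Ω} (h : Gen hr hV H α π T) : T ∉ H := by
  rintro hT
  obtain ⟨hx, hx'⟩ := h
  exact hx' (res_mem_kap hr hV H hx (div_mem (sub_mem hT α.2) π.2))

/-- the residue of a point with respect to a disc -/
noncomputable def rT (r : V →+* Ω) (α π : H) (T : Ω) : Ω := rr r ((T - α) / π)

theorem rT_of (α π : H) {T : Ω} (hT : (T - α) / π ∈ V) : rT r α π T = r ⟨_, hT⟩ := rr_of r hT

theorem Gen.rT_notMem {α π : H} {T : Ω} (h : Gen hr hV H α π T) :
    rT r α π T ∉ kap hr hV H := by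
  obtain ⟨hx, hx'⟩ := h
  rwa [rT_of α π hx]

/-- the residue of a point with respect to a disc, as an element of `A` -/
noncomputable def rA (hr : IsRes A V r) (α π : H) (T : Ω) : A :=
  ⟨rT r α π T, by
    rw [rT, rr]
    split_ifs with h
    · exact hr.mem _
    · exact zero_mem _⟩

theorem rA_coe (α π : H) (T : Ω) : ((rA hr α π T : A) : Ω) = rT r α π T := rfl

/-- a field automorphism which fixes the coefficients permutes the roots -/
theorem roots_sigma {F : Type*} [Field F] [Algebra k F] (σ : F ≃ₐ[k] F) (f : Polynomial F)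
    (h : ∀ n, σ (f.coeff n) = f.coeff n) : f.roots.map σ = f.roots := by
  classical
  have h1 : f.map (σ : F →+* F) = f := by
    ext n
    rw [coeff_map]
    exact h n
  ext x
  have h3 : (f.roots.map σ).count (σ (σ.symm x)) = f.roots.count (σ.symm x) :=
    Multiset.count_map_eq_count' σ f.roots σ.injective _
  rw [σ.apply_symm_apply] at h3
  rw [h3, count_roots, count_roots]
  have h4 := Polynomial.eq_rootMultiplicity_map (p := f) (f := (σ : F →+* F)) σ.injective
    (σ.symm x)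
  rw [h1] at h4
  rw [h4]
  congr 1
  exact σ.apply_symm_apply x

/-- a polynomial over the residue field of `H`, as a polynomial over `A` -/
noncomputable def pA (hr : IsRes A V r) (hV : ∀ x ∈ A, x ∈ V) (H : IntermediateField k Ω)
    (f : (VH V H)[X]) : Polynomial A :=
  (f.map (rH hr hV H)).map (IntermediateField.inclusion (kap_le hr hV H) : _ →+* A)

theorem pA_map (f : (VH V H)[X]) :
    (pA hr hV H f).map (algebraMap A Ω) =
      (f.map (rH hr hV H)).map (algebraMap (kap hr hV H) Ω) := by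
  rw [pA, Polynomial.map_map]
  rfl

theorem pA_eval (f : (VH V H)[X]) (x : A) :
    (((pA hr hV H f).eval x : A) : Ω) = aeval (x : Ω) (f.map (rH hr hV H)) := by
  have h1 : (((pA hr hV H f).eval x : A) : Ω) = aeval (x : Ω) (pA hr hV H f) :=
    (aeval_algebraMap_apply_eq_algebraMap_eval x (pA hr hV H f)).symm
  rw [h1, aeval_def, aeval_def, ← eval_map, ← eval_map, pA_map]

/-- the coefficients of the polynomial are fixed -/
def FixC (σ : A ≃ₐ[k] A) (f : Polynomial A) : Prop := ∀ n, σ (f.coeff n) = f.coeff n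

theorem FixC.eval {σ : A ≃ₐ[k] A} {f : Polynomial A} (h : FixC σ f) (x : A) :
    σ (f.eval x) = f.eval (σ x) := by
  rw [eval_eq_sum_range, eval_eq_sum_range, map_sum]
  refine Finset.sum_congr rfl fun i _ => ?_
  rw [map_mul, map_pow]
  congr 1
  exact h i

variable {α π : H} {P Q : H[X]} {ϖ β : H} {P₁ Q₁ : (VH V H)[X]}

open scoped Classical in
/-- the multiset of residues of the generic roots of `P - y Q` is stable -/
theorem RD.roots_inv [IsAlgClosed Ω] [IsAlgClosed A] (h : RD hr hV H α π P Q ϖ β P₁ Q₁)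
    (hπ : π ≠ 0) (y : Ω)
    (hY : y / ϖ ∈ V) (h0 : redEq hr hV H P₁ Q₁ (r ⟨_, hY⟩) ≠ 0) (σ : A ≃ₐ[k] A)
    (hσκ : ∀ x : A, ((σ x : A) : Ω) ∈ kap hr hV H ↔ (x : Ω) ∈ kap hr hV H)
    (hση : σ ⟨r ⟨_, hY⟩, hr.mem _⟩ = ⟨r ⟨_, hY⟩, hr.mem _⟩)
    (hσP : FixC σ (pA hr hV H P₁)) (hσQ : FixC σ (pA hr hV H Q₁)) :
    ((((P.map (algebraMap H Ω) - C y * Q.map (algebraMap H Ω)).roots.filter
      (Gen hr hV H α π)).map (rA hr α π)).map σ) =
    ((P.map (algebraMap H Ω) - C y * Q.map (algebraMap H Ω)).roots.filter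
      (Gen hr hV H α π)).map (rA hr α π) := by
  classical
  have h1 := h.roots hπ y hY h0
  set R := (P.map (algebraMap H Ω) - C y * Q.map (algebraMap H Ω)).roots with hR
  have h2 : (R.filter (Gen hr hV H α π)).map (rT r α π) =
      (redEq hr hV H P₁ Q₁ (r ⟨_, hY⟩)).roots.filter (· ∉ kap hr hV H) := by
    rw [← h1, Multiset.filter_map, Multiset.filter_map, Multiset.filter_map, Multiset.filter_filter,
      Multiset.map_map]
    have e1 : R.filter (Gen hr hV H α π) = R.filter (fun a =>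
        (((fun x => x ∉ kap hr hV H) ∘ rr r) ∘ fun T : Ω => (T - (α : Ω)) / (π : Ω)) a ∧
          ((fun x => x ∈ V) ∘ fun T : Ω => (T - (α : Ω)) / (π : Ω)) a) := by
      refine Multiset.filter_congr fun T _ => ?_
      simp only [Function.comp_apply]
      constructor
      · rintro ⟨hx, hx'⟩
        exact ⟨by rwa [rr_of r hx], hx⟩
      · rintro ⟨hx', hx⟩
        exact ⟨hx, by rwa [rr_of r hx] at hx'⟩
    rw [e1]
    rfl
  -- the reduced equation over `A`
  set η : A := ⟨r ⟨_, hY⟩, hr.mem _⟩ with hη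
  set F : Polynomial A := pA hr hV H P₁ - C η * pA hr hV H Q₁ with hF
  have hFm : F.map (algebraMap A Ω) = redEq hr hV H P₁ Q₁ (r ⟨_, hY⟩) := by
    rw [hF, Polynomial.map_sub, Polynomial.map_mul, map_C, pA_map, pA_map]
    rfl
  have hFr : (redEq hr hV H P₁ Q₁ (r ⟨_, hY⟩)).roots = F.roots.map (algebraMap A Ω) := by
    rw [← hFm]
    exact (IsAlgClosed.splits F).roots_map _
  have h3 : (R.filter (Gen hr hV H α π)).map (rA hr α π) =
      F.roots.filter (fun x : A => (x : Ω) ∉ kap hr hV H) := by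
    apply Multiset.map_injective (algebraMap A Ω).injective
    rw [Multiset.map_map]
    have e2 : (R.filter (Gen hr hV H α π)).map (⇑(algebraMap A Ω) ∘ rA hr α π) =
        (R.filter (Gen hr hV H α π)).map (rT r α π) := rfl
    rw [e2, h2, hFr, Multiset.filter_map]
    rfl
  rw [h3]
  have h4 : F.roots.map σ = F.roots := by
    apply roots_sigma
    intro n
    rw [hF, coeff_sub, coeff_C_mul, map_sub, map_mul, hση, hσP n, hσQ n]
  conv_rhs => rw [← h4]
  rw [Multiset.filter_map]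
  congr 1
  refine Multiset.filter_congr fun x _ => ?_
  simp only [Function.comp_apply]
  rw [hσκ]

end

end Pool.Agent.TUQ
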