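import Mathlib

/-!
# Rational parametrizations of cyclic covers of the line

Let `a = A / C` be a rational function over an algebraically closed field, `S` a set of at least three points
of the projective line and `e β`, `β ∈ S`, integers with the sum `0` and not divisible by `N`. Then not
all the multiplicities `m` of the points over the `β ∈ S` satisfy `N ∣ m e β` (the cyclic cover of degree `N`
which is given by a function with the divisor `∑ e β β` has positive genus).
-/

set_option autoImplicit false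

namespace Pool.Agent.TUQ

open Polynomial

universe u

section

variable {K : Type u} [Field K]

/-- the members of the pencil spanned by `A` and `C` -/
noncomputable def frm (A C : K[X]) : Option K → K[X]
  | none => C
  | some β => A - Polynomial.C β * C

theorem frm_wr (A C : K[X]) {β γ : Option K} (h : β ≠ γ) :
    ∃ u : K, u ≠ 0 ∧ wronskian (frm A C β) (frm A C γ) = Polynomial.C u * wronskian A C := by
  rcases β with _ | β <;> rcases γ with _ | γ
  · exact absurd rfl h
  · refine ⟨-1, neg_ne_zero.2 one_ne_zero, ?_⟩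
    simp only [frm, wronskian, derivative_sub, derivative_C_mul, map_neg, map_one]
    ring
  · refine ⟨1, one_ne_zero, ?_⟩
    simp only [frm, wronskian, derivative_sub, derivative_C_mul, map_one]
    ring
  · refine ⟨β - γ, sub_ne_zero.2 fun h1 => h (by rw [h1]), ?_⟩
    simp only [frm, wronskian, derivative_sub, derivative_C_mul, map_sub]
    ring

theorem frm_ne (A C : K[X]) (hW : wronskian A C ≠ 0) (β : Option K) : frm A C β ≠ 0 := by
  intro h
  obtain ⟨γ, hγ⟩ : ∃ γ : Option K, β ≠ γ := by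
    rcases β with _ | β
    · exact ⟨some 0, fun h => by cases h⟩
    · exact ⟨none, fun h => by cases h⟩
  obtain ⟨u, hu, h1⟩ := frm_wr A C hγ
  rw [h] at h1
  have h2 : wronskian (0 : K[X]) (frm A C γ) = 0 := by
    simp [wronskian]
  rw [h2] at h1
  exact mul_ne_zero (by rwa [Ne, C_eq_zero]) hW h1.symm

/-- a common root of two members -/
theorem frm_root (A C : K[X]) (hc : IsCoprime A C) {β γ : Option K} (h : β ≠ γ) (x : K)
    (h1 : (frm A C β).eval x = 0) (h2 : (frm A C γ).eval x = 0) : False := by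
  have key : A.eval x = 0 ∧ C.eval x = 0 := by
    rcases β with _ | β <;> rcases γ with _ | γ
    · exact absurd rfl h
    · simp only [frm, eval_sub, eval_mul, eval_C] at h1 h2
      rw [h1, mul_zero, sub_zero] at h2
      exact ⟨h2, h1⟩
    · simp only [frm, eval_sub, eval_mul, eval_C] at h1 h2
      rw [h2, mul_zero, sub_zero] at h1
      exact ⟨h1, h2⟩
    · simp only [frm, eval_sub, eval_mul, eval_C] at h1 h2
      have h3 : (β - γ) * C.eval x = 0 := by linear_combination h2 - h1
      have h4 : C.eval x = 0 := by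
        rcases mul_eq_zero.1 h3 with h5 | h5
        · exact absurd (by rw [sub_eq_zero.1 h5]) h
        · exact h5
      rw [h4, mul_zero, sub_zero] at h1
      exact ⟨h1, h4⟩
  obtain ⟨r, s, hrs⟩ := hc
  have := congrArg (eval x) hrs
  simp only [eval_add, eval_mul, key.1, key.2, mul_zero, add_zero, eval_one] at this
  exact zero_ne_one this

theorem frm_mult (A C : K[X]) (hW : wronskian A C ≠ 0) (β : Option K) (x : K) :
    (frm A C β).rootMultiplicity x - 1 ≤ (wronskian A C).rootMultiplicity x := by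
  obtain ⟨γ, hγ⟩ : ∃ γ : Option K, β ≠ γ := by
    rcases β with _ | β
    · exact ⟨some 0, fun h => by cases h⟩
    · exact ⟨none, fun h => by cases h⟩
  obtain ⟨u, hu, h1⟩ := frm_wr A C hγ
  obtain ⟨g, hg⟩ := (frm A C β).pow_rootMultiplicity_dvd x
  set m := (frm A C β).rootMultiplicity x with hm
  rcases Nat.eq_zero_or_pos m with h0 | h0
  · rw [h0]
    exact Nat.zero_le _
  rw [le_rootMultiplicity_iff hW]
  have h2 : (X - Polynomial.C x) ^ (m - 1) ∣ frm A C β := by
    rw [hg]
    exact (pow_dvd_pow _ (Nat.sub_le m 1)).trans (dvd_mul_right _ _)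
  have h3 : (X - Polynomial.C x) ^ (m - 1) ∣ derivative (frm A C β) := by
    rw [hg, derivative_mul, derivative_pow]
    refine dvd_add ?_ ?_
    · exact Dvd.dvd.mul_right (Dvd.dvd.mul_right (Dvd.intro_left _ rfl) _) _
    · exact (pow_dvd_pow _ (Nat.sub_le m 1)).trans (dvd_mul_right _ _)
  have h4 : (X - Polynomial.C x) ^ (m - 1) ∣ Polynomial.C u * wronskian A C := by
    rw [← h1, wronskian]
    exact dvd_sub (h2.mul_right _) (h3.mul_right _)
  have h5 : Polynomial.C u⁻¹ * (Polynomial.C u * wronskian A C) = wronskian A C := by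
    rw [← mul_assoc, ← C_mul, inv_mul_cancel₀ hu, C_1, one_mul]
  rw [← h5]
  exact h4.mul_left _

theorem sum_mult_le (W : K[X]) (T : Finset K) : ∑ x ∈ T, W.rootMultiplicity x ≤ W.natDegree := by
  classical
  have h1 : ∑ x ∈ T, W.rootMultiplicity x ≤ ∑ x ∈ T ∪ W.roots.toFinset, W.rootMultiplicity x :=
    Finset.sum_le_sum_of_subset Finset.subset_union_left
  refine h1.trans ?_
  have h2 : ∑ x ∈ T ∪ W.roots.toFinset, W.rootMultiplicity x = W.roots.card := by
    rw [← Multiset.sum_count_eq_card (s := T ∪ W.roots.toFinset) (m := W.roots) fun a ha =>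
      Finset.mem_union_right _ (Multiset.mem_toFinset.2 ha)]
    exact Finset.sum_congr rfl fun x _ => (count_roots W).symm
  rw [h2]
  exact card_roots' W

/-- at most one member has a smaller degree -/
theorem frm_deg (A C : K[X]) (hW : wronskian A C ≠ 0) (S : Finset (Option K)) (hS : S.Nonempty) :
    ∃ β₀ ∈ S, (∀ β ∈ S, β ≠ β₀ → (frm A C β).natDegree = max A.natDegree C.natDegree) ∧
      (frm A C β₀).natDegree ≤ max A.natDegree C.natDegree := by
  classical
  set n := max A.natDegree C.natDegree with hn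
  have hle : ∀ β, (frm A C β).natDegree ≤ n := by
    rintro (_ | β)
    · exact le_max_right _ _
    · refine (natDegree_sub_le _ _).trans (max_le_max le_rfl ?_)
      exact natDegree_C_mul_le _ _
  have hcoef : ∀ β γ : Option K, β ≠ γ → (frm A C β).coeff n = 0 → (frm A C γ).coeff n = 0 →
      A.coeff n = 0 ∧ C.coeff n = 0 := by
    intro β γ h h1 h2
    rcases β with _ | β <;> rcases γ with _ | γ
    · exact absurd rfl h
    · simp only [frm, coeff_sub, coeff_C_mul] at h1 h2
      rw [h1, mul_zero, sub_zero] at h2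
      exact ⟨h2, h1⟩
    · simp only [frm, coeff_sub, coeff_C_mul] at h1 h2
      rw [h2, mul_zero, sub_zero] at h1
      exact ⟨h1, h2⟩
    · simp only [frm, coeff_sub, coeff_C_mul] at h1 h2
      have h3 : (β - γ) * C.coeff n = 0 := by linear_combination h2 - h1
      have h4 : C.coeff n = 0 := by
        rcases mul_eq_zero.1 h3 with h5 | h5
        · exact absurd (by rw [sub_eq_zero.1 h5]) h
        · exact h5
      rw [h4, mul_zero, sub_zero] at h1
      exact ⟨h1, h4⟩
  have hA : A ≠ 0 := by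
    rintro rfl
    exact hW (by simp [wronskian])
  have hC : C ≠ 0 := by
    rintro rfl
    exact hW (by simp [wronskian])
  have hnot : ¬ (A.coeff n = 0 ∧ C.coeff n = 0) := by
    rintro ⟨h1, h2⟩
    rcases le_total A.natDegree C.natDegree with h | h
    · rw [hn, max_eq_right h, coeff_natDegree, leadingCoeff_eq_zero] at h2
      exact hC h2
    · rw [hn, max_eq_left h, coeff_natDegree, leadingCoeff_eq_zero] at h1
      exact hA h1
  by_cases hex : ∃ β₀ ∈ S, (frm A C β₀).coeff n = 0
  · obtain ⟨β₀, hβ₀, h1⟩ := hex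
    refine ⟨β₀, hβ₀, fun β _ hne => ?_, hle β₀⟩
    refine le_antisymm (hle β) (le_natDegree_of_ne_zero fun h2 => hnot (hcoef β β₀ hne h2 h1))
  · obtain ⟨β₀, hβ₀⟩ := hS
    refine ⟨β₀, hβ₀, fun β hβ _ => ?_, hle β₀⟩
    exact le_antisymm (hle β) (le_natDegree_of_ne_zero fun h2 => hex ⟨β, hβ, h2⟩)

/-- the separable case -/
theorem rh_sep [IsAlgClosed K] (A C : K[X]) (hc : IsCoprime A C) (hW : wronskian A C ≠ 0) (N : ℕ)
    (hN0 : 0 < N) (S : Finset (Option K)) (ε : Option K → ℤ) (hε : ∀ β ∈ S, ε β < N)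
    (hsum : ∑ β ∈ S, ε β = 2 * N)
    (hdiv : ∀ β ∈ S, ∀ x, (N : ℤ) ∣ ((frm A C β).rootMultiplicity x : ℤ) * ε β) : False := by
  classical
  have hN : (0 : ℤ) < N := by exact_mod_cast hN0
  have hSne : S.Nonempty := by
    rw [Finset.nonempty_iff_ne_empty]
    rintro rfl
    rw [Finset.sum_empty] at hsum
    omega
  obtain ⟨β₀, hβ₀, hdeg, hdeg₀⟩ := frm_deg A C hW S hSne
  set n := max A.natDegree C.natDegree with hn
  obtain ⟨γ, hγ, hne⟩ : ∃ γ ∈ S, γ ≠ β₀ := by
    by_contra hcon
    push Not at hcon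
    have h1 : S = {β₀} := Finset.eq_singleton_iff_unique_mem.2 ⟨hβ₀, hcon⟩
    rw [h1, Finset.sum_singleton] at hsum
    have := hε β₀ hβ₀
    omega
  -- the degree of the Wronskian
  have hWdeg : (wronskian A C).natDegree < (frm A C β₀).natDegree + n := by
    obtain ⟨u, hu, h1⟩ := frm_wr A C (Ne.symm hne : β₀ ≠ γ)
    have h2 : wronskian (frm A C β₀) (frm A C γ) ≠ 0 := by
      rw [h1]
      exact mul_ne_zero (by rwa [Ne, C_eq_zero]) hW
    have h3 := natDegree_wronskian_lt_add h2
    rwa [h1, natDegree_C_mul hu, hdeg γ hγ hne] at h3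
  -- one member
  have hone : ∀ β ∈ S, ε β * ((frm A C β).natDegree : ℤ) ≤
      N * ∑ x ∈ (frm A C β).roots.toFinset, (((frm A C β).rootMultiplicity x - 1 : ℕ) : ℤ) := by
    intro β hβ
    have hne0 := frm_ne A C hW β
    have h1 : ((frm A C β).natDegree : ℤ) =
        ∑ x ∈ (frm A C β).roots.toFinset, ((frm A C β).rootMultiplicity x : ℤ) := by
      rw [← IsAlgClosed.card_roots_eq_natDegree (p := frm A C β),
        ← Multiset.toFinset_sum_count_eq, Nat.cast_sum]
      exact Finset.sum_congr rfl fun x _ => by rw [count_roots]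
    rw [h1, Finset.mul_sum, Finset.mul_sum]
    refine Finset.sum_le_sum fun x hx => ?_
    have hm : 0 < (frm A C β).rootMultiplicity x := by
      rw [rootMultiplicity_pos hne0]
      exact isRoot_of_mem_roots (Multiset.mem_toFinset.1 hx)
    obtain ⟨m, hm'⟩ : ∃ m : ℕ, (frm A C β).rootMultiplicity x = m + 1 := ⟨_, (Nat.succ_pred_eq_of_pos hm).symm⟩
    obtain ⟨q, hq⟩ := hdiv β hβ x
    rw [hm'] at hq ⊢
    rw [Nat.add_sub_cancel]
    have h2 : ε β < N := hε β hβ
    have h3 : (((m + 1 : ℕ) : ℤ)) * ε β < ((m + 1 : ℕ) : ℤ) * N := by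
      have : (0 : ℤ) < ((m + 1 : ℕ) : ℤ) := by positivity
      exact (mul_lt_mul_iff_right₀ this).2 h2
    have h4 : q < ((m + 1 : ℕ) : ℤ) := by
      rw [hq, mul_comm (((m + 1 : ℕ) : ℤ)) (N : ℤ)] at h3
      exact lt_of_mul_lt_mul_left h3 hN.le
    rw [mul_comm, hq]
    refine mul_le_mul_of_nonneg_left ?_ hN.le
    push_cast at h4
    omega
  -- all members
  have hall : ∑ β ∈ S, ∑ x ∈ (frm A C β).roots.toFinset, ((frm A C β).rootMultiplicity x - 1) ≤
      (wronskian A C).natDegree := by
    have hdisj : (S : Set (Option K)).PairwiseDisjoint fun β => (frm A C β).roots.toFinset := by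
      intro β _ γ _ h
      refine Finset.disjoint_left.2 fun x hx hx' => ?_
      exact frm_root A C hc h x (isRoot_of_mem_roots (Multiset.mem_toFinset.1 hx))
        (isRoot_of_mem_roots (Multiset.mem_toFinset.1 hx'))
    refine le_trans ?_ (sum_mult_le (wronskian A C) (S.biUnion fun β => (frm A C β).roots.toFinset))
    rw [Finset.sum_biUnion hdisj]
    exact Finset.sum_le_sum fun β _ => Finset.sum_le_sum fun x _ => frm_mult A C hW β x
  have hLHS : ∑ β ∈ S, ε β * ((frm A C β).natDegree : ℤ) =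
      2 * N * n - ε β₀ * (n - (frm A C β₀).natDegree) := by
    have h1 : ∀ β ∈ S, ε β * ((frm A C β).natDegree : ℤ) =
        ε β * n - if β = β₀ then ε β₀ * (n - (frm A C β₀).natDegree) else 0 := by
      intro β hβ
      by_cases h : β = β₀
      · subst h
        rw [if_pos rfl]
        ring
      · rw [if_neg h, hdeg β hβ h, sub_zero]
    rw [Finset.sum_congr rfl h1, Finset.sum_sub_distrib, ← Finset.sum_mul, hsum,
      Finset.sum_ite_eq' S β₀, if_pos hβ₀]
  have hfin : (2 * N * n - ε β₀ * (n - (frm A C β₀).natDegree) : ℤ) ≤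
      N * (wronskian A C).natDegree := by
    rw [← hLHS]
    refine (Finset.sum_le_sum hone).trans ?_
    rw [← Finset.mul_sum]
    refine mul_le_mul_of_nonneg_left ?_ hN.le
    exact_mod_cast hall
  have h1 : (((wronskian A C).natDegree : ℕ) : ℤ) ≤ (frm A C β₀).natDegree + n - 1 := by
    have : (((wronskian A C).natDegree : ℕ) : ℤ) < (frm A C β₀).natDegree + n := by exact_mod_cast hWdeg
    omega
  have h2 : (N : ℤ) * (wronskian A C).natDegree ≤ N * ((frm A C β₀).natDegree + n - 1) :=
    mul_le_mul_of_nonneg_left h1 hN.le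
  have h3 : ε β₀ ≤ N - 1 := by
    have := hε β₀ hβ₀
    omega
  have h4 : (0 : ℤ) ≤ n - (frm A C β₀).natDegree := by
    have : ((frm A C β₀).natDegree : ℤ) ≤ n := by exact_mod_cast hdeg₀
    omega
  have h5 : ε β₀ * (n - (frm A C β₀).natDegree : ℤ) ≤ (N - 1) * (n - (frm A C β₀).natDegree) :=
    mul_le_mul_of_nonneg_right h3 h4
  nlinarith

/-- the weights -/
theorem rh_eps (N : ℕ) (hN0 : 0 < N) {ι : Type*} (S : Finset ι) (hS : 3 ≤ S.card) (e : ι → ℤ)
    (hsum : ∑ β ∈ S, e β = 0) (he : ∀ β ∈ S, ¬ (N : ℤ) ∣ e β) :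
    ∃ (ε : ι → ℤ) (s : ℤ), (∀ β ∈ S, ε β < N) ∧ ∑ β ∈ S, ε β = 2 * N ∧
      ∀ β ∈ S, (N : ℤ) ∣ ε β - s * e β := by
  classical
  have hN : (0 : ℤ) < N := by exact_mod_cast hN0
  have key : ∀ s : ℤ, (2 * (N : ℤ) ≤ ∑ β ∈ S, (s * e β) % N) →
      ∃ (ε : ι → ℤ) (s : ℤ), (∀ β ∈ S, ε β < N) ∧ ∑ β ∈ S, ε β = 2 * N ∧
        ∀ β ∈ S, (N : ℤ) ∣ ε β - s * e β := by
    intro s hs
    have hdiv : ∀ β, (N : ℤ) ∣ (s * e β) % N - s * e β := fun β => by
      rw [Int.emod_def]
      exact ⟨-(s * e β / N), by ring⟩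
    have h1 : (N : ℤ) ∣ ∑ β ∈ S, (s * e β) % N := by
      have h2 : (N : ℤ) ∣ ∑ β ∈ S, ((s * e β) % N - s * e β) := Finset.dvd_sum fun β _ => hdiv β
      rw [Finset.sum_sub_distrib, ← Finset.mul_sum, hsum, mul_zero, sub_zero] at h2
      exact h2
    obtain ⟨j, hj⟩ := h1
    obtain ⟨β₀, hβ₀⟩ : S.Nonempty := Finset.card_pos.1 (by omega)
    have hj2 : 2 ≤ j := by
      rw [hj] at hs
      by_contra hcon
      have : j ≤ 1 := by omega
      nlinarith
    refine ⟨fun β => (s * e β) % N - if β = β₀ then (j - 2) * N else 0, s, fun β hβ => ?_, ?_, fun β hβ => ?_⟩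
    · have h2 := Int.emod_lt_of_pos (s * e β) hN
      show (s * e β) % N - (if β = β₀ then (j - 2) * N else 0) < N
      split_ifs
      · nlinarith
      · omega
    · rw [Finset.sum_sub_distrib, hj, Finset.sum_ite_eq' S β₀, if_pos hβ₀]
      ring
    · have h2 := hdiv β
      show (N : ℤ) ∣ (s * e β) % N - (if β = β₀ then (j - 2) * N else 0) - s * e β
      split_ifs
      · have h3 : (s * e β) % N - (j - 2) * N - s * e β = ((s * e β) % N - s * e β) - N * (j - 2) := by ring
        rw [h3]
        exact dvd_sub h2 (dvd_mul_right _ _)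
      · rwa [sub_zero]
  by_cases h1 : 2 * (N : ℤ) ≤ ∑ β ∈ S, (1 * e β) % N
  · exact key 1 h1
  · refine key (-1) ?_
    have h2 : ∀ β ∈ S, (-1 * e β) % N = N - (1 * e β) % N := by
      intro β hβ
      have h3 : (1 * e β) % N ≠ 0 := fun h => he β hβ (by
        rw [one_mul] at h
        exact Int.dvd_of_emod_eq_zero h)
      have h4 := Int.emod_nonneg (1 * e β) hN.ne'
      have h5 := Int.emod_lt_of_pos (1 * e β) hN
      have h6 : -1 * e β = (N - (1 * e β) % N) + N * (-(1 * e β / N) - 1) := by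
        have := Int.emod_add_mul_ediv (1 * e β) N
        linear_combination this
      rw [h6, Int.add_mul_emod_self_left]
      exact Int.emod_eq_of_lt (by omega) (by omega)
    rw [Finset.sum_congr rfl h2, Finset.sum_sub_distrib, Finset.sum_const, nsmul_eq_mul]
    have h3 : (3 : ℤ) ≤ S.card := by exact_mod_cast hS
    have hd : (N : ℤ) ∣ ∑ β ∈ S, (1 * e β) % N := by
      have h4 : (N : ℤ) ∣ ∑ β ∈ S, ((1 * e β) % N - 1 * e β) := Finset.dvd_sum fun β _ => by
        rw [Int.emod_def]
        exact ⟨-(1 * e β / N), by ring⟩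
      rw [Finset.sum_sub_distrib, ← Finset.mul_sum, hsum, mul_zero, sub_zero] at h4
      exact h4
    obtain ⟨j, hj⟩ := hd
    rw [hj] at h1 ⊢
    have hj1 : j ≤ 1 := by
      by_contra hcon
      apply h1
      have : 2 ≤ j := by omega
      nlinarith
    nlinarith

end

end Pool.Agent.TUQ
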