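import Pool.Agent.TUQ.S3a

/-!
# Rational parametrizations of cyclic covers of the line, II: the general case
-/

set_option autoImplicit false

namespace Pool.Agent.TUQ

open Polynomial

universe u

section

variable {K : Type u} [Field K]

/-- the case of a nonzero Wronskian -/
theorem rh_sep' [IsAlgClosed K] (A C : K[X]) (hc : IsCoprime A C) (hW : wronskian A C ≠ 0) (N : ℕ)
    (hN0 : 0 < N) (S : Finset (Option K)) (hS : 3 ≤ S.card) (e : Option K → ℤ)
    (hsum : ∑ β ∈ S, e β = 0) (he : ∀ β ∈ S, ¬ (N : ℤ) ∣ e β)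
    (hdiv : ∀ β ∈ S, ∀ x, (N : ℤ) ∣ ((frm A C β).rootMultiplicity x : ℤ) * e β) : False := by
  obtain ⟨ε, s, h1, h2, h3⟩ := rh_eps N hN0 S hS e hsum he
  refine rh_sep A C hc hW N hN0 S ε h1 h2 fun β hβ x => ?_
  have h4 : ((frm A C β).rootMultiplicity x : ℤ) * ε β =
      ((frm A C β).rootMultiplicity x : ℤ) * (ε β - s * e β) +
        s * (((frm A C β).rootMultiplicity x : ℤ) * e β) := by ring
  rw [h4]
  exact dvd_add (Dvd.dvd.mul_left (h3 β hβ) _) (Dvd.dvd.mul_left (hdiv β hβ x) _)

/-- a polynomial with the derivative zero is a power -/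
theorem rh_pow [IsAlgClosed K] (p : ℕ) [Fact p.Prime] [CharP K p] (A : K[X])
    (hA : derivative A = 0) : ∃ A₁ : K[X], A = A₁ ^ p := by
  have hp : p ≠ 0 := (Fact.out : p.Prime).ne_zero
  refine ⟨(contract p A).map ((frobeniusEquiv K p).symm : K →+* K), ?_⟩
  rw [← map_frobenius_expand, ← map_expand, map_map]
  have h1 : (frobenius K p).comp ((frobeniusEquiv K p).symm : K →+* K) = RingHom.id K := by
    ext x
    exact frobenius_apply_frobeniusEquiv_symm K p x
  rw [h1, map_id, expand_contract p hA hp]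

/-- **The positivity of the genus.** -/
theorem rh [IsAlgClosed K] (N : ℕ) (hN : (N : K) ≠ 0) (n : ℕ) :
    ∀ (A C : K[X]) (_ : IsCoprime A C) (_ : 0 < n) (_ : max A.natDegree C.natDegree = n)
      (S : Finset (Option K)) (_ : 3 ≤ S.card) (e : Option K → ℤ)
      (_ : ∑ β ∈ S, e β = 0) (_ : ∀ β ∈ S, ¬ (N : ℤ) ∣ e β)
      (_ : ∀ β ∈ S, ∀ x, (N : ℤ) ∣ ((frm A C β).rootMultiplicity x : ℤ) * e β), False := by
  classical
  have hN0 : 0 < N := by
    rcases Nat.eq_zero_or_pos N with h | h
    · rw [h, Nat.cast_zero] at hN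
      exact absurd rfl hN
    · exact h
  induction n using Nat.strong_induction_on with
  | _ n ih =>
  intro A C hc hn hmax S hS e hsum he hdiv
  by_cases hW : wronskian A C ≠ 0
  · exact rh_sep' A C hc hW N hN0 S hS e hsum he hdiv
  push Not at hW
  rw [hc.wronskian_eq_zero_iff] at hW
  obtain ⟨hA, hC⟩ := hW
  obtain ⟨p, hp⟩ := CharP.exists K
  rcases CharP.char_is_prime_or_zero K p with hpr | rfl
  · have := Fact.mk hpr
    obtain ⟨A₁, hA₁⟩ := rh_pow p A hA
    obtain ⟨C₁, hC₁⟩ := rh_pow p C hC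
    have hp0 : p ≠ 0 := hpr.ne_zero
    have hNp : IsCoprime (N : ℤ) (p : ℤ) := by
      rw [Nat.isCoprime_iff_coprime]
      refine (Nat.Coprime.symm ((Nat.Prime.coprime_iff_not_dvd hpr).2 fun h => hN ?_))
      exact (CharP.cast_eq_zero_iff K p N).2 h
    have hfr : ∀ β : Option K, frm A C (Option.map (frobenius K p) β) = frm A₁ C₁ β ^ p := by
      rintro (_ | β)
      · exact hC₁
      · simp only [frm, Option.map_some]
        rw [sub_pow_expChar, mul_pow, ← hA₁, ← hC₁, ← C_pow, frobenius_def]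
    -- the equivalence
    let φ : Option K ≃ Option K := Equiv.optionCongr (frobeniusEquiv K p).toEquiv
    have hφ : ∀ β, φ β = Option.map (frobenius K p) β := by
      rintro (_ | β) <;> rfl
    have hdeg : max A₁.natDegree C₁.natDegree < n ∧ 0 < max A₁.natDegree C₁.natDegree := by
      have h1 : n = p * max A₁.natDegree C₁.natDegree := by
        rw [← hmax, hA₁, hC₁, natDegree_pow, natDegree_pow]
        exact (Nat.mul_max_mul_left p _ _).symm ▸ rfl
      have h2 : 0 < max A₁.natDegree C₁.natDegree := by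
        rcases Nat.eq_zero_or_pos (max A₁.natDegree C₁.natDegree) with h | h
        · rw [h, mul_zero] at h1
          omega
        · exact h
      refine ⟨?_, h2⟩
      rw [h1]
      have h3 := hpr.one_lt
      nlinarith
    have hc₁ : IsCoprime A₁ C₁ := by
      rw [hA₁, hC₁] at hc
      exact (IsCoprime.pow_iff (Nat.pos_of_ne_zero hp0) (Nat.pos_of_ne_zero hp0)).1 hc
    refine ih _ hdeg.1 A₁ C₁ hc₁ hdeg.2 rfl (S.map φ.symm.toEmbedding) (by rwa [Finset.card_map])
      (fun β => e (φ β)) ?_ ?_ ?_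
    · rw [Finset.sum_map]
      simpa using hsum
    · intro β hβ
      rw [Finset.mem_map] at hβ
      obtain ⟨γ, hγ, rfl⟩ := hβ
      simpa using he γ hγ
    · intro β hβ x
      rw [Finset.mem_map] at hβ
      obtain ⟨γ, hγ, rfl⟩ := hβ
      have h1 := hdiv γ hγ x
      have h2 : frm A C γ = frm A₁ C₁ (φ.symm γ) ^ p := by
        rw [← hfr, ← hφ, Equiv.apply_symm_apply]
      rw [h2, ← count_roots, roots_pow, Multiset.count_nsmul, count_roots] at h1
      push_cast at h1
      rw [mul_assoc] at h1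
      have h3 := hNp.dvd_of_dvd_mul_left h1
      simpa using h3
  · have : CharZero K := CharP.charP_to_charZero K
    have h1 := derivative_eq_zero.1 hA
    have h2 := derivative_eq_zero.1 hC
    rw [h1, h2] at hmax
    simp at hmax
    omega

end

end Pool.Agent.TUQ
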