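import Pool.Agent.TUQ.S3b

/-!
# Homogenization of polynomials in one variable
-/

set_option autoImplicit false

namespace Pool.Agent.TUQ

open Polynomial

universe u

section

/-- the homogenization of `B` of degree `n`, evaluated at `(u, v)` -/
noncomputable def hg {R S : Type*} [CommSemiring R] [CommSemiring S] [Algebra R S] (n : ℕ)
    (B : R[X]) (u v : S) : S :=
  ∑ j ∈ Finset.range (n + 1), algebraMap R S (B.coeff j) * u ^ j * v ^ (n - j)

/-- homogenization and ring homomorphisms -/
theorem hg_hom {R S R' S' : Type*} [CommSemiring R] [CommSemiring S] [Algebra R S]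
    [CommSemiring R'] [CommSemiring S'] [Algebra R' S'] (σ : R →+* R') (φ : S →+* S')
    (h : ∀ x, φ (algebraMap R S x) = algebraMap R' S' (σ x)) (n : ℕ) (B : R[X]) (u v : S) :
    φ (hg n B u v) = hg n (B.map σ) (φ u) (φ v) := by
  rw [hg, hg, map_sum]
  refine Finset.sum_congr rfl fun j _ => ?_
  rw [map_mul, map_mul, map_pow, map_pow, h, coeff_map]

theorem hg_field {R F : Type*} [CommSemiring R] [Field F] [Algebra R F] (n : ℕ)
    (B : R[X]) (hB : B.natDegree ≤ n) (u v : F) (hv : v ≠ 0) :
    hg n B u v = v ^ n * aeval (u / v) B := by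
  rw [hg, aeval_eq_sum_range' (Nat.lt_succ_of_le hB), Finset.mul_sum]
  refine Finset.sum_congr rfl fun j hj => ?_
  have h1 : j ≤ n := Nat.lt_succ_iff.1 (Finset.mem_range.1 hj)
  rw [Algebra.smul_def, div_pow]
  have h2 : v ^ n = v ^ (n - j) * v ^ j := by rw [← pow_add, Nat.sub_add_cancel h1]
  rw [h2]
  field_simp

theorem hg_map_aeval {R H F : Type*} [CommSemiring R] [CommSemiring H] [Field F] [Algebra R H]
    [Algebra R F] [Algebra H F] [IsScalarTower R H F] (n : ℕ) (B : R[X]) (u v : H[X]) (x : F) :
    aeval x (hg n B u v) = hg n B (aeval x u) (aeval x v) := by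
  have := hg_hom (RingHom.id R) ((aeval x : H[X] →ₐ[H] F) : H[X] →+* F) (fun y => by
    rw [RingHom.coe_coe, RingHom.id_apply, IsScalarTower.algebraMap_apply R H H[X],
      AlgHom.commutes, ← IsScalarTower.algebraMap_apply]) n B u v
  rw [Polynomial.map_id] at this
  exact this

/-- the value of the homogenization -/
theorem hg_eval {R H F : Type*} [CommSemiring R] [CommSemiring H] [Field F] [Algebra R H]
    [Algebra R F] [Algebra H F] [IsScalarTower R H F] (n : ℕ) (B : R[X]) (hB : B.natDegree ≤ n)
    (u v : H[X]) (x : F) (hx : aeval x v ≠ 0) :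
    aeval x (hg n B u v) = (aeval x v) ^ n * aeval (aeval x u / aeval x v) B := by
  rw [hg_map_aeval, hg_field n B hB _ _ hx]

theorem hg_add {R S : Type*} [CommSemiring R] [CommSemiring S] [Algebra R S] (n : ℕ)
    (B B' : R[X]) (u v : S) : hg n (B + B') u v = hg n B u v + hg n B' u v := by
  rw [hg, hg, hg, ← Finset.sum_add_distrib]
  refine Finset.sum_congr rfl fun j _ => ?_
  rw [coeff_add, map_add]
  ring

theorem hg_C_mul {R S : Type*} [CommSemiring R] [CommSemiring S] [Algebra R S] (n : ℕ)
    (c : R) (B : R[X]) (u v : S) : hg n (C c * B) u v = algebraMap R S c * hg n B u v := by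
  rw [hg, hg, Finset.mul_sum]
  refine Finset.sum_congr rfl fun j _ => ?_
  rw [coeff_C_mul, map_mul]
  ring

theorem hg_sub {R S : Type*} [CommRing R] [CommRing S] [Algebra R S] (n : ℕ)
    (B B' : R[X]) (u v : S) : hg n (B - B') u v = hg n B u v - hg n B' u v := by
  rw [hg, hg, hg, ← Finset.sum_sub_distrib]
  refine Finset.sum_congr rfl fun j _ => ?_
  rw [coeff_sub, map_sub]
  ring

/-- multiplicativity -/
theorem hg_mul {R S : Type*} [CommRing R] [CommRing S] [IsDomain S] [Algebra R S] (m n : ℕ)
    (B B' : R[X]) (hB : B.natDegree ≤ m) (hB' : B'.natDegree ≤ n) (u v : S) (hv : v ≠ 0) :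
    hg (m + n) (B * B') u v = hg m B u v * hg n B' u v := by
  apply IsFractionRing.injective S (FractionRing S)
  rw [map_mul]
  have key : ∀ (l : ℕ) (D : R[X]), algebraMap S (FractionRing S) (hg l D u v) =
      hg l D (algebraMap S (FractionRing S) u) (algebraMap S (FractionRing S) v) := by
    intro l D
    have := hg_hom (RingHom.id R) (algebraMap S (FractionRing S)) (fun y => by
      rw [RingHom.id_apply, ← IsScalarTower.algebraMap_apply]) l D u v
    rw [Polynomial.map_id] at this
    exact this
  have hv' : algebraMap S (FractionRing S) v ≠ 0 := by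
    rw [Ne, IsFractionRing.to_map_eq_zero_iff]
    exact hv
  rw [key, key, key, hg_field _ _ (natDegree_mul_le.trans (add_le_add hB hB')) _ _ hv',
    hg_field _ _ hB _ _ hv', hg_field _ _ hB' _ _ hv', map_mul, pow_add]
  ring

theorem hg_one {R S : Type*} [CommSemiring R] [CommSemiring S] [Algebra R S] (c : R) (u v : S) :
    hg 0 (C c) u v = algebraMap R S c := by
  rw [hg]
  simp

theorem hg_X_sub_C {R S : Type*} [CommRing R] [CommRing S] [Algebra R S] (c : R) (u v : S) :
    hg 1 (X - C c) u v = u - algebraMap R S c * v := by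
  rw [hg, Finset.sum_range_succ, Finset.sum_range_one]
  simp [coeff_X, coeff_C]
  ring

variable {K : Type u} [Field K]

/-- the homogenization as a product -/
theorem hg_prod [IsAlgClosed K] (n : ℕ) (B : K[X]) (hB : B.natDegree ≤ n) (u v : K[X])
    (hv : v ≠ 0) : hg n B u v =
      C B.leadingCoeff * v ^ (n - B.natDegree) * (B.roots.map fun β => u - C β * v).prod := by
  apply IsFractionRing.injective K[X] (FractionRing K[X])
  have hv' : algebraMap K[X] (FractionRing K[X]) v ≠ 0 := by
    rw [Ne, IsFractionRing.to_map_eq_zero_iff]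
    exact hv
  have h1 : algebraMap K[X] (FractionRing K[X]) (hg n B u v) =
      hg n B (algebraMap K[X] (FractionRing K[X]) u) (algebraMap K[X] (FractionRing K[X]) v) := by
    have := hg_hom (RingHom.id K) (algebraMap K[X] (FractionRing K[X])) (fun y => by
      rw [RingHom.id_apply, ← IsScalarTower.algebraMap_apply]) n B u v
    rw [Polynomial.map_id] at this
    exact this
  rw [h1, hg_field n B hB _ _ hv']
  have hs : B.Splits := IsAlgClosed.splits B
  have h2 : B.natDegree = B.roots.card := (IsAlgClosed.card_roots_eq_natDegree).symm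
  conv_lhs => rw [hs.eq_prod_roots]
  set u' := algebraMap K[X] (FractionRing K[X]) u with hu'
  set v' := algebraMap K[X] (FractionRing K[X]) v with hv''
  rw [map_mul, aeval_C, map_multiset_prod, Multiset.map_map, map_mul, map_mul, map_pow,
    map_multiset_prod, Multiset.map_map, ← hv'']
  have h3 : v' ^ n = v' ^ (n - B.natDegree) * v' ^ B.natDegree := by
    rw [← pow_add, Nat.sub_add_cancel hB]
  have h4 : v' ^ B.natDegree * (Multiset.map (⇑(aeval (u' / v')) ∘ fun a => X - C a) B.roots).prod =
      (Multiset.map (⇑(algebraMap K[X] (FractionRing K[X])) ∘ fun β => u - C β * v) B.roots).prod := by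
    rw [h2]
    generalize B.roots = s
    induction s using Multiset.induction with
    | empty => simp
    | cons β s ih =>
      rw [Multiset.map_cons, Multiset.map_cons, Multiset.prod_cons, Multiset.prod_cons, ← ih,
        Multiset.card_cons, pow_succ]
      simp only [Function.comp_apply, map_sub, aeval_X, aeval_C, map_mul]
      have h5 : algebraMap K (FractionRing K[X]) β = algebraMap K[X] (FractionRing K[X]) (C β) := by
        rw [IsScalarTower.algebraMap_apply K K[X] (FractionRing K[X])]
        rfl
      rw [← hu', ← hv'', h5]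
      field_simp
  rw [← h4, h3]
  have h6 : algebraMap K (FractionRing K[X]) B.leadingCoeff =
      algebraMap K[X] (FractionRing K[X]) (C B.leadingCoeff) := by
    rw [IsScalarTower.algebraMap_apply K K[X] (FractionRing K[X])]
    rfl
  rw [h6]
  ring

end

end Pool.Agent.TUQ
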