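import Pool.Agent.TUQ.S3c

/-!
# There is no rational parametrization of the cover `U ^ N = b(a)`
-/

set_option autoImplicit false

namespace Pool.Agent.TUQ

open Polynomial

universe u

section

variable {K : Type u} [Field K]

theorem mult_mul (p q : K[X]) (hp : p ≠ 0) (hq : q ≠ 0) (x : K) :
    (p * q).rootMultiplicity x = p.rootMultiplicity x + q.rootMultiplicity x :=
  rootMultiplicity_mul (mul_ne_zero hp hq)

theorem mult_pow (p : K[X]) (n : ℕ) (x : K) :
    (p ^ n).rootMultiplicity x = n * p.rootMultiplicity x := by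
  classical
  rw [← count_roots, roots_pow, Multiset.count_nsmul, count_roots]

theorem mult_prod (s : Multiset K) (A C : K[X]) (hne : ∀ β ∈ s, frm A C (some β) ≠ 0) (x : K) :
    ((s.map fun β => A - Polynomial.C β * C).prod).rootMultiplicity x =
      (s.map fun β => (frm A C (some β)).rootMultiplicity x).sum := by
  induction s using Multiset.induction with
  | empty => simp
  | cons β s ih =>
    have h1 : (s.map fun β => A - Polynomial.C β * C).prod ≠ 0 := by
      rw [Ne, Multiset.prod_eq_zero_iff, Multiset.mem_map]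
      rintro ⟨γ, hγ, h⟩
      exact hne γ (Multiset.mem_cons_of_mem hγ) h
    rw [Multiset.map_cons, Multiset.prod_cons, Multiset.map_cons, Multiset.sum_cons,
      mult_mul (A - Polynomial.C β * C) _ (hne β (Multiset.mem_cons_self _ _)) h1,
      ih fun γ hγ => hne γ (Multiset.mem_cons_of_mem hγ)]
    rfl

theorem frm_ne' (A C : K[X]) (hc : IsCoprime A C) (hn : 0 < max A.natDegree C.natDegree)
    (β : Option K) : frm A C β ≠ 0 := by
  intro h
  rcases β with _ | β
  · simp only [frm] at h
    rw [h, isCoprime_zero_right] at hc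
    rw [h, natDegree_zero, natDegree_eq_zero_of_isUnit hc] at hn
    exact absurd hn (lt_irrefl _)
  · simp only [frm] at h
    rw [sub_eq_zero] at h
    have h1 : IsUnit C := by
      rw [h] at hc
      exact isCoprime_self.1 (hc.of_mul_left_right)
    have h2 : A.natDegree ≤ 0 := by
      rw [h]
      refine (natDegree_C_mul_le _ _).trans ?_
      rw [natDegree_eq_zero_of_isUnit h1]
    rw [natDegree_eq_zero_of_isUnit h1, Nat.le_zero.1 h2] at hn
    exact absurd hn (lt_irrefl _)

/-- the multiplicities of the homogenization at a point over `γ` -/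
theorem mult_hg [IsAlgClosed K] (n : ℕ) (B : K[X]) (hB0 : B ≠ 0) (hB : B.natDegree ≤ n)
    (A C : K[X]) (hc : IsCoprime A C) (hn : 0 < max A.natDegree C.natDegree) (γ : Option K) (x : K)
    (hx : (frm A C γ).eval x = 0) :
    (hg n B A C).rootMultiplicity x =
      (match γ with
        | none => n - B.natDegree
        | some γ => B.rootMultiplicity γ) * (frm A C γ).rootMultiplicity x := by
  classical
  have hC : C ≠ 0 := frm_ne' A C hc hn none
  have h0 : ∀ β, β ≠ γ → (frm A C β).rootMultiplicity x = 0 := by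
    intro β hβ
    rw [rootMultiplicity_eq_zero]
    intro h
    exact frm_root A C hc hβ x h hx
  have h1 : (B.roots.map fun β => A - Polynomial.C β * C).prod ≠ 0 := by
    rw [Ne, Multiset.prod_eq_zero_iff, Multiset.mem_map]
    rintro ⟨β, -, h⟩
    exact frm_ne' A C hc hn (some β) h
  rw [hg_prod n B hB A C hC, mult_mul _ _ (mul_ne_zero (by
    rw [Ne, C_eq_zero, leadingCoeff_eq_zero]
    exact hB0) (pow_ne_zero _ hC)) h1, mult_mul _ _ (by
    rw [Ne, C_eq_zero, leadingCoeff_eq_zero]
    exact hB0) (pow_ne_zero _ hC), rootMultiplicity_C, zero_add, mult_pow,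
    mult_prod _ _ _ fun β _ => frm_ne' A C hc hn (some β)]
  rcases γ with _ | γ
  · have h2 : (B.roots.map fun β => (frm A C (some β)).rootMultiplicity x).sum = 0 := by
      refine Multiset.sum_eq_zero fun y hy => ?_
      rw [Multiset.mem_map] at hy
      obtain ⟨β, -, rfl⟩ := hy
      exact h0 _ (fun h => by cases h)
    rw [h2, add_zero]
    rfl
  · have h2 : C.rootMultiplicity x = 0 := h0 none (fun h => by cases h)
    have h3 : ∀ s : Multiset K, (s.map fun β => (frm A C (some β)).rootMultiplicity x).sum =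
        s.count γ * (frm A C (some γ)).rootMultiplicity x := by
      intro s
      induction s using Multiset.induction with
      | empty => simp
      | cons β s ih =>
        rw [Multiset.map_cons, Multiset.sum_cons, ih, Multiset.count_cons]
        by_cases h : γ = β
        · subst h
          rw [if_pos rfl]
          ring
        · rw [if_neg h, h0 _ (fun h' => h (Option.some.inj h').symm), zero_add, add_zero]
    rw [h2, mul_zero, zero_add, h3, count_roots]

/-- the cover `U ^ N = b(a)` has no rational parametrization -/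
theorem rh_main [IsAlgClosed K] (N : ℕ) (hN : (N : K) ≠ 0) (B₁ B₂ : K[X]) (hB₁ : B₁ ≠ 0)
    (hB₂ : B₂ ≠ 0) (hB : IsCoprime B₁ B₂)
    (hinf : ¬ N ∣ ((B₁.natDegree : ℤ) - B₂.natDegree).natAbs)
    (hdv : ∀ β, (B₁ * B₂).IsRoot β → ¬ N ∣ (B₁ * B₂).rootMultiplicity β)
    (two : ∃ c₁ c₂ : K, c₁ ≠ c₂ ∧ (B₁ * B₂).IsRoot c₁ ∧ (B₁ * B₂).IsRoot c₂)
    (n : ℕ) (hn₁ : B₁.natDegree ≤ n) (hn₂ : B₂.natDegree ≤ n)
    (A C U₁ U₂ : K[X]) (hc : IsCoprime A C) (hn : 0 < max A.natDegree C.natDegree)
    (hU₁ : U₁ ≠ 0) (hU₂ : U₂ ≠ 0) (h : U₁ ^ N * hg n B₂ A C = U₂ ^ N * hg n B₁ A C) : False := by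
  classical
  have hC : C ≠ 0 := frm_ne' A C hc hn none
  have hg0 : ∀ B : K[X], B ≠ 0 → B.natDegree ≤ n → hg n B A C ≠ 0 := by
    intro B hB0 hBn
    rw [hg_prod n B hBn A C hC]
    refine mul_ne_zero (mul_ne_zero (by
      rw [Ne, C_eq_zero, leadingCoeff_eq_zero]
      exact hB0) (pow_ne_zero _ hC)) ?_
    rw [Ne, Multiset.prod_eq_zero_iff, Multiset.mem_map]
    rintro ⟨β, -, h⟩
    exact frm_ne' A C hc hn (some β) h
  have hBB : B₁ * B₂ ≠ 0 := mul_ne_zero hB₁ hB₂
  let R : Finset K := (B₁ * B₂).roots.toFinset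
  let S : Finset (Option K) := Finset.insertNone R
  let e : Option K → ℤ := fun β => match β with
    | none => (B₂.natDegree : ℤ) - B₁.natDegree
    | some β => (B₁.rootMultiplicity β : ℤ) - B₂.rootMultiplicity β
  have hR : ∀ β, β ∈ R ↔ (B₁ * B₂).IsRoot β := fun β => by
    rw [Multiset.mem_toFinset, mem_roots hBB]
  have hsumR : ∀ B : K[X], (∀ β, B.IsRoot β → β ∈ R) → ∑ β ∈ R, B.rootMultiplicity β = B.natDegree := by
    intro B hB'
    rw [← IsAlgClosed.card_roots_eq_natDegree (p := B),
      ← Multiset.sum_count_eq_card (s := R) (m := B.roots) fun a ha => hB' a (isRoot_of_mem_roots ha)]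
    exact Finset.sum_congr rfl fun x _ => (count_roots B).symm
  refine rh N hN _ A C hc hn rfl S ?_ e ?_ ?_ ?_
  · -- the number of points
    rw [Finset.card_insertNone]
    obtain ⟨c₁, c₂, hne, h1, h2⟩ := two
    have h3 : ({c₁, c₂} : Finset K) ⊆ R := by
      intro x hx
      rw [Finset.mem_insert, Finset.mem_singleton] at hx
      rcases hx with rfl | rfl
      · exact (hR _).2 h1
      · exact (hR _).2 h2
    have h4 := Finset.card_le_card h3
    rw [Finset.card_pair hne] at h4
    omega
  · rw [Finset.sum_insertNone]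
    show ((B₂.natDegree : ℤ) - B₁.natDegree) +
      ∑ β ∈ R, ((B₁.rootMultiplicity β : ℤ) - B₂.rootMultiplicity β) = 0
    rw [Finset.sum_sub_distrib, ← Nat.cast_sum, ← Nat.cast_sum,
      hsumR B₁ fun β hβ => (hR β).2 (root_mul_right_of_isRoot _ hβ),
      hsumR B₂ fun β hβ => (hR β).2 (root_mul_left_of_isRoot _ hβ)]
    ring
  · rintro (_ | β) hβ
    · show ¬ (N : ℤ) ∣ (B₂.natDegree : ℤ) - B₁.natDegree
      rw [Int.natCast_dvd, ← Int.natAbs_neg, neg_sub]
      exact hinf
    · show ¬ (N : ℤ) ∣ (B₁.rootMultiplicity β : ℤ) - B₂.rootMultiplicity β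
      have hβ' : (B₁ * B₂).IsRoot β := (hR β).1 (by simpa [S] using hβ)
      have h1 := hdv β hβ'
      rw [mult_mul _ _ hB₁ hB₂] at h1
      have h2 : B₁.rootMultiplicity β = 0 ∨ B₂.rootMultiplicity β = 0 := by
        by_contra hcon
        push Not at hcon
        rw [Ne, rootMultiplicity_eq_zero_iff, Ne, rootMultiplicity_eq_zero_iff] at hcon
        push Not at hcon
        obtain ⟨r, s, hrs⟩ := hB
        have := congrArg (eval β) hrs
        simp only [eval_add, eval_mul, hcon.1.1.eq_zero, hcon.2.1.eq_zero, mul_zero, add_zero,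
          eval_one] at this
        exact zero_ne_one this
      rcases h2 with h2 | h2
      · rw [h2, Nat.cast_zero, zero_sub, dvd_neg, Int.natCast_dvd_natCast]
        rwa [h2, zero_add] at h1
      · rw [h2, Nat.cast_zero, sub_zero, Int.natCast_dvd_natCast]
        rwa [h2, add_zero] at h1
  · intro γ _ x
    by_cases hx : (frm A C γ).eval x = 0
    · have h1 := congrArg (rootMultiplicity x) h
      rw [mult_mul _ _ (pow_ne_zero _ hU₁) (hg0 _ hB₂ hn₂),
        mult_mul _ _ (pow_ne_zero _ hU₂) (hg0 _ hB₁ hn₁), mult_pow, mult_pow,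
        mult_hg n B₂ hB₂ hn₂ A C hc hn γ x hx, mult_hg n B₁ hB₁ hn₁ A C hc hn γ x hx] at h1
      rcases γ with _ | γ
      · show (N : ℤ) ∣ ((frm A C none).rootMultiplicity x : ℤ) * ((B₂.natDegree : ℤ) - B₁.natDegree)
        simp only at h1
        have h2 := congrArg (Nat.cast : ℕ → ℤ) h1
        push_cast [Nat.cast_sub hn₁, Nat.cast_sub hn₂] at h2
        refine ⟨U₁.rootMultiplicity x - U₂.rootMultiplicity x, ?_⟩
        linear_combination -h2
      · show (N : ℤ) ∣ ((frm A C (some γ)).rootMultiplicity x : ℤ) *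
          ((B₁.rootMultiplicity γ : ℤ) - B₂.rootMultiplicity γ)
        simp only at h1
        have h2 := congrArg (Nat.cast : ℕ → ℤ) h1
        push_cast at h2
        refine ⟨U₁.rootMultiplicity x - U₂.rootMultiplicity x, ?_⟩
        linear_combination -h2
    · rw [rootMultiplicity_eq_zero hx, Nat.cast_zero, zero_mul]
      exact dvd_zero _

end

end Pool.Agent.TUQ
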