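import Pool.Agent.TUQ.Defs
import Pool.Agent.TUQ.G9
import Pool.Agent.TUQ.S3d

/-!
# Places of `Ω` over `A` and the subfield `H(t)`
-/

set_option autoImplicit false

namespace Pool.Agent.TUQ

open Polynomial Pool.Agent.TBR

universe u

section

variable {k Ω : Type u} [Field k] [Field Ω] [Algebra k Ω]

/-- an element which is algebraic over an algebraically closed subfield belongs to it -/
theorem s_mem_of_alg' (E : IntermediateField k Ω) [IsAlgClosed E] (x : Ω) (hx : IsAlgebraic E x) :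
    x ∈ E := by
  by_contra h
  obtain ⟨p, hp, h1⟩ := hx
  exact aeval_ne_zero E x h p hp h1

theorem s_mem_of_alg (E : IntermediateField k Ω) [IsAlgClosed E] (x : Ω) (hx : IsAlgebraic k x) :
    x ∈ E :=
  s_mem_of_alg' E x (hx.tower_top E)

/-- the elements of `H(t)` as fractions in lowest terms -/
theorem exists_frac (H : IntermediateField k Ω) [IsAlgClosed H] (t : Ω) (ht : t ∉ H) (y : Ω)
    (hy : y ∈ AA H {t}) :
    ∃ P Q : H[X], IsCoprime P Q ∧ Q ≠ 0 ∧ aeval t Q ≠ 0 ∧ y * aeval t Q = aeval t P := by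
  classical
  obtain ⟨r, s, rfl⟩ := (Pool.Agent.TBR.V.mem_AA H t y).mp hy
  by_cases hs : s = 0
  · subst hs
    refine ⟨0, 1, isCoprime_one_right, one_ne_zero, by simp, by simp⟩
  have hg : GCDMonoid.gcd r s ≠ 0 := gcd_ne_zero_of_right hs
  have e1 : GCDMonoid.gcd r s * (r / GCDMonoid.gcd r s) = r :=
    EuclideanDomain.mul_div_cancel' hg (gcd_dvd_left _ _)
  have e2 : GCDMonoid.gcd r s * (s / GCDMonoid.gcd r s) = s :=
    EuclideanDomain.mul_div_cancel' hg (gcd_dvd_right _ _)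
  have hq0 : s / GCDMonoid.gcd r s ≠ 0 := by
    intro h
    rw [h, mul_zero] at e2
    exact hs e2.symm
  have h1 : aeval t (s / GCDMonoid.gcd r s) ≠ 0 := aeval_ne_zero H t ht _ hq0
  have h2 : aeval t (GCDMonoid.gcd r s) ≠ 0 := aeval_ne_zero H t ht _ hg
  refine ⟨r / GCDMonoid.gcd r s, s / GCDMonoid.gcd r s, isCoprime_div_gcd_div_gcd hs, hq0, h1, ?_⟩
  have h3 : aeval t r = aeval t (GCDMonoid.gcd r s) * aeval t (r / GCDMonoid.gcd r s) := by
    rw [← map_mul, e1]
  have h4 : aeval t s = aeval t (GCDMonoid.gcd r s) * aeval t (s / GCDMonoid.gcd r s) := by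
    rw [← map_mul, e2]
  rw [h3, h4]
  field_simp

/-- there is a place at which `x` vanishes -/
theorem exists_plc (A : IntermediateField k Ω) [IsAlgClosed A]
    (hA1 : ∀ x : Ω, x ∉ A → ∀ y : Ω, IsAlgebraic (AA A {x}) y) (x : Ω) (hx : x ∉ A) :
    ∃ (V : ValuationSubring Ω) (r : V →+* Ω), Plc A V r ∧ V.valuation x < 1 := by
  have hx1 : x ∈ Algebra.adjoin A {x} := Algebra.subset_adjoin rfl
  let A₀ : Subring Ω := (Algebra.adjoin A {x}).toSubring
  let I : Ideal A₀ := Ideal.span {(⟨x, hx1⟩ : A₀)}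
  have hI : I ≠ ⊤ := by
    intro h
    rw [Ideal.span_singleton_eq_top] at h
    obtain ⟨b, hb⟩ := h.exists_right_inv
    obtain ⟨f, hf⟩ : ∃ f : A[X], aeval x f = (b : Ω) := by
      have h2 : (b : Ω) ∈ (aeval x : A[X] →ₐ[A] Ω).range := by
        rw [← Algebra.adjoin_singleton_eq_range_aeval]
        exact b.2
      exact h2
    have h3 : aeval x (X * f - 1 : A[X]) = 0 := by
      rw [map_sub, map_mul, hf, aeval_X, map_one, sub_eq_zero]
      exact congrArg Subtype.val hb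
    have h4 : (X * f - 1 : A[X]) ≠ 0 := by
      intro h4
      have h5 := congrArg (eval 0) h4
      simp at h5
    exact aeval_ne_zero A x hx _ h4 h3
  obtain ⟨V, hV, hIV⟩ := Ideal.image_subset_nonunits_valuationSubring I hI
  have hVA : ∀ y ∈ A, y ∈ V := by
    intro y hy
    apply hV
    exact (Algebra.adjoin A {x}).algebraMap_mem ⟨y, hy⟩
  have hxV : V.valuation x < 1 := by
    rw [← ValuationSubring.mem_nonunits_iff]
    exact hIV ⟨⟨x, hx1⟩, Ideal.subset_span rfl, rfl⟩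
  have hVt : V ≠ ⊤ := by
    rintro rfl
    have hx0 : x ≠ 0 := by
      rintro rfl
      exact hx (zero_mem A)
    have h1 : x⁻¹ ∈ (⊤ : ValuationSubring Ω) := ValuationSubring.mem_top _
    rw [val_le, map_inv₀, inv_le_one₀ (zero_lt_iff.mpr ((_root_.map_ne_zero _).mpr hx0))] at h1
    exact absurd hxV (not_lt.mpr h1)
  obtain ⟨r, hr⟩ := exists_isRes A hA1 V hVA hVt
  exact ⟨V, r, ⟨hVA, hVt, hr⟩, hxV⟩

/-- the condition `NU` for subfields of `Ω` -/
theorem NU.not {A : IntermediateField k Ω} {K : IntermediateField k A} (hK : NU K)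
    (κ : IntermediateField k Ω) (hκA : κ ≤ A) [IsAlgClosed κ] (hκ : Algebra.trdeg k κ ≤ 1) (θ : Ω)
    (hθ : θ ∈ A) : ¬ ∀ x ∈ K, (x : Ω) ∈ AA κ {θ} := by
  intro h
  have e := IntermediateField.restrictAlgEquiv hκA
  have h1 : IsAlgClosed (IntermediateField.restrict hκA) :=
    IsAlgClosed.of_ringEquiv _ _ e.toRingEquiv
  refine hK (IntermediateField.restrict hκA) ⟨θ, hθ⟩ h1 ?_ ?_
  · rwa [← e.trdeg_eq]
  · intro x hx
    have h2 := h x hx
    have h3 : AA κ {θ} = (IntermediateField.restrict hκA ⊔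
        IntermediateField.adjoin k {(⟨θ, hθ⟩ : A)}).map A.val := by
      rw [IntermediateField.map_sup, IntermediateField.adjoin_map, Set.image_singleton]
      have h4 : (IntermediateField.restrict hκA).map A.val = κ :=
        IntermediateField.lift_restrict hκA
      rw [h4]
      rfl
    rw [h3, IntermediateField.mem_map] at h2
    obtain ⟨y, hy, hyx⟩ := h2
    have h5 : y = x := Subtype.ext hyx
    rwa [h5] at hy

variable {A : IntermediateField k Ω} {V : ValuationSubring Ω} {r : V →+* Ω}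

/-- the residues of the elements of `H(t)` if `t` is generic in a disc -/
theorem res_gauss (hr : IsRes A V r) (hV : ∀ x ∈ A, x ∈ V) (H : IntermediateField k Ω)
    [IsAlgClosed H] {α π : H} (hπ : π ≠ 0) {t : Ω} (hT : Gen hr hV H α π t) (ht : t ∉ H) (y : Ω)
    (hy : y ∈ AA H {t}) (hyV : y ∈ V) : r ⟨y, hyV⟩ ∈ AA (kap hr hV H) {rT r α π t} := by
  have := kap_closed hr hV H
  obtain ⟨P, Q, -, hQ, -, h⟩ := exists_frac H t ht y hy
  by_cases hP : P = 0
  · subst hP
    have hQt := aeval_ne_zero H t ht Q hQ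
    rw [map_zero] at h
    have h0 : y = 0 := (mul_eq_zero.1 h).resolve_right hQt
    subst h0
    have : (⟨0, hyV⟩ : V) = 0 := rfl
    rw [this, map_zero]
    exact zero_mem _
  obtain ⟨ϖ, β, P₁, Q₁, hRD⟩ := exists_RD hr hV H α π hπ P Q hP hQ
  -- `ϖ` belongs to the valuation ring
  have hvϖ : V.valuation (ϖ : Ω) = V.valuation y := by
    have h1 : y = aeval t P / aeval t Q := by
      rw [eq_div_iff (aeval_ne_zero H t ht Q hQ), h]
    rw [h1]
    obtain ⟨hx, hx'⟩ := hT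
    exact (hRD.val hπ t hx hx').symm
  have hϖV : (1 : Ω) * ϖ ∈ V := by
    rw [one_mul, val_le, hvϖ, ← val_le]
    exact hyV
  have h1 := resE_formula hRD hπ 1 hϖV t hT y hyV (by rw [h, mul_one])
  have h2 : aeval (rT r α π t) (Q₁.map (rH hr hV H)) ≠ 0 :=
    aeval_ne_zero _ _ hT.rT_notMem _ hRD.Q0
  have h3 : r ⟨_, hϖV⟩ ∈ kap hr hV H := res_mem_kap hr hV H hϖV (by rw [one_mul]; exact ϖ.2)
  have h4 : r ⟨y, hyV⟩ = aeval (rT r α π t) (C (⟨_, h3⟩ : kap hr hV H) * P₁.map (rH hr hV H)) /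
      aeval (rT r α π t) (Q₁.map (rH hr hV H)) := by
    rw [eq_div_iff h2, h1, map_mul, aeval_C, mul_comm]
    rfl
  rw [Pool.Agent.TBR.V.mem_AA]
  exact ⟨_, _, h4⟩

/-- if `V` does not contain `H`, the residues of the elements of `H(t)` belong to a field `κ(θ)` -/
theorem res_AA (hr : IsRes A V r) (hV : ∀ x ∈ A, x ∈ V)
    (hA1 : ∀ t : Ω, t ∉ A → ∀ x : Ω, IsAlgebraic (AA A {t}) x)
    (H : IntermediateField k Ω) [IsAlgClosed H] (hH : ∃ β ∈ H, β ∉ V) (t : Ω) (ht : t ∉ H) :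
    ∃ θ ∈ A, ∀ y ∈ AA H {t}, ∀ hy : y ∈ V, r ⟨y, hy⟩ ∈ AA (kap hr hV H) {θ} := by
  rcases gauss_or_imm hr hV hA1 H hH t ht with ⟨α, π, θ, h⟩ | h
  · obtain ⟨α', π', -, -, hπ, hG⟩ := h.gen
    refine ⟨rT r α' π' t, ?_, fun y hy hyV => res_gauss hr hV H hπ hG ht y hy hyV⟩
    obtain ⟨hx, -⟩ := hG
    rw [rT_of α' π' hx]
    exact hr.mem _
  · exact ⟨0, zero_mem A, fun y hy hyV => Pool.Agent.TBR.V.le_AA _ _ (imm_res hr hV H t h y hy hyV)⟩

end

end Pool.Agent.TUQ
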