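import Pool.Agent.TUQ.S3c

/-!
# The divided difference of `b`
-/

set_option autoImplicit false

namespace Pool.Agent.TUQ

open Polynomial

universe u

section

variable {k : Type u} [Field k]

/-- the divided difference `(B₁(X) B₂(Y) - B₂(X) B₁(Y)) / (X - Y)` -/
theorem exists_Phi (B₁ B₂ : k[X]) : ∃ Φ : k[X][X],
    B₁.map C * C B₂ - B₂.map C * C B₁ = (X - C X) * Φ := by
  have h : (B₁.map C * C B₂ - B₂.map C * C B₁ : k[X][X]).IsRoot X := by
    rw [IsRoot.def, eval_sub, eval_mul, eval_mul, eval_C, eval_C, eval_map, eval_map]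
    have h1 : ∀ B : k[X], B.eval₂ C X = B := fun B => eval₂_C_X
    rw [h1, h1]
    ring
  obtain ⟨Φ, hΦ⟩ := dvd_iff_isRoot.2 h
  exact ⟨Φ, hΦ⟩

/-- the specialization of the second variable -/
noncomputable def PhiAt {S : Type*} [CommRing S] [Algebra k S] (Φ : k[X][X]) (y : S) :
    Polynomial S := Φ.map ((aeval y : k[X] →ₐ[k] S) : k[X] →+* S)

theorem PhiAt_eq {S : Type*} [CommRing S] [Algebra k S] {B₁ B₂ : k[X]} {Φ : k[X][X]}
    (h : B₁.map C * C B₂ - B₂.map C * C B₁ = (X - C X) * Φ) (y : S) :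
    B₁.map (algebraMap k S) * C (aeval y B₂) - B₂.map (algebraMap k S) * C (aeval y B₁) =
      (X - C y) * PhiAt Φ y := by
  have h1 := congrArg (Polynomial.map ((aeval y : k[X] →ₐ[k] S) : k[X] →+* S)) h
  have h2 : (((aeval y : k[X] →ₐ[k] S) : k[X] →+* S)).comp C = algebraMap k S := by
    ext c
    simp
  rw [Polynomial.map_sub, Polynomial.map_mul, Polynomial.map_mul, Polynomial.map_mul,
    Polynomial.map_sub, map_map, map_map, h2, map_C, map_C, map_C, map_X] at h1
  simp only [RingHom.coe_coe, aeval_X] at h1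
  exact h1

theorem PhiAt_deg {S : Type*} [CommRing S] [Nontrivial S] [Algebra k S] {B₁ B₂ : k[X]} {Φ : k[X][X]}
    (h : B₁.map C * C B₂ - B₂.map C * C B₁ = (X - C X) * Φ) (n : ℕ) (h₁ : B₁.natDegree ≤ n)
    (h₂ : B₂.natDegree ≤ n) (y : S) : (PhiAt Φ y).natDegree ≤ n - 1 := by
  have h1 := PhiAt_eq h y
  by_cases h0 : PhiAt Φ y = 0
  · rw [h0, natDegree_zero]
    exact Nat.zero_le _
  have h2 : ((X - C y) * PhiAt Φ y).natDegree = 1 + (PhiAt Φ y).natDegree := by
    rw [(monic_X_sub_C y).natDegree_mul' h0, natDegree_X_sub_C]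
  have h3 : ((X - C y) * PhiAt Φ y).natDegree ≤ n := by
    rw [← h1]
    refine (natDegree_sub_le _ _).trans (max_le ?_ ?_)
    · refine (natDegree_mul_C_le _ _).trans (natDegree_map_le.trans h₁)
    · refine (natDegree_mul_C_le _ _).trans (natDegree_map_le.trans h₂)
  omega

/-- the value on the diagonal -/
theorem PhiAt_self {S : Type*} [CommRing S] [Algebra k S] {B₁ B₂ : k[X]} {Φ : k[X][X]}
    (h : B₁.map C * C B₂ - B₂.map C * C B₁ = (X - C X) * Φ) (y : S) :
    (PhiAt Φ y).eval y = aeval y (derivative B₁ * B₂ - derivative B₂ * B₁) := by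
  have h1 := congrArg (fun p => (derivative p).eval y) (PhiAt_eq h y)
  simp only [derivative_sub, derivative_mul, derivative_C, mul_zero, add_zero, derivative_map,
    eval_sub, eval_mul, eval_C, eval_map_algebraMap, derivative_X, sub_zero, one_mul, eval_add,
    eval_X, sub_self, zero_mul] at h1
  rw [map_sub, map_mul, map_mul]
  exact h1.symm

/-- `b` is not a `p`-th power -/
theorem W_ne (B₁ B₂ : k[X]) (hc : IsCoprime B₁ B₂) {M : Type*} [Field M] [Algebra k M] (c : M)
    (hr : ((B₁ * B₂).map (algebraMap k M)).IsRoot c) (h0 : B₁ * B₂ ≠ 0)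
    (he : (((B₁ * B₂).map (algebraMap k M)).rootMultiplicity c : M) ≠ 0) :
    derivative B₁ * B₂ - derivative B₂ * B₁ ≠ 0 := by
  intro h
  have h1 : wronskian B₁ B₂ = 0 := by
    rw [wronskian]
    linear_combination -h
  obtain ⟨h2, h3⟩ := hc.wronskian_eq_zero_iff.1 h1
  have h4 : derivative ((B₁ * B₂).map (algebraMap k M)) = 0 := by
    rw [derivative_map, derivative_mul, h2, h3]
    simp
  set p := (B₁ * B₂).map (algebraMap k M) with hp
  have hp0 : p ≠ 0 := (Polynomial.map_ne_zero_iff (algebraMap k M).injective).2 h0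
  obtain ⟨g, hg⟩ := p.pow_rootMultiplicity_dvd c
  have hgc : g.eval c ≠ 0 := by
    intro hgc
    obtain ⟨g', hg'⟩ := dvd_iff_isRoot.2 (IsRoot.def.2 hgc)
    have h5 : (X - C c) ^ (p.rootMultiplicity c + 1) ∣ p := by
      conv_rhs => rw [hg]
      rw [hg', pow_succ]
      exact ⟨g', by ring⟩
    have h6 := (le_rootMultiplicity_iff hp0).2 h5
    omega
  have hm : 0 < p.rootMultiplicity c := (rootMultiplicity_pos hp0).2 hr
  obtain ⟨e, he'⟩ : ∃ e, p.rootMultiplicity c = e + 1 := ⟨_, (Nat.succ_pred_eq_of_pos hm).symm⟩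
  rw [he'] at hg he
  rw [hg, derivative_mul, derivative_pow, derivative_sub, derivative_X, derivative_C, sub_zero,
    mul_one, Nat.add_sub_cancel] at h4
  have h5 : (X - C c) ^ e * (C (((e + 1 : ℕ) : M)) * g + (X - C c) * derivative g) = 0 := by
    rw [← h4]
    ring
  have h6 := (mul_eq_zero.1 h5).resolve_left (pow_ne_zero _ (X_sub_C_ne_zero c))
  have h7 := congrArg (eval c) h6
  simp only [eval_add, eval_mul, eval_C, eval_sub, eval_X, sub_self, zero_mul, add_zero,
    eval_zero] at h7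
  rcases mul_eq_zero.1 h7 with h8 | h8
  · exact he h8
  · exact hgc h8

/-- the homogenizations have no common zero -/
theorem hg_no_common {F : Type*} [Field F] [Algebra k F] (B₁ B₂ : k[X]) (hc : IsCoprime B₁ B₂)
    (h1 : B₁ ≠ 0) (h2 : B₂ ≠ 0) (u v : F) (huv : u ≠ 0 ∨ v ≠ 0)
    (e1 : hg (max B₁.natDegree B₂.natDegree) B₁ u v = 0)
    (e2 : hg (max B₁.natDegree B₂.natDegree) B₂ u v = 0) : False := by
  set n := max B₁.natDegree B₂.natDegree with hn
  by_cases hv : v = 0
  · subst hv
    have hu : u ≠ 0 := huv.resolve_right fun h => h rfl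
    have h3 : ∀ B : k[X], hg n B u 0 = algebraMap k F (B.coeff n) * u ^ n := by
      intro B
      rw [hg, Finset.sum_range_succ, Nat.sub_self, pow_zero, mul_one, Finset.sum_eq_zero, zero_add]
      intro j hj
      rw [Finset.mem_range] at hj
      rw [zero_pow (by omega), mul_zero]
    rw [h3] at e1 e2
    have h4 : ∀ B : k[X], algebraMap k F (B.coeff n) * u ^ n = 0 → B.coeff n = 0 := by
      intro B h
      have := (mul_eq_zero.1 h).resolve_right (pow_ne_zero _ hu)
      exact (map_eq_zero _).1 this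
    have h5 := h4 _ e1
    have h6 := h4 _ e2
    rcases le_total B₁.natDegree B₂.natDegree with h | h
    · rw [hn, max_eq_right h, coeff_natDegree, leadingCoeff_eq_zero] at h6
      exact h2 h6
    · rw [hn, max_eq_left h, coeff_natDegree, leadingCoeff_eq_zero] at h5
      exact h1 h5
  · rw [hg_field n B₁ (le_max_left _ _) u v hv] at e1
    rw [hg_field n B₂ (le_max_right _ _) u v hv] at e2
    have h3 := (mul_eq_zero.1 e1).resolve_left (pow_ne_zero _ hv)
    have h4 := (mul_eq_zero.1 e2).resolve_left (pow_ne_zero _ hv)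
    obtain ⟨r, s, hrs⟩ := hc
    have := congrArg (aeval (u / v)) hrs
    rw [map_add, map_mul, map_mul, h3, h4, mul_zero, mul_zero, add_zero, map_one] at this
    exact zero_ne_one this

end

end Pool.Agent.TUQ
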