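import Pool.Agent.TUQ.S3f
import Pool.Agent.TUQ.S4a

set_option maxSynthPendingDepth 3

/-!
# Automorphisms over `H` and embeddings of `A`
-/

set_option autoImplicit false

namespace Pool.Agent.TUQ

open Polynomial Pool.Agent.TBR

universe u

section

variable {k Ω : Type u} [Field k] [Field Ω] [Algebra k Ω]

theorem AA_eq (H : IntermediateField k Ω) (t : Ω) :
    AA H {t} = IntermediateField.restrictScalars k (IntermediateField.adjoin H {t}) := by
  rw [IntermediateField.restrictScalars_adjoin, IntermediateField.adjoin_union,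
    IntermediateField.adjoin_self]
  rfl

theorem exists_tau {E₁ E₂ L : Type u} [Field E₁] [Field E₂] [Field L] [IsAlgClosed L]
    [Algebra E₁ L] [Algebra E₂ L] (h1 : Algebra.IsAlgebraic E₁ L)
    (h2 : Algebra.IsAlgebraic E₂ L) (e : E₁ ≃+* E₂) :
    ∃ τ : L ≃+* L, ∀ x : E₁, τ (algebraMap E₁ L x) = algebraMap E₂ L (e x) := by
  have i1 : IsAlgClosure E₁ L := ⟨inferInstance, h1⟩
  have i2 : IsAlgClosure E₂ L := ⟨inferInstance, h2⟩
  exact ⟨IsAlgClosure.equivOfEquiv L L e, fun x =>
    IsAlgClosure.equivOfEquiv_algebraMap L L e x⟩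

/-- an automorphism over `H` which maps `t` to `T` -/
theorem exists_s [IsAlgClosed Ω] (H : IntermediateField k Ω) [IsAlgClosed H]
    (hH : ∀ x : Ω, x ∉ H → ∀ y : Ω, IsAlgebraic (AA H {x}) y) (t T : Ω) (ht : t ∉ H)
    (hT : T ∉ H) : ∃ s ∈ Fx k (H : Set Ω), s t = T := by
  have htr : ∀ x : Ω, x ∉ H → Transcendental H x := fun x hx h => hx (s_mem_of_alg' H x h)
  have halg : ∀ x : Ω, x ∉ H → Algebra.IsAlgebraic (IntermediateField.adjoin H {x}) Ω := by
    intro x hx
    refine ⟨fun y => ?_⟩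
    have h1 := hH x hx y
    rw [AA_eq] at h1
    exact h1
  let e : IntermediateField.adjoin H {t} ≃ₐ[H] IntermediateField.adjoin H {T} :=
    (RatFunc.algEquivOfTranscendental t (htr t ht)).symm.trans
      (RatFunc.algEquivOfTranscendental T (htr T hT))
  obtain ⟨τ, hτ⟩ := exists_tau (halg t ht) (halg T hT) e.toRingEquiv
  have h1 : ∀ x : IntermediateField.adjoin H {t}, τ (x : Ω) = (e x : Ω) := hτ
  have h2 : ∀ x : H, τ (x : Ω) = (x : Ω) := by
    intro x
    have h3 := h1 (algebraMap H _ x)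
    rw [e.commutes] at h3
    exact h3
  refine ⟨AlgEquiv.ofRingEquiv (f := τ) (fun c => ?_),
    fun x hx => h2 ⟨x, hx⟩, ?_⟩
  · exact h2 (algebraMap k H c)
  · have h3 := h1 (IntermediateField.AdjoinSimple.gen H t)
    have h4 : e (IntermediateField.AdjoinSimple.gen H t) = IntermediateField.AdjoinSimple.gen H T := by
      show (RatFunc.algEquivOfTranscendental T (htr T hT))
        ((RatFunc.algEquivOfTranscendental t (htr t ht)).symm
          (IntermediateField.AdjoinSimple.gen H t)) = _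
      rw [RatFunc.algEquivOfTranscendental_symm_gen]
      apply Subtype.ext
      rw [RatFunc.algEquivOfTranscendental_X]
      rfl
    rw [h4] at h3
    exact h3

variable {A H : IntermediateField k Ω} {K₀ : IntermediateField k A} {z : A} {N : ℕ} {B₁ B₂ : k[X]}
  {a w U t : Ω}

/-- the embedding of `A` which is given by `s` on `K₀` -/
theorem Cfg.exists_xi [IsAlgClosed Ω] (hc : Cfg A H K₀ z N B₁ B₂ a w U t) (s : Ω ≃ₐ[k] Ω)
    (hs : U ^ N * aeval (s a) B₂ = aeval (s a) B₁) :
    ∃ ξ : A →ₐ[k] Ω, (∀ x ∈ K₀, ξ x = s x) ∧ ξ z = s w * U := by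
  let g : K₀ →+* Ω := (s : Ω →+* Ω).comp ((algebraMap A Ω).comp (algebraMap K₀ A))
  let _ : Algebra K₀ Ω := g.toAlgebra
  have hg : ∀ x : K₀, algebraMap K₀ Ω x = s ((x : A) : Ω) := fun x => rfl
  have hmin : minpoly K₀ z = X ^ N - C (⟨z ^ N, hc.zN⟩ : K₀) := by
    symm
    refine minpoly.eq_of_irreducible_of_monic hc.irr ?_ (monic_X_pow_sub_C _ hc.Npos.ne')
    rw [map_sub, map_pow, aeval_X, aeval_C, sub_eq_zero]
    rfl
  have hN : aeval (s w * U) (minpoly K₀ z) = 0 := by
    rw [hmin, map_sub, map_pow, aeval_X, aeval_C, hg, sub_eq_zero]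
    show (s w * U) ^ N = s ((z : Ω) ^ N)
    have hB2 : aeval (s a) B₂ ≠ 0 := by
      intro h0
      rw [h0, mul_zero] at hs
      obtain ⟨p, q, hpq⟩ := hc.bc.cop
      have := congrArg (aeval (s a)) hpq
      rw [map_add, map_mul, map_mul, h0, ← hs, mul_zero, mul_zero, add_zero, map_one] at this
      exact zero_ne_one this
    have h1 : U ^ N = s U ^ N := by
      have h2 := congrArg s hc.eqU
      rw [map_mul, map_pow, ← aeval_algHom_apply, ← aeval_algHom_apply] at h2
      have h3 : U ^ N * aeval (s a) B₂ = s U ^ N * aeval (s a) B₂ := by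
        rw [hs]
        exact h2.symm
      exact mul_right_cancel₀ hB2 h3
    rw [mul_pow, h1, ← mul_pow, ← map_mul, hc.eqz, map_pow]
  have halg : Algebra.IsAlgebraic K₀ A := ⟨hc.al⟩
  obtain ⟨φ, hφ⟩ := (IntermediateField.exists_algHom_of_splits_of_aeval (F := K₀) (E := A) (K := Ω)
    (x := z) (y := s w * U) (fun x => ⟨(hc.al x).isIntegral, IsAlgClosed.splits _⟩) hN)
  refine ⟨{ (φ : A →+* Ω) with commutes' := fun c => ?_ }, fun x hx => ?_, hφ⟩
  · have h1 := φ.commutes (algebraMap k K₀ c)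
    have h2 : algebraMap K₀ Ω (algebraMap k K₀ c) = algebraMap k Ω c := by
      rw [hg]
      exact s.commutes c
    rw [h2] at h1
    exact h1
  · exact φ.commutes (⟨x, hx⟩ : K₀)

end

end Pool.Agent.TUQ
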