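import Pool.Agent.TUQ.S4c

/-!
# Places which contain `H`; the choice of the coordinate
-/

set_option autoImplicit false

namespace Pool.Agent.TUQ

open Polynomial Pool.Agent.TBR

universe u

section

variable {k Ω : Type u} [Field k] [Field Ω] [Algebra k Ω]
variable {A H : IntermediateField k Ω} {V : ValuationSubring Ω} {r : V →+* Ω}

/-- the inclusion of `H` in `V` -/
def jH {H : IntermediateField k Ω} {V : ValuationSubring Ω} (hH : ∀ x ∈ H, x ∈ V) : H →+* V where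
  toFun x := ⟨x, hH x x.2⟩
  map_one' := rfl
  map_mul' _ _ := rfl
  map_zero' := rfl
  map_add' _ _ := rfl

/-- the residue map on `H` -/
def rho (r : V →+* Ω) (hH : ∀ x ∈ H, x ∈ V) : H →+* Ω := r.comp (jH hH)

theorem rho_apply (r : V →+* Ω) (hH : ∀ x ∈ H, x ∈ V) (x : H) :
    rho r hH x = r ⟨x, hH x x.2⟩ := rfl

theorem aeval_memV (hH : ∀ x ∈ H, x ∈ V) (P : H[X]) {x : Ω} (hx : x ∈ V) : aeval x P ∈ V := by
  rw [aeval_eq_sum_range]
  refine sum_mem fun i _ => ?_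
  rw [Algebra.smul_def]
  exact mul_mem (hH _ (P.coeff i).2) (pow_mem hx i)

theorem res_aevalH (r : V →+* Ω) (hH : ∀ x ∈ H, x ∈ V) (P : H[X]) {x : Ω} (hx : x ∈ V) :
    r ⟨aeval x P, aeval_memV hH P hx⟩ = (P.map (rho r hH)).eval (r ⟨x, hx⟩) := by
  have h1 : (⟨aeval x P, aeval_memV hH P hx⟩ : V) = P.eval₂ (jH hH) ⟨x, hx⟩ := by
    apply Subtype.ext
    have h2 := hom_eval₂ P (jH hH) (algebraMap V Ω) ⟨x, hx⟩
    show aeval x P = _
    rw [aeval_def]
    exact h2.symm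
  rw [h1, hom_eval₂, eval_map]
  rfl

/-- a nonzero element of `H` is a unit -/
theorem val_H (hH : ∀ x ∈ H, x ∈ V) {x : Ω} (hx : x ∈ H) (h0 : x ≠ 0) : V.valuation x = 1 :=
  Pool.Agent.TBR.V.val_A H V hH ⟨x, hx⟩ (fun h => h0 (congrArg Subtype.val h))

/-- elements of `H(t)` with values in `V` -/
theorem frac_res (hH : ∀ x ∈ H, x ∈ V) {P Q : H[X]} (hPQ : IsCoprime P Q)
    {t y : Ω} (ht : t ∈ V) (hy : y ∈ V) (h : y * aeval t Q = aeval t P) :
    (Q.map (rho r hH)).eval (r ⟨t, ht⟩) ≠ 0 := by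
  intro h0
  have h1 : r ⟨aeval t P, aeval_memV hH P ht⟩ = 0 := by
    have h2 : (⟨aeval t P, aeval_memV hH P ht⟩ : V) = ⟨y, hy⟩ * ⟨aeval t Q, aeval_memV hH Q ht⟩ :=
      Subtype.ext h.symm
    rw [h2, map_mul, res_aevalH r hH Q ht, h0, mul_zero]
  rw [res_aevalH r hH P ht] at h1
  have h2 : IsCoprime (P.map (rho r hH)) (Q.map (rho r hH)) := hPQ.map (mapRingHom (rho r hH))
  obtain ⟨u, v, huv⟩ := h2
  have := congrArg (eval (r ⟨t, ht⟩)) huv
  rw [eval_add, eval_mul, eval_mul, h0, h1, mul_zero, mul_zero, add_zero, eval_one] at this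
  exact zero_ne_one this

/-- (5.1) the residue of `y ∈ H(t)` depends only on the residue of `t` -/
theorem frac_res_eq (hP : Plc A V r) (hH : ∀ x ∈ H, x ∈ V) [IsAlgClosed H] {t : Ω} (htH : t ∉ H)
    (ht : t ∈ V) {y : Ω} (hyH : y ∈ AA H {t}) (hy : y ∈ V) {s : Ω ≃ₐ[k] Ω}
    (hs : s ∈ Fx k (H : Set Ω)) (hst : s t ∈ V) (hr : r ⟨s t, hst⟩ = r ⟨t, ht⟩) :
    ∃ h : s y ∈ V, r ⟨s y, h⟩ = r ⟨y, hy⟩ := by
  obtain ⟨P, Q, hPQ, hQ, hQt, hyPQ⟩ := exists_frac H t htH y hyH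
  have h0 := frac_res (r := r) hH hPQ ht hy hyPQ
  have h1 : s y * aeval (s t) Q = aeval (s t) P := by
    rw [← Fx_aeval H hs, ← Fx_aeval H hs, ← map_mul, hyPQ]
  have hQs : V.valuation (aeval (s t) Q) = 1 := by
    refine hP.unit (aeval_memV hH Q hst) ?_
    rw [res_aevalH r hH Q hst, hr]
    exact h0
  have hsy : s y ∈ V := by
    rw [val_le]
    have h2 := congrArg V.valuation h1
    rw [map_mul, hQs, mul_one] at h2
    rw [h2, ← val_le]
    exact aeval_memV hH P hst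
  refine ⟨hsy, ?_⟩
  have e1 : r ⟨s y, hsy⟩ * (Q.map (rho r hH)).eval (r ⟨s t, hst⟩) =
      (P.map (rho r hH)).eval (r ⟨s t, hst⟩) := by
    rw [← res_aevalH r hH Q hst, ← res_aevalH r hH P hst, ← map_mul]
    congr 1
    exact Subtype.ext h1
  have e2 : r ⟨y, hy⟩ * (Q.map (rho r hH)).eval (r ⟨t, ht⟩) =
      (P.map (rho r hH)).eval (r ⟨t, ht⟩) := by
    rw [← res_aevalH r hH Q ht, ← res_aevalH r hH P ht, ← map_mul]
    congr 1
    exact Subtype.ext hyPQ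
  rw [hr, ← e2] at e1
  exact mul_right_cancel₀ h0 e1

variable {K₀ : IntermediateField k A} {z : A} {N : ℕ} {B₁ B₂ : k[X]} {a w U t : Ω}

/-- the property of the coordinate: at the places which contain `H` it is finite -/
def CP (A H : IntermediateField k Ω) (K₀ : IntermediateField k A) (t : Ω) : Prop :=
  ∀ (V : ValuationSubring Ω) (r : V →+* Ω), Plc A V r → (∀ x ∈ H, x ∈ V) →
    ∀ s ∈ Fx k (H : Set Ω), (∀ x ∈ K₀, x ≠ 0 → V.valuation (s x) = 1) → s t ∈ V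

/-- (3.5) a good coordinate -/
theorem Cfg.exists_coord [IsAlgClosed Ω] [IsAlgClosed H] [IsAlgClosed A]
    (hc : Cfg A H K₀ z N B₁ B₂ a w U t) :
    ∃ t', Cfg A H K₀ z N B₁ B₂ a w U t' ∧ CP A H K₀ t' := by
  obtain ⟨x₁, hx₁, hx₁H⟩ := hc.K₀H
  obtain ⟨P, Q, hPQ, hQ, hQt, hx⟩ := exists_frac H t hc.tH (x₁ : Ω) (hc.K₀t x₁ hx₁)
  set n := max P.natDegree Q.natDegree with hn
  have hxPQ : (x₁ : Ω) = aeval t P / aeval t Q := by rw [eq_div_iff hQt, hx]
  have hn0 : 0 < n := by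
    by_contra h0
    have h3 : n = 0 := by omega
    have h4 : P.natDegree = 0 := Nat.le_zero.1 (h3 ▸ le_max_left _ _)
    have h5 : Q.natDegree = 0 := Nat.le_zero.1 (h3 ▸ le_max_right _ _)
    apply hx₁H
    rw [hxPQ, eq_C_of_natDegree_eq_zero h4, eq_C_of_natDegree_eq_zero h5, aeval_C, aeval_C]
    exact div_mem (P.coeff 0).2 (Q.coeff 0).2
  -- the choice of `c₀`
  have hco : (C (P.coeff n : Ω) - X * C (Q.coeff n : Ω) : Polynomial Ω) ≠ 0 := by
    intro h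
    have h1 := congrArg (fun p => p.coeff 0) h
    have h2 := congrArg (fun p => p.coeff 1) h
    simp only [coeff_sub, coeff_C_zero, coeff_zero, sub_eq_zero, mul_coeff_zero,
      coeff_X_zero, zero_mul] at h1
    have h3 : (C (P.coeff n : Ω)).coeff 1 = 0 := coeff_C_of_ne_zero one_ne_zero
    simp only [coeff_sub, h3, coeff_X_mul, coeff_C_zero, coeff_zero, zero_sub, neg_eq_zero] at h2
    have h1' : P.coeff n = 0 := Subtype.ext h1
    have h2' : Q.coeff n = 0 := Subtype.ext h2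
    rcases le_total P.natDegree Q.natDegree with h | h
    · rw [hn, max_eq_right h, coeff_natDegree, leadingCoeff_eq_zero] at h2'
      exact hQ h2'
    · rw [hn, max_eq_left h, coeff_natDegree, leadingCoeff_eq_zero] at h1'
      have : n = 0 := by
        rw [hn, max_eq_left h, h1', natDegree_zero]
      omega
  obtain ⟨c₀, hc₀, hc₀'⟩ := exists_alg_point (k := k) _ hco
  rw [eval_sub, eval_mul, eval_C, eval_C, eval_X] at hc₀'
  have hc₀H : c₀ ∈ H := s_mem_of_alg H c₀ hc₀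
  set γ : H := ⟨c₀, hc₀H⟩ with hγ
  have hcn : (P - C γ * Q).coeff n ≠ 0 := by
    intro h
    apply hc₀'
    rw [coeff_sub, coeff_C_mul] at h
    have := congrArg (Subtype.val) h
    exact this
  have hdeg : (P - C γ * Q).degree ≠ 0 := by
    have h1 : n ≤ (P - C γ * Q).natDegree := le_natDegree_of_ne_zero hcn
    intro h0
    rw [natDegree_eq_zero_iff_degree_le_zero.2 h0.le] at h1
    omega
  obtain ⟨T₀, hT₀⟩ := IsAlgClosed.exists_root _ hdeg
  rw [IsRoot.def, eval_sub, eval_mul, eval_C] at hT₀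
  have hQT₀ : Q.eval T₀ ≠ 0 := by
    intro h
    rw [h, mul_zero, sub_zero] at hT₀
    obtain ⟨u, v, huv⟩ := hPQ
    have := congrArg (eval T₀) huv
    rw [eval_add, eval_mul, eval_mul, h, hT₀, mul_zero, mul_zero, add_zero, eval_one] at this
    exact zero_ne_one this
  have htT₀ : t - T₀ ≠ 0 := fun h => hc.tH (by
    rw [sub_eq_zero.1 h]
    exact T₀.2)
  have htH' : (t - T₀)⁻¹ ∉ H := fun h => hc.tH (by
    have h1 := add_mem (inv_mem h) T₀.2
    rwa [inv_inv, sub_add_cancel] at h1)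
  have hle : AA H {t} ≤ AA H {(t - T₀)⁻¹} := by
    refine sup_le (Pool.Agent.TBR.V.le_AA H _) ?_
    rw [IntermediateField.adjoin_le_iff]
    rintro x rfl
    have h1 := add_mem (inv_mem (self_mem_AA H (x - T₀)⁻¹)) (mem_AA_le H (x - T₀)⁻¹ T₀.2)
    rwa [inv_inv, sub_add_cancel] at h1
  refine ⟨(t - T₀)⁻¹, ⟨hc.trA, hc.trH, hc.tdA, hc.tdH, hc.fg, hc.al, hc.z0, hc.zN, hc.irr, hc.bc,
    hc.dv, hc.aA, htH', fun x hx => hle (hc.K₀t x hx), hle hc.at', hle hc.wt, hc.eqU, hc.eqz⟩, ?_⟩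
  intro V r hP hH s hs hgood
  by_contra hcon
  have hsT₀ : s (T₀ : Ω) = T₀ := hs _ T₀.2
  have h1 : V.valuation (s t - T₀) < 1 := by
    rw [map_inv₀, map_sub, hsT₀, val_le, map_inv₀, not_le] at hcon
    by_contra hge
    rw [not_lt] at hge
    exact absurd hcon (not_lt.2 (inv_le_one_of_one_le₀ hge))
  have hTV : (T₀ : Ω) ∈ V := hH _ T₀.2
  have hstV : s t ∈ V := by
    have := add_mem ((val_le V _).2 h1.le) hTV
    rwa [sub_add_cancel] at this
  have hres : r ⟨s t, hstV⟩ = r ⟨(T₀ : Ω), hTV⟩ := (hP.res.eq_of_sub hP.mem hstV hTV).2 h1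
  have hev : ∀ G : H[X], aeval (T₀ : Ω) G = (G.eval T₀ : H) := fun G =>
    aeval_algebraMap_apply Ω T₀ G
  have h2 : s x₁ * aeval (s t) Q = aeval (s t) P := by
    rw [← Fx_aeval H hs, ← Fx_aeval H hs, ← map_mul, hx]
  have hsame : ∀ G : H[X], r ⟨aeval (s t) G, aeval_memV hH G hstV⟩ =
      r ⟨((G.eval T₀ : H) : Ω), hH _ (G.eval T₀).2⟩ := by
    intro G
    rw [res_aevalH r hH G hstV, hres, ← res_aevalH r hH G hTV]
    congr 1
    exact Subtype.ext (hev G)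
  have hQ1 : V.valuation (aeval (s t) Q) = 1 := by
    refine hP.unit (aeval_memV hH Q hstV) ?_
    rw [hsame, Ne, hP.res_eq_zero, val_H hH (Q.eval T₀).2 (by simpa using hQT₀)]
    exact lt_irrefl 1
  have hsx : s x₁ ∈ V := by
    rw [val_le]
    have h3 := congrArg V.valuation h2
    rw [map_mul, hQ1, mul_one] at h3
    rw [h3, ← val_le]
    exact aeval_memV hH P hstV
  have hc₀V : c₀ ∈ V := hH _ hc₀H
  have hc₀A : c₀ ∈ A := s_mem_of_alg A c₀ hc₀
  have h4 : r ⟨s x₁, hsx⟩ = c₀ := by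
    have h5 : r ⟨s x₁, hsx⟩ * r ⟨aeval (s t) Q, aeval_memV hH Q hstV⟩ =
        c₀ * r ⟨aeval (s t) Q, aeval_memV hH Q hstV⟩ := by
      rw [← map_mul]
      have h6 : (⟨s x₁, hsx⟩ * ⟨aeval (s t) Q, aeval_memV hH Q hstV⟩ : V) =
          ⟨aeval (s t) P, aeval_memV hH P hstV⟩ := Subtype.ext h2
      rw [h6, hsame, hsame]
      have h7 : (⟨((P.eval T₀ : H) : Ω), hH _ (P.eval T₀).2⟩ : V) =
          ⟨c₀, hc₀V⟩ * ⟨((Q.eval T₀ : H) : Ω), hH _ (Q.eval T₀).2⟩ := by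
        apply Subtype.ext
        show ((P.eval T₀ : H) : Ω) = c₀ * ((Q.eval T₀ : H) : Ω)
        rw [sub_eq_zero.1 hT₀]
        rfl
      rw [h7, map_mul, hP.res.fix c₀ hc₀V hc₀A]
    refine mul_right_cancel₀ ?_ h5
    rw [Ne, hP.res_eq_zero, hQ1]
    exact lt_irrefl 1
  -- the contradiction
  have h5 : aeval x₁ (minpoly k c₀) ∈ K₀ := by
    have := aeval_algebraMap_apply A (⟨x₁, hx₁⟩ : K₀) (minpoly k c₀)
    have h6 : aeval x₁ (minpoly k c₀) = algebraMap K₀ A (aeval (⟨x₁, hx₁⟩ : K₀) (minpoly k c₀)) := this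
    rw [h6]
    exact Subtype.property _
  have h6 : (aeval x₁ (minpoly k c₀) : A) ≠ 0 := by
    intro h
    apply hx₁H
    refine s_mem_of_alg H _ ⟨minpoly k c₀, minpoly.ne_zero hc₀.isIntegral, ?_⟩
    have h7 := congrArg (algebraMap A Ω) h
    rw [map_zero, ← aeval_algebraMap_apply] at h7
    exact h7
  have h7 := hgood _ h5 h6
  have h8 : s ((aeval x₁ (minpoly k c₀) : A) : Ω) = aeval (s x₁) (minpoly k c₀) := by
    have h9 : ((aeval x₁ (minpoly k c₀) : A) : Ω) = aeval (x₁ : Ω) (minpoly k c₀) :=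
      (aeval_algebraMap_apply Ω x₁ (minpoly k c₀)).symm
    rw [h9]
    exact (aeval_algHom_apply (s : Ω →ₐ[k] Ω) (x₁ : Ω) (minpoly k c₀)).symm
  rw [h8] at h7
  have h9 := hP.res_aeval (minpoly k c₀) hsx
  rw [h4, minpoly.aeval, hP.res_eq_zero, h7] at h9
  exact lt_irrefl 1 h9

end

end Pool.Agent.TUQ
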