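import Pool.Agent.TUQ.S5b
import Pool.Agent.TUQ.S5c

/-!
# The embeddings at the places over the zeros and poles of `b`
-/

set_option autoImplicit false

namespace Pool.Agent.TUQ

open Polynomial Pool.Agent.TBR

universe u

section

variable {k Ω : Type u} [Field k] [Field Ω] [Algebra k Ω]
variable {A H : IntermediateField k Ω} {V : ValuationSubring Ω} {r : V →+* Ω}

theorem rr_mul {x y : Ω} (hx : x ∈ V) (hy : y ∈ V) : rr r (x * y) = rr r x * rr r y := by
  rw [rr_of r (mul_mem hx hy), rr_of r hx, rr_of r hy, ← map_mul]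
  rfl

theorem rr_pow {x : Ω} (hx : x ∈ V) (n : ℕ) : rr r (x ^ n) = rr r x ^ n := by
  rw [rr_of r (pow_mem hx n), rr_of r hx, ← map_pow]
  rfl

theorem inv_memV {x : Ω} (hx : V.valuation x = 1) : x⁻¹ ∈ V := by
  rw [val_le, map_inv₀, hx, inv_one]

theorem rr_inv {x : Ω} (hx : V.valuation x = 1) : rr r x⁻¹ = (rr r x)⁻¹ := by
  have h1 : x ∈ V := (val_le V x).2 hx.le
  have h2 : x⁻¹ ∈ V := inv_memV hx
  have h0 : x ≠ 0 := by
    rintro rfl
    rw [map_zero] at hx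
    exact zero_ne_one hx
  have h3 : rr r (x⁻¹ * x) = rr r x⁻¹ * rr r x := rr_mul h2 h1
  rw [inv_mul_cancel₀ h0, rr_of r (one_mem V)] at h3
  have h4 : r ⟨1, one_mem V⟩ = 1 := map_one r
  rw [h4] at h3
  exact eq_inv_of_mul_eq_one_left h3.symm

theorem rr_zpow {x : Ω} (hx : V.valuation x = 1) (e : ℤ) : rr r (x ^ e) = rr r x ^ e := by
  have h1 : x ∈ V := (val_le V x).2 hx.le
  rcases Int.eq_nat_or_neg e with ⟨n, rfl | rfl⟩
  · rw [zpow_natCast, zpow_natCast, rr_pow h1]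
  · rw [zpow_neg, zpow_neg, zpow_natCast, zpow_natCast, rr_inv (by rw [map_pow, hx, one_pow]),
      rr_pow h1]

theorem val_zpow_one {x : Ω} (hx : V.valuation x = 1) (e : ℤ) : V.valuation (x ^ e) = 1 := by
  rw [map_zpow₀, hx, one_zpow]

theorem rr_memA (hP : Plc A V r) (x : Ω) : rr r x ∈ A := by
  by_cases h : x ∈ V
  · rw [rr_of r h]
    exact hP.res.mem _
  · rw [rr, dif_neg h]
    exact zero_mem A

theorem rr_fix (hP : Plc A V r) {x : Ω} (hx : x ∈ A) : rr r x = x := by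
  rw [rr_of r (hP.mem x hx), hP.res.fix _ _ hx]

open scoped Classical in
/-- the residues of the points of a multiset which are near `T₀` -/
noncomputable def Sop (r : V →+* Ω) (T₀ t : Ω) (M : Multiset Ω) : Multiset Ω :=
  ((M.map fun x : Ω => (x - T₀) / (t - T₀)).filter (· ∈ V)).map (rr r)

theorem Sop_add (r : V →+* Ω) (T₀ t : Ω) (M M' : Multiset Ω) :
    Sop r T₀ t (M + M') = Sop r T₀ t M + Sop r T₀ t M' := by
  rw [Sop, Multiset.map_add, Multiset.filter_add, Multiset.map_add]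
  rfl

/-- powers of an element of `V` which is not a unit -/
theorem zpow_inj_lt {x : Ω} (h : V.valuation x < 1) (h0 : x ≠ 0) {e : ℤ}
    (he : V.valuation (x ^ e) = 1) : e = 0 := by
  have hv0 : V.valuation x ≠ 0 := (_root_.map_ne_zero _).2 h0
  rw [map_zpow₀] at he
  rcases lt_trichotomy e 0 with h1 | h1 | h1
  · exfalso
    obtain ⟨n, hn⟩ : ∃ n : ℕ, e = -(n : ℤ) := ⟨e.natAbs, by omega⟩
    have hn0 : n ≠ 0 := by omega
    rw [hn, zpow_neg, zpow_natCast, inv_eq_one] at he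
    exact absurd (pow_lt_one₀ zero_le h hn0) (by rw [he]; exact lt_irrefl 1)
  · exact h1
  · exfalso
    obtain ⟨n, hn⟩ : ∃ n : ℕ, e = (n : ℤ) := ⟨e.natAbs, by omega⟩
    have hn0 : n ≠ 0 := by omega
    rw [hn, zpow_natCast] at he
    exact absurd (pow_lt_one₀ zero_le h hn0) (by rw [he]; exact lt_irrefl 1)

theorem cyc_map (E e : ℕ) : (cyc A E e).map (algebraMap A Ω) = cyc Ω E e := by
  rw [cyc, cyc, Polynomial.map_sum]
  refine Finset.sum_congr rfl fun j _ => ?_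
  rw [Polynomial.map_pow, map_X]

variable {K₀ : IntermediateField k A} {z : A} {N : ℕ} {B₁ B₂ : k[X]} {a w U t : Ω}
variable {A₁ A₂ : H[X]} {c : Ω} {Φ : k[X][X]} {m : ℕ} {T : Fin m → Ω}
  {s : Fin m → (Ω ≃ₐ[k] Ω)} {ξ : Fin m → (A →ₐ[k] Ω)} {f : Polynomial Ω}

/-- the data of the local equations at `t(V) = ρ(T₀)` -/
structure LD (A H : IntermediateField k Ω) (a t : Ω) (A₁ A₂ : H[X]) {m : ℕ} (T : Fin m → Ω)
    (f : Polynomial Ω) (N : ℕ) (U : Ω) (T₀ : H) (E e : ℕ) (P P₀ Q P' P₀' Q' : H[X]) : Prop where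
  he : 0 < e
  hE : 0 < E
  dPP : P = (X - C T₀) ^ (E * e) * P₀
  dP₀ : P₀.eval T₀ ≠ 0
  dQ : Q.eval T₀ ≠ 0
  dPQ : (P.map (algebraMap H Ω) * C (aeval t Q) - Q.map (algebraMap H Ω) * C (aeval t P)).roots =
    (A₁.map (algebraMap H Ω) - C a * A₂.map (algebraMap H Ω)).roots + f.roots
  dTi : ∀ i, aeval (T i) P * aeval t Q = aeval (T i) Q * aeval t P
  dval : aeval t P = U ^ N * aeval t Q ∨ aeval t Q = U ^ N * aeval t P
  dPP' : P' = (X - C T₀) ^ e * P₀'
  dP₀' : P₀'.eval T₀ ≠ 0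
  dQ' : Q'.eval T₀ ≠ 0
  dPQ' : (P'.map (algebraMap H Ω) * C (aeval t Q') - Q'.map (algebraMap H Ω) * C (aeval t P')).roots =
    (A₁.map (algebraMap H Ω) - C a * A₂.map (algebraMap H Ω)).roots

variable {T₀ : H} {E e : ℕ} {P P₀ Q P' P₀' Q' : H[X]}

/-- the residues of the coordinates of the roots -/
theorem LD.Sop_eq [IsAlgClosed Ω] (h : LD A H a t A₁ A₂ T f N U T₀ E e P P₀ Q P' P₀' Q')
    (hP : Plc A V r) (hH : ∀ x ∈ H, x ∈ V) (htH : t ∉ H) (ht : t ∈ V)
    (h0 : rho r hH T₀ = r ⟨t, ht⟩) : Sop r (T₀ : Ω) t f.roots = (cyc Ω E e).roots := by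
  have h1 := loc_roots hP hH htH ht T₀ h0 P P₀ Q (E * e) h.dPP h.dP₀ h.dQ (Nat.mul_pos h.hE h.he)
  have h2 := loc_roots hP hH htH ht T₀ h0 P' P₀' Q' e h.dPP' h.dP₀' h.dQ' h.he
  rw [h.dPQ] at h1
  rw [h.dPQ'] at h2
  have h3 : Sop r (T₀ : Ω) t ((A₁.map (algebraMap H Ω) - C a * A₂.map (algebraMap H Ω)).roots +
    f.roots) = ((X : Polynomial Ω) ^ (E * e) - 1).roots := h1
  have h4 : Sop r (T₀ : Ω) t (A₁.map (algebraMap H Ω) - C a * A₂.map (algebraMap H Ω)).roots =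
    ((X : Polynomial Ω) ^ e - 1).roots := h2
  have hX1 : ((X : Polynomial Ω) ^ (E * e) - 1) ≠ 0 := by
    have := X_pow_sub_C_ne_zero (Nat.mul_pos h.hE h.he) (1 : Ω)
    rwa [C_1] at this
  rw [Sop_add, h4, ← cyc_mul, roots_mul (by rw [cyc_mul]; exact hX1)] at h3
  exact add_left_cancel h3

/-- (5.4) the permutation of the roots near `T₀` -/
theorem LD.perm [IsAlgClosed Ω] [IsAlgClosed A] [IsAlgClosed H]
    (h : LD A H a t A₁ A₂ T f N U T₀ E e P P₀ Q P' P₀' Q')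
    (hc : Cfg A H K₀ z N B₁ B₂ a w U t)
    (hG : GD A H K₀ z N B₁ B₂ a w U t A₁ A₂ c Φ T s ξ f)
    (hP : Plc A V r) (hH : ∀ x ∈ H, x ∈ V) (ht : t ∈ V)
    (h0 : rho r hH T₀ = r ⟨t, ht⟩) (hEk : (E : k) ≠ 0) (p : Fin m → Prop)
    (hp : ∀ i, p i ↔ V.valuation (T i - t) < 1) (g : A ≃ₐ[k] A)
    (hgK : ∀ x ∈ K₀, g x = x) (hgz : g (z ^ (N / Nat.gcd N E)) = z ^ (N / Nat.gcd N E)) :
    ∃ π : Equiv.Perm {i : Fin m // p i}, ∀ i,
      V.valuation (T (π i) - t) = V.valuation (T i - t) ∧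
        ∀ ψ ψ', ResE A V r (ξ i) ψ → ResE A V r (ξ (π i)) ψ' →
          ∀ x ∈ K₀ ⊔ IntermediateField.adjoin k {z}, g (ψ x) = ψ' x := by
  classical
  have hlt := lam_lt hP hH ht T₀ h0
  have hne := lam_ne hc.tH T₀
  have hEA : (E : A) ≠ 0 := by
    have h1 : algebraMap k A (E : k) ≠ 0 := (_root_.map_ne_zero _).2 hEk
    rwa [map_natCast] at h1
  set lam : Ω := t - T₀ with hlam
  have hvl0 : V.valuation lam ≠ 0 := (_root_.map_ne_zero _).2 hne
  set τ : Fin m → Ω := fun i => (T i - (T₀ : Ω)) / lam with hτ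
  have hTτ : ∀ i, T i - (T₀ : Ω) = lam * τ i := fun i => by
    show T i - (T₀ : Ω) = lam * ((T i - (T₀ : Ω)) / lam)
    field_simp
  have hTt : ∀ i, T i - t = lam * (τ i - 1) := fun i => by
    rw [mul_sub, ← hTτ, hlam]
    ring
  have hτ1 : ∀ i, p i → V.valuation (τ i) = 1 := by
    intro i hi
    have h1 := loc_val hP hH ht T₀ h0 P P₀ Q (E * e) h.dPP h.dP₀ h.dQ (Nat.mul_pos h.hE h.he) (T i)
      ((hp i).1 hi) (h.dTi i)
    show V.valuation ((T i - (T₀ : Ω)) / lam) = 1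
    rw [map_div₀, h1, div_self hvl0]
  have hτp : ∀ i, τ i ∈ V → p i := by
    intro i hi
    rw [hp, hTt, map_mul]
    refine lt_of_le_of_lt (mul_le_of_le_one_right' ?_) hlt
    exact (val_le V _).1 (sub_mem hi (one_mem V))
  have hpτ : ∀ i, p i ↔ τ i ∈ V := fun i => ⟨fun hi => (val_le V _).2 (hτ1 i hi).le, hτp i⟩
  -- the residues
  let θ : {i : Fin m // p i} → A := fun i => ⟨rr r (τ i), rr_memA hP _⟩
  have hθ : Finset.univ.val.map θ = (cyc A E e).roots := by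
    apply Multiset.map_injective (f := (Subtype.val : A → Ω)) Subtype.val_injective
    have h1 : (cyc A E e).roots.map (Subtype.val : A → Ω) = (cyc Ω E e).roots := by
      rw [← cyc_map (A := A)]
      exact ((IsAlgClosed.splits (cyc A E e)).roots_map (algebraMap A Ω)).symm
    rw [h1, ← h.Sop_eq hP hH hc.tH ht h0, hG.roots, Multiset.map_map, Sop, Multiset.map_map,
      Multiset.filter_map, Multiset.map_map]
    have h2 : (Finset.univ.filter fun i => τ i ∈ V) =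
        (Finset.univ : Finset {i : Fin m // p i}).map (Function.Embedding.subtype p) := by
      ext i
      rw [Finset.mem_filter, Finset.mem_map]
      constructor
      · rintro ⟨-, hi⟩
        exact ⟨⟨i, hτp i hi⟩, Finset.mem_univ _, rfl⟩
      · rintro ⟨j, -, rfl⟩
        exact ⟨Finset.mem_univ _, (hpτ _).1 j.2⟩
    have h3 := congrArg (fun S : Finset (Fin m) => S.val.map (rr r ∘ τ)) h2
    simp only [Finset.map_val, Multiset.map_map, Finset.filter_val] at h3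
    exact h3.symm
  have hroot : ∀ i, (cyc A E e).IsRoot (θ i) := by
    intro i
    have h1 : θ i ∈ (cyc A E e).roots := by
      rw [← hθ, Multiset.mem_map]
      exact ⟨i, Finset.mem_univ_val _, rfl⟩
    exact isRoot_of_mem_roots h1
  have hθ1 : ∀ i, θ i ≠ 1 := by
    intro i hi
    have h1 := (cyc_root E e hEA (θ i) (hroot i)).1
    rw [hi, one_pow] at h1
    exact h1 rfl
  -- the values of `T i - t`
  have hval : ∀ i : {i : Fin m // p i}, V.valuation (T i - t) = V.valuation lam := by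
    intro i
    have hiV : τ i ∈ V := (hpτ _).1 i.2
    rw [hTt, map_mul]
    have h1 : V.valuation (τ i - 1) = 1 := by
      refine hP.unit (sub_mem hiV (one_mem V)) ?_
      have h2 : (⟨τ i - 1, sub_mem hiV (one_mem V)⟩ : V) = ⟨τ i, hiV⟩ - 1 := rfl
      rw [h2, map_sub, map_one, sub_ne_zero]
      intro h3
      apply hθ1 i
      apply Subtype.ext
      show rr r (τ i) = 1
      rw [rr_of r hiV, h3]
    rw [h1, mul_one]
  -- the order of `w`
  obtain ⟨ew, u, hu, huv, hw⟩ := exists_unif hP hH hc.tH ht T₀ h0 w hc.wt hc.w0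
  have hu0 : u ≠ 0 := by
    rintro rfl
    rw [map_zero] at huv
    exact zero_ne_one huv
  have huV : u ∈ V := (val_le V u).2 huv.le
  have hPt : aeval t P = lam ^ (E * e) * aeval t P₀ := by
    rw [h.dPP, map_mul, map_pow, map_sub, aeval_X, aeval_C]
    rfl
  have hvP : V.valuation (aeval t P) = V.valuation (lam ^ (E * e)) := by
    rw [hPt, map_mul, unit_at hP hH ht T₀ h0 P₀ h.dP₀, mul_one]
  have hvQ : V.valuation (aeval t Q) = 1 := unit_at hP hH ht T₀ h0 Q h.dQ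
  have hvz : V.valuation (lam ^ ew) * V.valuation U = 1 := by
    have h1 := congrArg V.valuation hc.eqz
    rw [hw, map_mul, map_mul, huv, mul_one, hP.val_A z.2 hc.z0'] at h1
    exact h1
  have hvzN : V.valuation (lam ^ (ew * N)) * V.valuation (U ^ N) = 1 := by
    rw [zpow_mul, zpow_natCast, map_pow, map_pow, ← mul_pow, hvz, one_pow]
  have hord : (N : ℤ) * ew = (E : ℤ) * e ∨ (N : ℤ) * ew = -((E : ℤ) * e) := by
    rcases h.dval with h1 | h1
    · right
      have h2 := congrArg V.valuation h1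
      rw [map_mul, hvP, hvQ, mul_one] at h2
      rw [← h2, ← map_mul, ← zpow_natCast, ← zpow_add₀ hne] at hvzN
      have h3 := zpow_inj_lt hlt hne hvzN
      push_cast at h3
      linarith
    · left
      have h2 := congrArg V.valuation h1
      rw [map_mul, hvP, hvQ] at h2
      have h3 : V.valuation (lam ^ (ew * N)) = V.valuation (lam ^ (E * e)) := by
        have h4 : V.valuation (U ^ N) ≠ 0 := fun h5 => by
          rw [h5, mul_zero] at hvzN
          exact zero_ne_one hvzN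
        refine mul_right_cancel₀ h4 ?_
        rw [hvzN, mul_comm, ← h2]
      have h4 : V.valuation (lam ^ (ew * N - (E * e : ℕ))) = 1 := by
        rw [zpow_sub₀ hne, map_div₀, h3, zpow_natCast, div_self]
        exact (_root_.map_ne_zero _).2 (pow_ne_zero _ hne)
      have h5 := zpow_inj_lt hlt hne h4
      push_cast at h5
      linarith
  -- the root of unity
  set ζ : A := g z / z with hζ
  have hgz0 : g z = ζ * z := by rw [hζ, div_mul_cancel₀ _ hc.z0]
  have hζ1 : ζ ^ (N / Nat.gcd N E) = 1 := by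
    rw [hζ, div_pow, ← map_pow, hgz, div_self (pow_ne_zero _ hc.z0)]
  obtain ⟨θ₁, hθ₁, hθ₁'⟩ := exists_theta (M := A) N E e ew hc.Npos h.hE h.he hord ζ hζ1
  obtain ⟨π, hπ⟩ := cyc_perm (M := A) E e hEA h.he θ hθ (g : A ≃+* A) θ₁ hθ₁
  refine ⟨π, fun i => ⟨by rw [hval, hval], fun ψ ψ' hψ hψ' => ?_⟩⟩
  -- the value at `z`
  have hz : ∀ (i : {i : Fin m // p i}) (ψ : A ≃ₐ[k] A), ResE A V r (ξ i) ψ → ψ z = θ i ^ ew * z := by
    intro i ψ hψ
    obtain ⟨hTV, hTr⟩ := res_of_lt hP ht ((hp _).1 i.2)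
    have hst : s i t ∈ V := by
      rw [hG.st]
      exact hTV
    have hr' : r ⟨s i t, hst⟩ = r ⟨t, ht⟩ := by
      rw [← hTr]
      congr 1
      exact Subtype.ext (hG.st i)
    obtain ⟨h1, h2⟩ := frac_res_eq hP hH hc.tH ht hu huV (hG.sH i) hst hr'
    have h3 : s i lam = lam * τ i := by
      rw [hlam, map_sub, hG.st, hG.sH i _ T₀.2, hTτ]
    have h4 : ξ i z * u = τ i ^ ew * (s i u * z) := by
      rw [hG.ξz, ← hc.eqz, hw, map_mul, map_zpow₀, h3, mul_zpow]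
      ring
    have hzV : (z : Ω) ∈ V := hP.mem _ z.2
    have h5 := congrArg (rr r) h4
    rw [rr_mul (hψ.mem z) huV, rr_mul ((val_le V _).2 (val_zpow_one (hτ1 _ i.2) ew).le)
      (mul_mem h1 hzV), rr_mul h1 hzV, rr_zpow (hτ1 _ i.2), rr_fix hP z.2, rr_of r (hψ.mem z),
      hψ.eq z (hψ.mem z), rr_of r h1, h2, rr_of r huV] at h5
    have h6 : r ⟨u, huV⟩ ≠ 0 := by
      rw [Ne, hP.res_eq_zero, huv]
      exact lt_irrefl 1
    have h7 : ((ψ z : A) : Ω) = rr r (τ i) ^ ew * z := by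
      refine mul_right_cancel₀ h6 ?_
      rw [h5]
      ring
    apply Subtype.ext
    rw [h7]
    show rr r (τ i) ^ ew * z = ((θ i ^ ew * z : A) : Ω)
    have h8 : ((θ i ^ ew : A) : Ω) = rr r (τ i) ^ ew := map_zpow₀ (algebraMap A Ω) (θ i) ew
    have h9 : ((θ i ^ ew * z : A) : Ω) = ((θ i ^ ew : A) : Ω) * z := rfl
    rw [h9, h8]
  refine ext_z ((g : A →ₐ[k] A).comp (ψ : A →ₐ[k] A)) (ψ' : A →ₐ[k] A) (fun x hx => ?_) ?_
  · show g (ψ x) = ψ' x
    rw [hG.psi_K₀ hc hP hH ht i ((hp _).1 i.2) ψ hψ x hx,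
      hG.psi_K₀ hc hP hH ht (π i) ((hp _).1 (π i).2) ψ' hψ' x hx, hgK x hx]
  · show g (ψ z) = ψ' z
    rw [hz i ψ hψ, hz (π i) ψ' hψ', hπ, map_mul, map_zpow₀, hgz0, mul_zpow, hθ₁']
    show g (θ i) ^ ew * (ζ * z) = g (θ i) ^ ew * ζ * z
    ring

end

end Pool.Agent.TUQ
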