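import Pool.Agent.TUQ.S5d

/-!
# The local statement at the places which contain `H`
-/

set_option autoImplicit false

namespace Pool.Agent.TUQ

open Polynomial Pool.Agent.TBR

universe u

section

variable {k Ω : Type u} [Field k] [Field Ω] [Algebra k Ω]
variable {A H : IntermediateField k Ω} {V : ValuationSubring Ω} {r : V →+* Ω}
variable {K₀ : IntermediateField k A} {z : A} {N : ℕ} {B₁ B₂ : k[X]} {a w U t : Ω}
variable {A₁ A₂ : H[X]} {c : Ω} {Φ : k[X][X]} {m : ℕ} {T : Fin m → Ω}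
  {s : Fin m → (Ω ≃ₐ[k] Ω)} {ξ : Fin m → (A →ₐ[k] Ω)} {f : Polynomial Ω}

/-- the orders of the zeros and poles of `b` in `H` -/
theorem mem_bds_H [IsAlgClosed A] (h0 : B₁ * B₂ ≠ 0) (β : H)
    (hβ : ((B₁ * B₂).map (algebraMap k H)).IsRoot β) :
    ((B₁ * B₂).map (algebraMap k H)).rootMultiplicity β ∈ bds k A B₁ B₂ := by
  have h1 : aeval (β : Ω) (B₁ * B₂) = 0 := by
    rw [IsRoot.def, eval_map_algebraMap] at hβ
    have h2 := aeval_algebraMap_apply Ω β (B₁ * B₂)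
    rw [hβ, map_zero] at h2
    exact h2
  have hA : (β : Ω) ∈ A := s_mem_of_alg A _ ⟨B₁ * B₂, h0, h1⟩
  have h2 : ((B₁ * B₂).map (algebraMap k H)).rootMultiplicity β =
      ((B₁ * B₂).map (algebraMap k A)).rootMultiplicity ⟨β, hA⟩ := by
    rw [eq_rootMultiplicity_map (algebraMap H Ω).injective β,
      eq_rootMultiplicity_map (algebraMap A Ω).injective (⟨β, hA⟩ : A), map_map, map_map,
      ← IsScalarTower.algebraMap_eq, ← IsScalarTower.algebraMap_eq]
    rfl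
  rw [h2]
  refine mem_bds_root B₁ B₂ ((Polynomial.map_ne_zero_iff (algebraMap k A).injective).2 h0) _ ?_
  rw [IsRoot.def, eval_map_algebraMap]
  apply Subtype.ext
  have h3 := aeval_algebraMap_apply Ω (⟨β, hA⟩ : A) (B₁ * B₂)
  exact h3.symm.trans h1

/-- the order of `B` at the point `γ` of the line -/
noncomputable def oB (B₁ B₂ B : k[X]) (H : IntermediateField k Ω) (γ : Option H) : ℕ :=
  match γ with
  | none => max B₁.natDegree B₂.natDegree - (B.map (algebraMap k H)).natDegree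
  | some γ => (B.map (algebraMap k H)).rootMultiplicity γ

theorem oB_cases [IsAlgClosed A] (hbc : Bc k A N B₁ B₂) (γ : Option H) :
    (∃ β : H, γ = some β ∧ (B₁.map (algebraMap k H)).eval β ≠ 0 ∧
      (B₂.map (algebraMap k H)).eval β ≠ 0) ∨
    (oB B₁ B₂ B₁ H γ = 0 ∧ 0 < oB B₁ B₂ B₂ H γ ∧ oB B₁ B₂ B₂ H γ ∈ bds k A B₁ B₂) ∨
    (oB B₁ B₂ B₂ H γ = 0 ∧ 0 < oB B₁ B₂ B₁ H γ ∧ oB B₁ B₂ B₁ H γ ∈ bds k A B₁ B₂) := by
  have h0 : B₁ * B₂ ≠ 0 := mul_ne_zero hbc.ne.1 hbc.ne.2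
  rcases γ with _ | β
  · right
    have hb : ((B₁.natDegree : ℤ) - B₂.natDegree).natAbs ∈ bds k A B₁ B₂ := mem_bds_inf B₁ B₂
    have hb0 : ((B₁.natDegree : ℤ) - B₂.natDegree).natAbs ≠ 0 := by
      intro h
      have := hbc.tame _ hb
      rw [h] at this
      simp at this
    have e1 : oB B₁ B₂ B₁ H none = max B₁.natDegree B₂.natDegree - B₁.natDegree := by
      show max B₁.natDegree B₂.natDegree - (B₁.map (algebraMap k H)).natDegree = _
      rw [natDegree_map]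
    have e2 : oB B₁ B₂ B₂ H none = max B₁.natDegree B₂.natDegree - B₂.natDegree := by
      show max B₁.natDegree B₂.natDegree - (B₂.map (algebraMap k H)).natDegree = _
      rw [natDegree_map]
    rw [e1, e2]
    rcases le_total B₁.natDegree B₂.natDegree with h | h
    · right
      rw [max_eq_right h, Nat.sub_self]
      have h3 : B₂.natDegree - B₁.natDegree = ((B₁.natDegree : ℤ) - B₂.natDegree).natAbs := by omega
      rw [h3]
      exact ⟨rfl, Nat.pos_of_ne_zero hb0, hb⟩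
    · left
      rw [max_eq_left h, Nat.sub_self]
      have h3 : B₁.natDegree - B₂.natDegree = ((B₁.natDegree : ℤ) - B₂.natDegree).natAbs := by omega
      rw [h3]
      exact ⟨rfl, Nat.pos_of_ne_zero hb0, hb⟩
  · set b₁ := B₁.map (algebraMap k H) with hb₁
    set b₂ := B₂.map (algebraMap k H) with hb₂
    have e1 : oB B₁ B₂ B₁ H (some β) = b₁.rootMultiplicity β := rfl
    have e2 : oB B₁ B₂ B₂ H (some β) = b₂.rootMultiplicity β := rfl
    have hne₁ : b₁ ≠ 0 := (Polynomial.map_ne_zero_iff (algebraMap k H).injective).2 hbc.ne.1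
    have hne₂ : b₂ ≠ 0 := (Polynomial.map_ne_zero_iff (algebraMap k H).injective).2 hbc.ne.2
    have hm : (B₁ * B₂).map (algebraMap k H) = b₁ * b₂ := Polynomial.map_mul _
    have hcop : ¬ (b₁.eval β = 0 ∧ b₂.eval β = 0) := by
      rintro ⟨h1, h2⟩
      have h3 : IsCoprime b₁ b₂ := hbc.cop.map (mapRingHom (algebraMap k H))
      obtain ⟨u, v, huv⟩ := h3
      have := congrArg (eval β) huv
      rw [eval_add, eval_mul, eval_mul, h1, h2, mul_zero, mul_zero, add_zero, eval_one] at this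
      exact zero_ne_one this
    by_cases h1 : b₁.eval β = 0
    · right
      right
      have h2 : b₂.eval β ≠ 0 := fun h => hcop ⟨h1, h⟩
      have h3 : b₂.rootMultiplicity β = 0 := rootMultiplicity_eq_zero h2
      rw [e1, e2, h3]
      refine ⟨rfl, (rootMultiplicity_pos hne₁).2 h1, ?_⟩
      have h4 := mem_bds_H (A := A) h0 β (by
        rw [hm, IsRoot.def, eval_mul, h1, zero_mul])
      rwa [hm, mult_mul _ _ hne₁ hne₂, h3, add_zero] at h4
    · by_cases h2 : b₂.eval β = 0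
      · right
        left
        have h3 : b₁.rootMultiplicity β = 0 := rootMultiplicity_eq_zero h1
        rw [e1, e2, h3]
        refine ⟨rfl, (rootMultiplicity_pos hne₂).2 h2, ?_⟩
        have h4 := mem_bds_H (A := A) h0 β (by
          rw [hm, IsRoot.def, eval_mul, h2, mul_zero])
        rwa [hm, mult_mul _ _ hne₁ hne₂, h3, zero_add] at h4
      · left
        exact ⟨β, rfl, h1, h2⟩

/-- the multiplicity of the homogenization -/
theorem mult_PH [IsAlgClosed H] (hcop : IsCoprime A₁ A₂) (hn : 0 < max A₁.natDegree A₂.natDegree)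
    (B : k[X]) (hB0 : B ≠ 0) (hB : B.natDegree ≤ max B₁.natDegree B₂.natDegree) (γ : Option H)
    (T₀ : H) (hT₀ : (frm A₁ A₂ γ).eval T₀ = 0) :
    (PH B₁ B₂ B A₁ A₂).rootMultiplicity T₀ =
      oB B₁ B₂ B H γ * (frm A₁ A₂ γ).rootMultiplicity T₀ := by
  have h1 : PH B₁ B₂ B A₁ A₂ = hg (max B₁.natDegree B₂.natDegree) (B.map (algebraMap k H)) A₁ A₂ :=
    hg_hom (algebraMap k H) (RingHom.id H[X]) (fun x => rfl) _ B A₁ A₂
  rw [h1, mult_hg _ _ ((Polynomial.map_ne_zero_iff (algebraMap k H).injective).2 hB0)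
    (by rw [natDegree_map]; exact hB) A₁ A₂ hcop hn γ T₀ hT₀]
  rcases γ with _ | γ <;> rfl

/-- a polynomial as a power of a linear polynomial times a nonvanishing factor -/
theorem exists_pow_mul (P : H[X]) (hP : P ≠ 0) (T₀ : H) :
    ∃ P₀ : H[X], P = (X - C T₀) ^ P.rootMultiplicity T₀ * P₀ ∧ P₀.eval T₀ ≠ 0 := by
  obtain ⟨P₀, h1, h2⟩ := exists_eq_pow_rootMultiplicity_mul_and_not_dvd P hP T₀
  rw [dvd_iff_isRoot, IsRoot.def] at h2
  exact ⟨P₀, h1, h2⟩

/-- the local data over a zero or pole of `b` -/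
theorem GD.exists_LD [IsAlgClosed Ω] [IsAlgClosed A] [IsAlgClosed H]
    (hc : Cfg A H K₀ z N B₁ B₂ a w U t) (hNU : NU (K₀ ⊔ IntermediateField.adjoin k {z}))
    (hG : GD A H K₀ z N B₁ B₂ a w U t A₁ A₂ c Φ T s ξ f) (T₀ : H) (γ : Option H)
    (hγ : (frm A₁ A₂ γ).eval T₀ = 0)
    (hcase : (oB B₁ B₂ B₁ H γ = 0 ∧ 0 < oB B₁ B₂ B₂ H γ ∧ oB B₁ B₂ B₂ H γ ∈ bds k A B₁ B₂) ∨
      (oB B₁ B₂ B₂ H γ = 0 ∧ 0 < oB B₁ B₂ B₁ H γ ∧ oB B₁ B₂ B₁ H γ ∈ bds k A B₁ B₂)) :
    ∃ (E e : ℕ) (P P₀ Q P' P₀' Q' : H[X]), E ∈ bds k A B₁ B₂ ∧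
      LD A H a t A₁ A₂ T f N U T₀ E e P P₀ Q P' P₀' Q' := by
  have haH := hc.aH hNU
  have hn : 0 < max A₁.natDegree A₂.natDegree := by
    by_contra h0
    push Not at h0
    have h3 : max A₁.natDegree A₂.natDegree = 0 := Nat.le_zero.1 h0
    have h4 : A₁.natDegree = 0 := Nat.le_zero.1 (h3 ▸ le_max_left _ _)
    have h5 : A₂.natDegree = 0 := Nat.le_zero.1 (h3 ▸ le_max_right _ _)
    apply haH
    have h6 : a = aeval t A₁ / aeval t A₂ := by rw [eq_div_iff hG.A₂t, hG.aeq]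
    rw [h6, eq_C_of_natDegree_eq_zero h4, eq_C_of_natDegree_eq_zero h5, aeval_C, aeval_C]
    exact div_mem (A₁.coeff 0).2 (A₂.coeff 0).2
  set D : Polynomial Ω := A₁.map (algebraMap H Ω) - C a * A₂.map (algebraMap H Ω) with hD
  set P₁ := PH B₁ B₂ B₁ A₁ A₂ with hP₁
  set P₂ := PH B₁ B₂ B₂ A₁ A₂ with hP₂
  have hPt : aeval t P₁ = U ^ N * aeval t P₂ := hG.PH_t hc
  have hP₂t : aeval t P₂ ≠ 0 := hG.PH₂_t hc haH
  have hUN : U ^ N ≠ 0 := pow_ne_zero _ hc.U0
  have hP₁t : aeval t P₁ ≠ 0 := by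
    rw [hPt]
    exact mul_ne_zero hUN hP₂t
  have hP₁0 : P₁ ≠ 0 := by
    intro h
    rw [h, map_zero] at hP₁t
    exact hP₁t rfl
  have hP₂0 : P₂ ≠ 0 := by
    intro h
    rw [h, map_zero] at hP₂t
    exact hP₂t rfl
  -- the diagonal
  have hfrm0 : frm A₁ A₂ γ ≠ 0 := frm_ne' A₁ A₂ hG.cop hn γ
  set e := (frm A₁ A₂ γ).rootMultiplicity T₀ with he
  have he0 : 0 < e := (rootMultiplicity_pos hfrm0).2 hγ
  obtain ⟨P₀', hPP', hP₀'⟩ := exists_pow_mul (frm A₁ A₂ γ) hfrm0 T₀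
  have hD0 : D ≠ 0 := by
    intro h
    obtain ⟨j, hj⟩ : ∃ j, A₂.coeff j ≠ 0 := by
      by_contra hcon
      push Not at hcon
      exact hG.A₂0 (Polynomial.ext fun j => by rw [hcon j, coeff_zero])
    have h1 := congrArg (fun p => p.coeff j) h
    simp only [hD, coeff_sub, coeff_C_mul, coeff_map, coeff_zero] at h1
    have hj' : (A₂.coeff j : Ω) ≠ 0 := by simpa using hj
    apply haH
    have h2 : a = (A₁.coeff j : Ω) / A₂.coeff j := by
      rw [eq_div_iff hj']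
      exact (sub_eq_zero.1 h1).symm
    rw [h2]
    exact div_mem (Subtype.property _) (Subtype.property _)
  obtain ⟨Q', hQ', hPQ'⟩ : ∃ Q' : H[X], Q'.eval T₀ ≠ 0 ∧
      ((frm A₁ A₂ γ).map (algebraMap H Ω) * C (aeval t Q') -
        Q'.map (algebraMap H Ω) * C (aeval t (frm A₁ A₂ γ))).roots = D.roots := by
    rcases γ with _ | β
    · refine ⟨A₁, fun h => ?_, ?_⟩
      · refine frm_root A₁ A₂ hG.cop (β := none) (γ := some 0) (fun h => by cases h) T₀ hγ ?_
        rw [frm, eval_sub, eval_mul, h, eval_C, zero_mul, sub_zero]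
      · have h1 : (frm A₁ A₂ none).map (algebraMap H Ω) * C (aeval t A₁) -
            A₁.map (algebraMap H Ω) * C (aeval t (frm A₁ A₂ none)) = C (-aeval t A₂) * D := by
          rw [← hG.aeq, hD, C_neg, C_mul]
          show A₂.map (algebraMap H Ω) * (C a * C (aeval t A₂)) -
            A₁.map (algebraMap H Ω) * C (aeval t A₂) = _
          ring
        rw [h1, roots_C_mul _ (neg_ne_zero.2 hG.A₂t)]
    · refine ⟨A₂, fun h => ?_, ?_⟩
      · exact frm_root A₁ A₂ hG.cop (β := some β) (γ := none) (fun h => by cases h) T₀ hγ h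
      · have h1 : (frm A₁ A₂ (some β)).map (algebraMap H Ω) * C (aeval t A₂) -
            A₂.map (algebraMap H Ω) * C (aeval t (frm A₁ A₂ (some β))) = C (aeval t A₂) * D := by
          rw [frm, map_sub, ← hG.aeq, hD, Polynomial.map_sub, Polynomial.map_mul, map_C, map_mul,
            aeval_C, C_sub, C_mul, C_mul]
          ring
        rw [h1, roots_C_mul _ hG.A₂t]
  -- the full equation
  have hfull : P₁.map (algebraMap H Ω) * C (aeval t P₂) - P₂.map (algebraMap H Ω) * C (aeval t P₁) =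
      C (aeval t P₂ * c) * (D * f) := by
    have h1 := hG.feq
    rw [hPt, C_mul, C_mul]
    linear_combination (C (aeval t P₂) : Polynomial Ω) * h1
  have hDf : D * f ≠ 0 := mul_ne_zero hD0 hG.f0
  have hfr : (P₁.map (algebraMap H Ω) * C (aeval t P₂) -
      P₂.map (algebraMap H Ω) * C (aeval t P₁)).roots = D.roots + f.roots := by
    rw [hfull, roots_C_mul _ (mul_ne_zero hP₂t hG.c0), roots_mul hDf]
  have hfr' : (P₂.map (algebraMap H Ω) * C (aeval t P₁) -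
      P₁.map (algebraMap H Ω) * C (aeval t P₂)).roots = D.roots + f.roots := by
    rw [← hfr, ← roots_neg, neg_sub]
  have hTi : ∀ i, aeval (T i) P₁ * aeval t P₂ = aeval (T i) P₂ * aeval t P₁ := by
    intro i
    have h1 : f.IsRoot (T i) := by
      rw [← mem_roots hG.f0, hG.roots, Multiset.mem_map]
      exact ⟨i, Finset.mem_univ_val _, rfl⟩
    have h2 := congrArg (eval (T i)) hfull
    rw [eval_mul, eval_mul, h1.eq_zero, mul_zero, mul_zero, eval_sub, eval_mul, eval_mul, eval_C,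
      eval_C, eval_map_algebraMap, eval_map_algebraMap, sub_eq_zero] at h2
    exact h2
  have hm₁ := mult_PH (B₁ := B₁) (B₂ := B₂) hG.cop hn B₁ hc.bc.ne.1 (le_max_left _ _) γ T₀ hγ
  have hm₂ := mult_PH (B₁ := B₁) (B₂ := B₂) hG.cop hn B₂ hc.bc.ne.2 (le_max_right _ _) γ T₀ hγ
  have hne_of : ∀ P : H[X], P ≠ 0 → P.rootMultiplicity T₀ = 0 → P.eval T₀ ≠ 0 := by
    intro P hP0 h h1
    have := (rootMultiplicity_pos hP0).2 h1
    omega
  rcases hcase with ⟨h1, h2, h3⟩ | ⟨h1, h2, h3⟩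
  · obtain ⟨P₀, hPP, hP₀⟩ := exists_pow_mul P₂ hP₂0 T₀
    rw [hm₂] at hPP
    rw [h1, zero_mul] at hm₁
    exact ⟨oB B₁ B₂ B₂ H γ, e, P₂, P₀, P₁, frm A₁ A₂ γ, P₀', Q', h3, he0, h2, hPP, hP₀,
      hne_of P₁ hP₁0 hm₁, hfr', fun i => (hTi i).symm, Or.inr hPt, hPP', hP₀', hQ', hPQ'⟩
  · obtain ⟨P₀, hPP, hP₀⟩ := exists_pow_mul P₁ hP₁0 T₀
    rw [hm₁] at hPP
    rw [h1, zero_mul] at hm₂
    exact ⟨oB B₁ B₂ B₁ H γ, e, P₁, P₀, P₂, frm A₁ A₂ γ, P₀', Q', h3, he0, h2, hPP, hP₀,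
      hne_of P₂ hP₂0 hm₂, hfr, hTi, Or.inl hPt, hPP', hP₀', hQ', hPQ'⟩

theorem alg_mono {M : Type*} [Field M] [Algebra k M] {K L : IntermediateField k M} (h : K ≤ L)
    {x : M} (hx : IsAlgebraic K x) : IsAlgebraic L x := by
  obtain ⟨p, hp, h1⟩ := hx
  refine ⟨p.map (IntermediateField.inclusion h : K →+* L),
    (Polynomial.map_ne_zero_iff (IntermediateField.inclusion h : K →+* L).injective).2 hp, ?_⟩
  rw [aeval_def, eval₂_map]
  exact h1

/-- **The local statement at the places which contain `H`.** -/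
theorem GD.locSt_of_le [IsAlgClosed Ω] [IsAlgClosed A] [IsAlgClosed H]
    (hc : Cfg A H K₀ z N B₁ B₂ a w U t) (hNU : NU (K₀ ⊔ IntermediateField.adjoin k {z}))
    (hCP : CP A H K₀ t) (hG : GD A H K₀ z N B₁ B₂ a w U t A₁ A₂ c Φ T s ξ f)
    (hP : Plc A V r) (hH : ∀ x ∈ H, x ∈ V) :
    LocSt A K₀ z N B₁ B₂ ξ (fun i => T i - t) V r := by
  have ht := hCP.t_mem hP hH
  obtain ⟨T₀, h0⟩ := exists_liftH hP hH hc.tdA hc.tdH _ (hP.res.mem ⟨t, ht⟩)
  obtain ⟨γ, hγ⟩ : ∃ γ : Option H, (frm A₁ A₂ γ).eval T₀ = 0 := by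
    by_cases h : A₂.eval T₀ = 0
    · exact ⟨none, h⟩
    · refine ⟨some (A₁.eval T₀ / A₂.eval T₀), ?_⟩
      rw [frm, eval_sub, eval_mul, eval_C, div_mul_cancel₀ _ h, sub_self]
  rcases oB_cases hc.bc γ with ⟨β, rfl, hβ₁, hβ₂⟩ | hcase
  · left
    have hA₂ : A₂.eval T₀ ≠ 0 := fun h =>
      frm_root A₁ A₂ hG.cop (β := some β) (γ := none) (fun h => by cases h) T₀ hγ h
    have hv := unit_at hP hH ht T₀ h0 A₂ hA₂
    have haV : a ∈ V := by
      rw [val_le]
      have h1 := congrArg V.valuation hG.aeq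
      rw [map_mul, hv, mul_one] at h1
      rw [h1, ← val_le]
      exact aeval_memV hH A₁ ht
    have hra : r ⟨a, haV⟩ = rho r hH β := by
      have h1 : (⟨a, haV⟩ * ⟨aeval t A₂, aeval_memV hH A₂ ht⟩ : V) =
          ⟨aeval t A₁, aeval_memV hH A₁ ht⟩ := Subtype.ext hG.aeq
      have h2 := congrArg r h1
      rw [map_mul, res_at hH ht T₀ h0, res_at hH ht T₀ h0] at h2
      have h3 : A₁.eval T₀ = β * A₂.eval T₀ := by
        rw [frm, eval_sub, eval_mul, eval_C, sub_eq_zero] at hγ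
        exact hγ
      rw [h3, map_mul] at h2
      exact mul_right_cancel₀ ((_root_.map_ne_zero _).2 hA₂) h2
    have hk : ∀ B : k[X], aeval (rho r hH β) B = rho r hH ((B.map (algebraMap k H)).eval β) := by
      intro B
      have h1 := hom_eval₂ B (algebraMap k H) (rho r hH) β
      rw [eval_map, h1, aeval_def]
      congr 1
      ext x
      exact (hP.res.alg x (hP.k_mem x)).symm
    have hβ : aeval (r ⟨a, haV⟩) (B₁ * B₂) ≠ 0 := by
      rw [hra, map_mul, hk, hk]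
      exact mul_ne_zero ((_root_.map_ne_zero _).2 hβ₁) ((_root_.map_ne_zero _).2 hβ₂)
    exact fun i hi hi' => hG.alt1 hc hCP hP hH haV hβ i hi hi'
  · right
    obtain ⟨E, e, P, P₀, Q, P', P₀', Q', hE, hLD⟩ := hG.exists_LD hc hNU T₀ γ hγ hcase
    refine ⟨K₀ ⊔ IntermediateField.adjoin k {z ^ (N / Nat.gcd N E)}, Or.inr ⟨E, hE, rfl⟩,
      fun x => alg_mono le_sup_left (hc.al x), fun g hg => ?_⟩
    refine hLD.perm hc hG hP hH ht h0 (hc.bc.tame E hE)
      (fun i => (∀ x, ξ i x ∈ V) ∧ V.valuation (T i - t) ≠ 1)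
      (fun i => hG.idx_iff hc hCP hP hH i) g (fun x hx => hg x ?_) (hg _ ?_)
    · exact (le_sup_left : K₀ ≤ _) hx
    · exact (le_sup_right : IntermediateField.adjoin k {z ^ (N / Nat.gcd N E)} ≤ _)
        (IntermediateField.subset_adjoin _ _ rfl)

end

end Pool.Agent.TUQ
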