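import Pool.Agent.UQ.Gen
import Pool.Agent.UQ.Families

/-!
# Uniruled threefolds from cyclic planes
-/

set_option autoImplicit false

namespace Pool.Agent.TUQ

open Polynomial Pool.Agent.UQ

universe u

section

variable {k : Type u} [Field k]

/-- the weights of the coefficients of the equation of the threefold -/
def WtC (f q : MvPolynomial (Fin 2) k) (N α β γ δ : ℕ) : Prop :=
  (Even N ∧ MvPolynomial.weightedTotalDegree ![α, β] f ≤ 2 * δ ∧
      N * γ + 2 * MvPolynomial.weightedTotalDegree ![α, β] q ≤ 2 * δ) ∨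
    (Odd N ∧ MvPolynomial.weightedTotalDegree ![α, β] f + γ ≤ 2 * δ ∧
      (N + 1) * γ + 2 * MvPolynomial.weightedTotalDegree ![α, β] q ≤ 2 * δ)

/-- the threefold `w ^ N (1 + a ^ 2) q(x, y) ^ 2 = f(x, y)` is uniruled -/
theorem fam_uni (h2 : (2 : k) ≠ 0) {K₀ L : Type u} [Field K₀] [Field L] [Algebra k K₀]
    [Algebra k L] [Algebra K₀ L] [IsScalarTower k K₀ L] (x y : K₀)
    (hK₀ : IntermediateField.adjoin k {x, y} = ⊤) (htd : Algebra.trdeg k K₀ = 2) (N : ℕ)
    (f q : MvPolynomial (Fin 2) k) (hq : MvPolynomial.aeval ![x, y] q ≠ 0) (a w : L)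
    (ha : Transcendental K₀ a) (hw0 : w ≠ 0)
    (hw : w ^ N * (1 + a ^ 2) * algebraMap K₀ L (MvPolynomial.aeval ![x, y] q) ^ 2 =
      algebraMap K₀ L (MvPolynomial.aeval ![x, y] f))
    (hgen : IntermediateField.adjoin K₀ {a, w} = ⊤) (α β γ δ : ℕ) (hf : WtC f q N α β γ δ)
    (hδ0 : 0 < δ) (hδ : δ ≤ α + β + γ) : Uniruled k L := by
  classical
  obtain ⟨Q, hQ⟩ : ∃ Q, Q = algebraMap K₀ L (MvPolynomial.aeval ![x, y] q) := ⟨_, rfl⟩
  have hQ0 : Q ≠ 0 := by
    rw [hQ]
    exact (_root_.map_ne_zero _).2 hq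
  rw [← hQ] at hw
  -- the element `v`
  obtain ⟨j, H, hH3, hHv⟩ : ∃ (j : ℕ) (H : MvPolynomial (Fin 4) k), (3 : Fin 4) ∉ H.vars ∧
      (a * w ^ j * Q) ^ 2 =
        MvPolynomial.aeval ![algebraMap K₀ L x, algebraMap K₀ L y, w, a * w ^ j * Q] H ∧
      MvPolynomial.weightedTotalDegree ![α, β, γ, δ] H ≤ 2 * δ := by
    have hr : ∀ (g : MvPolynomial (Fin 2) k) (v : L),
        MvPolynomial.aeval ![algebraMap K₀ L x, algebraMap K₀ L y, w, v]
        (MvPolynomial.rename ![0, 1] g : MvPolynomial (Fin 4) k) =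
          algebraMap K₀ L (MvPolynomial.aeval ![x, y] g) := by
      intro g v
      rw [MvPolynomial.aeval_rename]
      have h1 := MvPolynomial.aeval_algebraMap_apply (A := K₀) (B := L) ![x, y] g
      rw [← h1]
      congr 2
      ext i
      fin_cases i <;> rfl
    have hv : ∀ g : MvPolynomial (Fin 2) k,
        (3 : Fin 4) ∉ (MvPolynomial.rename ![0, 1] g : MvPolynomial (Fin 4) k).vars := by
      intro g hr
      have := MvPolynomial.vars_rename (![0, 1] : Fin 2 → Fin 4) g hr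
      rw [Finset.mem_image] at this
      obtain ⟨j, -, hj⟩ := this
      fin_cases j <;> simp at hj
    have hv2 : ∀ g : MvPolynomial (Fin 2) k,
        (3 : Fin 4) ∉ ((MvPolynomial.rename ![0, 1] g : MvPolynomial (Fin 4) k) ^ 2).vars :=
      fun g h => hv g (MvPolynomial.vars_pow _ 2 h)
    have hvX : ∀ n : ℕ, (3 : Fin 4) ∉ (MvPolynomial.X 2 ^ n : MvPolynomial (Fin 4) k).vars := by
      intro n h
      have := MvPolynomial.vars_pow _ n h
      rw [MvPolynomial.vars_X] at this
      simp at this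
    have hwX : ∀ (n : ℕ), n * γ + 2 * MvPolynomial.weightedTotalDegree ![α, β] q ≤ 2 * δ →
        MvPolynomial.weightedTotalDegree ![α, β, γ, δ] ((MvPolynomial.X 2 ^ n *
          (MvPolynomial.rename ![0, 1] q) ^ 2 : MvPolynomial (Fin 4) k)) ≤ 2 * δ := by
      intro n hn
      have h1 := wtd_rename ![α, β, γ, δ] q _ le_rfl
      have h3 := wtd_mul _ _ _ _ _ h1 h1
      rw [← sq] at h3
      refine (wtd_mul _ _ _ _ _ (wtd_X_pow ![α, β, γ, δ] 2 n) h3).trans ?_
      show n * γ + (MvPolynomial.weightedTotalDegree ![α, β] q +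
        MvPolynomial.weightedTotalDegree ![α, β] q) ≤ 2 * δ
      omega
    rcases hf with ⟨⟨j, rfl⟩, h1, h3⟩ | ⟨⟨j, rfl⟩, h1, h3⟩
    · refine ⟨j, MvPolynomial.rename ![0, 1] f -
        MvPolynomial.X 2 ^ (j + j) * (MvPolynomial.rename ![0, 1] q) ^ 2, ?_, ?_, ?_⟩
      · intro h
        rcases Finset.mem_union.1 (MvPolynomial.vars_sub_subset _ h) with h | h
        · exact hv _ h
        · rcases Finset.mem_union.1 (MvPolynomial.vars_mul _ _ h) with h | h
          · exact hvX _ h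
          · exact hv2 _ h
      · rw [map_sub, map_mul, map_pow, map_pow, hr, hr, MvPolynomial.aeval_X, ← hw, ← hQ]
        show (a * w ^ j * Q) ^ 2 = w ^ (j + j) * (1 + a ^ 2) * Q ^ 2 - w ^ (j + j) * Q ^ 2
        ring
      · exact wtd_sub _ _ _ _ (wtd_rename _ _ _ h1) (hwX _ h3)
    · refine ⟨j + 1, MvPolynomial.X 2 ^ 1 * MvPolynomial.rename ![0, 1] f -
        MvPolynomial.X 2 ^ (2 * j + 1 + 1) * (MvPolynomial.rename ![0, 1] q) ^ 2, ?_, ?_, ?_⟩
      · intro h
        rcases Finset.mem_union.1 (MvPolynomial.vars_sub_subset _ h) with h | h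
        · rcases Finset.mem_union.1 (MvPolynomial.vars_mul _ _ h) with h | h
          · exact hvX _ h
          · exact hv _ h
        · rcases Finset.mem_union.1 (MvPolynomial.vars_mul _ _ h) with h | h
          · exact hvX _ h
          · exact hv2 _ h
      · rw [map_sub, map_mul, map_mul, map_pow, map_pow, map_pow, hr, hr, MvPolynomial.aeval_X,
          ← hw, ← hQ]
        show (a * w ^ (j + 1) * Q) ^ 2 =
          w ^ 1 * (w ^ (2 * j + 1) * (1 + a ^ 2) * Q ^ 2) - w ^ (2 * j + 1 + 1) * Q ^ 2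
        ring
      · refine wtd_sub _ _ _ _ ?_ (hwX _ h3)
        refine (wtd_mul _ _ _ _ _ (wtd_X_pow ![α, β, γ, δ] 2 1)
          (wtd_rename ![α, β, γ, δ] f _ le_rfl)).trans ?_
        show 1 * γ + MvPolynomial.weightedTotalDegree ![α, β] f ≤ 2 * δ
        omega
  obtain ⟨hHv, hHw⟩ := hHv
  set ξ : Fin 4 → L := ![algebraMap K₀ L x, algebraMap K₀ L y, w, a * w ^ j * Q] with hξ
  -- generators
  have hgen' : IntermediateField.adjoin k (Set.range ξ) = ⊤ := by
    set E := IntermediateField.adjoin k (Set.range ξ) with hE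
    have hmem : ∀ i, ξ i ∈ E := fun i => IntermediateField.subset_adjoin k _ ⟨i, rfl⟩
    have hK : ∀ b : K₀, algebraMap K₀ L b ∈ E := by
      intro b
      have h1 : (⊤ : IntermediateField k K₀) ≤ E.comap (IsScalarTower.toAlgHom k K₀ L) := by
        rw [← hK₀, IntermediateField.adjoin_le_iff]
        rintro c (rfl | rfl)
        · exact hmem 0
        · exact hmem 1
      exact h1 (IntermediateField.mem_top (x := b))
    have hw' : w ∈ E := hmem 2
    have ha' : a ∈ E := by
      have h1 : a * w ^ j * Q ∈ E := hmem 3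
      have hQE : Q ∈ E := by
        rw [hQ]
        exact hK _
      have h3 := div_mem (div_mem h1 hQE) (pow_mem hw' j)
      rwa [mul_div_cancel_right₀ _ hQ0, mul_div_cancel_right₀ _ (pow_ne_zero _ hw0)] at h3
    let E' : IntermediateField K₀ L :=
      { E.toSubfield with
        algebraMap_mem' := hK }
    have h1 : (⊤ : IntermediateField K₀ L) ≤ E' := by
      rw [← hgen, IntermediateField.adjoin_le_iff]
      rintro c (rfl | rfl)
      · exact ha'
      · exact hw'
    rw [eq_top_iff]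
    intro b _
    exact h1 (IntermediateField.mem_top (x := b))
  -- the transcendence degree
  have hEss : Algebra.EssFiniteType K₀ L := by
    rw [← IntermediateField.fg_top_iff, ← hgen]
    exact IntermediateField.fg_adjoin_of_finite (Set.toFinite _)
  have hfin : Algebra.trdeg K₀ L < Cardinal.aleph0 := trdeg_lt_aleph0 K₀ L
  have hadd := trdeg_add_eq k K₀ (A := L)
  rw [htd] at hadd
  have hfin' : Algebra.trdeg k L < Cardinal.aleph0 := by
    rw [← hadd]
    exact Cardinal.add_lt_aleph0 Cardinal.natCast_lt_aleph0 hfin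
  have h1 : (1 : Cardinal) ≤ Algebra.trdeg K₀ L := by
    rw [Cardinal.one_le_iff_ne_zero, trdeg_ne_zero_iff]
    exact ⟨a, ha⟩
  refine uniruled_square h2 ξ hgen' hfin' ?_ 3 H hH3 ?_ ![α, β, γ, δ] ?_ ?_ ?_
  · rw [← hadd]
    calc ((4 : ℕ) : Cardinal) = 2 + 1 + 1 := by norm_num
      _ ≤ 2 + Algebra.trdeg K₀ L + 1 := by gcongr
  · exact hHv
  · exact hδ0
  · exact hHw
  · show 2 * δ ≤ ∑ i, (![α, β, γ, δ] : Fin 4 → ℕ) i
    rw [Fin.sum_univ_four]
    show 2 * δ ≤ α + β + γ + δ
    omega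

/-- existence of the threefold -/
theorem fam_exists {K₀ : Type u} [Field K₀] [Algebra k K₀] (N : ℕ) (hN : 0 < N) (F : K₀)
    (hF : F ≠ 0) :
    ∃ (L : Type u) (_ : Field L) (_ : Algebra k L) (_ : Algebra K₀ L) (_ : IsScalarTower k K₀ L)
      (a w : L), Transcendental K₀ a ∧ w ≠ 0 ∧ w ^ N * (1 + a ^ 2) = algebraMap K₀ L F ∧
        IntermediateField.adjoin K₀ {a, w} = ⊤ := by
  let Ω := AlgebraicClosure (RatFunc K₀)
  let a : Ω := algebraMap (RatFunc K₀) Ω RatFunc.X
  have ha : Transcendental K₀ a := by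
    have h1 : Transcendental K₀ (RatFunc.X : RatFunc K₀) := RatFunc.transcendental_X
    exact (transcendental_algebraMap_iff (algebraMap (RatFunc K₀) Ω).injective).2 h1
  have h1a : (1 + a ^ 2 : Ω) ≠ 0 := by
    intro h
    apply ha
    refine ⟨1 + X ^ 2, ?_, ?_⟩
    · intro h3
      have h4 := congrArg (fun p => p.coeff 2) h3
      simp [coeff_one] at h4
    · rw [map_add, map_one, map_pow, aeval_X, h]
  obtain ⟨w, hw⟩ := IsAlgClosed.exists_pow_nat_eq (algebraMap K₀ Ω F / (1 + a ^ 2)) hN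
  have hF' : algebraMap K₀ Ω F ≠ 0 := (_root_.map_ne_zero _).2 hF
  have hw0 : w ≠ 0 := by
    rintro rfl
    rw [zero_pow hN.ne'] at hw
    exact div_ne_zero hF' h1a hw.symm
  let L := IntermediateField.adjoin K₀ {a, w}
  have haL : a ∈ L := IntermediateField.subset_adjoin _ _ (Or.inl rfl)
  have hwL : w ∈ L := IntermediateField.subset_adjoin _ _ (Or.inr rfl)
  refine ⟨L, inferInstance, ((algebraMap K₀ L).comp (algebraMap k K₀)).toAlgebra, inferInstance,
    ?_, ⟨a, haL⟩, ⟨w, hwL⟩, ?_, ?_, ?_, ?_⟩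
  · let _ : Algebra k L := ((algebraMap K₀ L).comp (algebraMap k K₀)).toAlgebra
    exact IsScalarTower.of_algebraMap_eq (fun _ => rfl)
  · have := (transcendental_algebraMap_iff (R := K₀) (S := L) (A := Ω) (a := ⟨a, haL⟩)
      (algebraMap L Ω).injective).1 ha
    exact this
  · exact fun h => hw0 (congrArg Subtype.val h)
  · apply Subtype.ext
    show w ^ N * (1 + a ^ 2) = algebraMap K₀ Ω F
    rw [hw, div_mul_cancel₀ _ h1a]
  · apply IntermediateField.lift_injective L
    rw [IntermediateField.lift_adjoin, IntermediateField.lift_top, Set.image_pair]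

end

end Pool.Agent.TUQ
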